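import Pool.Agent.N533.NS.Stm2

/-!
Project NS (helper533), task ASM (helper756): the cycle is put together.
-/

set_option autoImplicit false

open Finset

namespace Pool.Agent.N533.NS

namespace Asm

section addr

open Classical in
/-- the addresses of the vertices of a node -/
noncomputable def E (m Λ : ℕ) (Good : ℕ → ℕ → Prop) (Lf : ℕ → Prop) : ℕ → ℕ → List (ℕ × ℕ)
  | 0, p => if Lf p then (List.range (Λ + 1)).map (fun c => (p, c)) else [(p, 0)]
  | k + 1, p => if Good k p then
      (List.range m).flatMap (fun b => E m Λ Good Lf k (p + b * m ^ k)) else [(p, 0)]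

variable {m Λ : ℕ} {Good : ℕ → ℕ → Prop} {Lf : ℕ → Prop}

theorem dvd_aux {k p b : ℕ} (h : m ^ (k + 1) ∣ p) : m ^ k ∣ p + b * m ^ k :=
  dvd_add ((pow_dvd_pow m (Nat.le_succ k)).trans h) (dvd_mul_left _ _)

theorem lt_aux {k b : ℕ} (hb : b < m) : b * m ^ k + m ^ k ≤ m ^ (k + 1) := by
  have : (b + 1) * m ^ k ≤ m * m ^ k := Nat.mul_le_mul_right _ hb
  rw [pow_succ, mul_comm (m ^ k) m]
  linarith [this, add_mul b 1 (m ^ k), one_mul (m ^ k)]

/-- the addresses of a node -/
theorem E_mem (hm : 2 ≤ m) : ∀ (k p : ℕ), m ^ k ∣ p → ∀ a ∈ E m Λ Good Lf k p,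
    p ≤ a.1 ∧ a.1 < p + m ^ k ∧ (a = (p, 0) ∨
      (a.2 = 0 ∧ p < a.1 ∧ ∃ j < k, m ^ j ∣ a.1 ∧ ¬ m ^ (j + 1) ∣ a.1 ∧
        Good j (m ^ (j + 1) * (a.1 / m ^ (j + 1)))) ∨ (1 ≤ a.2 ∧ a.2 ≤ Λ ∧ Lf a.1)) := by
  intro k
  induction k with
  | zero =>
    intro p _ a ha
    unfold E at ha
    split_ifs at ha with hL
    · rw [List.mem_map] at ha
      obtain ⟨c, hc, rfl⟩ := ha
      rw [List.mem_range] at hc
      refine ⟨le_rfl, by simp, ?_⟩
      by_cases hc0 : c = 0
      · left; rw [hc0]
      · right; right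
        exact ⟨Nat.one_le_iff_ne_zero.2 hc0, by simpa using Nat.lt_succ_iff.1 hc, hL⟩
    · rw [List.mem_singleton] at ha
      subst ha
      exact ⟨le_rfl, by simp, Or.inl rfl⟩
  | succ k ih =>
    intro p hp a ha
    have hpos : 0 < m ^ k := pow_pos (by omega) k
    unfold E at ha
    split_ifs at ha with hG
    · rw [List.mem_flatMap] at ha
      obtain ⟨b, hb, ha⟩ := ha
      rw [List.mem_range] at hb
      obtain ⟨h1, h2, h3⟩ := ih _ (dvd_aux hp) a ha
      have hlt := lt_aux (m := m) (k := k) hb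
      refine ⟨by omega, by omega, ?_⟩
      rcases h3 with h3 | h3 | h3
      · by_cases hb0 : b = 0
        · left
          rw [h3, hb0, zero_mul, add_zero]
        · right; left
          have hb1 : 1 * m ^ k ≤ b * m ^ k := Nat.mul_le_mul_right _ (Nat.one_le_iff_ne_zero.2 hb0)
          rw [one_mul] at hb1
          refine ⟨by rw [h3], by rw [h3]; simp only; omega, k, Nat.lt_succ_self k, ?_, ?_, ?_⟩
          · rw [h3]; exact dvd_aux hp
          · rw [h3]
            simp only
            intro hd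
            have h4 : m ^ (k + 1) ∣ b * m ^ k := (Nat.dvd_add_right hp).1 hd
            have h5 := Nat.le_of_dvd (by omega) h4
            have h6 : m ^ (k + 1) = m * m ^ k := by rw [pow_succ, mul_comm]
            rw [h6] at h5
            have h7 : m ≤ b := Nat.le_of_mul_le_mul_right h5 hpos
            omega
          · rw [h3]
            simp only
            obtain ⟨q, rfl⟩ := hp
            have hq : (m ^ (k + 1) * q + b * m ^ k) / m ^ (k + 1) = q := by
              rw [Nat.mul_add_div (pow_pos (by omega) _), Nat.div_eq_of_lt (by omega), add_zero]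
            rw [hq]
            exact hG
      · obtain ⟨h4, h5, j, hj, h6⟩ := h3
        right; left
        exact ⟨h4, by omega, j, by omega, h6⟩
      · right; right
        exact h3
    · rw [List.mem_singleton] at ha
      subst ha
      exact ⟨le_rfl, by simpa using pow_pos (by omega) _, Or.inl rfl⟩

theorem E_nodup (hm : 2 ≤ m) : ∀ (k p : ℕ), m ^ k ∣ p → (E m Λ Good Lf k p).Nodup := by
  intro k
  induction k with
  | zero =>
    intro p _
    unfold E
    split_ifs
    · refine List.nodup_range.map ?_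
      intro c c' h
      simpa using h
    · exact List.nodup_singleton _
  | succ k ih =>
    intro p hp
    unfold E
    split_ifs
    · rw [List.nodup_flatMap]
      refine ⟨fun b _ => ih _ (dvd_aux hp), ?_⟩
      refine List.pairwise_lt_range.imp ?_
      intro b b' hbb
      show List.Disjoint _ _
      intro a ha ha'
      obtain ⟨-, h2, -⟩ := E_mem hm k _ (dvd_aux hp) a ha
      obtain ⟨h1, -, -⟩ := E_mem hm k _ (dvd_aux hp) a ha'
      have h3 : (b + 1) * m ^ k ≤ b' * m ^ k := Nat.mul_le_mul_right _ hbb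
      rw [add_mul, one_mul] at h3
      omega
    · exact List.nodup_singleton _

/-- all fill vertices of good nodes occur -/
theorem E_fill (hm : 2 ≤ m) (hLf : ∀ l, Lf l → ∀ k, Good k (m ^ (k + 1) * (l / m ^ (k + 1)))) :
    ∀ (k p : ℕ), m ^ k ∣ p → ∀ l, Lf l → p ≤ l → l < p + m ^ k → ∀ c ≤ Λ,
      (l, c) ∈ E m Λ Good Lf k p := by
  intro k
  induction k with
  | zero =>
    intro p _ l hl h1 h2 c hc
    have : l = p := by rw [pow_zero] at h2; omega
    subst this
    unfold E
    rw [if_pos hl, List.mem_map]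
    exact ⟨c, List.mem_range.2 (by omega), rfl⟩
  | succ k ih =>
    intro p hp l hl h1 h2 c hc
    have hpos : 0 < m ^ k := pow_pos (by omega) k
    have hG : Good k p := by
      have := hLf l hl k
      obtain ⟨q, rfl⟩ := hp
      have hq : l / m ^ (k + 1) = q := by
        obtain ⟨r, hr⟩ := Nat.exists_eq_add_of_le h1
        rw [hr, Nat.mul_add_div (pow_pos (by omega) _), Nat.div_eq_of_lt (by omega), add_zero]
      rwa [hq] at this
    unfold E
    rw [if_pos hG, List.mem_flatMap]
    refine ⟨(l - p) / m ^ k, ?_, ?_⟩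
    · rw [List.mem_range, Nat.div_lt_iff_lt_mul hpos]
      rw [pow_succ, mul_comm] at h2
      omega
    · have h3 := Nat.div_mul_le_self (l - p) (m ^ k)
      have h4 := Nat.lt_div_mul_add (a := l - p) hpos
      exact ih _ (dvd_aux hp) l hl (by omega) (by omega) c hc

end addr

section seg

variable {α : Type} {R : α → α → Prop}

/-- a chain from `a` to `b`, without `b` -/
def Seg (R : α → α → Prop) (L : List α) (a b : α) : Prop :=
  (∃ t, L = a :: t) ∧ (L ++ [b]).IsChain R

theorem Seg.append {L L' : List α} {a b c : α} (h : Seg R L a b) (h' : Seg R L' b c) :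
    Seg R (L ++ L') a c := by
  obtain ⟨⟨t, rfl⟩, h2⟩ := h
  obtain ⟨⟨t', rfl⟩, h2'⟩ := h'
  refine ⟨⟨t ++ b :: t', rfl⟩, ?_⟩
  have h3 : ((a :: t) ++ (b :: t')) ++ [c] = (a :: t) ++ b :: (t' ++ [c]) := by simp
  rw [h3, List.isChain_split]
  exact ⟨h2, by simpa using h2'⟩

theorem Seg.flatMap {f : ℕ → List α} {v : ℕ → α} {n : ℕ} (h : ∀ b < n, Seg R (f b) (v b) (v (b + 1)))
    (hn : 1 ≤ n) : Seg R ((List.range n).flatMap f) (v 0) (v n) := by
  induction n with
  | zero => omega
  | succ n ih =>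
    rw [List.range_succ, List.flatMap_append, List.flatMap_singleton]
    by_cases h0 : n = 0
    · subst h0
      simpa using h 0 (by omega)
    · exact (ih (fun b hb => h b (by omega)) (by omega)).append (h n (by omega))

end seg

section chain

variable {α : Type} {R : α → α → Prop} {m Λ J : ℕ} {Good : ℕ → ℕ → Prop} {Lf : ℕ → Prop}

theorem E_seg (hm : 2 ≤ m) (vp : ℕ → α) (fl : ℕ → ℕ → α)
    (hstep : ∀ k ≤ J, ∀ p, m ^ k ∣ p → p < m ^ J → R (vp p) (vp (p + m ^ k)))
    (hfl : ∀ l, Lf l → fl l 0 = vp l ∧ fl l (Λ + 1) = vp (l + 1) ∧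
      ∀ c ≤ Λ, R (fl l c) (fl l (c + 1))) :
    ∀ k ≤ J, ∀ p, m ^ k ∣ p → p + m ^ k ≤ m ^ J →
      Seg R ((E m Λ Good Lf k p).map fun a => if a.2 = 0 then vp a.1 else fl a.1 a.2)
        (vp p) (vp (p + m ^ k)) := by
  intro k
  induction k with
  | zero =>
    intro hk p hp hpJ
    unfold E
    split_ifs with hL
    · obtain ⟨h1, h2, h3⟩ := hfl p hL
      have e : ((List.range (Λ + 1)).map (fun c => (p, c))).map
          (fun a : ℕ × ℕ => if a.2 = 0 then vp a.1 else fl a.1 a.2) =
          (List.range (Λ + 1)).map (fl p) := by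
        rw [List.map_map]
        refine List.map_congr_left fun c _ => ?_
        simp only [Function.comp_apply]
        split_ifs with hc
        · rw [hc, h1]
        · rfl
      rw [e]
      refine ⟨⟨((List.range Λ).map Nat.succ).map (fl p), ?_⟩, ?_⟩
      · rw [List.range_succ_eq_map, List.map_cons, h1]
      · rw [pow_zero, ← h2]
        have e2 : (List.range (Λ + 1)).map (fl p) ++ [fl p (Λ + 1)] =
            (List.range (Λ + 1).succ).map (fl p) := by
          rw [List.range_succ (n := Λ + 1), List.map_append, List.map_singleton]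
        rw [e2, List.isChain_map, List.isChain_range_succ]
        intro c hc
        exact h3 c (by omega)
    · refine ⟨⟨[], by simp⟩, ?_⟩
      have := hstep 0 hk p hp (by have : 0 < m ^ 0 := by simp
                                  omega)
      simpa using this
  | succ k ih =>
    intro hk p hp hpJ
    have hpos : 0 < m ^ (k + 1) := pow_pos (by omega) _
    unfold E
    split_ifs with hG
    · rw [List.map_flatMap]
      have h1 := Seg.flatMap (R := R) (n := m)
        (f := fun b => (E m Λ Good Lf k (p + b * m ^ k)).map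
          fun a => if a.2 = 0 then vp a.1 else fl a.1 a.2)
        (v := fun b => vp (p + b * m ^ k)) (by
          intro b hb
          have h2 := lt_aux (m := m) (k := k) hb
          have h3 := ih (by omega) (p + b * m ^ k) (dvd_aux hp) (by omega)
          have h4 : p + (b + 1) * m ^ k = p + b * m ^ k + m ^ k := by ring
          simp only [h4]
          exact h3) (by omega)
      simp only [zero_mul, add_zero] at h1
      have h5 : p + m * m ^ k = p + m ^ (k + 1) := by rw [pow_succ, mul_comm (m ^ k)]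
      rw [h5] at h1
      exact h1
    · refine ⟨⟨[], by simp⟩, ?_⟩
      have := hstep (k + 1) hk p hp (by omega)
      simpa using this

end chain

end Asm

open Asm in
/-- **Task ASM.** -/
theorem asmStm : AsmStm := by
  classical
  intro G _ _ S H0 σ n m J Λ x hp vp fl Good Lf hn hm hx hxσ hsk hpnd hpx hpd hH0 hvp hstep hgood
    hLf hfl hflH hflinj
  -- the address lists
  let Lp : ℕ → ℕ → Prop := fun i p => (i, p) ∈ Lf
  -- good at all levels: outside of the range we put `True`
  let Gd : ℕ → ℕ → ℕ → Prop := fun i k p => if k < J then Good i k p else True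
  let A : ℕ → List (ℕ × ℕ) := fun i => E m Λ (Gd i) (Lp i) J 0
  let W : ℕ → ℕ × ℕ → G := fun i a => if a.2 = 0 then vp i a.1 else fl i a.1 a.2
  let R : G → G → Prop := fun a b => a⁻¹ * b ∈ S
  have hMpos : 0 < m ^ J := pow_pos (by omega) J
  -- description of the addresses
  have hA : ∀ i, ∀ a ∈ A i, a = (0, 0) ∨
      (a.2 = 0 ∧ a.1 ∈ Ico 1 (m ^ J) ∧ ∃ j < J, m ^ j ∣ a.1 ∧ ¬ m ^ (j + 1) ∣ a.1 ∧
        Good i j (m ^ (j + 1) * (a.1 / m ^ (j + 1)))) ∨ (a.2 ∈ Icc 1 Λ ∧ (i, a.1) ∈ Lf) := by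
    intro i a ha
    obtain ⟨h1, h2, h3⟩ := E_mem hm J 0 (dvd_zero _) a ha
    rw [zero_add] at h2
    rcases h3 with h3 | ⟨h3, h4, j, hj, h5, h6, h7⟩ | ⟨h3, h4, h5⟩
    · exact Or.inl h3
    · right; left
      refine ⟨h3, Finset.mem_Ico.2 ⟨h4, h2⟩, j, hj, h5, h6, ?_⟩
      simpa only [Gd, if_pos hj] using h7
    · right; right
      exact ⟨Finset.mem_Icc.2 ⟨h3, h4⟩, h5⟩
  -- a new vertex as a vertex of its node
  have hnew : ∀ i < n, ∀ p ∈ Ico 1 (m ^ J), ∀ j < J, m ^ j ∣ p → ¬ m ^ (j + 1) ∣ p →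
      Good i j (m ^ (j + 1) * (p / m ^ (j + 1))) → vp i p ∉ H0 ∧
      ∀ i' < n, ∀ p' ∈ Ico 1 (m ^ J), m ^ j ∣ p' → vp i' p' = vp i p → i' = i ∧ p' = p := by
    intro i hi p hp j hj hd hnd hG
    have hpos : 0 < m ^ j := pow_pos (by omega) j
    have hpos' : 0 < m ^ (j + 1) := pow_pos (by omega) _
    obtain ⟨q, hq⟩ := hd
    have hmod : p / m ^ (j + 1) = q / m := by
      rw [hq, pow_succ, Nat.mul_div_mul_left _ _ hpos]
    have hpe : m ^ (j + 1) * (p / m ^ (j + 1)) + q % m * m ^ j = p := by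
      rw [hmod, hq]
      have := Nat.div_add_mod q m
      calc m ^ (j + 1) * (q / m) + q % m * m ^ j = m ^ j * (m * (q / m) + q % m) := by ring
        _ = m ^ j * q := by rw [this]
    have hb1 : 1 ≤ q % m := by
      by_contra hc
      have h0 : q % m = 0 := by omega
      apply hnd
      rw [hq, pow_succ]
      exact mul_dvd_mul_left _ (Nat.dvd_of_mod_eq_zero h0)
    have hb2 : q % m < m := Nat.mod_lt _ (by omega)
    have h := hgood i hi j hj _ hG (q % m) hb1 hb2
    rw [hpe] at h
    exact h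
  -- injectivity of the vertex map
  have hinj : ∀ i < n, ∀ a ∈ A i, ∀ i' < n, ∀ a' ∈ A i', W i a = W i' a' → i = i' ∧ a = a' := by
    have hvp0 : ∀ i < n, W i (0, 0) = x i := fun i hi => by simp only [W, if_true, (hvp i hi).1]
    have hWB : ∀ i (a : ℕ × ℕ), a.2 = 0 → W i a = vp i a.1 := fun i a h => by simp only [W, if_pos h]
    have hWC : ∀ i (a : ℕ × ℕ), a.2 ∈ Icc 1 Λ → W i a = fl i a.1 a.2 := fun i a h => by
      have := (Finset.mem_Icc.1 h).1
      simp only [W, if_neg (by omega : ¬ a.2 = 0)]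
    intro i hi a ha i' hi' a' ha' he
    rcases hA i a ha with h | ⟨h2, h1, j, hj, hd, hnd, hG⟩ | ⟨hc, hL⟩
    · subst h
      rcases hA i' a' ha' with h' | ⟨h2', h1', j', hj', hd', hnd', hG'⟩ | ⟨hc', hL'⟩
      · subst h'
        rw [hvp0 i hi, hvp0 i' hi'] at he
        exact ⟨hx i hi i' hi' he, rfl⟩
      · exfalso
        rw [hvp0 i hi, hWB i' a' h2'] at he
        exact (hnew i' hi' a'.1 h1' j' hj' hd' hnd' hG').1 (he ▸ (hH0 i hi).1)
      · exfalso
        rw [hvp0 i hi, hWC i' a' hc'] at he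
        exact (hflH (i', a'.1) hL' a'.2 hc').1 (he ▸ (hH0 i hi).1)
    · rcases hA i' a' ha' with h' | ⟨h2', h1', j', hj', hd', hnd', hG'⟩ | ⟨hc', hL'⟩
      · exfalso
        subst h'
        rw [hvp0 i' hi', hWB i a h2] at he
        exact (hnew i hi a.1 h1 j hj hd hnd hG).1 (he.symm ▸ (hH0 i' hi').1)
      · rw [hWB i a h2, hWB i' a' h2'] at he
        rcases le_total j j' with hjj | hjj
        · obtain ⟨e1, e2⟩ := (hnew i hi a.1 h1 j hj hd hnd hG).2 i' hi' a'.1 h1'
            ((pow_dvd_pow m hjj).trans hd') he.symm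
          exact ⟨e1.symm, Prod.ext e2.symm (by rw [h2, h2'])⟩
        · obtain ⟨e1, e2⟩ := (hnew i' hi' a'.1 h1' j' hj' hd' hnd' hG').2 i hi a.1 h1
            ((pow_dvd_pow m hjj).trans hd) he
          exact ⟨e1, Prod.ext e2 (by rw [h2, h2'])⟩
      · exfalso
        rw [hWB i a h2, hWC i' a' hc'] at he
        exact (hflH (i', a'.1) hL' a'.2 hc').2 i hi a.1 h1 he.symm
    · rcases hA i' a' ha' with h' | ⟨h2', h1', j', hj', hd', hnd', hG'⟩ | ⟨hc', hL'⟩
      · exfalso
        subst h'
        rw [hvp0 i' hi', hWC i a hc] at he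
        exact (hflH (i, a.1) hL a.2 hc).1 (he.symm ▸ (hH0 i' hi').1)
      · exfalso
        rw [hWB i' a' h2', hWC i a hc] at he
        exact (hflH (i, a.1) hL a.2 hc).2 i' hi' a'.1 h1' he
      · rw [hWC i a hc, hWC i' a' hc'] at he
        obtain ⟨e1, e2⟩ := hflinj (i, a.1) hL (i', a'.1) hL' a.2 hc a'.2 hc' he
        rw [Prod.mk.injEq] at e1
        exact ⟨e1.1, Prod.ext e1.2 e2⟩
  -- path vertices against the other vertices of the skeleton
  have hsep : ∀ i < n, ∀ a ∈ A i, ∀ i' < n, W i a ≠ x i' * σ ∧ ∀ z ∈ hp i', W i a ≠ z := by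
    intro i hi a ha i' hi'
    rcases hA i a ha with h | ⟨h2, h1, j, hj, hd, hnd, hG⟩ | ⟨hc, hL⟩
    · subst h
      have h0 : W i (0, 0) = x i := by simp only [W, if_true, (hvp i hi).1]
      rw [h0]
      exact ⟨hxσ i hi i' hi', fun z hz => Ne.symm (hpx i' hi' z hz i hi).1⟩
    · have h0 : W i a = vp i a.1 := by simp only [W, if_pos h2]
      rw [h0]
      have h3 := (hnew i hi a.1 h1 j hj hd hnd hG).1
      exact ⟨fun h => h3 (h ▸ (hH0 i' hi').2.1), fun z hz h => h3 (h ▸ (hH0 i' hi').2.2 z hz)⟩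
    · have h0 : W i a = fl i a.1 a.2 := by
        have := (Finset.mem_Icc.1 hc).1
        simp only [W, if_neg (by omega : ¬ a.2 = 0)]
      rw [h0]
      have h3 := (hflH (i, a.1) hL a.2 hc).1
      exact ⟨fun h => h3 (h ▸ (hH0 i' hi').2.1), fun z hz h => h3 (h ▸ (hH0 i' hi').2.2 z hz)⟩
  -- the blocks
  let B : ℕ → List G := fun i => (A i).map (W i) ++ (x i * σ :: hp i)
  have hBmem : ∀ i, ∀ z ∈ B i, (∃ a ∈ A i, W i a = z) ∨ z = x i * σ ∨ z ∈ hp i := by
    intro i z hz
    simp only [B, List.mem_append, List.mem_map, List.mem_cons] at hz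
    rcases hz with ⟨a, ha, rfl⟩ | h | h
    · exact Or.inl ⟨a, ha, rfl⟩
    · exact Or.inr (Or.inl h)
    · exact Or.inr (Or.inr h)
  have hBnd : ∀ i < n, (B i).Nodup := by
    intro i hi
    refine List.nodup_append'.2 ⟨?_, ?_, ?_⟩
    · refine (E_nodup hm J 0 (dvd_zero _)).map_on ?_
      intro a ha a' ha' he
      exact (hinj i hi a ha i hi a' ha' he).2
    · rw [List.nodup_cons]
      exact ⟨fun h => (hpx i hi _ h i hi).2 rfl, hpnd i hi⟩
    · intro z hz hz'
      rw [List.mem_map] at hz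
      obtain ⟨a, ha, rfl⟩ := hz
      rw [List.mem_cons] at hz'
      rcases hz' with h | h
      · exact (hsep i hi a ha i hi).1 h
      · exact (hsep i hi a ha i hi).2 _ h rfl
  have hBdis : ∀ i < n, ∀ i' < n, i ≠ i' → List.Disjoint (B i) (B i') := by
    intro i hi i' hi' hne z hz hz'
    rcases hBmem i z hz with ⟨a, ha, rfl⟩ | h | h
    · rcases hBmem i' _ hz' with ⟨a', ha', h'⟩ | h' | h'
      · exact hne (hinj i hi a ha i' hi' a' ha' h'.symm).1
      · exact (hsep i hi a ha i' hi').1 h'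
      · exact (hsep i hi a ha i' hi').2 _ h' rfl
    · subst h
      rcases hBmem i' _ hz' with ⟨a', ha', h'⟩ | h' | h'
      · exact (hsep i' hi' a' ha' i hi).1 h'
      · exact hne (hx i hi i' hi' (mul_right_cancel h'))
      · exact (hpx i' hi' _ h' i hi).2 rfl
    · rcases hBmem i' _ hz' with ⟨a', ha', h'⟩ | h' | h'
      · exact (hsep i' hi' a' ha' i hi).2 _ h h'
      · exact (hpx i hi _ h i' hi').2 h'
      · exact hpd i hi i' hi' hne h h'
  let T : List G := (List.range n).flatMap B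
  have hTnd : T.Nodup := by
    rw [List.nodup_flatMap]
    refine ⟨fun i hi => hBnd i (List.mem_range.1 hi), ?_⟩
    refine (List.pairwise_lt_range (n := n)).imp_of_mem ?_
    intro i i' hi hi' hlt
    exact hBdis i (List.mem_range.1 hi) i' (List.mem_range.1 hi') (Nat.ne_of_lt hlt)
  have hBseg : ∀ i < n, Seg R (B i) (x i) (x ((i + 1) % n)) := by
    intro i hi
    have h1 : Seg R ((A i).map (W i)) (x i) (x i * σ) := by
      have h2 := E_seg (R := R) (J := J) (Λ := Λ) (Good := Gd i) (Lf := Lp i) hm (vp i) (fl i)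
        (fun k hk p hpd hpJ => hstep i hi k hk p hpd hpJ)
        (fun l hl => hfl (i, l) hl) J le_rfl 0 (dvd_zero _) (by simp)
      rw [zero_add, (hvp i hi).1, (hvp i hi).2] at h2
      exact h2
    exact h1.append ⟨⟨hp i, rfl⟩, hsk i hi⟩
  have hTseg : Seg R T (x 0) (x 0) := by
    have h1 := Seg.flatMap (R := R) (n := n) (f := B) (v := fun i => x (i % n)) (by
      intro i hi
      simp only [Nat.mod_eq_of_lt hi]
      exact hBseg i hi) hn
    simp only [Nat.zero_mod, Nat.mod_self] at h1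
    exact h1
  obtain ⟨⟨t, hTt⟩, hTc⟩ := hTseg
  have hTne : T ≠ [] := by rw [hTt]; simp
  refine ⟨T, hTnd, ?_, ⟨x 0, T.getLast hTne, ?_, ?_, ?_⟩, ?_⟩
  · exact (List.isChain_append.1 hTc).1
  · rw [hTt]; rfl
  · exact List.getLast?_eq_some_getLast hTne
  · exact (List.isChain_append.1 hTc).2.2 _ (List.getLast?_eq_some_getLast hTne) _ (by simp)
  · -- the length
    let F : Finset G := (Lf ×ˢ Icc 1 Λ).image fun u => fl u.1.1 u.1.2 u.2
    have hF : F.card = Λ * Lf.card := by
      rw [Finset.card_image_of_injOn, Finset.card_product, Nat.card_Icc, Nat.add_sub_cancel, mul_comm]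
      rintro ⟨l, c⟩ hl ⟨l', c'⟩ hl' he
      rw [Finset.mem_coe, Finset.mem_product] at hl hl'
      obtain ⟨e1, e2⟩ := hflinj l hl.1 l' hl'.1 c hl.2 c' hl'.2 he
      exact Prod.ext e1 e2
    have hsub : F ⊆ T.toFinset := by
      intro z hz
      rw [Finset.mem_image] at hz
      obtain ⟨⟨⟨i, p⟩, c⟩, hu, rfl⟩ := hz
      rw [Finset.mem_product] at hu
      obtain ⟨hu1, hu2⟩ := hu
      obtain ⟨hi, hpJ, hG⟩ := hLf (i, p) hu1
      rw [List.mem_toFinset, List.mem_flatMap]
      refine ⟨i, List.mem_range.2 hi, ?_⟩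
      simp only [B, List.mem_append, List.mem_map]
      left
      refine ⟨(p, c), ?_, ?_⟩
      · have hc := (Finset.mem_Icc.1 hu2).2
        -- only the edges of `Lf` at `i`
        refine E_fill (Good := Gd i) (Lf := Lp i) hm ?_ J 0 (dvd_zero _) p hu1 (Nat.zero_le _)
          (by rw [zero_add]; exact hpJ) c hc
        intro l hl k
        simp only [Gd]
        split_ifs with hk
        · exact (hLf (i, l) hl).2.2 k hk
      · have := (Finset.mem_Icc.1 hu2).1
        simp only [W, if_neg (by omega : ¬ c = 0)]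
    calc Λ * Lf.card = F.card := hF.symm
      _ ≤ T.toFinset.card := Finset.card_le_card hsub
      _ ≤ T.length := List.toFinset_card_le T

end Pool.Agent.N533.NS
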