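import Pool.Agent.N533.NS.Stm

/-!
# Averages
-/

set_option autoImplicit false

open Finset

namespace Pool.Agent.N533.NS

section
variable {α β : Type} [Fintype α] [Fintype β]

lemma av_add (f g : α → ℝ) : av (fun a => f a + g a) = av f + av g := by
  unfold av; rw [sum_add_distrib, add_div]

lemma av_sub (f g : α → ℝ) : av (fun a => f a - g a) = av f - av g := by
  unfold av; rw [sum_sub_distrib, sub_div]

lemma av_mul_left (c : ℝ) (f : α → ℝ) : av (fun a => c * f a) = c * av f := by
  unfold av; rw [← mul_sum, mul_div_assoc]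

lemma av_mul_right (c : ℝ) (f : α → ℝ) : av (fun a => f a * c) = av f * c := by
  unfold av; rw [← sum_mul, div_mul_eq_mul_div]

lemma av_sum {ι : Type*} (s : Finset ι) (f : ι → α → ℝ) :
    av (fun a => ∑ i ∈ s, f i a) = ∑ i ∈ s, av (f i) := by
  unfold av; rw [sum_comm, sum_div]

lemma av_mono {f g : α → ℝ} (h : ∀ a, f a ≤ g a) : av f ≤ av g := by
  unfold av
  exact div_le_div_of_nonneg_right (sum_le_sum fun a _ => h a) (Nat.cast_nonneg _)

lemma av_nonneg {f : α → ℝ} (h : ∀ a, 0 ≤ f a) : 0 ≤ av f := by
  unfold av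
  exact div_nonneg (sum_nonneg fun a _ => h a) (Nat.cast_nonneg _)

lemma av_const [Nonempty α] (c : ℝ) : av (fun _ : α => c) = c := by
  unfold av
  rw [sum_const, card_univ, nsmul_eq_mul]
  have : (Fintype.card α : ℝ) ≠ 0 := by exact_mod_cast Fintype.card_ne_zero
  field_simp

lemma av_le [Nonempty α] {f : α → ℝ} {c : ℝ} (h : ∀ a, f a ≤ c) : av f ≤ c :=
  (av_mono h).trans (av_const c).le

lemma le_av [Nonempty α] {f : α → ℝ} {c : ℝ} (h : ∀ a, c ≤ f a) : c ≤ av f :=
  (av_const (α := α) c).ge.trans (av_mono h)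

lemma exists_le_av [Nonempty α] (f : α → ℝ) : ∃ a, f a ≤ av f := by
  by_contra hcon
  push Not at hcon
  have h1 : ∑ a : α, av f < ∑ a, f a := sum_lt_sum_of_nonempty univ_nonempty fun a _ => hcon a
  rw [sum_const, card_univ, nsmul_eq_mul] at h1
  unfold av at h1
  have : (Fintype.card α : ℝ) ≠ 0 := by exact_mod_cast Fintype.card_ne_zero
  rw [mul_div_cancel₀ _ this] at h1
  exact lt_irrefl _ h1

lemma av_comm (f : α → β → ℝ) : av (fun a => av (fun b => f a b)) = av (fun b => av (fun a => f a b)) := by
  unfold av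
  rw [← sum_div, ← sum_div, sum_comm, div_div, div_div, mul_comm]

lemma av_prod (f : α × β → ℝ) : av f = av (fun a => av (fun b => f (a, b))) := by
  unfold av
  rw [← sum_div, Fintype.sum_prod_type, Fintype.card_prod, div_div, Nat.cast_mul, mul_comm]

lemma av_mul_av (f : α → ℝ) (g : β → ℝ) : av (fun a => av (fun b => f a * g b)) = av f * av g := by
  simp only [av_mul_left, av_mul_right]

end

section
variable {I U : Type} [Fintype I] [DecidableEq I] [Fintype U]

lemma sum_update (k : I) (f : (I → U) → ℝ) :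
    ∑ ω : I → U, ∑ u : U, f (Function.update ω k u) = Fintype.card U * ∑ ω, f ω := by
  classical
  have hinv : Function.Involutive
      (fun x : (I → U) × U => (Function.update x.1 k x.2, x.1 k)) := by
    rintro ⟨ω, u⟩
    simp
  have h1 := Equiv.sum_comp hinv.toPerm (fun x : (I → U) × U => f x.1)
  simp only [Function.Involutive.coe_toPerm] at h1
  rw [Fintype.sum_prod_type, Fintype.sum_prod_type] at h1
  simp only at h1
  rw [h1]
  simp only [sum_const, card_univ, nsmul_eq_mul]
  rw [← mul_sum]

/-- resampling one coordinate -/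
lemma av_update [Nonempty U] (k : I) (f : (I → U) → ℝ) :
    av f = av (fun ω => av (fun u => f (Function.update ω k u))) := by
  unfold av
  rw [← sum_div, sum_update]
  have : (Fintype.card U : ℝ) ≠ 0 := by exact_mod_cast Fintype.card_ne_zero
  field_simp

/-- independence -/
lemma av_prod_eq [Nonempty U] (s : Finset I) (g : I → U → ℝ) :
    av (fun ω : I → U => ∏ i ∈ s, g i (ω i)) = ∏ i ∈ s, av (g i) := by
  classical
  have h1 : ∀ ω : I → U, ∏ i ∈ s, g i (ω i) = ∏ i, (if i ∈ s then g i (ω i) else 1) := by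
    intro ω
    rw [prod_ite_mem, univ_inter]
  have h2 : ∑ ω : I → U, ∏ i, (if i ∈ s then g i (ω i) else 1) =
      ∏ i, ∑ u : U, (if i ∈ s then g i u else 1) := by
    rw [prod_univ_sum]
    apply sum_congr
    · simp
    · intro _ _; rfl
  unfold av
  simp only [h1]
  rw [h2, Fintype.card_fun]
  push_cast
  rw [← Finset.card_univ (α := I), ← prod_const, ← prod_div_distrib]
  rw [← prod_subset (subset_univ s)]
  · apply prod_congr rfl
    intro i hi
    simp [hi]
  · intro i _ hi
    simp only [hi, if_false, sum_const, card_univ, nsmul_eq_mul, mul_one]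
    have : (Fintype.card U : ℝ) ≠ 0 := by exact_mod_cast Fintype.card_ne_zero
    exact div_self this

end

section
variable {α β : Type} [Fintype α] [Fintype β]

lemma pr_nonneg (p : α → Prop) : 0 ≤ pr p := by
  classical
  unfold pr
  exact av_nonneg fun a => by split_ifs <;> norm_num

lemma pr_le_one [Nonempty α] (p : α → Prop) : pr p ≤ 1 := by
  classical
  unfold pr
  exact av_le fun a => by split_ifs <;> norm_num

lemma pr_mono {p q : α → Prop} (h : ∀ a, p a → q a) : pr p ≤ pr q := by
  classical
  unfold pr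
  refine av_mono fun a => ?_
  by_cases hp : p a
  · simp [hp, h a hp]
  · simp only [hp, if_false]
    split_ifs <;> norm_num

lemma pr_or (p q : α → Prop) : pr (fun a => p a ∨ q a) ≤ pr p + pr q := by
  classical
  unfold pr
  rw [← av_add]
  refine av_mono fun a => ?_
  by_cases hp : p a <;> by_cases hq : q a <;> simp [hp, hq]

lemma pr_exists {ι : Type*} (s : Finset ι) (p : ι → α → Prop) :
    pr (fun a => ∃ i ∈ s, p i a) ≤ ∑ i ∈ s, pr (p i) := by
  classical
  unfold pr
  rw [← av_sum]
  refine av_mono fun a => ?_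
  split_ifs with h
  · obtain ⟨i, hi, hp⟩ := h
    refine le_trans ?_ (single_le_sum (f := fun i => if p i a then (1 : ℝ) else 0) ?_ hi)
    · simp [hp]
    · intro j _
      split_ifs <;> norm_num
  · exact sum_nonneg fun j _ => by split_ifs <;> norm_num

lemma pr_prod_le [Nonempty α] {p : α × β → Prop} {κ : ℝ}
    (h : ∀ a, pr (fun b => p (a, b)) ≤ κ) : pr p ≤ κ := by
  unfold pr
  rw [av_prod]
  exact av_le h

lemma pr_fst [Nonempty β] (p : α → Prop) : pr (fun x : α × β => p x.1) = pr p := by
  classical
  unfold pr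
  rw [av_prod]
  congr 1
  funext a
  exact av_const (α := β) (if p a then (1 : ℝ) else 0)

lemma pr_update_le {I U : Type} [Fintype I] [DecidableEq I] [Fintype U] [Nonempty U] (k : I)
    {p : (I → U) → Prop} {κ : ℝ} (h : ∀ ω, pr (fun u => p (Function.update ω k u)) ≤ κ) :
    pr p ≤ κ := by
  unfold pr
  rw [av_update k]
  exact av_le h

lemma pr_false : pr (fun _ : α => False) = 0 := by
  unfold pr
  simp [av]

lemma pr_congr {p q : α → Prop} (h : ∀ a, p a ↔ q a) : pr p = pr q := by
  have : p = q := funext fun a => propext (h a)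
  rw [this]

end

end Pool.Agent.N533.NS
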