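import Pool.Agent.N533.NS.Av

/-!
# The random configuration: definitions and avoidance probabilities
-/

set_option autoImplicit false
set_option linter.unusedSectionVars false

open Finset

namespace Pool.Agent.N533.NS

open Classical in
/-- indicator -/
noncomputable def ind (p : Prop) : ℝ := if p then 1 else 0

lemma ind_true {p : Prop} (h : p) : ind p = 1 := by unfold ind; simp [h]
lemma ind_false {p : Prop} (h : ¬ p) : ind p = 0 := by unfold ind; simp [h]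
lemma ind_nonneg (p : Prop) : 0 ≤ ind p := by unfold ind; split_ifs <;> norm_num
lemma ind_le_one (p : Prop) : ind p ≤ 1 := by unfold ind; split_ifs <;> norm_num
lemma ind_mono {p q : Prop} (h : p → q) : ind p ≤ ind q := by
  by_cases hp : p
  · rw [ind_true hp, ind_true (h hp)]
  · rw [ind_false hp]; exact ind_nonneg _
lemma ind_and (p q : Prop) : ind (p ∧ q) = ind p * ind q := by
  by_cases hp : p <;> by_cases hq : q <;> simp [ind, hp, hq]
lemma pr_eq {α : Type} [Fintype α] (p : α → Prop) : pr p = av fun a => ind (p a) := rfl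

section
variable {G Ω U : Type} [Group G] [Fintype G] [DecidableEq G] [Fintype Ω] [Fintype U]

/-- the vertices of the random path at `x` -/
def Xs (vt : Ω → ℕ → G) (M : ℕ) (x : G) (a : Ω) : Finset G := (Ico 1 M).image fun p => x * vt a p

/-- the vertices of the random filling path at the edge `p` of the path at `x` -/
def Fs (ft : Ω → ℕ → U → ℕ → G) (Λ : ℕ) (x : G) (p : ℕ) (a : Ω) (u : U) : Finset G :=
  (Icc 1 Λ).image fun c => x * ft a p u c

/-- the set of all vertices of the random paths -/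
def Ss (T : Finset G) (vt : Ω → ℕ → G) (M : ℕ) (ω : G → Ω) : Finset G :=
  T.biUnion fun x => Xs vt M x (ω x)

/-- the filling path is admissible -/
def Iv (T H0 : Finset G) (vt : Ω → ℕ → G) (ft : Ω → ℕ → U → ℕ → G) (M Λ : ℕ) (ω : G → Ω)
    (x : G) (p : ℕ) (u : U) : Prop :=
  (Fs ft Λ x p (ω x) u).card = Λ ∧ Disjoint (Fs ft Λ x p (ω x) u) (Ss T vt M ω) ∧
    Disjoint (Fs ft Λ x p (ω x) u) H0

/-- the expected number of visits of `z` by the path at `x` -/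
noncomputable def f1 (vt : Ω → ℕ → G) (M : ℕ) (x z : G) : ℝ :=
  ∑ p ∈ Ico 1 M, pr fun a => x * vt a p = z

/-- the expected number of visits of `(z, z')` -/
noncomputable def f2 (vt : Ω → ℕ → G) (M : ℕ) (x z z' : G) : ℝ :=
  ∑ p ∈ Ico 1 M, ∑ p' ∈ (Ico 1 M).erase p, pr fun a => x * vt a p = z ∧ x * vt a p' = z'

/-- The hypotheses on the random configuration. -/
structure Hyp (T H0 : Finset G) (vt : Ω → ℕ → G) (ft : Ω → ℕ → U → ℕ → G) (M Λ : ℕ)
    (κ ε : ℝ) : Prop where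
  Λ_pos : 1 ≤ Λ
  M_pos : 1 ≤ M
  κ_nonneg : 0 ≤ κ
  ε_pos : 0 < ε
  ε_le : ε ≤ 1
  κ_small : M ^ 2 * Λ ^ 2 * κ ≤ ε
  hit : ∀ p ∈ Ico 1 M, ∀ z, pr (fun a => vt a p = z) ≤ κ
  fhit : ∀ a, ∀ p < M, ∀ c ∈ Icc 1 Λ, ∀ z, pr (fun u => ft a p u c = z) ≤ κ
  finj : ∀ a, ∀ p < M, ∀ c ∈ Icc 1 Λ, ∀ c' ∈ Icc 1 Λ, c ≠ c' →
    pr (fun u => ft a p u c = ft a p u c') ≤ κ
  size : |(T.card : ℝ) * M * Λ - Fintype.card G| ≤ ε * Fintype.card G
  dens : ∀ z, |∑ x ∈ T, f1 vt M x z - 1 / Λ| ≤ ε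
  pair : ∀ z z', ∑ x ∈ T, f2 vt M x z z' ≤ ε
  g1 : ∀ v, ∑ x ∈ T, ∑ p ∈ range M, av (fun a => av fun u => ind (v ∈ Fs ft Λ x p a u)) ≤ 1 + ε
  g2 : ∀ v v', v ≠ v' → ∑ x ∈ T, ∑ p ∈ range M,
    av (fun a => av fun u => ind (v ∈ Fs ft Λ x p a u ∧ v' ∈ Fs ft Λ x p a u)) ≤ ε
  H0_card : (H0.card : ℝ) ≤ ε * Fintype.card G

variable {T H0 : Finset G} {vt : Ω → ℕ → G} {ft : Ω → ℕ → U → ℕ → G} {M Λ : ℕ} {κ ε : ℝ}

lemma f1_nonneg (x z : G) : 0 ≤ f1 vt M x z := sum_nonneg fun _ _ => pr_nonneg _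
lemma f2_nonneg (x z z' : G) : 0 ≤ f2 vt M x z z' :=
  sum_nonneg fun _ _ => sum_nonneg fun _ _ => pr_nonneg _

lemma Hyp.f1_le (h : Hyp T H0 vt ft M Λ κ ε) (x z : G) : f1 vt M x z ≤ M * κ := by
  unfold f1
  calc _ ≤ ∑ _p ∈ Ico 1 M, κ := by
        refine sum_le_sum fun p hp => ?_
        refine le_trans (pr_mono fun a ha => ?_) (h.hit p hp (x⁻¹ * z))
        rw [← ha]; group
    _ = ((M - 1 : ℕ) : ℝ) * κ := by rw [sum_const, Nat.card_Ico, nsmul_eq_mul]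
    _ ≤ _ := by
      apply mul_le_mul_of_nonneg_right _ h.κ_nonneg
      exact_mod_cast Nat.sub_le _ _

lemma Hyp.Mκ_le (h : Hyp T H0 vt ft M Λ κ ε) : M * κ ≤ ε := by
  refine le_trans ?_ h.κ_small
  have h1 : (1 : ℝ) ≤ M := by exact_mod_cast h.M_pos
  have h2 : (1 : ℝ) ≤ Λ := by exact_mod_cast h.Λ_pos
  have h3 : (M : ℝ) ≤ M ^ 2 * Λ ^ 2 := by nlinarith [mul_self_nonneg ((M : ℝ) * Λ - 1), mul_le_mul h1 h2 zero_le_one (by linarith : (0 : ℝ) ≤ M), one_le_pow₀ (n := 2) h2, sq_nonneg (M : ℝ), mul_nonneg (sq_nonneg (M : ℝ)) (sq_nonneg (Λ : ℝ))]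
  exact mul_le_mul_of_nonneg_right h3 h.κ_nonneg

/-- number of visits -/
noncomputable def Nx (vt : Ω → ℕ → G) (M : ℕ) (D : Finset G) (x : G) (a : Ω) : ℝ :=
  ∑ p ∈ Ico 1 M, ind (x * vt a p ∈ D)

/-- number of pairs of visits -/
noncomputable def Nx2 (vt : Ω → ℕ → G) (M : ℕ) (D : Finset G) (x : G) (a : Ω) : ℝ :=
  ∑ p ∈ Ico 1 M, ∑ p' ∈ (Ico 1 M).erase p, ind (x * vt a p ∈ D) * ind (x * vt a p' ∈ D)

omit [Group G] [Fintype G] [DecidableEq G] in
lemma ind_mem (D : Finset G) (y : G) : ind (y ∈ D) = ∑ z ∈ D, ind (y = z) := by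
  classical
  by_cases h : y ∈ D
  · rw [ind_true h, sum_eq_single_of_mem y h]
    · rw [ind_true rfl]
    · intro b _ hb
      exact ind_false fun h => hb h.symm
  · rw [ind_false h, sum_eq_zero]
    intro z hz
    exact ind_false fun h' => h (h' ▸ hz)

lemma sum4 {α β γ δ : Type*} (A : Finset α) (B : Finset β) (C : Finset γ) (E : γ → Finset δ)
    (F : α → β → γ → δ → ℝ) : ∑ a ∈ A, ∑ b ∈ B, ∑ c ∈ C, ∑ e ∈ E c, F a b c e =
      ∑ c ∈ C, ∑ e ∈ E c, ∑ a ∈ A, ∑ b ∈ B, F a b c e :=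
  calc ∑ a ∈ A, ∑ b ∈ B, ∑ c ∈ C, ∑ e ∈ E c, F a b c e
      = ∑ a ∈ A, ∑ c ∈ C, ∑ b ∈ B, ∑ e ∈ E c, F a b c e :=
        sum_congr rfl fun _ _ => sum_comm
    _ = ∑ c ∈ C, ∑ a ∈ A, ∑ b ∈ B, ∑ e ∈ E c, F a b c e := sum_comm
    _ = ∑ c ∈ C, ∑ a ∈ A, ∑ e ∈ E c, ∑ b ∈ B, F a b c e :=
        sum_congr rfl fun _ _ => sum_congr rfl fun _ _ => sum_comm
    _ = _ := sum_congr rfl fun _ _ => sum_comm

lemma av_Nx (D : Finset G) (x : G) : av (Nx vt M D x) = ∑ z ∈ D, f1 vt M x z := by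
  unfold Nx f1
  rw [sum_comm]
  have : (fun a => ∑ p ∈ Ico 1 M, ind (x * vt a p ∈ D)) =
      fun a => ∑ p ∈ Ico 1 M, ∑ z ∈ D, ind (x * vt a p = z) := by
    funext a
    exact sum_congr rfl fun p _ => ind_mem _ _
  change av (fun a => ∑ p ∈ Ico 1 M, ind (x * vt a p ∈ D)) = _
  rw [this, av_sum]
  refine sum_congr rfl fun p _ => ?_
  rw [av_sum]
  rfl

lemma av_Nx2 (D : Finset G) (x : G) :
    av (Nx2 vt M D x) = ∑ z ∈ D, ∑ z' ∈ D, f2 vt M x z z' := by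
  have h1 : (Nx2 vt M D x) = fun a => ∑ z ∈ D, ∑ z' ∈ D, ∑ p ∈ Ico 1 M, ∑ p' ∈ (Ico 1 M).erase p,
      ind (x * vt a p = z ∧ x * vt a p' = z') := by
    funext a
    unfold Nx2
    simp only [ind_mem D, sum_mul_sum, ind_and]
    rw [sum4]
  rw [h1, av_sum]
  refine sum_congr rfl fun z _ => ?_
  rw [av_sum]
  refine sum_congr rfl fun z' _ => ?_
  rw [av_sum]
  refine sum_congr rfl fun p _ => ?_
  rw [av_sum]
  rfl

lemma Xs_disj_iff (D : Finset G) (x : G) (a : Ω) :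
    Disjoint (Xs vt M x a) D ↔ ∀ p ∈ Ico 1 M, x * vt a p ∉ D := by
  unfold Xs
  rw [disjoint_left]
  constructor
  · intro h p hp
    exact h (mem_image_of_mem _ hp)
  · intro h y hy
    obtain ⟨p, hp, rfl⟩ := mem_image.1 hy
    exact h p hp

lemma disj_lower (D : Finset G) (x : G) (a : Ω) :
    1 - Nx vt M D x a ≤ ind (Disjoint (Xs vt M x a) D) := by
  by_cases h : Disjoint (Xs vt M x a) D
  · rw [ind_true h]
    have : 0 ≤ Nx vt M D x a := sum_nonneg fun _ _ => ind_nonneg _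
    linarith
  · rw [ind_false h]
    rw [Xs_disj_iff] at h
    push Not at h
    obtain ⟨p, hp, hpD⟩ := h
    have : ind (x * vt a p ∈ D) ≤ Nx vt M D x a :=
      single_le_sum (f := fun p => ind (x * vt a p ∈ D)) (fun _ _ => ind_nonneg _) hp
    rw [ind_true hpD] at this
    linarith

lemma disj_upper (D : Finset G) (x : G) (a : Ω) :
    ind (Disjoint (Xs vt M x a) D) ≤ 1 - Nx vt M D x a + Nx2 vt M D x a := by
  by_cases h : Disjoint (Xs vt M x a) D
  · rw [ind_true h]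
    rw [Xs_disj_iff] at h
    have h1 : Nx vt M D x a = 0 := sum_eq_zero fun p hp => ind_false (h p hp)
    have h2 : 0 ≤ Nx2 vt M D x a := sum_nonneg fun _ _ => sum_nonneg fun _ _ =>
      mul_nonneg (ind_nonneg _) (ind_nonneg _)
    linarith
  · rw [ind_false h]
    rw [Xs_disj_iff] at h
    push Not at h
    obtain ⟨p, hp, hpD⟩ := h
    -- the terms with first index `p` or second index `p`
    have h1 : Nx vt M D x a = 1 + ∑ p' ∈ (Ico 1 M).erase p, ind (x * vt a p' ∈ D) := by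
      unfold Nx
      rw [← add_sum_erase _ _ hp, ind_true hpD]
    have h2 : ∑ p' ∈ (Ico 1 M).erase p, ind (x * vt a p' ∈ D) ≤ Nx2 vt M D x a := by
      unfold Nx2
      have h3 : ∑ p' ∈ (Ico 1 M).erase p, ind (x * vt a p ∈ D) * ind (x * vt a p' ∈ D) ≤
          ∑ p ∈ Ico 1 M, ∑ p' ∈ (Ico 1 M).erase p,
            ind (x * vt a p ∈ D) * ind (x * vt a p' ∈ D) :=
        single_le_sum (f := fun p => ∑ p' ∈ (Ico 1 M).erase p,
          ind (x * vt a p ∈ D) * ind (x * vt a p' ∈ D))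
          (fun _ _ => sum_nonneg fun _ _ => mul_nonneg (ind_nonneg _) (ind_nonneg _)) hp
      refine le_trans (le_of_eq ?_) h3
      refine sum_congr rfl fun p' _ => ?_
      rw [ind_true hpD, one_mul]
    linarith

lemma pr_disj_nonneg (D : Finset G) (x : G) : 0 ≤ pr fun a => Disjoint (Xs vt M x a) D :=
  pr_nonneg _

variable [Nonempty Ω]

lemma pr_disj_lower (D : Finset G) (x : G) :
    1 - ∑ z ∈ D, f1 vt M x z ≤ pr fun a => Disjoint (Xs vt M x a) D := by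
  rw [pr_eq, ← av_Nx]
  calc _ = av (fun a => 1 - Nx vt M D x a) := by
        rw [av_sub, av_const]
    _ ≤ _ := av_mono fun a => disj_lower D x a

lemma pr_disj_upper (D : Finset G) (x : G) :
    pr (fun a => Disjoint (Xs vt M x a) D) ≤
      1 - ∑ z ∈ D, f1 vt M x z + ∑ z ∈ D, ∑ z' ∈ D, f2 vt M x z z' := by
  rw [pr_eq, ← av_Nx, ← av_Nx2]
  calc _ ≤ av (fun a => 1 - Nx vt M D x a + Nx2 vt M D x a) := av_mono fun a => disj_upper D x a
    _ = _ := by rw [av_add, av_sub, av_const]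

lemma one_sub_ge {y : ℝ} (h0 : 0 ≤ y) (h1 : y ≤ 1 / 2) : Real.exp (-(y + 2 * y ^ 2)) ≤ 1 - y := by
  have h2 : Real.exp (-(y + 2 * y ^ 2)) ≤ Real.exp (-(y / (1 - y))) := by
    apply Real.exp_le_exp.2
    have h3 : y / (1 - y) ≤ y + 2 * y ^ 2 := by
      rw [div_le_iff₀ (by linarith)]
      nlinarith [mul_nonneg h0 h0, mul_nonneg (mul_nonneg h0 h0) (by linarith : 0 ≤ 1 - 2 * y)]
    linarith
  refine h2.trans ?_
  rw [Real.exp_neg, inv_le_comm₀ (Real.exp_pos _) (by linarith)]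
  have h4 := Real.add_one_le_exp (y / (1 - y))
  have h5 : (1 - y)⁻¹ = y / (1 - y) + 1 := by
    have : (1 - y) ≠ 0 := by linarith
    field_simp
    ring
  linarith

/-- all the paths at the points of `T''` avoid the small set `D`: lower bound -/
lemma Hyp.avoid_lower (h : Hyp T H0 vt ft M Λ κ ε) {T'' : Finset G} (hT : T'' ⊆ T) {D : Finset G}
    (hD : D.card ≤ 2 * Λ) (hε : Λ * ε ≤ 1 / 4) :
    Real.exp (-(D.card / Λ + 20 * Λ ^ 2 * ε)) ≤
      av fun ω : G → Ω => ∏ x ∈ T'', ind (Disjoint (Xs vt M x (ω x)) D) := by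
  have hΛ : (1 : ℝ) ≤ Λ := by exact_mod_cast h.Λ_pos
  have hε0 := h.ε_pos
  have hε1 := h.ε_le
  have hDr : (D.card : ℝ) ≤ 2 * Λ := by exact_mod_cast hD
  have hD0 : (0 : ℝ) ≤ D.card := Nat.cast_nonneg _
  rw [av_prod_eq T'' fun x a => ind (Disjoint (Xs vt M x a) D)]
  set y : G → ℝ := fun x => ∑ z ∈ D, f1 vt M x z with hy
  have hy0 : ∀ x, 0 ≤ y x := fun x => sum_nonneg fun _ _ => f1_nonneg _ _
  have hy1 : ∀ x, y x ≤ 2 * Λ * ε := by
    intro x
    calc y x ≤ ∑ _z ∈ D, ε := sum_le_sum fun z _ => (h.f1_le x z).trans h.Mκ_le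
      _ = D.card * ε := by rw [sum_const, nsmul_eq_mul]
      _ ≤ _ := by gcongr
  have hysum : ∑ x ∈ T'', y x ≤ D.card * (1 / Λ + ε) := by
    calc ∑ x ∈ T'', y x ≤ ∑ x ∈ T, y x := sum_le_sum_of_subset_of_nonneg hT fun x _ _ => hy0 x
      _ = ∑ z ∈ D, ∑ x ∈ T, f1 vt M x z := sum_comm
      _ ≤ ∑ _z ∈ D, (1 / Λ + ε) := by
        refine sum_le_sum fun z _ => ?_
        have := (abs_le.1 (h.dens z)).2
        linarith
      _ = _ := by rw [sum_const, nsmul_eq_mul]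
  calc Real.exp (-(D.card / Λ + 20 * Λ ^ 2 * ε))
      ≤ Real.exp (∑ x ∈ T'', -(y x + 2 * y x ^ 2)) := by
        apply Real.exp_le_exp.2
        rw [sum_neg_distrib, neg_le_neg_iff]
        calc ∑ x ∈ T'', (y x + 2 * y x ^ 2) ≤ ∑ x ∈ T'', (1 + 4 * Λ * ε) * y x := by
              refine sum_le_sum fun x _ => ?_
              nlinarith [hy0 x, hy1 x, mul_nonneg (hy0 x) (by linarith [hy1 x] : 0 ≤ 2 * Λ * ε - y x)]
          _ = (1 + 4 * Λ * ε) * ∑ x ∈ T'', y x := by rw [mul_sum]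
          _ ≤ (1 + 4 * Λ * ε) * (D.card * (1 / Λ + ε)) := by gcongr
          _ ≤ D.card / Λ + 20 * Λ ^ 2 * ε := by
            have e : (1 + 4 * Λ * ε) * (D.card * (1 / Λ + ε)) =
                D.card / Λ + D.card * ε * (1 + 4 * (Λ * (1 / Λ)) + 4 * Λ * ε) := by ring
            rw [e, mul_one_div_cancel (by linarith)]
            have h6 : D.card * ε * (1 + 4 * 1 + 4 * Λ * ε) ≤ 2 * Λ * ε * (1 + 4 * 1 + 1) := by
              gcongr
              linarith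
            nlinarith [mul_nonneg hε0.le (by linarith : (0:ℝ) ≤ Λ - 1)]
    _ = ∏ x ∈ T'', Real.exp (-(y x + 2 * y x ^ 2)) := by rw [Real.exp_sum]
    _ ≤ ∏ x ∈ T'', av fun a => ind (Disjoint (Xs vt M x a) D) := by
      apply prod_le_prod
      · intro _ _; positivity
      · intro x _
        refine (one_sub_ge (hy0 x) ?_).trans (pr_disj_lower D x)
        have := hy1 x
        linarith

/-- all the paths at the points of `T''` avoid the small set `D`: upper bound -/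
lemma Hyp.avoid_upper (h : Hyp T H0 vt ft M Λ κ ε) {B : Finset G} (hB : B.card ≤ 2)
    {D : Finset G} (hD : D.card ≤ 2 * Λ) :
    (av fun ω : G → Ω => ∏ x ∈ T \ B, ind (Disjoint (Xs vt M x (ω x)) D)) ≤
      Real.exp (-(D.card / Λ) + 20 * Λ ^ 2 * ε) := by
  have hΛ : (1 : ℝ) ≤ Λ := by exact_mod_cast h.Λ_pos
  have hε0 := h.ε_pos
  have hε1 := h.ε_le
  have hDr : (D.card : ℝ) ≤ 2 * Λ := by exact_mod_cast hD
  have hD0 : (0 : ℝ) ≤ D.card := Nat.cast_nonneg _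
  rw [av_prod_eq (T \ B) fun x a => ind (Disjoint (Xs vt M x a) D)]
  set y : G → ℝ := fun x => ∑ z ∈ D, f1 vt M x z with hy
  set w : G → ℝ := fun x => ∑ z ∈ D, ∑ z' ∈ D, f2 vt M x z z' with hw
  have hy0 : ∀ x, 0 ≤ y x := fun x => sum_nonneg fun _ _ => f1_nonneg _ _
  have hw0 : ∀ x, 0 ≤ w x := fun x => sum_nonneg fun _ _ => sum_nonneg fun _ _ => f2_nonneg _ _ _
  have hy1 : ∀ x, y x ≤ 2 * Λ * ε := by
    intro x
    calc y x ≤ ∑ _z ∈ D, ε := sum_le_sum fun z _ => (h.f1_le x z).trans h.Mκ_le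
      _ = D.card * ε := by rw [sum_const, nsmul_eq_mul]
      _ ≤ _ := by gcongr
  have hysum : D.card * (1 / Λ - ε) - 4 * Λ * ε ≤ ∑ x ∈ T \ B, y x := by
    have h1 : ∑ x ∈ T, y x ≤ ∑ x ∈ T \ B, y x + ∑ x ∈ B, y x := by
      calc ∑ x ∈ T, y x ≤ ∑ x ∈ (T \ B) ∪ B, y x :=
            sum_le_sum_of_subset_of_nonneg (by rw [sdiff_union_self_eq_union]; exact subset_union_left)
              fun x _ _ => hy0 x
        _ ≤ _ := by
          rw [sum_union sdiff_disjoint]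
    have h2 : ∑ x ∈ B, y x ≤ 4 * Λ * ε := by
      calc ∑ x ∈ B, y x ≤ ∑ _x ∈ B, 2 * Λ * ε := sum_le_sum fun x _ => hy1 x
        _ = B.card * (2 * Λ * ε) := by rw [sum_const, nsmul_eq_mul]
        _ ≤ 2 * (2 * Λ * ε) := by
          gcongr
          exact_mod_cast hB
        _ = _ := by ring
    have h3 : D.card * (1 / Λ - ε) ≤ ∑ x ∈ T, y x := by
      calc D.card * (1 / Λ - ε) = ∑ _z ∈ D, (1 / Λ - ε) := by rw [sum_const, nsmul_eq_mul]
        _ ≤ ∑ z ∈ D, ∑ x ∈ T, f1 vt M x z := by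
          refine sum_le_sum fun z _ => ?_
          have := (abs_le.1 (h.dens z)).1
          linarith
        _ = _ := sum_comm
    linarith
  have hwsum : ∑ x ∈ T \ B, w x ≤ 4 * Λ ^ 2 * ε := by
    calc ∑ x ∈ T \ B, w x ≤ ∑ x ∈ T, w x :=
          sum_le_sum_of_subset_of_nonneg sdiff_subset fun x _ _ => hw0 x
      _ = ∑ z ∈ D, ∑ z' ∈ D, ∑ x ∈ T, f2 vt M x z z' := by
        rw [sum_comm]
        exact sum_congr rfl fun z _ => sum_comm
      _ ≤ ∑ _z ∈ D, ∑ _z' ∈ D, ε := sum_le_sum fun z _ => sum_le_sum fun z' _ => h.pair z z'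
      _ = D.card * (D.card * ε) := by simp only [sum_const, nsmul_eq_mul]
      _ ≤ 2 * Λ * (2 * Λ * ε) := by gcongr
      _ = _ := by ring
  calc (∏ x ∈ T \ B, av fun a => ind (Disjoint (Xs vt M x a) D))
      ≤ ∏ x ∈ T \ B, Real.exp (-y x + w x) := by
        apply prod_le_prod
        · intro x _; exact pr_disj_nonneg D x
        · intro x _
          have h1 := pr_disj_upper (vt := vt) (M := M) D x
          have h2 := Real.add_one_le_exp (-y x + w x)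
          rw [pr_eq] at h1
          linarith
    _ = Real.exp (∑ x ∈ T \ B, (-y x + w x)) := by rw [Real.exp_sum]
    _ ≤ _ := by
      apply Real.exp_le_exp.2
      rw [sum_add_distrib, sum_neg_distrib]
      have e : D.card * (1 / Λ - ε) = D.card / Λ - D.card * ε := by ring
      rw [e] at hysum
      have h5 : D.card * ε ≤ 2 * Λ * ε := by gcongr
      nlinarith [mul_nonneg hε0.le (by linarith : (0:ℝ) ≤ Λ - 1),
        mul_nonneg hε0.le (mul_nonneg (by linarith : (0:ℝ) ≤ Λ) (by linarith : (0:ℝ) ≤ Λ - 1))]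

end

end Pool.Agent.N533.NS
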