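import Pool.Agent.N533.NS.Conf

/-!
# First and second moments of the filling weights
-/

set_option autoImplicit false
set_option linter.unusedSectionVars false

open Finset

namespace Pool.Agent.N533.NS

section indep
variable {G Ω : Type} [Fintype G] [DecidableEq G] [Fintype Ω] [Nonempty Ω]

lemma av_indep (x : G) (Ψ : Ω → (G → Ω) → ℝ)
    (h : ∀ a ω c, Ψ a (Function.update ω x c) = Ψ a ω) :
    av (fun ω : G → Ω => Ψ (ω x) ω) = av (fun a => av (fun ω => Ψ a ω)) := by
  rw [av_update x]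
  simp only [Function.update_self, h]
  rw [av_comm]

lemma av_indep2 {x x' : G} (hne : x ≠ x') (Ψ : Ω → Ω → (G → Ω) → ℝ)
    (h : ∀ a b ω c, Ψ a b (Function.update ω x c) = Ψ a b ω)
    (h' : ∀ a b ω c, Ψ a b (Function.update ω x' c) = Ψ a b ω) :
    av (fun ω : G → Ω => Ψ (ω x) (ω x') ω) = av (fun a => av (fun b => av (fun ω => Ψ a b ω))) := by
  rw [av_update x]
  simp only [Function.update_self, Function.update_of_ne hne.symm, h]
  rw [av_comm]
  congr 1
  funext a
  exact av_indep x' (fun b ω => Ψ a b ω) (fun b ω c => h' a b ω c)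

end indep

section
variable {G Ω U : Type} [Group G] [Fintype G] [DecidableEq G] [Fintype Ω] [Fintype U]
variable {T H0 : Finset G} {vt : Ω → ℕ → G} {ft : Ω → ℕ → U → ℕ → G} {M Λ : ℕ} {κ ε : ℝ}

lemma Fs_card_le (x : G) (p : ℕ) (a : Ω) (u : U) : (Fs ft Λ x p a u).card ≤ Λ := by
  unfold Fs
  refine card_image_le.trans ?_
  rw [Nat.card_Icc]
  omega

lemma mem_Fs {x : G} {p : ℕ} {a : Ω} {u : U} {v : G} :
    v ∈ Fs ft Λ x p a u ↔ ∃ c ∈ Icc 1 Λ, x * ft a p u c = v := by
  unfold Fs; rw [mem_image]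

lemma mem_Xs {x : G} {a : Ω} {v : G} : v ∈ Xs vt M x a ↔ ∃ p ∈ Ico 1 M, x * vt a p = v := by
  unfold Xs; rw [mem_image]

lemma disj_Ss_iff {D : Finset G} {ω : G → Ω} :
    Disjoint D (Ss T vt M ω) ↔ ∀ x ∈ T, Disjoint (Xs vt M x (ω x)) D := by
  unfold Ss
  rw [disjoint_biUnion_right]
  exact forall₂_congr fun x _ => disjoint_comm

lemma prod_ind {ι : Type*} (s : Finset ι) (p : ι → Prop) :
    ∏ i ∈ s, ind (p i) = ind (∀ i ∈ s, p i) := by
  by_cases h : ∀ i ∈ s, p i
  · rw [ind_true h]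
    exact prod_eq_one fun i hi => ind_true (h i hi)
  · rw [ind_false h]
    push Not at h
    obtain ⟨i, hi, hp⟩ := h
    exact prod_eq_zero hi (ind_false hp)

/-- `u` is hit with probability at most `κ` at each of the positions -/
lemma Hyp.pr_mem (h : Hyp T H0 vt ft M Λ κ ε) (x : G) (a : Ω) {p : ℕ} (hp : p < M) (v : G) :
    pr (fun u => v ∈ Fs ft Λ x p a u) ≤ Λ * κ := by
  calc _ ≤ pr (fun u => ∃ c ∈ Icc 1 Λ, ft a p u c = x⁻¹ * v) := by
        refine pr_mono fun u hu => ?_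
        obtain ⟨c, hc, hcv⟩ := mem_Fs.1 hu
        exact ⟨c, hc, by rw [← hcv]; group⟩
    _ ≤ ∑ c ∈ Icc 1 Λ, pr (fun u => ft a p u c = x⁻¹ * v) := pr_exists _ _
    _ ≤ ∑ _c ∈ Icc 1 Λ, κ := sum_le_sum fun c hc => h.fhit a p hp c hc _
    _ = _ := by rw [sum_const, Nat.card_Icc, nsmul_eq_mul]; simp

lemma Hyp.pr_not_disj (h : Hyp T H0 vt ft M Λ κ ε) (x : G) (a : Ω) {p : ℕ} (hp : p < M)
    (D : Finset G) : pr (fun u => ¬ Disjoint D (Fs ft Λ x p a u)) ≤ D.card * (Λ * κ) := by
  calc _ ≤ pr (fun u => ∃ v ∈ D, v ∈ Fs ft Λ x p a u) := by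
        refine pr_mono fun u hu => ?_
        obtain ⟨v, hv, hv'⟩ := not_disjoint_iff.1 hu
        exact ⟨v, hv, hv'⟩
    _ ≤ ∑ v ∈ D, pr (fun u => v ∈ Fs ft Λ x p a u) := pr_exists _ _
    _ ≤ ∑ _v ∈ D, (Λ * κ : ℝ) := sum_le_sum fun v _ => h.pr_mem x a hp v
    _ = _ := by rw [sum_const, nsmul_eq_mul]

lemma Hyp.pr_card (h : Hyp T H0 vt ft M Λ κ ε) (x : G) (a : Ω) {p : ℕ} (hp : p < M) :
    pr (fun u => (Fs ft Λ x p a u).card ≠ Λ) ≤ Λ ^ 2 * κ := by
  calc _ ≤ pr (fun u => ∃ c ∈ Icc 1 Λ, ∃ c' ∈ (Icc 1 Λ).erase c, ft a p u c = ft a p u c') := by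
        refine pr_mono fun u hu => ?_
        by_contra hcon
        push Not at hcon
        apply hu
        unfold Fs
        rw [card_image_of_injOn, Nat.card_Icc]
        · omega
        · intro c hc c' hc' hcc
          by_contra hne
          exact hcon c hc c' (mem_erase.2 ⟨fun h => hne h.symm, hc'⟩) (mul_left_cancel hcc)
    _ ≤ ∑ c ∈ Icc 1 Λ, pr (fun u => ∃ c' ∈ (Icc 1 Λ).erase c, ft a p u c = ft a p u c') :=
        pr_exists _ _
    _ ≤ ∑ c ∈ Icc 1 Λ, ∑ c' ∈ (Icc 1 Λ).erase c, pr (fun u => ft a p u c = ft a p u c') :=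
        sum_le_sum fun c _ => pr_exists _ _
    _ ≤ ∑ _c ∈ Icc 1 Λ, ∑ _c' ∈ Icc 1 Λ, κ := by
        refine sum_le_sum fun c hc => ?_
        calc _ ≤ ∑ c' ∈ (Icc 1 Λ).erase c, κ := by
              refine sum_le_sum fun c' hc' => ?_
              rw [mem_erase] at hc'
              exact h.finj a p hp c hc c' hc'.2 hc'.1.symm
          _ ≤ _ := sum_le_sum_of_subset_of_nonneg (erase_subset _ _) fun _ _ _ => h.κ_nonneg
    _ = _ := by simp only [sum_const, Nat.card_Icc, nsmul_eq_mul]; simp; ring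

end

section
variable {G Ω U : Type} [Group G] [Fintype G] [DecidableEq G] [Fintype Ω] [Fintype U]
variable [Nonempty Ω] [Nonempty U]
variable {T H0 : Finset G} {vt : Ω → ℕ → G} {ft : Ω → ℕ → U → ℕ → G} {M Λ : ℕ} {κ ε : ℝ}

lemma Hyp.Λκ (h : Hyp T H0 vt ft M Λ κ ε) : Λ ^ 2 * κ ≤ ε := by
  refine le_trans ?_ h.κ_small
  have h1 : (1 : ℝ) ≤ M := by exact_mod_cast h.M_pos
  have h3 : (Λ : ℝ) ^ 2 ≤ M ^ 2 * Λ ^ 2 := by
    nlinarith [sq_nonneg (Λ : ℝ), one_le_pow₀ (n := 2) h1]
  exact mul_le_mul_of_nonneg_right h3 h.κ_nonneg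

lemma Hyp.MΛκ (h : Hyp T H0 vt ft M Λ κ ε) : M * (Λ * κ) ≤ ε := by
  refine le_trans ?_ h.κ_small
  have h1 : (1 : ℝ) ≤ M := by exact_mod_cast h.M_pos
  have h2 : (1 : ℝ) ≤ Λ := by exact_mod_cast h.Λ_pos
  have h3 : (M : ℝ) * Λ ≤ M ^ 2 * Λ ^ 2 := by
    have : (1 : ℝ) ≤ M * Λ := by nlinarith
    nlinarith
  rw [← mul_assoc]
  exact mul_le_mul_of_nonneg_right h3 h.κ_nonneg

/-- the number of leaves is comparable with `N / Λ` -/
lemma Hyp.N_le (h : Hyp T H0 vt ft M Λ κ ε) (hε : ε ≤ 1 / 2) :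
    (Fintype.card G : ℝ) ≤ 2 * Λ * (T.card * M) := by
  have h1 := (abs_le.1 h.size).1
  nlinarith [(Nat.cast_nonneg (Fintype.card G) : (0 : ℝ) ≤ Fintype.card G)]

/-- **First moment, lower bound.** -/
theorem Hyp.momA (h : Hyp T H0 vt ft M Λ κ ε) (hε : Λ * ε ≤ 1 / 4) :
    (T.card * M : ℝ) * (Real.exp (-1) - 26 * Λ ^ 2 * ε) ≤
      av fun ω : G → Ω => ∑ x ∈ T, ∑ p ∈ range M, pr fun u => Iv T H0 vt ft M Λ ω x p u := by
  have hΛ : (1 : ℝ) ≤ Λ := by exact_mod_cast h.Λ_pos
  have hε0 := h.ε_pos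
  have hε1 := h.ε_le
  have hε2 : ε ≤ 1 / 2 := by nlinarith
  have hκ0 := h.κ_nonneg
  -- pointwise lower bound
  have key : ∀ x ∈ T, ∀ p ∈ range M,
      Real.exp (-1) - 20 * Λ ^ 2 * ε - 2 * ε -
        av (fun a => av fun u => ind (¬ Disjoint H0 (Fs ft Λ x p a u))) ≤
      av fun ω : G → Ω => pr fun u => Iv T H0 vt ft M Λ ω x p u := by
    intro x hx p hp
    rw [mem_range] at hp
    set Ψ : Ω → (G → Ω) → ℝ := fun a ω => av fun u =>
      ((∏ x' ∈ T \ {x}, ind (Disjoint (Xs vt M x' (ω x')) (Fs ft Λ x p a u))) -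
        ind (¬ Disjoint (Xs vt M x a) (Fs ft Λ x p a u)) -
        ind ((Fs ft Λ x p a u).card ≠ Λ) - ind (¬ Disjoint H0 (Fs ft Λ x p a u))) with hΨ
    have h1 : ∀ ω : G → Ω, Ψ (ω x) ω ≤ pr fun u => Iv T H0 vt ft M Λ ω x p u := by
      intro ω
      rw [pr_eq]
      refine av_mono fun u => ?_
      rw [prod_ind]
      by_cases h2 : Disjoint (Xs vt M x (ω x)) (Fs ft Λ x p (ω x) u)
      · by_cases h3 : (Fs ft Λ x p (ω x) u).card = Λ
        · by_cases h4 : Disjoint H0 (Fs ft Λ x p (ω x) u)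
          · rw [ind_false (not_not.2 h2), ind_false (not_not.2 h3), ind_false (not_not.2 h4)]
            simp only [sub_zero]
            apply ind_mono
            intro h5
            refine ⟨h3, ?_, h4.symm⟩
            rw [disj_Ss_iff]
            intro x' hx'
            by_cases hxx : x' = x
            · rw [hxx]; exact h2
            · exact h5 x' (mem_sdiff.2 ⟨hx', by simpa using hxx⟩)
          · rw [ind_true h4]
            have := ind_le_one (∀ x' ∈ T \ {x}, Disjoint (Xs vt M x' (ω x')) (Fs ft Λ x p (ω x) u))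
            have := ind_nonneg (Iv T H0 vt ft M Λ ω x p u)
            have := ind_nonneg (¬ Disjoint (Xs vt M x (ω x)) (Fs ft Λ x p (ω x) u))
            have := ind_nonneg ((Fs ft Λ x p (ω x) u).card ≠ Λ)
            linarith
        · rw [ind_true h3]
          have := ind_le_one (∀ x' ∈ T \ {x}, Disjoint (Xs vt M x' (ω x')) (Fs ft Λ x p (ω x) u))
          have := ind_nonneg (Iv T H0 vt ft M Λ ω x p u)
          have := ind_nonneg (¬ Disjoint (Xs vt M x (ω x)) (Fs ft Λ x p (ω x) u))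
          have := ind_nonneg (¬ Disjoint H0 (Fs ft Λ x p (ω x) u))
          linarith
      · rw [ind_true h2]
        have := ind_le_one (∀ x' ∈ T \ {x}, Disjoint (Xs vt M x' (ω x')) (Fs ft Λ x p (ω x) u))
        have := ind_nonneg (Iv T H0 vt ft M Λ ω x p u)
        have := ind_nonneg ((Fs ft Λ x p (ω x) u).card ≠ Λ)
        have := ind_nonneg (¬ Disjoint H0 (Fs ft Λ x p (ω x) u))
        linarith
    refine le_trans ?_ (av_mono h1)
    rw [av_indep x Ψ]
    · -- evaluate
      have h2 : ∀ a, Real.exp (-1) - 20 * Λ ^ 2 * ε - 2 * ε -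
          (av fun u => ind (¬ Disjoint H0 (Fs ft Λ x p a u))) ≤ av fun ω => Ψ a ω := by
        intro a
        simp only [hΨ]
        rw [av_comm]
        have e1 : (fun u => av fun ω : G → Ω =>
            (∏ x' ∈ T \ {x}, ind (Disjoint (Xs vt M x' (ω x')) (Fs ft Λ x p a u))) -
            ind (¬ Disjoint (Xs vt M x a) (Fs ft Λ x p a u)) -
            ind ((Fs ft Λ x p a u).card ≠ Λ) - ind (¬ Disjoint H0 (Fs ft Λ x p a u))) =
            fun u => (av fun ω : G → Ω =>
              ∏ x' ∈ T \ {x}, ind (Disjoint (Xs vt M x' (ω x')) (Fs ft Λ x p a u))) -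
            ind (¬ Disjoint (Xs vt M x a) (Fs ft Λ x p a u)) -
            ind ((Fs ft Λ x p a u).card ≠ Λ) - ind (¬ Disjoint H0 (Fs ft Λ x p a u)) := by
          funext u
          rw [av_sub, av_sub, av_sub, av_const, av_const, av_const]
        rw [e1, av_sub, av_sub, av_sub]
        have h3 : Real.exp (-1) - 20 * Λ ^ 2 * ε ≤ av fun u => (av fun ω : G → Ω =>
              ∏ x' ∈ T \ {x}, ind (Disjoint (Xs vt M x' (ω x')) (Fs ft Λ x p a u))) := by
          refine le_av fun u => ?_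
          have hc := Fs_card_le (ft := ft) (Λ := Λ) x p a u
          have h4 := h.avoid_lower (T'' := T \ {x}) sdiff_subset (D := Fs ft Λ x p a u) (by omega) hε
          refine le_trans ?_ h4
          have h5 : ((Fs ft Λ x p a u).card : ℝ) / Λ ≤ 1 := by
            rw [div_le_one (by linarith)]
            exact_mod_cast hc
          have h6 : Real.exp (-1) * (1 - 20 * Λ ^ 2 * ε) ≤
              Real.exp (-(((Fs ft Λ x p a u).card : ℝ) / Λ + 20 * Λ ^ 2 * ε)) := by
            calc _ ≤ Real.exp (-1) * Real.exp (-(20 * Λ ^ 2 * ε)) := by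
                  gcongr
                  have := Real.add_one_le_exp (-(20 * (Λ : ℝ) ^ 2 * ε))
                  linarith
              _ = Real.exp (-1 + -(20 * Λ ^ 2 * ε)) := by rw [Real.exp_add]
              _ ≤ _ := by
                apply Real.exp_le_exp.2
                linarith
          refine le_trans ?_ h6
          have h7 : Real.exp (-1) ≤ 1 := Real.exp_le_one_iff.2 (by norm_num)
          have h8 : 0 ≤ 20 * (Λ : ℝ) ^ 2 * ε := by positivity
          nlinarith
        have h4 : (av fun u => ind (¬ Disjoint (Xs vt M x a) (Fs ft Λ x p a u))) ≤ ε := by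
          rw [← pr_eq]
          refine (h.pr_not_disj x a hp _).trans ?_
          refine le_trans ?_ h.MΛκ
          apply mul_le_mul_of_nonneg_right _ (by positivity)
          have : (Xs vt M x a).card ≤ M := by
            unfold Xs
            refine card_image_le.trans ?_
            rw [Nat.card_Ico]
            omega
          exact_mod_cast this
        have h5 : (av fun u => ind ((Fs ft Λ x p a u).card ≠ Λ)) ≤ ε := by
          rw [← pr_eq]
          exact (h.pr_card x a hp).trans h.Λκ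
        linarith
      calc _ = av (fun a => Real.exp (-1) - 20 * Λ ^ 2 * ε - 2 * ε -
          (av fun u => ind (¬ Disjoint H0 (Fs ft Λ x p a u)))) := by rw [av_sub, av_const]
        _ ≤ _ := av_mono h2
    · intro a ω c
      simp only [hΨ]
      congr 1
      funext u
      congr 3
      apply prod_congr rfl
      intro x' hx'
      rw [mem_sdiff, mem_singleton] at hx'
      rw [Function.update_of_ne hx'.2]
  rw [av_sum]
  simp only [av_sum]
  have hH0 : ∑ x ∈ T, ∑ p ∈ range M, av (fun a => av fun u => ind (¬ Disjoint H0 (Fs ft Λ x p a u)))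
      ≤ 4 * Λ * ε * (T.card * M) := by
    calc _ ≤ ∑ x ∈ T, ∑ p ∈ range M, ∑ v ∈ H0, av (fun a => av fun u => ind (v ∈ Fs ft Λ x p a u)) := by
          refine sum_le_sum fun x _ => sum_le_sum fun p _ => ?_
          simp only [← av_sum]
          refine av_mono fun a => av_mono fun u => ?_
          by_cases h2 : Disjoint H0 (Fs ft Λ x p a u)
          · rw [ind_false (not_not.2 h2)]
            exact sum_nonneg fun _ _ => ind_nonneg _
          · rw [ind_true h2]
            obtain ⟨v, hv, hv'⟩ := not_disjoint_iff.1 h2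
            refine le_trans ?_ (single_le_sum (f := fun v => ind (v ∈ Fs ft Λ x p a u))
              (fun _ _ => ind_nonneg _) hv)
            rw [ind_true hv']
      _ = ∑ v ∈ H0, ∑ x ∈ T, ∑ p ∈ range M, av (fun a => av fun u => ind (v ∈ Fs ft Λ x p a u)) := by
          rw [sum_comm (s := H0)]
          refine sum_congr rfl fun x _ => ?_
          rw [sum_comm]
      _ ≤ ∑ _v ∈ H0, (2 : ℝ) := sum_le_sum fun v _ => (h.g1 v).trans (by linarith)
      _ = H0.card * 2 := by rw [sum_const, nsmul_eq_mul]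
      _ ≤ ε * Fintype.card G * 2 := by
          have := h.H0_card
          nlinarith
      _ ≤ ε * (2 * Λ * (T.card * M)) * 2 := by
          have := h.N_le hε2
          gcongr
      _ = _ := by ring
  have hsum := sum_le_sum fun x hx => sum_le_sum fun p hp => key x hx p hp
  have e2 : ∑ x ∈ T, ∑ p ∈ range M, (Real.exp (-1) - 20 * Λ ^ 2 * ε - 2 * ε -
        av (fun a => av fun u => ind (¬ Disjoint H0 (Fs ft Λ x p a u)))) =
      T.card * M * (Real.exp (-1) - 20 * Λ ^ 2 * ε - 2 * ε) -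
        ∑ x ∈ T, ∑ p ∈ range M, av (fun a => av fun u => ind (¬ Disjoint H0 (Fs ft Λ x p a u))) := by
    simp only [sum_sub_distrib, sum_const, card_range, nsmul_eq_mul]
    ring
  rw [e2] at hsum
  refine le_trans ?_ hsum
  have h9 : (0 : ℝ) ≤ T.card * M := by positivity
  have h10 : 2 * ε + 4 * Λ * ε ≤ 6 * Λ ^ 2 * ε := by
    have : 2 + 4 * (Λ : ℝ) ≤ 6 * Λ ^ 2 := by nlinarith
    nlinarith
  nlinarith [mul_le_mul_of_nonneg_left h10 h9]

end

end Pool.Agent.N533.NS
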