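import Pool.Agent.N533.NS.Stm2
import Pool.Agent.N533.NS.Mom

/-!
# Few dead edges (Task E)
-/

set_option autoImplicit false
set_option linter.unusedSectionVars false

open Finset

namespace Pool.Agent.N533.NS

/-- the positions divisible by `m ^ k` -/
def Dv (m J k : ℕ) : Finset ℕ := (Ico 1 (m ^ J)).filter (fun p => m ^ k ∣ p)

lemma card_Dv {m J k : ℕ} (hk : k ≤ J) : ((Dv m J k).card : ℝ) * m ^ k ≤ m ^ J := by
  have h1 : Dv m J k ⊆ (range (m ^ (J - k))).image (fun q => m ^ k * q) := by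
    intro p hp
    unfold Dv at hp
    rw [mem_filter, mem_Ico] at hp
    obtain ⟨⟨_, h2⟩, c, rfl⟩ := hp
    rw [mem_image]
    refine ⟨c, ?_, rfl⟩
    rw [mem_range]
    have h3 : m ^ J = m ^ k * m ^ (J - k) := by rw [← pow_add]; congr 1; omega
    rw [h3] at h2
    exact Nat.lt_of_mul_lt_mul_left h2
  have h2 : (Dv m J k).card ≤ m ^ (J - k) := by
    calc _ ≤ _ := card_le_card h1
      _ ≤ _ := card_image_le
      _ = _ := card_range _
  have h3 : (m : ℝ) ^ J = m ^ (J - k) * m ^ k := by rw [← pow_add]; congr 1; omega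
  rw [h3]
  exact mul_le_mul_of_nonneg_right (by exact_mod_cast h2) (by positivity)

lemma sum_div_range (c n : ℕ) (hc : 0 < c) (g : ℕ → ℝ) :
    ∑ p ∈ range (c * n), g (c * (p / c)) = c * ∑ q ∈ range n, g (c * q) := by
  induction n with
  | zero => simp
  | succ n ih =>
    rw [Nat.mul_succ, sum_range_add, ih, sum_range_succ, mul_add]
    congr 1
    have : ∀ x ∈ range c, g (c * ((c * n + x) / c)) = g (c * n) := by
      intro x hx
      rw [mem_range] at hx
      rw [Nat.mul_add_div hc, Nat.div_eq_of_lt hx, add_zero]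
    rw [sum_congr rfl this, sum_const, card_range, nsmul_eq_mul]

lemma sum_pos_le {m J k : ℕ} (hm : 2 ≤ m) (hk : k < J) (F : ℕ → ℝ) (hF : ∀ p, 0 ≤ F p) :
    ∑ q ∈ range (m ^ (J - (k + 1))), ∑ b ∈ Ico 1 m, F (m ^ (k + 1) * q + b * m ^ k) ≤
      ∑ p ∈ Dv m J k, F p := by
  have hmk : 0 < m ^ k := by positivity
  have hfac : ∀ x : ℕ × ℕ, m ^ (k + 1) * x.1 + x.2 * m ^ k = m ^ k * (m * x.1 + x.2) := by
    intro x; ring
  have hinj : Set.InjOn (fun x : ℕ × ℕ => m ^ (k + 1) * x.1 + x.2 * m ^ k)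
      (range (m ^ (J - (k + 1))) ×ˢ Ico 1 m : Finset (ℕ × ℕ)) := by
    intro x hx y hy hxy
    simp only [coe_product, Set.mem_prod, mem_coe, mem_range, mem_Ico] at hx hy
    simp only at hxy
    rw [hfac, hfac] at hxy
    have h1 := Nat.eq_of_mul_eq_mul_left hmk hxy
    have h2 : x.1 = (m * x.1 + x.2) / m := by
      rw [Nat.mul_add_div (by omega), Nat.div_eq_of_lt hx.2.2, add_zero]
    have h3 : y.1 = (m * y.1 + y.2) / m := by
      rw [Nat.mul_add_div (by omega), Nat.div_eq_of_lt hy.2.2, add_zero]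
    have h4 : x.1 = y.1 := by rw [h2, h3, h1]
    rw [h4] at h1
    exact Prod.ext h4 (by omega)
  calc ∑ q ∈ range (m ^ (J - (k + 1))), ∑ b ∈ Ico 1 m, F (m ^ (k + 1) * q + b * m ^ k)
      = ∑ x ∈ range (m ^ (J - (k + 1))) ×ˢ Ico 1 m, F (m ^ (k + 1) * x.1 + x.2 * m ^ k) :=
        (sum_product' _ _ _).symm
    _ = ∑ p ∈ (range (m ^ (J - (k + 1))) ×ˢ Ico 1 m).image
          (fun x : ℕ × ℕ => m ^ (k + 1) * x.1 + x.2 * m ^ k), F p := (sum_image hinj).symm
    _ ≤ ∑ p ∈ Dv m J k, F p := by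
        refine sum_le_sum_of_subset_of_nonneg ?_ fun p _ _ => hF p
        intro p hp
        rw [mem_image] at hp
        obtain ⟨x, hx, rfl⟩ := hp
        rw [mem_product, mem_range, mem_Ico] at hx
        unfold Dv
        rw [mem_filter, mem_Ico, hfac]
        refine ⟨⟨?_, ?_⟩, dvd_mul_right _ _⟩
        · have : 0 < m ^ k * (m * x.1 + x.2) := Nat.mul_pos hmk (by omega)
          omega
        · have h3 : m ^ J = m ^ k * (m * m ^ (J - (k + 1))) := by
            rw [← pow_succ', ← pow_add]; congr 1; omega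
          rw [h3]
          refine Nat.mul_lt_mul_of_pos_left ?_ hmk
          calc m * x.1 + x.2 < m * x.1 + m := by omega
            _ = m * (x.1 + 1) := by ring
            _ ≤ m * m ^ (J - (k + 1)) := Nat.mul_le_mul_left _ (by omega)

lemma geo_le {m : ℕ} (hm : 2 ≤ m) (J : ℕ) : ∑ k ∈ range J, (1 : ℝ) / m ^ k ≤ 2 := by
  refine le_trans (sum_le_sum fun k _ => ?_) (sum_geometric_two_le J)
  rw [div_pow, one_pow]
  refine one_div_le_one_div_of_le (by positivity) ?_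
  exact pow_le_pow_left₀ (by norm_num) (by exact_mod_cast hm) k

section
variable {G Ω : Type} [Group G] [Fintype G] [DecidableEq G] [Fintype Ω] [Nonempty Ω]

/-- the number of conflicts at `p` -/
noncomputable def Cf (T H0 : Finset G) (vt : Ω → ℕ → G) (m J k : ℕ) (ω : G → Ω) (x : G)
    (p : ℕ) : ℝ :=
  ind (x * vt (ω x) p ∈ H0) +
    (∑ x' ∈ T.erase x, ∑ p' ∈ Dv m J k, ind (x' * vt (ω x') p' = x * vt (ω x) p) +
      ∑ p' ∈ (Dv m J k).erase p, ind (vt (ω x) p' = vt (ω x) p))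

variable {T H0 : Finset G} {vt : Ω → ℕ → G} {m J : ℕ}

lemma Cf_nonneg (k : ℕ) (ω : G → Ω) (x : G) (p : ℕ) : 0 ≤ Cf T H0 vt m J k ω x p := by
  unfold Cf
  refine add_nonneg (ind_nonneg _) (add_nonneg ?_ ?_)
  · exact sum_nonneg fun _ _ => sum_nonneg fun _ _ => ind_nonneg _
  · exact sum_nonneg fun _ _ => ind_nonneg _

lemma bad_le (k : ℕ) (ω : G → Ω) (x : G) (P : ℕ) :
    ind (Bad T H0 vt m J ω x k P) ≤ ∑ b ∈ Ico 1 m, Cf T H0 vt m J k ω x (P + b * m ^ k) := by
  by_cases hB : Bad T H0 vt m J ω x k P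
  · obtain ⟨b, hb1, hbm, h⟩ := hB
    refine (ind_le_one _).trans ?_
    refine le_trans ?_ (single_le_sum (f := fun b => Cf T H0 vt m J k ω x (P + b * m ^ k))
      (fun b _ => Cf_nonneg k ω x _) (mem_Ico.2 ⟨hb1, hbm⟩))
    have hn2 : 0 ≤ ∑ x' ∈ T.erase x, ∑ p' ∈ Dv m J k,
        ind (x' * vt (ω x') p' = x * vt (ω x) (P + b * m ^ k)) :=
      sum_nonneg fun _ _ => sum_nonneg fun _ _ => ind_nonneg _
    have hn3 : 0 ≤ ∑ p' ∈ (Dv m J k).erase (P + b * m ^ k),
        ind (vt (ω x) p' = vt (ω x) (P + b * m ^ k)) := sum_nonneg fun _ _ => ind_nonneg _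
    have hn1 := ind_nonneg (x * vt (ω x) (P + b * m ^ k) ∈ H0)
    unfold Cf
    rcases h with h | ⟨x', hx', p', hp', hd, hne, heq⟩
    · rw [ind_true h]
      linarith
    · have hD : p' ∈ Dv m J k := by
        unfold Dv
        rw [mem_filter]
        exact ⟨hp', hd⟩
      by_cases hxx : x' = x
      · subst hxx
        have hpp : p' ≠ P + b * m ^ k := fun h => hne (by rw [h])
        have h1 : (1 : ℝ) ≤ ∑ p' ∈ (Dv m J k).erase (P + b * m ^ k),
            ind (vt (ω x') p' = vt (ω x') (P + b * m ^ k)) := by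
          refine le_trans (le_of_eq ?_) (single_le_sum
            (f := fun p' => ind (vt (ω x') p' = vt (ω x') (P + b * m ^ k)))
            (fun _ _ => ind_nonneg _) (mem_erase.2 ⟨hpp, hD⟩))
          exact (ind_true (mul_left_cancel heq)).symm
        linarith
      · have h1 : (1 : ℝ) ≤ ∑ x' ∈ T.erase x, ∑ p' ∈ Dv m J k,
            ind (x' * vt (ω x') p' = x * vt (ω x) (P + b * m ^ k)) := by
          refine le_trans ?_ (single_le_sum
            (f := fun x' => ∑ p' ∈ Dv m J k,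
              ind (x' * vt (ω x') p' = x * vt (ω x) (P + b * m ^ k)))
            (fun _ _ => sum_nonneg fun _ _ => ind_nonneg _) (mem_erase.2 ⟨hxx, hx'⟩))
          refine le_trans (le_of_eq ?_) (single_le_sum
            (f := fun p' => ind (x' * vt (ω x') p' = x * vt (ω x) (P + b * m ^ k)))
            (fun _ _ => ind_nonneg _) hD)
          exact (ind_true heq).symm
        linarith
  · rw [ind_false hB]
    exact sum_nonneg fun b _ => Cf_nonneg k ω x _

lemma dead_le (hm : 2 ≤ m) (ω : G → Ω) (x : G) :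
    ∑ p ∈ range (m ^ J), ind (Dead T H0 vt m J ω x p) ≤
      ∑ k ∈ range J, (m : ℝ) ^ (k + 1) * ∑ p ∈ Dv m J k, Cf T H0 vt m J k ω x p := by
  have h1 : ∀ p, ind (Dead T H0 vt m J ω x p) ≤
      ∑ k ∈ range J, ind (Bad T H0 vt m J ω x k (m ^ (k + 1) * (p / m ^ (k + 1)))) := by
    intro p
    by_cases hD : Dead T H0 vt m J ω x p
    · obtain ⟨k, hk, hB⟩ := hD
      refine (ind_le_one _).trans ?_
      refine le_trans (le_of_eq ?_) (single_le_sum
        (f := fun k => ind (Bad T H0 vt m J ω x k (m ^ (k + 1) * (p / m ^ (k + 1)))))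
        (fun _ _ => ind_nonneg _) (mem_range.2 hk))
      exact (ind_true hB).symm
    · rw [ind_false hD]
      exact sum_nonneg fun _ _ => ind_nonneg _
  refine (sum_le_sum fun p _ => h1 p).trans ?_
  rw [sum_comm]
  refine sum_le_sum fun k hk => ?_
  rw [mem_range] at hk
  have h3 : m ^ J = m ^ (k + 1) * m ^ (J - (k + 1)) := by rw [← pow_add]; congr 1; omega
  have h4 : ∑ p ∈ range (m ^ J), ind (Bad T H0 vt m J ω x k (m ^ (k + 1) * (p / m ^ (k + 1)))) =
      ((m ^ (k + 1) : ℕ) : ℝ) * ∑ q ∈ range (m ^ (J - (k + 1))),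
        ind (Bad T H0 vt m J ω x k (m ^ (k + 1) * q)) := by
    rw [h3]
    rw [← h3]
    exact h3 ▸ sum_div_range (m ^ (k + 1)) (m ^ (J - (k + 1))) (by positivity)
      (fun P => ind (Bad T H0 vt m J ω x k P))
  rw [h4]
  push_cast
  refine mul_le_mul_of_nonneg_left ?_ (by positivity)
  refine (sum_le_sum fun q _ => bad_le k ω x _).trans ?_
  exact sum_pos_le hm hk (fun p => Cf T H0 vt m J k ω x p) fun p => Cf_nonneg k ω x p

lemma av_Cf {κ B : ℝ} (k : ℕ) (x : G) {p : ℕ} (hp : p ∈ Dv m J k) (hκ0 : 0 ≤ κ)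
    (hκ : ∀ p ∈ Ico 1 (m ^ J), ∀ p' ∈ Ico 1 (m ^ J), p ≠ p' → pr (fun a => vt a p = vt a p') ≤ κ)
    (hB : ∀ z : G, ∑ x ∈ T, ∑ p ∈ Dv m J k, pr (fun a => x * vt a p = z) ≤ B) :
    av (fun ω : G → Ω => Cf T H0 vt m J k ω x p) ≤
      ∑ z ∈ H0, pr (fun a => x * vt a p = z) + (B + (Dv m J k).card * κ) := by
  unfold Cf
  rw [av_add, av_add]
  refine add_le_add ?_ (add_le_add ?_ ?_)
  · rw [av_indep x (fun a _ => ind (x * vt a p ∈ H0)) (fun _ _ _ => rfl)]
    simp only [av_const]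
    simp only [ind_mem]
    rw [av_sum]
    exact le_of_eq rfl
  · rw [av_sum]
    simp only [av_sum]
    have h1 : ∀ x' ∈ T.erase x, ∀ p' ∈ Dv m J k,
        av (fun ω : G → Ω => ind (x' * vt (ω x') p' = x * vt (ω x) p)) =
          av (fun a => pr (fun b => x' * vt b p' = x * vt a p)) := by
      intro x' hx' p' _
      have hne : x ≠ x' := fun h => (mem_erase.1 hx').1 h.symm
      rw [av_indep2 hne (fun a b _ => ind (x' * vt b p' = x * vt a p)) (fun _ _ _ _ => rfl)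
        (fun _ _ _ _ => rfl)]
      simp only [av_const]
      rfl
    calc ∑ x' ∈ T.erase x, ∑ p' ∈ Dv m J k,
          av (fun ω : G → Ω => ind (x' * vt (ω x') p' = x * vt (ω x) p))
        = ∑ x' ∈ T.erase x, ∑ p' ∈ Dv m J k,
          av (fun a => pr (fun b => x' * vt b p' = x * vt a p)) :=
          sum_congr rfl fun x' hx' => sum_congr rfl fun p' hp' => h1 x' hx' p' hp'
      _ ≤ ∑ x' ∈ T, ∑ p' ∈ Dv m J k, av (fun a => pr (fun b => x' * vt b p' = x * vt a p)) :=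
          sum_le_sum_of_subset_of_nonneg (erase_subset _ _) fun _ _ _ =>
            sum_nonneg fun _ _ => av_nonneg fun _ => pr_nonneg _
      _ = av (fun a => ∑ x' ∈ T, ∑ p' ∈ Dv m J k, pr (fun b => x' * vt b p' = x * vt a p)) := by
          rw [av_sum]
          simp only [av_sum]
      _ ≤ B := av_le fun a => hB _
  · rw [av_sum]
    have h1 : ∀ p' ∈ (Dv m J k).erase p,
        av (fun ω : G → Ω => ind (vt (ω x) p' = vt (ω x) p)) ≤ κ := by
      intro p' hp'
      rw [av_indep x (fun a _ => ind (vt a p' = vt a p)) (fun _ _ _ => rfl)]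
      simp only [av_const]
      obtain ⟨h2, h3⟩ := mem_erase.1 hp'
      unfold Dv at h3 hp
      exact hκ p' (mem_filter.1 h3).1 p (mem_filter.1 hp).1 h2
    calc ∑ p' ∈ (Dv m J k).erase p, av (fun ω : G → Ω => ind (vt (ω x) p' = vt (ω x) p))
        ≤ ∑ p' ∈ (Dv m J k).erase p, κ := sum_le_sum h1
      _ = ((Dv m J k).erase p).card * κ := by rw [sum_const, nsmul_eq_mul]
      _ ≤ (Dv m J k).card * κ := by
          refine mul_le_mul_of_nonneg_right ?_ hκ0
          exact_mod_cast card_le_card (erase_subset _ _)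

end

lemma arithE {t h m Λ κ M c s : ℝ} (ht : 0 ≤ t) (hm : 0 ≤ m) (hΛ : 0 < Λ)
    (hκ : 0 ≤ κ) (hc : 0 ≤ c) (hs : 0 < s) (hcs : c * s ≤ M) :
    (m * s) * (h * (2 / (Λ * s)) + t * (c * (2 / (Λ * s) + c * κ))) ≤
      2 * m * h / Λ + t * M * (2 * m / Λ + m * M * κ) * (1 / s) := by
  have hM : 0 ≤ M := (mul_nonneg hc hs.le).trans hcs
  have e1 : (m * s) * (h * (2 / (Λ * s))) = 2 * m * h / Λ := by field_simp
  have e2 : (m * s) * (t * (c * (2 / (Λ * s)))) = t * (c * s) * (2 * m / Λ) * (1 / s) := by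
    field_simp
  have e3 : (m * s) * (t * (c * (c * κ))) = t * ((c * s) * (c * s)) * (m * κ) * (1 / s) := by
    field_simp
  have i2 : t * (c * s) * (2 * m / Λ) * (1 / s) ≤ t * M * (2 * m / Λ) * (1 / s) := by
    have : 0 ≤ 2 * m / Λ := by positivity
    gcongr
  have i3 : t * ((c * s) * (c * s)) * (m * κ) * (1 / s) ≤ t * (M * M) * (m * κ) * (1 / s) := by
    have h0 : 0 ≤ c * s := mul_nonneg hc hs.le
    gcongr
  calc (m * s) * (h * (2 / (Λ * s)) + t * (c * (2 / (Λ * s) + c * κ)))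
      = (m * s) * (h * (2 / (Λ * s))) + (m * s) * (t * (c * (2 / (Λ * s)))) +
          (m * s) * (t * (c * (c * κ))) := by ring
    _ = 2 * m * h / Λ + t * (c * s) * (2 * m / Λ) * (1 / s) +
          t * ((c * s) * (c * s)) * (m * κ) * (1 / s) := by rw [e1, e2, e3]
    _ ≤ 2 * m * h / Λ + t * M * (2 * m / Λ) * (1 / s) + t * (M * M) * (m * κ) * (1 / s) :=
        add_le_add (add_le_add le_rfl i2) i3
    _ = 2 * m * h / Λ + t * M * (2 * m / Λ + m * M * κ) * (1 / s) := by ring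

/-- **Task E.** -/
theorem eStm : EStm := by
  intro G Ω _ _ _ _ _ T H0 vt m J Λ κ hm hΛ hκ0 hκ hB
  have hΛ' : (0 : ℝ) < Λ := by exact_mod_cast hΛ
  have hm0 : (0 : ℝ) < m := by
    have : 0 < m := by omega
    exact_mod_cast this
  have step1 : (av fun ω : G → Ω => ∑ x ∈ T, ∑ p ∈ range (m ^ J), ind (Dead T H0 vt m J ω x p)) ≤
      ∑ k ∈ range J, (m : ℝ) ^ (k + 1) *
        ∑ x ∈ T, ∑ p ∈ Dv m J k, av (fun ω : G → Ω => Cf T H0 vt m J k ω x p) := by
    calc (av fun ω : G → Ω => ∑ x ∈ T, ∑ p ∈ range (m ^ J), ind (Dead T H0 vt m J ω x p))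
        ≤ av fun ω : G → Ω => ∑ x ∈ T, ∑ k ∈ range J,
            (m : ℝ) ^ (k + 1) * ∑ p ∈ Dv m J k, Cf T H0 vt m J k ω x p :=
          av_mono fun ω => sum_le_sum fun x _ => dead_le hm ω x
      _ = ∑ k ∈ range J, (m : ℝ) ^ (k + 1) *
            ∑ x ∈ T, ∑ p ∈ Dv m J k, av (fun ω : G → Ω => Cf T H0 vt m J k ω x p) := by
          rw [av_sum]
          simp only [av_sum, av_mul_left]
          rw [sum_comm]
          simp only [mul_sum]
  refine step1.trans ?_
  have step2 : ∀ k ∈ range J, (m : ℝ) ^ (k + 1) *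
        ∑ x ∈ T, ∑ p ∈ Dv m J k, av (fun ω : G → Ω => Cf T H0 vt m J k ω x p) ≤
      2 * m * H0.card / Λ +
        T.card * m ^ J * (2 * m / Λ + m * m ^ J * κ) * (1 / m ^ k) := by
    intro k hk
    rw [mem_range] at hk
    have hs : (0 : ℝ) < (m : ℝ) ^ k := by positivity
    have h1 : ∑ x ∈ T, ∑ p ∈ Dv m J k, av (fun ω : G → Ω => Cf T H0 vt m J k ω x p) ≤
        ∑ x ∈ T, ∑ p ∈ Dv m J k, (∑ z ∈ H0, pr (fun a => x * vt a p = z) +
          (2 / (Λ * m ^ k) + (Dv m J k).card * κ)) :=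
      sum_le_sum fun x _ => sum_le_sum fun p hp => av_Cf k x hp hκ0 hκ (fun z => hB k hk z)
    have h2 : ∑ x ∈ T, ∑ p ∈ Dv m J k, (∑ z ∈ H0, pr (fun a => x * vt a p = z) +
          (2 / (Λ * m ^ k) + (Dv m J k).card * κ)) ≤
        H0.card * (2 / (Λ * m ^ k)) +
          T.card * ((Dv m J k).card * (2 / (Λ * m ^ k) + (Dv m J k).card * κ)) := by
      simp only [sum_add_distrib, sum_const, nsmul_eq_mul]
      refine add_le_add ?_ (le_of_eq (by ring))
      have h3 : ∑ x ∈ T, ∑ p ∈ Dv m J k, ∑ z ∈ H0, pr (fun a => x * vt a p = z) =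
          ∑ z ∈ H0, ∑ x ∈ T, ∑ p ∈ Dv m J k, pr (fun a => x * vt a p = z) := by
        rw [sum_congr rfl fun x _ => sum_comm]
        rw [sum_comm]
      rw [h3]
      calc ∑ z ∈ H0, ∑ x ∈ T, ∑ p ∈ Dv m J k, pr (fun a => x * vt a p = z)
          ≤ ∑ z ∈ H0, (2 / (Λ * m ^ k) : ℝ) := sum_le_sum fun z _ => hB k hk z
        _ = H0.card * (2 / (Λ * m ^ k)) := by rw [sum_const, nsmul_eq_mul]
    calc (m : ℝ) ^ (k + 1) *
          ∑ x ∈ T, ∑ p ∈ Dv m J k, av (fun ω : G → Ω => Cf T H0 vt m J k ω x p)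
        ≤ (m : ℝ) ^ (k + 1) * (H0.card * (2 / (Λ * m ^ k)) +
          T.card * ((Dv m J k).card * (2 / (Λ * m ^ k) + (Dv m J k).card * κ))) :=
          mul_le_mul_of_nonneg_left (h1.trans h2) (by positivity)
      _ = (m * (m : ℝ) ^ k) * (H0.card * (2 / (Λ * m ^ k)) +
          T.card * ((Dv m J k).card * (2 / (Λ * m ^ k) + (Dv m J k).card * κ))) := by
          rw [pow_succ']
      _ ≤ _ := arithE (Nat.cast_nonneg _) hm0.le hΛ' hκ0 (Nat.cast_nonneg _) hs (card_Dv hk.le)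
  refine (sum_le_sum step2).trans ?_
  rw [sum_add_distrib, sum_const, card_range, nsmul_eq_mul, ← mul_sum]
  have h5 : 0 ≤ (T.card : ℝ) * m ^ J * (2 * m / Λ + m * m ^ J * κ) := by positivity
  have h6 := mul_le_mul_of_nonneg_left (geo_le hm J) h5
  calc (J : ℝ) * (2 * m * H0.card / Λ) +
        T.card * m ^ J * (2 * m / Λ + m * m ^ J * κ) * ∑ k ∈ range J, (1 : ℝ) / m ^ k
      ≤ (J : ℝ) * (2 * m * H0.card / Λ) +
        T.card * m ^ J * (2 * m / Λ + m * m ^ J * κ) * 2 := add_le_add le_rfl h6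
    _ = T.card * m ^ J * (4 * m / Λ + 2 * m * m ^ J * κ) + 2 * m * J * H0.card / Λ := by ring

end Pool.Agent.N533.NS
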