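import Pool.Agent.N533.NS.Stm3
import Pool.Agent.N533.NS.Dead

/-!
# Project NS: a good configuration
-/

set_option autoImplicit false
set_option linter.unusedSectionVars false

open Finset

namespace Pool.Agent.N533.NS

namespace ConfOk

section
variable {G Ω U : Type} [Group G] [Fintype G] [DecidableEq G] [Fintype Ω] [Fintype U]
variable {T H0 : Finset G} {vt : Ω → ℕ → G} {ft : Ω → ℕ → U → ℕ → G} {M Λ : ℕ} {κ ε : ℝ}

/-- the expected number of the vertices of the filling paths -/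
theorem sum_l2 (ω : G → Ω) : ∑ v, l2 T H0 vt ft M Λ ω v =
    Λ * ∑ x ∈ T, ∑ p ∈ range M, pr fun u => Iv T H0 vt ft M Λ ω x p u := by
  unfold l2
  rw [sum_comm, mul_sum]
  refine sum_congr rfl fun x _ => ?_
  rw [sum_comm, mul_sum]
  refine sum_congr rfl fun p _ => ?_
  simp only [pr_eq]
  rw [← av_sum, ← av_mul_left]
  congr 1
  funext u
  simp only [ind_and]
  rw [← mul_sum, ← card_eq_sum_ind]
  by_cases h : Iv T H0 vt ft M Λ ω x p u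
  · rw [ind_true h, h.1]
    ring
  · rw [ind_false h]
    ring

/-- the vertices of the random paths are not covered -/
theorem l2_zero (ω : G → Ω) {v : G} (hv : v ∈ Ss T vt M ω) : l2 T H0 vt ft M Λ ω v = 0 := by
  unfold l2
  refine sum_eq_zero fun x _ => sum_eq_zero fun p _ => ?_
  have h : (pr fun u => Iv T H0 vt ft M Λ ω x p u ∧ v ∈ Fs ft Λ x p (ω x) u) =
      pr fun _ : U => False := by
    refine pr_congr fun u => ?_
    constructor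
    · rintro ⟨h1, h2⟩
      exact disjoint_left.1 h1.2.1 h2 hv
    · exact False.elim
  rw [h, pr_false]

/-- the first sum -/
theorem A1_eq (ω : G → Ω) (e : ℝ) :
    ∑ x ∈ T, ∑ p ∈ range M, ((pr fun u => Iv T H0 vt ft M Λ ω x p u) - e) ^ 2 =
      ∑ x ∈ T, ∑ p ∈ range M, (pr fun u => Iv T H0 vt ft M Λ ω x p u) ^ 2 -
      2 * e * ∑ x ∈ T, ∑ p ∈ range M, (pr fun u => Iv T H0 vt ft M Λ ω x p u) +
      e ^ 2 * (T.card * M) := by
  have h1 : (e ^ 2 * (T.card * M) : ℝ) = ∑ x ∈ T, ∑ _p ∈ range M, e ^ 2 := by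
    simp only [sum_const, card_range, nsmul_eq_mul]
    ring
  rw [h1, mul_sum, ← sum_sub_distrib, ← sum_add_distrib]
  refine sum_congr rfl fun x _ => ?_
  rw [mul_sum, ← sum_sub_distrib, ← sum_add_distrib]
  refine sum_congr rfl fun p _ => ?_
  ring

/-- the second sum -/
theorem A2_eq (ω : G → Ω) (c : ℝ) :
    ∑ v ∈ univ \ Ss T vt M ω, (l2 T H0 vt ft M Λ ω v - c) ^ 2 =
      ∑ v, l2 T H0 vt ft M Λ ω v ^ 2 -
      2 * c * (Λ * ∑ x ∈ T, ∑ p ∈ range M, pr fun u => Iv T H0 vt ft M Λ ω x p u) +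
      c ^ 2 * ((univ \ Ss T vt M ω).card : ℝ) := by
  have h0 : ∀ v ∈ univ, v ∉ univ \ Ss T vt M ω → v ∈ Ss T vt M ω := by
    intro v _ hv
    by_contra hc
    exact hv (mem_sdiff.2 ⟨mem_univ v, hc⟩)
  have h1 : ∑ v, l2 T H0 vt ft M Λ ω v ^ 2 =
      ∑ v ∈ univ \ Ss T vt M ω, l2 T H0 vt ft M Λ ω v ^ 2 := by
    symm
    apply sum_subset (subset_univ _)
    intro v hv hv'
    rw [l2_zero ω (h0 v hv hv')]
    ring
  have h2 : ∑ v, l2 T H0 vt ft M Λ ω v =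
      ∑ v ∈ univ \ Ss T vt M ω, l2 T H0 vt ft M Λ ω v := by
    symm
    apply sum_subset (subset_univ _)
    intro v hv hv'
    exact l2_zero ω (h0 v hv hv')
  have h3 : (c ^ 2 * ((univ \ Ss T vt M ω).card : ℝ)) = ∑ _v ∈ univ \ Ss T vt M ω, c ^ 2 := by
    rw [sum_const, nsmul_eq_mul]
    ring
  rw [← sum_l2, h1, h2, h3, mul_sum, ← sum_sub_distrib, ← sum_add_distrib]
  refine sum_congr rfl fun v _ => ?_
  ring

variable [Nonempty Ω] [Nonempty U]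

theorem A1_le (h : Hyp T H0 vt ft M Λ κ ε) (hε : 20 * Λ ^ 2 * ε ≤ 1) :
    (av fun ω : G → Ω => ∑ x ∈ T, ∑ p ∈ range M,
      ((pr fun u => Iv T H0 vt ft M Λ ω x p u) - Real.exp (-1)) ^ 2) ≤
      (T.card * M : ℝ) * (93 * Λ ^ 2 * ε) := by
  have hΛ : (1 : ℝ) ≤ Λ := by exact_mod_cast h.Λ_pos
  have hε0 := h.ε_pos
  have hε4 : Λ * ε ≤ 1 / 4 := by nlinarith [mul_nonneg hε0.le (by linarith : (0 : ℝ) ≤ Λ - 1)]
  have hR : (0 : ℝ) ≤ T.card * M := by positivity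
  have hB := h.momB hε
  have hA := h.momA hε4
  simp only [A1_eq]
  rw [av_add, av_sub, av_mul_left, av_const]
  obtain ⟨e, he⟩ : ∃ e, e = Real.exp (-1) := ⟨_, rfl⟩
  have he0 : 0 ≤ e := by rw [he]; positivity
  have he1 : e ≤ 1 := by rw [he]; exact Real.exp_le_one_iff.2 (by norm_num)
  have he2 : Real.exp (-2) = e ^ 2 := by
    rw [he, ← Real.exp_nat_mul]
    norm_num
  rw [he2] at hB
  rw [← he] at hA ⊢
  have h1 : 2 * e * ((T.card * M : ℝ) * (e - 26 * Λ ^ 2 * ε)) ≤ 2 * e *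
      av fun ω : G → Ω => ∑ x ∈ T, ∑ p ∈ range M, pr fun u => Iv T H0 vt ft M Λ ω x p u :=
    mul_le_mul_of_nonneg_left hA (by positivity)
  have h2 : (T.card * M : ℝ) * (52 * e * Λ ^ 2 * ε) ≤ (T.card * M : ℝ) * (52 * Λ ^ 2 * ε) := by
    apply mul_le_mul_of_nonneg_left _ hR
    have : 0 ≤ Λ ^ 2 * ε := by positivity
    nlinarith
  nlinarith

theorem A2_le (h : Hyp T H0 vt ft M Λ κ ε) (hε : 20 * Λ ^ 2 * ε ≤ 1) :
    (av fun ω : G → Ω => ∑ v ∈ univ \ Ss T vt M ω,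
      (l2 T H0 vt ft M Λ ω v - Real.exp (-1 + 1 / Λ)) ^ 2) ≤
      (T.card * M : ℝ) * (1312 * Λ ^ 3 * ε) := by
  have hΛ : (1 : ℝ) ≤ Λ := by exact_mod_cast h.Λ_pos
  have hε0 := h.ε_pos
  have hε1 := h.ε_le
  have hε4 : Λ * ε ≤ 1 / 4 := by nlinarith [mul_nonneg hε0.le (by linarith : (0 : ℝ) ≤ Λ - 1)]
  have hε2 : ε ≤ 1 / 2 := by nlinarith
  have hR : (0 : ℝ) ≤ T.card * M := by positivity
  have hC := h.momC hε
  have hA := h.momA hε4
  have hV := h.momV hε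
  have hN := h.N_le hε2
  have hS := abs_le.1 h.size
  simp only [A2_eq]
  rw [av_add, av_sub, av_mul_left, av_mul_left, av_mul_left]
  obtain ⟨R, hRdef⟩ : ∃ R : ℝ, R = T.card * M := ⟨_, rfl⟩
  obtain ⟨N, hNdef⟩ : ∃ N : ℝ, N = Fintype.card G := ⟨_, rfl⟩
  obtain ⟨e, he⟩ : ∃ e, e = Real.exp (-1) := ⟨_, rfl⟩
  obtain ⟨c, hc⟩ : ∃ c, c = Real.exp (-1 + 1 / Λ) := ⟨_, rfl⟩
  obtain ⟨d, hd⟩ : ∃ d, d = Real.exp (-1 / Λ) := ⟨_, rfl⟩
  have he0 : 0 ≤ e := by rw [he]; positivity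
  have he1 : e ≤ 1 := by rw [he]; exact Real.exp_le_one_iff.2 (by norm_num)
  have hc0 : 0 ≤ c := by rw [hc]; positivity
  have hc1 : c ≤ 1 := by
    rw [hc]
    apply Real.exp_le_one_iff.2
    have : 1 / (Λ : ℝ) ≤ 1 := by
      rw [div_le_one (by linarith)]
      exact hΛ
    linarith
  have hce : Real.exp (-2 + 1 / Λ) = c * e := by
    rw [hc, he, ← Real.exp_add]
    congr 1
    ring
  have hcd : c ^ 2 * d = c * e := by
    rw [hc, hd, he, ← Real.exp_nat_mul, ← Real.exp_add, ← Real.exp_add]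
    congr 1
    push_cast
    ring
  rw [hce] at hC
  rw [← he] at hA
  rw [← hd] at hV
  rw [← hc]
  rw [← hNdef] at hC hV hN hS
  rw [← hRdef] at hA hN ⊢
  have hS1 : R * Λ ≤ N + ε * N := by rw [hRdef]; linarith [hS.2]
  have hS2 : N - ε * N ≤ R * Λ := by rw [hRdef]; linarith [hS.1]
  have hN0 : 0 ≤ N := by rw [hNdef]; positivity
  obtain ⟨s, hs⟩ : ∃ s : ℝ, s = Λ ^ 2 * ε := ⟨_, rfl⟩
  have hs0 : 0 ≤ s := by rw [hs]; positivity
  have hεs : ε ≤ s := by rw [hs]; nlinarith [one_le_pow₀ (n := 2) hΛ]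
  have e1 : (26 : ℝ) * Λ ^ 2 * ε = 26 * s := by rw [hs]; ring
  have e2 : (510 : ℝ) * Λ ^ 2 * ε = 510 * s := by rw [hs]; ring
  have e3 : (40 : ℝ) * Λ ^ 2 * ε = 40 * s := by rw [hs]; ring
  rw [e1] at hA
  rw [e2] at hC
  rw [e3] at hV
  have h1 : 2 * c * (Λ * (R * (e - 26 * s))) ≤ 2 * c * (Λ *
      av fun ω : G → Ω => ∑ x ∈ T, ∑ p ∈ range M, pr fun u => Iv T H0 vt ft M Λ ω x p u) :=
    mul_le_mul_of_nonneg_left (mul_le_mul_of_nonneg_left hA (by linarith)) (by positivity)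
  have h2 : c ^ 2 * (av fun ω : G → Ω => ((univ \ Ss T vt M ω).card : ℝ)) ≤
      c ^ 2 * (N * (d + 40 * s)) := mul_le_mul_of_nonneg_left hV (by positivity)
  have h3 : c ^ 2 * (N * (d + 40 * s)) = N * (c * e) + 40 * (c ^ 2 * N * s) := by
    rw [← hcd]
    ring
  have h4 : c ^ 2 * N * s ≤ N * s := by
    have h41 : c ^ 2 ≤ 1 := pow_le_one₀ hc0 hc1
    have h42 : 0 ≤ N * s := by positivity
    nlinarith
  have h5 : 2 * c * (Λ * (R * (e - 26 * s))) = 2 * (c * e) * (R * Λ) - 52 * (c * s) * (R * Λ) := by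
    ring
  have h6 : 2 * (c * e) * (N - ε * N) ≤ 2 * (c * e) * (R * Λ) :=
    mul_le_mul_of_nonneg_left hS2 (by positivity)
  have h7 : 52 * (c * s) * (R * Λ) ≤ 52 * (c * s) * (2 * N) := by
    apply mul_le_mul_of_nonneg_left _ (by positivity)
    nlinarith
  have h8 : c * s * N ≤ N * s := by
    have h42 : 0 ≤ N * s := by positivity
    nlinarith
  have h9 : c * e * (ε * N) ≤ N * s := by
    have h91 : c * e ≤ 1 := by nlinarith
    have h92 : ε * N ≤ N * s := by nlinarith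
    have h93 : 0 ≤ ε * N := by positivity
    nlinarith
  have h10 : N * s ≤ 2 * Λ * R * s := mul_le_mul_of_nonneg_right hN hs0
  have h11 : 2 * Λ * R * s = R * (2 * Λ ^ 3 * ε) := by rw [hs]; ring
  have h12 : N * (c * e + 510 * s) = N * (c * e) + 510 * (N * s) := by ring
  rw [h12] at hC
  linarith

end

end ConfOk

/-- a good configuration -/
theorem confStm : ConfStm := by
  intro G Ω U _ _ _ _ _ _ _ T H0 vt ft m J Λ κ ε δ η h hm hδ hη hε hinj hhit hδ1 hδ2 hη1 hη2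
  obtain ⟨M, hM⟩ : ∃ M, M = m ^ J := ⟨_, rfl⟩
  have hMr : (m : ℝ) ^ J = M := by rw [hM]; push_cast; rfl
  have hE := eStm G Ω T H0 vt m J Λ κ hm h.Λ_pos h.κ_nonneg hinj hhit
  rw [← hM] at h hE ⊢
  rw [hMr] at hE hη1 hη2 ⊢
  have hΛ : (1 : ℝ) ≤ Λ := by exact_mod_cast h.Λ_pos
  have hε0 := h.ε_pos
  obtain ⟨R, hR⟩ : ∃ R : ℝ, R = T.card * M := ⟨_, rfl⟩
  have hR0 : 0 ≤ R := by rw [hR]; positivity
  have h1 := ConfOk.A1_le h hε
  have h2 := ConfOk.A2_le h hε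
  have h3 := h.momD hδ
  have h4 : (av fun ω : G → Ω => ∑ x ∈ T, ∑ p ∈ range M, ind (Dead T H0 vt m J ω x p)) ≤
      R * (η / 4) := by
    refine hE.trans ?_
    have h41 : (T.card * M : ℝ) * (4 * m / Λ + 2 * m * M * κ) ≤ R * (η / 8) := by
      rw [← hR]
      exact mul_le_mul_of_nonneg_left hη1 hR0
    rw [← hR] at hη2
    linarith
  rw [← hR] at h1 h2 h3 ⊢
  obtain ⟨ω, hω⟩ := exists_le_av fun ω : G → Ω =>
    (∑ x ∈ T, ∑ p ∈ range M, ((pr fun u => Iv T H0 vt ft M Λ ω x p u) - Real.exp (-1)) ^ 2 +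
    ∑ v ∈ univ \ Ss T vt M ω, (l2 T H0 vt ft M Λ ω v - Real.exp (-1 + 1 / Λ)) ^ 2 +
    ∑ x ∈ T, ∑ p ∈ range M, (pr fun u => Iv T H0 vt ft M Λ ω x p u ∧
      ∃ v ∈ Fs ft Λ x p (ω x) u, ∃ v' ∈ Fs ft Λ x p (ω x) u, v ≠ v' ∧
        δ < ∑ x' ∈ T, ∑ p' ∈ range M, pr fun u' => Iv T H0 vt ft M Λ ω x' p' u' ∧
          v ∈ Fs ft Λ x' p' (ω x') u' ∧ v' ∈ Fs ft Λ x' p' (ω x') u')) * (1 / δ) +
    (∑ x ∈ T, ∑ p ∈ range M, ind (Dead T H0 vt m J ω x p)) * (2 / η)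
  rw [av_add, av_mul_right, av_mul_right, av_add, av_add] at hω
  have hbound : ∀ a1 a2 a3 a4 : ℝ, a1 ≤ R * (93 * Λ ^ 2 * ε) → a2 ≤ R * (1312 * Λ ^ 3 * ε) →
      a3 ≤ R * (2 * Λ ^ 2 * ε / δ) → a4 ≤ R * (η / 4) →
      (a1 + a2 + a3) * (1 / δ) + a4 * (2 / η) ≤ R := by
    intro a1 a2 a3 a4 g1 g2 g3 g4
    have k1 : (a1 + a2) * (1 / δ) ≤ R * (1 / 4) := by
      rw [mul_one_div, div_le_iff₀ hδ]
      have k11 : (Λ : ℝ) ^ 2 * ε ≤ Λ ^ 3 * ε := by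
        apply mul_le_mul_of_nonneg_right _ hε0.le
        exact pow_le_pow_right₀ hΛ (by norm_num)
      have k12 : R * (93 * Λ ^ 2 * ε) ≤ R * (93 * Λ ^ 3 * ε) := by
        apply mul_le_mul_of_nonneg_left _ hR0
        linarith
      have k13 : R * (6000 * Λ ^ 3 * ε) ≤ R * δ := mul_le_mul_of_nonneg_left hδ1 hR0
      have k14 : 0 ≤ R * (Λ ^ 3 * ε) := by positivity
      nlinarith
    have k2 : a3 * (1 / δ) ≤ R * (1 / 4) := by
      rw [mul_one_div, div_le_iff₀ hδ]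
      refine g3.trans ?_
      have k21 : 2 * Λ ^ 2 * ε / δ ≤ 1 / 4 * δ := by
        rw [div_le_iff₀ hδ]
        nlinarith
      calc R * (2 * Λ ^ 2 * ε / δ) ≤ R * (1 / 4 * δ) := mul_le_mul_of_nonneg_left k21 hR0
        _ = R * (1 / 4) * δ := by ring
    have k3 : a4 * (2 / η) ≤ R * (1 / 2) := by
      have k31 : 0 < 2 / η := by positivity
      calc a4 * (2 / η) ≤ R * (η / 4) * (2 / η) := mul_le_mul_of_nonneg_right g4 k31.le
        _ = R * (1 / 2) := by field_simp; ring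
    linarith
  have hωR := hω.trans (hbound _ _ _ _ h1 h2 h3 h4)
  have n1 : 0 ≤ ∑ x ∈ T, ∑ p ∈ range M,
      ((pr fun u => Iv T H0 vt ft M Λ ω x p u) - Real.exp (-1)) ^ 2 :=
    sum_nonneg fun _ _ => sum_nonneg fun _ _ => sq_nonneg _
  have n2 : 0 ≤ ∑ v ∈ univ \ Ss T vt M ω, (l2 T H0 vt ft M Λ ω v - Real.exp (-1 + 1 / Λ)) ^ 2 :=
    sum_nonneg fun _ _ => sq_nonneg _
  have n3 : 0 ≤ ∑ x ∈ T, ∑ p ∈ range M, (pr fun u => Iv T H0 vt ft M Λ ω x p u ∧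
      ∃ v ∈ Fs ft Λ x p (ω x) u, ∃ v' ∈ Fs ft Λ x p (ω x) u, v ≠ v' ∧
        δ < ∑ x' ∈ T, ∑ p' ∈ range M, pr fun u' => Iv T H0 vt ft M Λ ω x' p' u' ∧
          v ∈ Fs ft Λ x' p' (ω x') u' ∧ v' ∈ Fs ft Λ x' p' (ω x') u') :=
    sum_nonneg fun _ _ => sum_nonneg fun _ _ => pr_nonneg _
  have n4 : 0 ≤ ∑ x ∈ T, ∑ p ∈ range M, ind (Dead T H0 vt m J ω x p) :=
    sum_nonneg fun _ _ => sum_nonneg fun _ _ => ind_nonneg _
  have hfin : ∀ a1 a2 a3 a4 : ℝ, 0 ≤ a1 → 0 ≤ a2 → 0 ≤ a3 → 0 ≤ a4 →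
      (a1 + a2 + a3) * (1 / δ) + a4 * (2 / η) ≤ R →
      a1 ≤ δ * R ∧ a2 ≤ δ * R ∧ a3 ≤ δ * R ∧ a4 ≤ η / 2 * R := by
    intro a1 a2 a3 a4 m1 m2 m3 m4 hle
    have q1 : (a1 + a2 + a3) * (1 / δ) ≤ R := by
      have : 0 ≤ a4 * (2 / η) := by positivity
      linarith
    have q2 : a4 * (2 / η) ≤ R := by
      have : 0 ≤ (a1 + a2 + a3) * (1 / δ) := by positivity
      linarith
    rw [mul_one_div, div_le_iff₀ hδ] at q1
    have q3 : a4 ≤ η / 2 * R := by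
      have q31 : a4 = η / 2 * (a4 * (2 / η)) := by field_simp
      rw [q31]
      exact mul_le_mul_of_nonneg_left q2 (by positivity)
    refine ⟨?_, ?_, ?_, q3⟩ <;> linarith
  exact ⟨ω, hfin _ _ _ _ n1 n2 n3 n4 hωR⟩

end Pool.Agent.N533.NS
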