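import Pool.Agent.N533.NS.Stm3

/-!
# The core theorem: everything together for fixed parameters
-/

set_option autoImplicit false
set_option linter.unusedSectionVars false

open Finset
open scoped Pointwise

namespace Pool.Agent.N533.NS

open Pool.Agent.N533.LC

/-- the numerical conditions -/
structure Num (m J Λ r : ℕ) (κ ε δ η w X Q d N : ℝ) : Prop where
  Qdef : Q = Λ * m ^ J
  hm : 2 ≤ m
  hΛ : 1 ≤ Λ
  hr : 1 ≤ r
  κ0 : 0 ≤ κ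
  ε0 : 0 < ε
  ε1 : ε ≤ 1
  X0 : 0 ≤ X
  w1 : 1 ≤ w
  δ0 : 0 < δ
  η0 : 0 < η
  n1 : 128 * (Λ * m ^ J) ^ 2 * X ≤ d
  n2 : 32 * (Λ * m ^ J) ^ 2 * X ≤ ε ^ 2 * N
  n3 : 8 * (m ^ J) ^ 2 * Λ ^ 2 * κ * X ≤ ε ^ 2
  n4 : (m ^ J) ^ 2 * Λ ^ 2 * κ ≤ ε / 2
  n5 : 1 / (Λ * m ^ J : ℝ) ≤ ε / 4
  h0 : 2 * ((11 * (J + 1) * N ^ 2) + (N + 1)) * Real.exp (-X) < 1
  s1 : 64 * (r + 1) ≤ Q
  s2 : 84 * (r * (15 * r + 1) * (16 * r + 17)) * w ^ 2 < Q
  s3 : 608 * r * (r + 1) ≤ d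
  s4 : 8 * Q * (w + 1) ≤ d
  s5 : 4 * (1344 * (r * (r + 1) * (16 * r + 17))) * w ≤ Q
  s6 : 2 * Q / d + (1344 * (r * (r + 1) * (16 * r + 17))) * w / Q ≤ ε
  e1 : 20 * Λ ^ 2 * ε ≤ 1
  e2 : 6000 * Λ ^ 3 * ε ≤ δ
  e3 : 8 * Λ ^ 2 * ε ≤ δ ^ 2
  e4 : 4 * m / Λ + 2 * m * m ^ J * κ ≤ η / 8
  e5 : 2 * m * J * (19 * r + 2) ≤ η / 8 * m ^ J
  e6 : 2 * (19 * r + 2) ≤ ε * Q
  e7 : 12 * ε ≤ η
  e8 : Λ * κ ≤ δ

section
variable {G Ω U : Type} [Group G] [Fintype G] [DecidableEq G] [Fintype Ω] [Fintype U]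
variable {S1 : Finset G} {σ : G} {m J h Λ : ℕ} {κ : ℝ} {q : Ω → G → ℕ → G} {q' : U → G → ℕ → G}

lemma HP.hit1 (hq : HP m J S1 κ q) (hσ : σ ∈ S1) {p : ℕ} (hp : p ∈ Ico 1 (m ^ J)) (z : G) :
    pr (fun a => q a σ p = z) ≤ κ := by
  rw [mem_Ico] at hp
  refine le_trans (pr_mono fun a ha => ?_) (hq.hit σ hσ 0 p (by omega) (by omega) (by omega) z)
  rw [hq.zero, inv_one, one_mul]
  exact ha

lemma HP.diff1 (hq : HP m J S1 κ q) (hσ : σ ∈ S1) {p p' : ℕ} (hp : p ∈ Ico 1 (m ^ J))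
    (hp' : p' ∈ Ico 1 (m ^ J)) (hne : p ≠ p') (g : G) :
    pr (fun a => (q a σ p)⁻¹ * q a σ p' = g) ≤ κ := by
  rw [mem_Ico] at hp hp'
  rcases lt_or_gt_of_ne hne with h1 | h1
  · exact hq.hit σ hσ p p' h1 (by omega) (by omega) g
  · refine le_trans (pr_mono fun a ha => ?_) (hq.hit σ hσ p' p h1 (by omega) (by omega) g⁻¹)
    rw [← ha]; group

/-- the filling path -/
def ftq (σ : G) (q : Ω → G → ℕ → G) (q' : U → G → ℕ → G) (a : Ω) (p : ℕ) (u : U) (c : ℕ) : G :=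
  q a σ p * q' u ((q a σ p)⁻¹ * q a σ (p + 1)) c

lemma HP.step0 (hq : HP m J S1 κ q) (hσ : σ ∈ S1) (a : Ω) {p : ℕ} (hp : p < m ^ J) :
    (q a σ p)⁻¹ * q a σ (p + 1) ∈ S1 := by
  have h1 := hq.step a σ hσ 0 (Nat.zero_le _) p (by simp) hp
  rwa [pow_zero] at h1

lemma ftq_hit (hq : HP m J S1 κ q) (hq' : HP m h S1 κ q') (hΛ : Λ + 1 = m ^ h) (hσ : σ ∈ S1)
    (a : Ω) {p : ℕ} (hp : p < m ^ J) {c : ℕ} (hc : c ∈ Icc 1 Λ) (z : G) :
    pr (fun u => ftq σ q q' a p u c = z) ≤ κ := by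
  rw [mem_Icc] at hc
  refine le_trans (pr_mono fun u hu => ?_) (hq'.hit1 (hq.step0 hσ a hp)
    (p := c) (by rw [mem_Ico]; omega) ((q a σ p)⁻¹ * z))
  unfold ftq at hu
  rw [← hu]; group

lemma ftq_diff (hq : HP m J S1 κ q) (hq' : HP m h S1 κ q') (hΛ : Λ + 1 = m ^ h) (hσ : σ ∈ S1)
    (a : Ω) {p : ℕ} (hp : p < m ^ J) {c : ℕ} (hc : c ∈ Icc 1 Λ) {c' : ℕ} (hc' : c' ∈ Icc 1 Λ)
    (hne : c ≠ c') (g : G) :
    pr (fun u => (ftq σ q q' a p u c)⁻¹ * ftq σ q q' a p u c' = g) ≤ κ := by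
  rw [mem_Icc] at hc hc'
  refine le_trans (pr_mono fun u hu => ?_) (hq'.diff1 (hq.step0 hσ a hp)
    (p := c) (p' := c') (by rw [mem_Ico]; omega) (by rw [mem_Ico]; omega) hne g)
  unfold ftq at hu
  rw [← hu]; group

lemma ftq_zero (hq' : HP m h S1 κ q') (a : Ω) (p : ℕ) (u : U) : ftq σ q q' a p u 0 = q a σ p := by
  unfold ftq
  rw [hq'.zero, mul_one]

lemma ftq_last (hq : HP m J S1 κ q) (hq' : HP m h S1 κ q') (hΛ : Λ + 1 = m ^ h) (hσ : σ ∈ S1)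
    (a : Ω) {p : ℕ} (hp : p < m ^ J) (u : U) :
    ftq σ q q' a p u (Λ + 1) = q a σ (p + 1) := by
  unfold ftq
  rw [hΛ, hq'.last u _ (hq.step0 hσ a hp)]; group

lemma ftq_step (hq : HP m J S1 κ q) (hq' : HP m h S1 κ q') (hΛ : Λ + 1 = m ^ h) (hσ : σ ∈ S1)
    (a : Ω) {p : ℕ} (hp : p < m ^ J) (u : U) {c : ℕ} (hc : c ≤ Λ) :
    (ftq σ q q' a p u c)⁻¹ * ftq σ q q' a p u (c + 1) ∈ S1 := by
  have h1 := hq'.step0 (hq.step0 hσ a hp) u (p := c) (by omega)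
  unfold ftq
  rw [show (q a σ p * q' u ((q a σ p)⁻¹ * q a σ (p + 1)) c)⁻¹ *
    (q a σ p * q' u ((q a σ p)⁻¹ * q a σ (p + 1)) (c + 1)) =
    (q' u ((q a σ p)⁻¹ * q a σ (p + 1)) c)⁻¹ * q' u ((q a σ p)⁻¹ * q a σ (p + 1)) (c + 1) by group]
  exact h1

end

section
variable {G Ω U : Type} [Group G] [Fintype G] [DecidableEq G] [Fintype Ω] [Fintype U]
variable [Nonempty Ω] [Nonempty U]
variable {S D S1 : Finset G} {σ : G} {m J h Λ r : ℕ} {κ ε δ η w X Q : ℝ}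
variable {q : Ω → G → ℕ → G} {q' : U → G → ℕ → G}

lemma th_of_num (hS : Sys (⊥ : Subgroup G) S) (hDS : D ⊆ S) (hq : HP m J S1 κ q)
    (hq' : HP m h S1 κ q') (hΛ : Λ + 1 = m ^ h) (hσ : σ ∈ S1)
    (H : Num m J Λ r κ ε δ η w X Q D.card (Fintype.card G)) :
    TH S D r (fun a p => q a σ p) (ftq σ q q') m J Λ κ ε X where
  hDS := hDS.trans (by
    have h1 := hS.pow_mono (n := r) (m := 1) H.hr
    rwa [pow_one] at h1)
  hr := H.hr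
  one := hS.one
  inv := hS.inv
  hm := H.hm
  hΛ := H.hΛ
  hκ := H.κ0
  hε := H.ε0
  hε1 := H.ε1
  hX := H.X0
  hit := fun p hp z => hq.hit1 hσ hp z
  diff := fun p hp p' hp' hne g => hq.diff1 hσ hp hp' hne g
  fhit := fun a p hp c hc z => ftq_hit hq hq' hΛ hσ a hp hc z
  fdiff := fun a p hp c hc c' hc' hne g => ftq_diff hq hq' hΛ hσ a hp hc hc' hne g
  n1 := H.n1
  n2 := H.n2
  n3 := H.n3
  n4 := H.n4
  n5 := H.n5

lemma T_le {T : Finset G} {vt : Ω → ℕ → G} {ft : Ω → ℕ → U → ℕ → G}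
    (hT : TP S D T σ r vt ft m J Λ ε)
    (H : Num m J Λ r κ ε δ η w X Q D.card (Fintype.card G)) :
    (T.card : ℝ) * Q ≤ 2 * Fintype.card G := by
  have h1 := (abs_le.1 hT.size).2
  have h2 : (0 : ℝ) ≤ Fintype.card G := Nat.cast_nonneg _
  have h3 := mul_le_mul_of_nonneg_right H.ε1 h2
  rw [H.Qdef]
  linarith

lemma hyp_of_num {T H0 : Finset G}
    (hT : TP S D T σ r (fun a p => q a σ p) (ftq σ q q') m J Λ ε)
    (hq : HP m J S1 κ q)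
    (hq' : HP m h S1 κ q') (hΛ : Λ + 1 = m ^ h) (hσ : σ ∈ S1)
    (H : Num m J Λ r κ ε δ η w X Q D.card (Fintype.card G))
    (hH0 : (H0.card : ℝ) ≤ (19 * r + 2) * T.card) :
    Hyp T H0 (fun a p => q a σ p) (ftq σ q q') (m ^ J) Λ κ ε where
  Λ_pos := H.hΛ
  M_pos := Nat.one_le_pow _ _ (by have := H.hm; omega)
  κ_nonneg := H.κ0
  ε_pos := H.ε0
  ε_le := H.ε1
  κ_small := by
    push_cast
    have := H.n4
    have := H.ε0
    linarith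
  hit := fun p hp z => hq.hit1 hσ hp z
  fhit := fun a p hp c hc z => ftq_hit hq hq' hΛ hσ a hp hc z
  finj := by
    intro a p hp c hc c' hc' hne
    refine le_trans (pr_mono fun u hu => ?_) (ftq_diff hq hq' hΛ hσ a hp hc hc' hne 1)
    rw [hu, inv_mul_cancel]
  size := by
    push_cast
    exact hT.size
  dens := hT.dens
  pair := hT.pair
  g1 := hT.g1
  g2 := hT.g2
  H0_card := by
    have hQ : (0 : ℝ) < Q := by
      have := H.s1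
      have : (0 : ℝ) ≤ r := Nat.cast_nonneg _
      linarith
    have h1 := T_le hT H
    have h2 := H.e6
    have h3 : (0 : ℝ) ≤ 19 * r + 2 := by positivity
    have h4 : (H0.card : ℝ) * Q ≤ (ε * Fintype.card G) * Q := by
      calc (H0.card : ℝ) * Q ≤ ((19 * r + 2) * T.card) * Q :=
            mul_le_mul_of_nonneg_right hH0 hQ.le
        _ = (19 * r + 2) * (T.card * Q) := by ring
        _ ≤ (19 * r + 2) * (2 * Fintype.card G) := mul_le_mul_of_nonneg_left h1 h3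
        _ = (2 * (19 * r + 2)) * Fintype.card G := by ring
        _ ≤ (ε * Q) * Fintype.card G := mul_le_mul_of_nonneg_right h2 (Nat.cast_nonneg _)
        _ = _ := by ring
    exact le_of_mul_le_mul_right h4 hQ

end

end Pool.Agent.N533.NS
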