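import Pool.Agent.N533.LC.Basic
import Pool.Agent.N533.LC.Cells

/-!
# Project NS: the skeleton cycle - statement
-/

set_option autoImplicit false

open Finset
open scoped Pointwise

namespace Pool.Agent.N533.NS

open Pool.Agent.N533.LC

variable {G : Type} [Group G] [Fintype G] [DecidableEq G]

open Classical in
/-- the ball of radius `n` around `c` -/
noncomputable def Bal (S : Finset G) (c : G) (n : ℕ) : Finset G :=
  univ.filter fun x => c⁻¹ * x ∈ S ^ n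

open Classical in
/-- the number of pairs `(k, g)`, `k ∈ D`, `g ∈ S ^ r` such that the chosen walk from `y * k` to
`y * k * g` passes through `z` -/
noncomputable def hm (S D : Finset G) (r : ℕ) (y z : G) : ℕ :=
  ((D ×ˢ (S ^ r)).filter fun p => ∃ i ≤ r, y * p.1 * wd S r p.2 i = z).card

/-- **Task S.** The skeleton cycle. -/
def SkelStm : Prop := ∀ (G : Type) [Group G] [Fintype G] [DecidableEq G] (S D T T' X : Finset G)
  (σ : G) (cell : G → G) (V : G → ℕ) (r t β e : ℕ),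
  Sys (⊥ : Subgroup G) S → D ⊆ S → Subgroup.closure (S : Set G) = ⊤ → 1 ≤ r → σ ∈ D → σ ≠ 1 →
  T' ⊆ T → (∀ x ∈ T', x * σ ∉ T) →
  -- the net and the cells
  (∀ x ∈ X, ∀ x' ∈ X, x ≠ x' → x⁻¹ * x' ∉ S ^ (2 * r)) → (∀ g : G, ∃ x ∈ X, x⁻¹ * g ∈ S ^ (2 * r)) →
  (∀ x, cell x ∈ X ∧ (cell x)⁻¹ * x ∈ S ^ (2 * r)) →
  -- few elements of `T` in every ball, little harm by and to the elements of `T`
  (∀ c, (T ∩ Bal S c (48 * r)).card ≤ t) →
  (∀ z, ∑ x ∈ T, hm S D r x z ≤ β) → (∀ z, ∑ x ∈ T, hm S D r (x * σ) z ≤ β) →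
  (∀ y, 16 * (∑ z ∈ T, hm S D r y z + ∑ z ∈ T, hm S D r y (z * σ)) ≤ D.card * (S ^ r).card) →
  -- numbers
  2 * ((15 * r + 1) * (S ^ (15 * r)).card * (21 * r * t * (16 * r + 17))) < (S ^ r).card ^ 2 →
  16 * (21 * r * t * (16 * r + 17)) * β ≤ e * (D.card * (S ^ r).card) →
  608 * r * (r + 1) ≤ D.card →
  -- the number of visits of every cell
  (∀ p ∈ X, 2 * (X ∩ Bal S p (44 * r)).card ≤ V p ∧ V p + e < (T'.filter fun x => cell x = p).card) →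
  ∃ (n : ℕ) (x : ℕ → G) (hp : ℕ → List G), n = ∑ p ∈ X, V p ∧ 1 ≤ n ∧
    (∀ i < n, x i ∈ T') ∧ (∀ i < n, ∀ j < n, x i = x j → i = j) ∧
    (∀ i < n, (x i * σ :: (hp i ++ [x ((i + 1) % n)])).IsChain fun a b => a⁻¹ * b ∈ S) ∧
    (∀ i < n, (hp i).Nodup ∧ (hp i).length ≤ 19 * r ∧ ∀ z ∈ hp i, z ∉ T ∧ z * σ⁻¹ ∉ T) ∧
    (∀ i < n, ∀ j < n, i ≠ j → List.Disjoint (hp i) (hp j))

end Pool.Agent.N533.NS
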