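import Pool.Agent.N533.NS.Core
import Pool.Agent.N533.NS.StmS

/-!
# The core theorem: the list
-/

set_option autoImplicit false
set_option linter.unusedSectionVars false

open Finset
open scoped Pointwise

namespace Pool.Agent.N533.NS

open Pool.Agent.N533.LC

section
variable {G Ω U : Type} [Group G] [Fintype G] [DecidableEq G] [Fintype Ω] [Fintype U]
variable [Nonempty Ω] [Nonempty U]
variable {S S1 : Finset G} {σ : G} {m J h Λ : ℕ} {κ : ℝ}
variable {q : Ω → G → ℕ → G} {q' : U → G → ℕ → G}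

/-- **Assembly.** -/
theorem list_of_match (hasm : AsmStm) {T H0 : Finset G} (hS1 : S1 ⊆ S) (hm : 2 ≤ m)
    (hq : HP m J S1 κ q) (hq' : HP m h S1 κ q') (hΛ : Λ + 1 = m ^ h) (hσ : σ ∈ S1)
    {n : ℕ} {x : ℕ → G} {hp : ℕ → List G} (hn : 1 ≤ n)
    (hx : ∀ i < n, x i ∈ T ∧ x i * σ ∉ T) (hinj : ∀ i < n, ∀ j < n, x i = x j → i = j)
    (hch : ∀ i < n, (x i * σ :: (hp i ++ [x ((i + 1) % n)])).IsChain fun a b => a⁻¹ * b ∈ S)
    (hhp : ∀ i < n, (hp i).Nodup ∧ ∀ z ∈ hp i, z ∉ T ∧ z * σ⁻¹ ∉ T)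
    (hdis : ∀ i < n, ∀ j < n, i ≠ j → List.Disjoint (hp i) (hp j))
    (hH0 : ∀ i < n, x i ∈ H0 ∧ x i * σ ∈ H0 ∧ ∀ z ∈ hp i, z ∈ H0)
    (ω : G → Ω) (M' : Finset (G × ℕ)) (u : G × ℕ → U)
    (hM' : ∀ l ∈ M', l.1 ∈ T ∧ l.2 < m ^ J ∧ (∃ i < n, x i = l.1) ∧
      ¬ Dead T H0 (fun a p => q a σ p) m J ω l.1 l.2)
    (hI : ∀ l ∈ M', Iv T H0 (fun a p => q a σ p) (ftq σ q q') (m ^ J) Λ ω l.1 l.2 (u l))
    (hd : ∀ l ∈ M', ∀ l' ∈ M', l ≠ l' → Disjoint (Fs (ftq σ q q') Λ l.1 l.2 (ω l.1) (u l))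
      (Fs (ftq σ q q') Λ l'.1 l'.2 (ω l'.1) (u l'))) :
    ∃ l : List G, l.Nodup ∧ l.IsChain (fun a b => a⁻¹ * b ∈ S) ∧
      (∃ y z, l.head? = some y ∧ l.getLast? = some z ∧ z⁻¹ * y ∈ S) ∧ Λ * M'.card ≤ l.length := by
  classical
  choose! idx hidx using fun (l : G × ℕ) (hl : l ∈ M') => (hM' l hl).2.2.1
  set enc : G × ℕ → ℕ × ℕ := fun l => (idx l, l.2) with henc
  have hencinj : Set.InjOn enc (M' : Set (G × ℕ)) := by
    intro l hl l' hl' hll
    rw [mem_coe] at hl hl'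
    simp only [henc, Prod.mk.injEq] at hll
    have h1 := (hidx l hl).2
    have h2 := (hidx l' hl').2
    rw [hll.1, h2] at h1
    exact Prod.ext h1.symm hll.2
  set Lf : Finset (ℕ × ℕ) := M'.image enc with hLf
  have hcard : Lf.card = M'.card := card_image_of_injOn hencinj
  have hrep : ∀ l ∈ Lf, (x l.1, l.2) ∈ M' ∧ l.1 < n ∧ idx (x l.1, l.2) = l.1 := by
    intro l hl
    rw [hLf, mem_image] at hl
    obtain ⟨l', hl', rfl⟩ := hl
    have h1 := hidx l' hl'
    have h2 : (x (idx l'), l'.2) = l' := Prod.ext h1.2 rfl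
    simp only [henc]
    rw [h2]
    exact ⟨hl', h1.1, rfl⟩
  -- the good nodes
  obtain ⟨l, h1, h2, h3, h4⟩ := hasm G S H0 σ n m J Λ x hp (fun i p => x i * q (ω (x i)) σ p)
    (fun i p c => x i * ftq σ q q' (ω (x i)) p (u (x i, p)) c)
    (fun i k p => i < n ∧ m ^ (k + 1) ∣ p ∧ p < m ^ J ∧
      ¬ Bad T H0 (fun a p => q a σ p) m J ω (x i) k p) Lf hn hm hinj
    (by
      intro i hi j hj h
      exact (hx j hj).2 (h ▸ (hx i hi).1))
    hch (fun i hi => (hhp i hi).1)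
    (by
      intro i hi z hz j hj
      have h1 := (hhp i hi).2 z hz
      refine ⟨?_, ?_⟩
      · rintro rfl
        exact h1.1 (hx j hj).1
      · rintro rfl
        apply h1.2
        rw [mul_inv_cancel_right]
        exact (hx j hj).1)
    hdis hH0
    (by
      intro i hi
      refine ⟨?_, ?_⟩
      · simp only [hq.zero, mul_one]
      · simp only [hq.last _ σ hσ])
    (by
      intro i hi k hk p hp hpM
      have h1 := hS1 (hq.step (ω (x i)) σ hσ k hk p hp hpM)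
      rw [show (x i * q (ω (x i)) σ p)⁻¹ * (x i * q (ω (x i)) σ (p + m ^ k)) =
        (q (ω (x i)) σ p)⁻¹ * q (ω (x i)) σ (p + m ^ k) by group]
      exact h1)
    (by
      intro i hi k hk p hg b hb1 hbm
      obtain ⟨-, hdvd, hpM, hbad⟩ := hg
      unfold Bad at hbad
      push Not at hbad
      have h1 := hbad b hb1 hbm
      refine ⟨h1.1, ?_⟩
      intro i' hi' p' hp' hdv heq
      by_cases h3 : (x i', p') = (x i, p + b * m ^ k)
      · rw [Prod.mk.injEq] at h3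
        exact ⟨hinj _ hi' _ hi h3.1, h3.2⟩
      · exact absurd heq (h1.2 (x i') (hx i' hi').1 p' hp' hdv h3))
    (by
      intro l hl
      obtain ⟨hl1, hl2, hl3⟩ := hrep l hl
      have h4 := hM' _ hl1
      refine ⟨hl2, h4.2.1, ?_⟩
      intro k hk
      refine ⟨hl2, dvd_mul_right _ _, lt_of_le_of_lt (Nat.mul_div_le _ _) h4.2.1, ?_⟩
      intro hbad
      exact h4.2.2.2 ⟨k, hk, hbad⟩)
    (by
      intro l hl
      obtain ⟨hl1, hl2, hl3⟩ := hrep l hl
      have h4 := hM' _ hl1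
      refine ⟨?_, ?_, ?_⟩
      · simp only [ftq_zero hq']
      · rw [ftq_last hq hq' hΛ hσ _ h4.2.1]
      · intro c hc
        have h5 := hS1 (ftq_step hq hq' hΛ hσ (ω (x l.1)) h4.2.1 (u (x l.1, l.2)) hc)
        rw [show (x l.1 * ftq σ q q' (ω (x l.1)) l.2 (u (x l.1, l.2)) c)⁻¹ *
          (x l.1 * ftq σ q q' (ω (x l.1)) l.2 (u (x l.1, l.2)) (c + 1)) =
          (ftq σ q q' (ω (x l.1)) l.2 (u (x l.1, l.2)) c)⁻¹ *
          ftq σ q q' (ω (x l.1)) l.2 (u (x l.1, l.2)) (c + 1) by group]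
        exact h5)
    (by
      intro l hl c hc
      obtain ⟨hl1, hl2, hl3⟩ := hrep l hl
      have h5 := hI _ hl1
      have hmem : x l.1 * ftq σ q q' (ω (x l.1)) l.2 (u (x l.1, l.2)) c ∈
          Fs (ftq σ q q') Λ (x l.1) l.2 (ω (x l.1)) (u (x l.1, l.2)) := mem_image_of_mem _ hc
      refine ⟨disjoint_left.1 h5.2.2 hmem, ?_⟩
      intro i' hi' p' hp' heq
      refine disjoint_left.1 h5.2.1 hmem ?_
      rw [heq]
      unfold Ss
      rw [mem_biUnion]
      exact ⟨x i', (hx i' hi').1, mem_image_of_mem _ hp'⟩)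
    (by
      intro l hl l' hl' c hc c' hc' heq
      obtain ⟨hl1, hl2, hl3⟩ := hrep l hl
      obtain ⟨hl1', hl2', hl3'⟩ := hrep l' hl'
      have hmem : x l.1 * ftq σ q q' (ω (x l.1)) l.2 (u (x l.1, l.2)) c ∈
          Fs (ftq σ q q') Λ (x l.1) l.2 (ω (x l.1)) (u (x l.1, l.2)) := mem_image_of_mem _ hc
      have hmem' : x l'.1 * ftq σ q q' (ω (x l'.1)) l'.2 (u (x l'.1, l'.2)) c' ∈
          Fs (ftq σ q q') Λ (x l'.1) l'.2 (ω (x l'.1)) (u (x l'.1, l'.2)) :=
        mem_image_of_mem _ hc'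
      have hll : l = l' := by
        by_contra hne
        have hne' : (x l.1, l.2) ≠ (x l'.1, l'.2) := by
          intro h6
          apply hne
          have h7 : idx (x l.1, l.2) = idx (x l'.1, l'.2) := by rw [h6]
          rw [hl3, hl3'] at h7
          rw [Prod.mk.injEq] at h6
          exact Prod.ext h7 h6.2
        have h8 := disjoint_left.1 (hd _ hl1 _ hl1' hne') hmem
        simp only at heq h8
        rw [heq] at h8
        exact h8 hmem'
      subst hll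
      refine ⟨rfl, ?_⟩
      have h5 := (hI _ hl1).1
      unfold Fs at h5
      have h9 : (Icc 1 Λ).card = Λ := by simp
      have h10 : Set.InjOn (fun c => x l.1 * ftq σ q q' (ω (x l.1)) l.2 (u (x l.1, l.2)) c)
          (Icc 1 Λ : Set ℕ) := by
        have := (card_image_iff (s := Icc 1 Λ)
          (f := fun c => x l.1 * ftq σ q q' (ω (x l.1)) l.2 (u (x l.1, l.2)) c)).1
            (by rw [h9]; exact h5)
        simpa using this
      exact h10 (by simpa using hc) (by simpa using hc') heq)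
  exact ⟨l, h1, h2, h3, by rwa [hcard] at h4⟩

end

end Pool.Agent.N533.NS
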