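import Pool.Agent.N533.NS.Core2

/-!
# The core theorem for fixed parameters
-/

set_option autoImplicit false
set_option linter.unusedSectionVars false

open Finset
open scoped Pointwise

namespace Pool.Agent.N533.NS

open Pool.Agent.N533.LC

section
variable {G Ω U : Type} [Group G] [Fintype G] [DecidableEq G] [Fintype Ω] [Fintype U]
variable [Nonempty Ω] [Nonempty U]
variable {S D S1 : Finset G} {σ : G} {m J h Λ r : ℕ} {κ ε δ η w X Q : ℝ}
variable {q : Ω → G → ℕ → G} {q' : U → G → ℕ → G}

theorem core_list (hsel : SelStm) (hsk : Skel2Stm) (hconf : ConfStm) (hmatch : MatchStm)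
    (hasm : AsmStm) (hdet : DetAt Λ η δ) (hS : Sys (⊥ : Subgroup G) S)
    (hgen : Subgroup.closure (S : Set G) = ⊤) (hDS : D ⊆ S) (hS1 : S1 ⊆ D)
    (hq : HP m J S1 κ q) (hq' : HP m h S1 κ q') (hΛ : Λ + 1 = m ^ h) (hσ : σ ∈ S1)
    (hσ1 : σ ≠ 1) (H : Num m J Λ r κ ε δ η w X Q D.card (Fintype.card G))
    (hw : ((S ^ (48 * r)).card : ℝ) ≤ w * (S ^ r).card) :
    ∃ l : List G, l.Nodup ∧ l.IsChain (fun a b => a⁻¹ * b ∈ S) ∧
      (∃ y z, l.head? = some y ∧ l.getLast? = some z ∧ z⁻¹ * y ∈ S) ∧
      (1 - 7 * η) * Fintype.card G ≤ l.length := by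
  classical
  have hε0 := H.ε0
  have hη0 := H.η0
  have he7 := H.e7
  have hN : (1 : ℝ) ≤ Fintype.card G := by exact_mod_cast Fintype.card_pos (α := G)
  have hm := H.hm
  have hM1 : 1 ≤ m ^ J := Nat.one_le_pow _ _ (by omega)
  have hM1' : (1 : ℝ) ≤ (m : ℝ) ^ J := by exact_mod_cast hM1
  have hΛ1 : (1 : ℝ) ≤ Λ := by exact_mod_cast H.hΛ
  have hr1 : (1 : ℝ) ≤ r := by exact_mod_cast H.hr
  have hQ1 : 1 ≤ Q := by
    have := H.s1
    linarith
  -- the slots
  obtain ⟨T, hT⟩ := exists_T hsel hS (th_of_num hS hDS hq hq' hΛ hσ H) hσ1 (by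
    have := H.h0
    exact this)
  -- the skeleton
  have hD1 : 608 * r * (r + 1) ≤ D.card := by
    have := H.s3
    exact_mod_cast this
  obtain ⟨n, x, hp, hn, hx, hinj, hch, hhp, hdis, hnQ⟩ :=
    hsk G Ω U S D T σ r _ _ m J Λ ε w Q _ hT H.Qdef rfl hS hDS hgen H.hr (hS1 hσ) hσ1 hQ1 H.w1
      H.ε0 hw H.s1 H.s2 hD1 H.s4 (by have := H.s5; linarith) (by have := H.s6; linarith)
  -- the forbidden set
  set H0 : Finset G := (T ∪ T.image (fun y => y * σ)) ∪ (range n).biUnion fun i => (hp i).toFinset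
    with hH0
  have hnT : (n : ℝ) ≤ T.card := by
    have h1 : (range n).card ≤ T.card := by
      refine card_le_card_of_injOn x (fun i hi => ?_) ?_
      · exact (hx i (by simpa using hi)).1
      · intro i hi j hj hij
        exact hinj i (by simpa using hi) j (by simpa using hj) hij
    rw [card_range] at h1
    exact_mod_cast h1
  have hH0c : (H0.card : ℝ) ≤ (19 * r + 2) * T.card := by
    have h1 : H0.card ≤ (T.card + T.card) + n * (19 * r) := by
      refine (card_union_le _ _).trans (add_le_add ((card_union_le _ _).trans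
        (add_le_add le_rfl card_image_le)) ?_)
      have h2 : ((range n).biUnion fun i => (hp i).toFinset).card ≤ ∑ i ∈ range n, 19 * r := by
        refine card_biUnion_le.trans (sum_le_sum fun i hi => ?_)
        exact (List.toFinset_card_le _).trans (hhp i (by simpa using hi)).2.1
      rw [sum_const, card_range, smul_eq_mul] at h2
      exact h2
    have h2 : (H0.card : ℝ) ≤ (T.card + T.card) + n * (19 * r) := by exact_mod_cast h1
    have h3 : (n : ℝ) * (19 * r) ≤ T.card * (19 * r) := by gcongr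
    linarith
  have hyp := hyp_of_num hT hq hq' hΛ hσ H hH0c
  -- the configuration
  set R : ℝ := T.card * (m : ℝ) ^ J with hR
  have hTn : (0 : ℝ) ≤ T.card := Nat.cast_nonneg _
  have hcast : ((m ^ J : ℕ) : ℝ) = (m : ℝ) ^ J := by push_cast; rfl
  obtain ⟨ω, o1, o2, o3, o4⟩ := hconf G Ω U T H0 _ _ m J Λ κ ε δ η hyp H.hm H.δ0 H.η0 H.e1
    (by
      intro p hp p' hp' hne
      refine le_trans (pr_mono fun a ha => ?_) (hq.diff1 hσ hp hp' hne 1)
      rw [ha, inv_mul_cancel])
    hT.lev H.e2 H.e3 H.e4 (by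
      have h1 := H.e5
      have h2 : 2 * m * J * (H0.card : ℝ) ≤ 2 * m * J * ((19 * r + 2) * T.card) := by gcongr
      have h3 : 2 * m * J * ((19 * r + 2) * T.card) ≤ η / 8 * (T.card * (m : ℝ) ^ J) := by
        calc 2 * m * J * ((19 * r + 2) * (T.card : ℝ)) = (2 * m * J * (19 * r + 2)) * T.card := by
              ring
          _ ≤ (η / 8 * m ^ J) * T.card := by gcongr
          _ = _ := by ring
      have h4 : 0 ≤ 2 * m * J * (H0.card : ℝ) := by positivity
      exact (div_le_self h4 hΛ1).trans (h2.trans h3))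
  -- the leaves
  set A : Finset (G × ℕ) := (T ×ˢ range (m ^ J)).filter fun l => (∃ i < n, x i = l.1) ∧
    ¬ Dead T H0 (fun a p => q a σ p) m J ω l.1 l.2 with hA
  have hAc : (1 - η) * (T.card * (m : ℝ) ^ J) ≤ A.card := by
    -- the visited elements
    set Tn := T.filter fun y => ¬ ∃ i < n, x i = y with hTn'
    have hvis : (Tn.card : ℝ) ≤ T.card - n := by
      have h1 : n ≤ (T.filter fun y => ∃ i < n, x i = y).card := by
        have h2 : ((range n).image x).card = n := by
          rw [card_image_of_injOn, card_range]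
          intro i hi j hj hij
          exact hinj i (by simpa using hi) j (by simpa using hj) hij
        refine h2.symm.le.trans ?_
        refine card_le_card fun y hy => ?_
        rw [mem_image] at hy
        obtain ⟨i, hi, rfl⟩ := hy
        rw [mem_range] at hi
        rw [mem_filter]
        exact ⟨(hx i hi).1, i, hi, rfl⟩
      have h2 := card_filter_add_card_filter_not (s := T) (fun y => ∃ i < n, x i = y)
      have h3 : (n : ℝ) + Tn.card ≤ T.card := by
        rw [← h2]
        push_cast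
        have : (n : ℝ) ≤ (T.filter fun y => ∃ i < n, x i = y).card := by exact_mod_cast h1
        linarith
      linarith
    -- the dead edges
    set B := (T ×ˢ range (m ^ J)).filter fun l : G × ℕ =>
      Dead T H0 (fun a p => q a σ p) m J ω l.1 l.2 with hB
    have hBc : (B.card : ℝ) = ∑ x ∈ T, ∑ p ∈ range (m ^ J),
        ind (Dead T H0 (fun a p => q a σ p) m J ω x p) := by
      rw [hB, card_filter, sum_product]
      push_cast
      rfl
    have hsub : (T ×ˢ range (m ^ J)) \ A ⊆ Tn ×ˢ range (m ^ J) ∪ B := by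
      intro l hl
      rw [mem_sdiff, hA, mem_filter, not_and] at hl
      have h1 := hl.2 hl.1
      rw [mem_union]
      by_cases h2 : ∃ i < n, x i = l.1
      · right
        rw [hB, mem_filter]
        refine ⟨hl.1, ?_⟩
        by_contra h3
        exact h1 ⟨h2, h3⟩
      · left
        rw [mem_product] at hl ⊢
        rw [hTn', mem_filter]
        exact ⟨⟨hl.1.1, h2⟩, hl.1.2⟩
    have hc1 : ((T ×ˢ range (m ^ J)).card : ℝ) ≤ A.card + (Tn.card * (m : ℝ) ^ J + B.card) := by
      have h1 : (T ×ˢ range (m ^ J)).card ≤ A.card + (Tn.card * m ^ J + B.card) := by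
        have hAsub : A ⊆ T ×ˢ range (m ^ J) := filter_subset _ _
        have h2 := card_sdiff_add_card_eq_card hAsub
        have h3 := (card_le_card hsub).trans (card_union_le _ _)
        rw [card_product, card_range] at h3
        omega
      exact_mod_cast h1
    rw [card_product, card_range] at hc1
    push_cast at hc1
    rw [hBc] at hc1
    have hsz := abs_le.1 hT.size
    have hε20 : ε ≤ 1 / 20 := by
      have h1 := H.e1
      have h2 : (1 : ℝ) ≤ (Λ : ℝ) ^ 2 := one_le_pow₀ hΛ1
      nlinarith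
    have hMpos : (0 : ℝ) < (m : ℝ) ^ J := by linarith
    have hTnle : (T.card - n : ℝ) ≤ η / 2 * T.card := by
      have h1 : (T.card - n : ℝ) * Q ≤ (η / 2 * T.card) * Q := by
        have h2 : (T.card : ℝ) * Q ≤ (1 + ε) * Fintype.card G := by
          rw [H.Qdef]
          linarith [hsz.2]
        have h3 : (Fintype.card G : ℝ) ≤ 2 * (T.card * Q) := by
          have h4 : (1 - ε) * (Fintype.card G : ℝ) ≤ T.card * Q := by
            rw [H.Qdef]
            linarith [hsz.1]
          nlinarith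
        have h5 : (T.card - n : ℝ) * Q ≤ 3 * ε * Fintype.card G := by linarith
        have h6 : 3 * ε * (Fintype.card G : ℝ) ≤ 3 * ε * (2 * (T.card * Q)) := by gcongr
        have h7 : 0 ≤ (T.card : ℝ) * Q := by positivity
        nlinarith
      exact le_of_mul_le_mul_right h1 (by linarith)
    have h8 : (Tn.card : ℝ) * (m : ℝ) ^ J ≤ (η / 2 * T.card) * (m : ℝ) ^ J :=
      mul_le_mul_of_nonneg_right (hvis.trans hTnle) hMpos.le
    linarith
  obtain ⟨M', hM'A, u, hI, hd, hM'c⟩ := hmatch G Ω U T H0 _ _ (m ^ J) Λ κ ε δ η hdet hyp H.e8 ω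
    (by rw [hcast]; exact o1) (by rw [hcast]; exact o2) (by rw [hcast]; exact o3) A
    (filter_subset _ _) (by rw [hcast]; exact hAc)
  obtain ⟨l, l1, l2, l3, l4⟩ := list_of_match hasm (hS1.trans hDS) H.hm hq hq' hΛ hσ hn hx hinj hch
    (fun i hi => ⟨(hhp i hi).1, (hhp i hi).2.2⟩) hdis
    (by
      intro i hi
      refine ⟨?_, ?_, ?_⟩
      · rw [hH0, mem_union, mem_union]
        exact Or.inl (Or.inl (hx i hi).1)
      · rw [hH0, mem_union, mem_union]
        exact Or.inl (Or.inr (mem_image_of_mem _ (hx i hi).1))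
      · intro z hz
        rw [hH0, mem_union]
        right
        rw [mem_biUnion]
        exact ⟨i, mem_range.2 hi, List.mem_toFinset.2 hz⟩)
    ω M' u
    (by
      intro l hl
      have h1 := hM'A hl
      rw [hA, mem_filter, mem_product, mem_range] at h1
      exact ⟨h1.1.1, h1.1.2, h1.2.1, h1.2.2⟩) hI hd
  refine ⟨l, l1, l2, l3, ?_⟩
  have h4 : (Λ : ℝ) * M'.card ≤ l.length := by exact_mod_cast l4
  refine le_trans ?_ h4
  rw [hcast] at hM'c
  have h5 := (abs_le.1 hT.size).1
  have h6 : (1 - ε) * Fintype.card G ≤ Λ * (T.card * (m : ℝ) ^ J) := by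
    calc (1 - ε) * (Fintype.card G : ℝ) ≤ T.card * (m : ℝ) ^ J * Λ := by linarith
      _ = _ := by ring
  by_cases h7 : 7 * η ≤ 1
  · have h8 : (0 : ℝ) ≤ 1 - 6 * η := by linarith
    have h9 : 1 - 7 * η ≤ (1 - 6 * η) * (1 - ε) := by nlinarith [mul_pos hη0 hε0]
    calc (1 - 7 * η) * (Fintype.card G : ℝ) ≤ ((1 - 6 * η) * (1 - ε)) * Fintype.card G := by
          gcongr
      _ = (1 - 6 * η) * ((1 - ε) * Fintype.card G) := by ring
      _ ≤ (1 - 6 * η) * (Λ * (T.card * (m : ℝ) ^ J)) := by gcongr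
      _ = Λ * ((1 - 6 * η) * (T.card * (m : ℝ) ^ J)) := by ring
      _ ≤ Λ * M'.card := by gcongr
  · have h8 : (1 - 7 * η) * (Fintype.card G : ℝ) ≤ 0 := by nlinarith
    exact h8.trans (by positivity)

end

end Pool.Agent.N533.NS
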