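import Mathlib

/-!
# Project NS: near-spanning cycles in Cayley graphs of polynomial degree - statements
-/

set_option autoImplicit false

open Finset
open scoped Pointwise

namespace Pool.Agent.N533.NS

/-- uniform average over a finite type -/
noncomputable def av {α : Type} [Fintype α] (f : α → ℝ) : ℝ := (∑ a, f a) / Fintype.card α

open Classical in
/-- uniform probability -/
noncomputable def pr {α : Type} [Fintype α] (p : α → Prop) : ℝ := av fun a => if p a then 1 else 0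

/-- A family (indexed by the finite type `U`) of paths with `m` edges from `1` to `s` with steps in
`S`, for every `s ∈ S`; a prescribed difference of two of its vertices has probability at most
`κ`. -/
structure Ker {G : Type} [Group G] (m : ℕ) (S : Finset G) (κ : ℝ) {U : Type} [Fintype U]
    (P : U → G → ℕ → G) : Prop where
  zero : ∀ u s, P u s 0 = 1
  last : ∀ u, ∀ s ∈ S, P u s m = s
  step : ∀ u, ∀ s ∈ S, ∀ b < m, (P u s b)⁻¹ * P u s (b + 1) ∈ S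
  inj : ∀ u, ∀ s ∈ S, ∀ b b', b < b' → b' ≤ m → P u s b ≠ P u s b'
  hit : ∀ s ∈ S, ∀ b b', b < b' → b' ≤ m → ¬ (b = 0 ∧ b' = m) → ∀ g : G,
    pr (fun u => (P u s b)⁻¹ * P u s b' = g) ≤ κ

/-- **Task W.** Existence of the families of short paths. -/
def WStm : Prop := ∀ ε : ℝ, 0 < ε → ∃ K d0 : ℕ, ∀ (G : Type) [Group G] [Fintype G] [DecidableEq G]
  (D : Finset G), (∀ x ∈ D, x⁻¹ ∈ D) → (1 : G) ∉ D → d0 ≤ D.card →
  (Fintype.card G : ℝ) ^ ε ≤ D.card →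
  ∃ m : ℕ, 2 ≤ m ∧ m ≤ K ∧ ∃ S ⊆ D, S.Nonempty ∧
    ∃ (U : Type) (_ : Fintype U) (_ : Nonempty U) (P : U → G → ℕ → G),
      Ker m S ((D.card : ℝ) ^ (-(1 / 2) : ℝ)) P

/-- A random path with `m ^ J` edges from `1` to `s` (for every `s ∈ S`), such that the vertices
at the multiples of `m ^ k` form a path as well (for every `k ≤ J`). -/
structure HP {G : Type} [Group G] (m J : ℕ) (S : Finset G) (κ : ℝ) {Ω : Type} [Fintype Ω]
    (q : Ω → G → ℕ → G) : Prop where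
  zero : ∀ a s, q a s 0 = 1
  last : ∀ a, ∀ s ∈ S, q a s (m ^ J) = s
  step : ∀ a, ∀ s ∈ S, ∀ k ≤ J, ∀ p, m ^ k ∣ p → p < m ^ J → (q a s p)⁻¹ * q a s (p + m ^ k) ∈ S
  hit : ∀ s ∈ S, ∀ p p', p < p' → p' ≤ m ^ J → ¬ (p = 0 ∧ p' = m ^ J) → ∀ g : G,
    pr (fun a => (q a s p)⁻¹ * q a s p' = g) ≤ κ

/-- The random hierarchical paths exist. -/
def TreeStm : Prop := ∀ (G : Type) [Group G] [DecidableEq G] (m : ℕ) (S : Finset G) (κ : ℝ)
  (U : Type) [Fintype U] [Nonempty U] (P : U → G → ℕ → G), 2 ≤ m → 0 ≤ κ → Ker m S κ P →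
  ∀ J : ℕ, ∃ (Ω : Type) (_ : Fintype Ω) (_ : Nonempty Ω) (q : Ω → G → ℕ → G), HP m J S κ q

open Classical in
/-- **Task DET.** From the second moment conditions to disjoint sets, by the weighted nibble. -/
def DetStm : Prop := ∀ (Λ : ℕ) (η : ℝ), 0 < η → η ≤ 1 / 10 → 1 ≤ η * Λ → ∃ ε : ℝ, 0 < ε ∧
  ∀ (G L U : Type) [Fintype G] [DecidableEq G] [Fintype L] [DecidableEq L] [Fintype U]
    [DecidableEq U] [Nonempty U] (F : L → U → Finset G) (I : L → U → Prop) (V : Finset G),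
    (∀ l u, I l u → (F l u).card = Λ ∧ F l u ⊆ V) →
    ∑ l, (pr (fun u => I l u) - Real.exp (-1)) ^ 2 ≤ ε * Fintype.card L →
    ∑ v ∈ V, ((∑ l, pr (fun u => I l u ∧ v ∈ F l u)) - Real.exp (-1 + 1 / Λ)) ^ 2 ≤
      ε * Fintype.card L →
    ∑ l, pr (fun u => I l u ∧ ∃ v ∈ F l u, ∃ v' ∈ F l u, v ≠ v' ∧
      ε < ∑ l', pr (fun u' => I l' u' ∧ v ∈ F l' u' ∧ v' ∈ F l' u')) ≤ ε * Fintype.card L →
    (∀ l v, pr (fun u => I l u ∧ v ∈ F l u) ≤ ε) →
    1 ≤ ε * Fintype.card U →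
    ∀ A : Finset L, (1 - η) * Fintype.card L ≤ A.card →
    ∃ M ⊆ A, ∃ u : L → U, (∀ l ∈ M, I l (u l)) ∧
      (∀ l ∈ M, ∀ l' ∈ M, l ≠ l' → Disjoint (F l (u l)) (F l' (u l'))) ∧
      (1 - 6 * η) * Fintype.card L ≤ M.card

end Pool.Agent.N533.NS
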