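import Mathlib
import Pool.Agent.N533.NS.Stm
import Pool.Agent.TH437.SP.Nib

/-!
# Task DET: from the second moment conditions to disjoint sets, by the weighted nibble
-/

set_option autoImplicit false

open Finset
open scoped Pointwise

namespace Pool.Agent.N533.NS

namespace Det

open Classical in
theorem pr_eq {α : Type} [Fintype α] (p : α → Prop) :
    pr p = (∑ a, if p a then (1 : ℝ) else 0) / Fintype.card α := rfl

theorem pr_nonneg {α : Type} [Fintype α] (p : α → Prop) : 0 ≤ pr p := by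
  classical
  rw [pr_eq]
  refine div_nonneg (Finset.sum_nonneg ?_) (Nat.cast_nonneg _)
  intro a _
  split_ifs <;> norm_num

/-- elementary: loads of a family of edges whose weight is at most `c / |U|` -/
theorem load_le {L U : Type} [Fintype L] [Fintype U] (w : L × U → ℝ) (c : ℝ) (hc : 0 ≤ c)
    (hw : ∀ e, w e ≤ c / Fintype.card U) (T : Finset (L × U)) (q : L → U → Prop)
    (h : ∀ l u, (l, u) ∈ T → w (l, u) ≠ 0 → q l u) :
    ∑ e ∈ T, w e ≤ c * ∑ l, pr (q l) := by
  classical
  have h1 : ∑ e ∈ T, w e ≤ ∑ e ∈ T, if q e.1 e.2 then c / Fintype.card U else 0 := by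
    refine Finset.sum_le_sum ?_
    rintro ⟨l, u⟩ he
    split_ifs with hq
    · exact hw _
    · by_contra hne
      exact hq (h l u he (fun h0 => hne (le_of_eq h0)))
  have h2 : (∑ e ∈ T, if q e.1 e.2 then c / (Fintype.card U : ℝ) else 0) ≤
      ∑ e : L × U, if q e.1 e.2 then c / (Fintype.card U : ℝ) else 0 := by
    refine Finset.sum_le_sum_of_subset_of_nonneg (Finset.subset_univ _) ?_
    intro e _ _
    split_ifs
    · positivity
    · exact le_rfl
  refine (h1.trans h2).trans (le_of_eq ?_)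
  rw [Fintype.sum_prod_type, Finset.mul_sum]
  refine Finset.sum_congr rfl ?_
  intro l _
  rw [pr_eq, Finset.sum_div, Finset.mul_sum]
  refine Finset.sum_congr rfl ?_
  intro u _
  by_cases hq : q l u
  · simp only [hq, if_true]; ring
  · simp [hq]

theorem sum_w_eq {L U : Type} [Fintype L] [Fintype U] (c : ℝ) (Act : L → U → Prop)
    (w : L × U → ℝ) (hw : ∀ l u, Act l u → w (l, u) = c / Fintype.card U)
    (hw0 : ∀ l u, ¬ Act l u → w (l, u) = 0) :
    ∑ e, w e = c * ∑ l, pr (Act l) := by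
  classical
  rw [Fintype.sum_prod_type, Finset.mul_sum]
  refine Finset.sum_congr rfl ?_
  intro l _
  rw [pr_eq, Finset.sum_div, Finset.mul_sum]
  refine Finset.sum_congr rfl ?_
  intro u _
  by_cases hq : Act l u
  · rw [hw l u hq]; simp only [hq, if_true]; ring
  · rw [hw0 l u hq]; simp [hq]

/-- lower bound of the truncated value -/
theorem trunc_low (c b δ η t : ℝ) (hc : 1 / 3 ≤ c) (hb : (1 + η) * c ≤ b) (hδ : 0 < δ)
    (hη : 0 < η) :
    c - (3 / η ^ 2 + 1 / δ) * (t - c) ^ 2 - δ ≤ (if t ≤ b then t else 0) := by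
  have hc0 : 0 < c := by linarith
  split_ifs with h
  · have h1 : -(t - c) ≤ 1 / δ * (t - c) ^ 2 + δ := by
      have h2 : 0 ≤ 1 / δ * ((t - c) + δ / 2) ^ 2 := by positivity
      have h3 : 1 / δ * ((t - c) + δ / 2) ^ 2 = 1 / δ * (t - c) ^ 2 + (t - c) + δ / 4 := by
        field_simp
        ring
      rw [h3] at h2
      linarith
    have h4 : 0 ≤ 3 / η ^ 2 * (t - c) ^ 2 := by positivity
    nlinarith
  · push Not at h
    have h1 : η * c ≤ t - c := by nlinarith
    have h2 : (η * c) ^ 2 ≤ (t - c) ^ 2 := pow_le_pow_left₀ (by positivity) h1 2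
    have h3 : 3 / η ^ 2 * (η * c) ^ 2 ≤ 3 / η ^ 2 * (t - c) ^ 2 :=
      mul_le_mul_of_nonneg_left h2 (by positivity)
    have h4 : 3 / η ^ 2 * (η * c) ^ 2 = 3 * c ^ 2 := by
      field_simp
    have h5 : 0 ≤ 1 / δ * (t - c) ^ 2 := by positivity
    have h6 : c ≤ 3 * c ^ 2 := by nlinarith
    nlinarith

/-- values above the threshold -/
theorem above_le (c b η t : ℝ) (hc : 1 / 3 ≤ c) (hb : (1 + η) * c ≤ b) (hη : 0 < η) (hη1 : η ≤ 1)
    (ht : b < t) : t ≤ 6 / η ^ 2 * (t - c) ^ 2 := by
  have hc0 : 0 < c := by linarith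
  have h1 : η * c ≤ t - c := by nlinarith
  have hp : 0 < t - c := lt_of_lt_of_le (by positivity) h1
  have h2 : η * t ≤ 2 * (t - c) := by nlinarith
  have h3 : η ≤ 3 * (t - c) := by nlinarith
  have h4 : η * (η * t) ≤ (3 * (t - c)) * (2 * (t - c)) :=
    mul_le_mul h3 h2 (by nlinarith) (by positivity)
  have h5 : 6 / η ^ 2 * (t - c) ^ 2 = ((3 * (t - c)) * (2 * (t - c))) / η ^ 2 := by
    field_simp
    ring
  rw [h5, le_div_iff₀ (by positivity)]
  nlinarith

section Main

variable {G L U : Type} [Fintype G] [DecidableEq G] [Fintype L] [DecidableEq L] [Fintype U]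
    [DecidableEq U] [Nonempty U]

/-- load of the colour `v` -/
noncomputable def l2 (F : L → U → Finset G) (I : L → U → Prop) (v : G) : ℝ :=
  ∑ l, pr (fun u => I l u ∧ v ∈ F l u)

/-- codegree of `v, v'` -/
noncomputable def Yc (F : L → U → Finset G) (I : L → U → Prop) (v v' : G) : ℝ :=
  ∑ l, pr (fun u => I l u ∧ v ∈ F l u ∧ v' ∈ F l u)

/-- active edges -/
def Act (F : L → U → Finset G) (I : L → U → Prop) (A : Finset L) (b ε : ℝ) (l : L) (u : U) :
    Prop :=
  l ∈ A ∧ I l u ∧ pr (fun u => I l u) ≤ b ∧ (∀ v ∈ F l u, l2 F I v ≤ b) ∧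
    ∀ v ∈ F l u, ∀ v' ∈ F l u, v ≠ v' → Yc F I v v' ≤ ε

/-- lower bound of the probability of an active edge -/
theorem act_low (F : L → U → Finset G) (I : L → U → Prop) (A : Finset L) (V : Finset G) (b ε : ℝ)
    (hF : ∀ l u, I l u → F l u ⊆ V) (l : L) :
    (open Classical in if l ∈ A ∧ pr (fun u => I l u) ≤ b then pr (fun u => I l u) else 0) -
      (open Classical in ∑ v ∈ V.filter (fun v => b < l2 F I v), pr (fun u => I l u ∧ v ∈ F l u)) -
      pr (fun u => I l u ∧ ∃ v ∈ F l u, ∃ v' ∈ F l u, v ≠ v' ∧ ε < Yc F I v v') ≤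
    pr (Act F I A b ε l) := by
  classical
  have hn : (0 : ℝ) < Fintype.card U := by exact_mod_cast Fintype.card_pos
  have hpt : ∀ u : U, (if l ∈ A ∧ pr (fun u => I l u) ≤ b then (if I l u then (1 : ℝ) else 0) else 0) -
      (∑ v ∈ V.filter (fun v => b < l2 F I v), if I l u ∧ v ∈ F l u then (1 : ℝ) else 0) -
      (if I l u ∧ ∃ v ∈ F l u, ∃ v' ∈ F l u, v ≠ v' ∧ ε < Yc F I v v' then (1 : ℝ) else 0) ≤
      if Act F I A b ε l u then (1 : ℝ) else 0 := by
    intro u
    have hs0 : 0 ≤ ∑ v ∈ V.filter (fun v => b < l2 F I v),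
        if I l u ∧ v ∈ F l u then (1 : ℝ) else 0 :=
      Finset.sum_nonneg (fun v _ => by split_ifs <;> norm_num)
    by_cases hA : Act F I A b ε l u
    · rw [if_pos hA]
      have h1 : (if l ∈ A ∧ pr (fun u => I l u) ≤ b then (if I l u then (1 : ℝ) else 0) else 0) ≤ 1 := by
        split_ifs <;> norm_num
      have h2 : (0 : ℝ) ≤ (if I l u ∧ ∃ v ∈ F l u, ∃ v' ∈ F l u, v ≠ v' ∧ ε < Yc F I v v'
        then (1 : ℝ) else 0) := by split_ifs <;> norm_num
      linarith
    · rw [if_neg hA]
      by_cases h1 : l ∈ A ∧ pr (fun u => I l u) ≤ b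
      · by_cases h2 : I l u
        · rw [if_pos h1, if_pos h2]
          by_cases h3 : ∃ v ∈ F l u, ∃ v' ∈ F l u, v ≠ v' ∧ ε < Yc F I v v'
          · rw [if_pos ⟨h2, h3⟩]
            linarith
          · rw [if_neg (fun h => h3 h.2)]
            have h4 : ∃ v ∈ F l u, b < l2 F I v := by
              by_contra h4
              push Not at h4 h3
              exact hA ⟨h1.1, h2, h1.2, h4, h3⟩
            obtain ⟨v, hv, hbv⟩ := h4
            have h5 : (1 : ℝ) ≤ ∑ v ∈ V.filter (fun v => b < l2 F I v),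
                if I l u ∧ v ∈ F l u then (1 : ℝ) else 0 := by
              have h6 : v ∈ V.filter (fun v => b < l2 F I v) :=
                Finset.mem_filter.mpr ⟨hF l u h2 hv, hbv⟩
              refine le_trans ?_ (Finset.single_le_sum (f := fun v =>
                if I l u ∧ v ∈ F l u then (1 : ℝ) else 0)
                (fun v _ => by split_ifs <;> norm_num) h6)
              simp [h2, hv]
            linarith
        · rw [if_pos h1, if_neg h2]
          have : (0 : ℝ) ≤ (if I l u ∧ ∃ v ∈ F l u, ∃ v' ∈ F l u, v ≠ v' ∧ ε < Yc F I v v'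
            then (1 : ℝ) else 0) := by split_ifs <;> norm_num
          linarith
      · rw [if_neg h1]
        have : (0 : ℝ) ≤ (if I l u ∧ ∃ v ∈ F l u, ∃ v' ∈ F l u, v ≠ v' ∧ ε < Yc F I v v'
            then (1 : ℝ) else 0) := by split_ifs <;> norm_num
        linarith
  have hsum := Finset.sum_le_sum (s := (univ : Finset U)) (fun u _ => hpt u)
  rw [Finset.sum_sub_distrib, Finset.sum_sub_distrib] at hsum
  have hdiv := div_le_div_of_nonneg_right hsum hn.le
  rw [sub_div, sub_div] at hdiv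
  have e1 : (∑ u : U, if l ∈ A ∧ pr (fun u => I l u) ≤ b then (if I l u then (1 : ℝ) else 0)
      else 0) / (Fintype.card U : ℝ) =
      if l ∈ A ∧ pr (fun u => I l u) ≤ b then pr (fun u => I l u) else 0 := by
    by_cases h1 : l ∈ A ∧ pr (fun u => I l u) ≤ b
    · simp only [if_pos h1]
      rw [pr_eq]
    · simp only [if_neg h1]
      simp
  have e2 : (∑ u : U, ∑ v ∈ V.filter (fun v => b < l2 F I v),
      if I l u ∧ v ∈ F l u then (1 : ℝ) else 0) / (Fintype.card U : ℝ) =
      ∑ v ∈ V.filter (fun v => b < l2 F I v), pr (fun u => I l u ∧ v ∈ F l u) := by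
    rw [Finset.sum_comm, Finset.sum_div]
    refine Finset.sum_congr rfl ?_
    intro v _
    rw [pr_eq]
    congr 1
    refine Finset.sum_congr rfl (fun u _ => ?_)
    congr
  have e3 : (∑ u : U, if I l u ∧ ∃ v ∈ F l u, ∃ v' ∈ F l u, v ≠ v' ∧ ε < Yc F I v v'
      then (1 : ℝ) else 0) / (Fintype.card U : ℝ) =
      pr (fun u => I l u ∧ ∃ v ∈ F l u, ∃ v' ∈ F l u, v ≠ v' ∧ ε < Yc F I v v') := by
    rw [pr_eq]
    congr 1
    refine Finset.sum_congr rfl (fun u _ => ?_)
    congr
  have e4 : (∑ u : U, if Act F I A b ε l u then (1 : ℝ) else 0) / (Fintype.card U : ℝ) =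
      pr (Act F I A b ε l) := by
    rw [pr_eq]
  rw [e1, e2, e3, e4] at hdiv
  exact hdiv

end Main

end Det

open Det in
theorem detStm : DetStm := by
  classical
  intro Λ η hη hη1 hΛ
  obtain ⟨κ, hκ, hnib⟩ := Pool.Agent.TH437.SP.nibble_T (Λ + 1) η hη
  have hΛ0 : (0 : ℝ) < Λ := by
    by_contra h
    push Not at h
    nlinarith
  have hΛinv : 1 / (Λ : ℝ) ≤ η := by
    rw [div_le_iff₀ hΛ0]; exact hΛ
  set Ct : ℝ := 3 / η ^ 2 + 1 / (η / 12) + 6 / η ^ 2 + 1 with hCt
  have hCt0 : 0 < Ct := by positivity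
  refine ⟨min (κ / 3) (η / (4 * Ct)), lt_min (by positivity) (by positivity), ?_⟩
  set ε : ℝ := min (κ / 3) (η / (4 * Ct)) with hε
  have hε0 : 0 < ε := lt_min (by positivity) (by positivity)
  have hεκ : 3 * ε ≤ κ := by
    have := min_le_left (κ / 3) (η / (4 * Ct))
    rw [← hε] at this
    linarith
  have hεC : Ct * ε ≤ η / 4 := by
    have := min_le_right (κ / 3) (η / (4 * Ct))
    rw [← hε, le_div_iff₀ (by positivity)] at this
    linarith
  clear_value ε
  intro G L U _ _ _ _ _ _ _ F I V hF h1 h2 h3 h4 h5 A hA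
  set c1 : ℝ := Real.exp (-1) with hc1
  set c2 : ℝ := Real.exp (-1 + 1 / Λ) with hc2
  have hc1l : 1 / 3 ≤ c1 := by
    have := Real.exp_neg_one_gt_d9
    rw [hc1]; linarith
  have hc12 : c1 ≤ c2 := by
    rw [hc1, hc2, Real.exp_le_exp]
    have : 0 ≤ 1 / (Λ : ℝ) := by positivity
    linarith
  have hc2l : 1 / 3 ≤ c2 := hc1l.trans hc12
  have hc21 : (1 - η) * c2 ≤ c1 := by
    have h6 : c1 = Real.exp (-(1 / (Λ : ℝ))) * c2 := by
      rw [hc1, hc2, ← Real.exp_add]
      congr 1
      ring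
    have h7 : 1 - 1 / (Λ : ℝ) ≤ Real.exp (-(1 / (Λ : ℝ))) := Real.one_sub_le_exp_neg _
    rw [h6]
    exact mul_le_mul_of_nonneg_right (by linarith) (by linarith)
  set b : ℝ := (1 + η) * c2 with hb
  have hb3 : 1 / 3 ≤ b := by rw [hb]; nlinarith
  have hb0 : 0 < b := by linarith
  have hbc1 : (1 + η) * c1 ≤ b := by rw [hb]; exact mul_le_mul_of_nonneg_left hc12 (by linarith)
  have hcb : (1 - 2 * η) * b ≤ c1 := by
    rw [hb]
    nlinarith [mul_pos hη hη]
  have hinvb : 1 / b ≤ 3 := by
    rw [div_le_iff₀ hb0]; linarith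
  have hinvb0 : 0 ≤ 1 / b := by positivity
  have hn : (0 : ℝ) < Fintype.card U := by exact_mod_cast Fintype.card_pos
  set R : ℝ := (Fintype.card L : ℝ) with hR
  have hR0 : 0 ≤ R := by positivity
  -- the family of edges
  let E : L × U → Finset (L ⊕ G) := fun e =>
    insert (Sum.inl e.1) (if I e.1 e.2 then (F e.1 e.2).image Sum.inr else ∅)
  let w : L × U → ℝ := fun e => if Act F I A b ε e.1 e.2 then (1 / b) / Fintype.card U else 0
  have hEl : ∀ (l l' : L) (u : U), Sum.inl l ∈ E (l', u) ↔ l = l' := by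
    intro l l' u
    simp only [E, Finset.mem_insert, Sum.inl.injEq]
    constructor
    · rintro (h | h)
      · exact h
      · split_ifs at h <;> simp at h
    · exact fun h => Or.inl h
  have hEr : ∀ (v : G) (l' : L) (u : U), Sum.inr v ∈ E (l', u) ↔ I l' u ∧ v ∈ F l' u := by
    intro v l' u
    simp only [E, Finset.mem_insert]
    constructor
    · rintro (h | h)
      · exact absurd h (by simp)
      · split_ifs at h with hI
        · refine ⟨hI, ?_⟩
          simpa using h
        · simp at h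
    · rintro ⟨hI, hv⟩
      right
      rw [if_pos hI]
      simpa using hv
  have hw0 : ∀ e, 0 ≤ w e := by
    intro e
    simp only [w]
    split_ifs
    · positivity
    · exact le_rfl
  have hwle : ∀ e, w e ≤ (1 / b) / Fintype.card U := by
    intro e
    simp only [w]
    split_ifs
    · exact le_rfl
    · positivity
  have hwAct : ∀ l u, w (l, u) ≠ 0 → Act F I A b ε l u := by
    intro l u h
    by_contra h'
    exact h (by simp [w, h'])
  -- single fibre
  have hsing : ∀ (l : L) (q : L → U → Prop),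
      ∑ l', pr (fun u => l' = l ∧ q l' u) = pr (q l) := by
    intro l q
    rw [Finset.sum_eq_single l]
    · simp
    · intro l' _ hne
      rw [pr_eq]
      simp [hne]
    · intro h
      exact absurd (Finset.mem_univ l) h
  have hdeg : ∀ v : L ⊕ G, ∑ e ∈ univ.filter (fun e => v ∈ E e), w e ≤ 1 := by
    rintro (l | v)
    · by_cases hl : pr (fun u => I l u) ≤ b
      · have := load_le w (1 / b) hinvb0 hwle (univ.filter (fun e => Sum.inl l ∈ E e))
          (fun l' u => l' = l ∧ I l' u) (by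
            intro l' u he hne
            rw [Finset.mem_filter, hEl] at he
            exact ⟨he.2.symm, (hwAct l' u hne).2.1⟩)
        refine this.trans ?_
        rw [hsing l I, one_div, inv_mul_le_iff₀ hb0, mul_one]
        exact hl
      · refine le_trans (le_of_eq (Finset.sum_eq_zero ?_)) zero_le_one
        rintro ⟨l', u⟩ he
        rw [Finset.mem_filter, hEl] at he
        by_contra hne
        have := (hwAct l' u hne).2.2.1
        rw [← he.2] at this
        exact hl this
    · by_cases hl : l2 F I v ≤ b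
      · have := load_le w (1 / b) hinvb0 hwle (univ.filter (fun e => Sum.inr v ∈ E e))
          (fun l' u => I l' u ∧ v ∈ F l' u) (by
            intro l' u he hne
            rw [Finset.mem_filter, hEr] at he
            exact he.2)
        refine this.trans ?_
        rw [one_div, inv_mul_le_iff₀ hb0, mul_one]
        exact hl
      · refine le_trans (le_of_eq (Finset.sum_eq_zero ?_)) zero_le_one
        rintro ⟨l', u⟩ he
        rw [Finset.mem_filter, hEr] at he
        by_contra hne
        exact hl ((hwAct l' u hne).2.2.2.1 v he.2.2)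
  have hmix : ∀ (l : L) (v : G) (T : Finset (L × U)),
      (∀ l' u, (l', u) ∈ T → l = l' ∧ I l' u ∧ v ∈ F l' u) → ∑ e ∈ T, w e ≤ κ := by
    intro l v T hT
    have := load_le w (1 / b) hinvb0 hwle T (fun l' u => l' = l ∧ (I l' u ∧ v ∈ F l' u)) (by
      intro l' u he _
      obtain ⟨h6, h7⟩ := hT l' u he
      exact ⟨h6.symm, h7⟩)
    rw [hsing l (fun l' u => I l' u ∧ v ∈ F l' u)] at this
    have h6 := h4 l v
    have h7 := mul_le_mul hinvb h6 (pr_nonneg _) (by norm_num : (0 : ℝ) ≤ 3)
    linarith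
  have hcodeg : ∀ x y : L ⊕ G, x ≠ y → ∑ e ∈ univ.filter (fun e => x ∈ E e ∧ y ∈ E e), w e ≤ κ := by
    rintro (l | v) (l' | v') hne
    · refine le_trans (le_of_eq (Finset.sum_eq_zero ?_)) hκ.le
      rintro ⟨l'', u⟩ he
      rw [Finset.mem_filter, hEl, hEl] at he
      exact absurd (congrArg Sum.inl (he.2.1.trans he.2.2.symm)) hne
    · refine hmix l v' _ ?_
      intro l'' u he
      rw [Finset.mem_filter, hEl, hEr] at he
      exact ⟨he.2.1, he.2.2⟩
    · refine hmix l' v _ ?_
      intro l'' u he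
      rw [Finset.mem_filter, hEl, hEr] at he
      exact ⟨he.2.2, he.2.1⟩
    · have hvv : v ≠ v' := fun h => hne (congrArg Sum.inr h)
      by_cases hY : Yc F I v v' ≤ ε
      · have := load_le w (1 / b) hinvb0 hwle
          (univ.filter (fun e => Sum.inr v ∈ E e ∧ Sum.inr v' ∈ E e))
          (fun l' u => I l' u ∧ v ∈ F l' u ∧ v' ∈ F l' u) (by
            intro l' u he hne
            rw [Finset.mem_filter, hEr, hEr] at he
            exact ⟨he.2.1.1, he.2.1.2, he.2.2.2⟩)
        refine this.trans ?_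
        have h7 : 1 / b * Yc F I v v' ≤ 3 * ε :=
          mul_le_mul hinvb hY (Finset.sum_nonneg (fun l _ => pr_nonneg _)) (by norm_num)
        exact h7.trans hεκ
      · refine le_trans (le_of_eq (Finset.sum_eq_zero ?_)) hκ.le
        rintro ⟨l', u⟩ he
        rw [Finset.mem_filter, hEr, hEr] at he
        by_contra hne
        exact hY ((hwAct l' u hne).2.2.2.2 v he.2.1.2 v' he.2.2.2 hvv)
  have hwκ : ∀ e, w e ≤ κ := by
    intro e
    refine (hwle e).trans ?_
    rw [div_le_iff₀ hn]
    have h6 : ε * Fintype.card U * 3 ≤ κ * Fintype.card U := by nlinarith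
    linarith
  obtain ⟨M, hM1, hM2, hM3⟩ := hnib (L × U) (L ⊕ G) E w hw0 (fun e => Finset.insert_nonempty _ _)
    (by
      rintro ⟨l, u⟩
      refine (Finset.card_insert_le _ _).trans (Nat.add_le_add_right ?_ 1)
      simp only
      split_ifs with hI
      · exact Finset.card_image_le.trans (le_of_eq (hF l u hI).1)
      · simp) hdeg hcodeg hwκ
  -- total weight
  have hsum : ∑ e, w e = 1 / b * ∑ l, pr (Act F I A b ε l) := by
    refine sum_w_eq (1 / b) (Act F I A b ε) w ?_ ?_
    · intro l u h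
      simp [w, h]
    · intro l u h
      simp [w, h]
  have hact0 := fun l : L => act_low F I A V b ε (fun l u h => (hF l u h).2) l
  have hact := Finset.sum_le_sum (s := (univ : Finset L)) (fun l _ => hact0 l)
  rw [Finset.sum_sub_distrib, Finset.sum_sub_distrib] at hact
  -- first part
  have hS1 : R * c1 - (3 / η ^ 2 + 1 / (η / 12)) * (ε * R) - η / 12 * R - b * (η * R) ≤
      ∑ l, if l ∈ A ∧ pr (fun u => I l u) ≤ b then pr (fun u => I l u) else 0 := by
    have hpt : ∀ l : L, (c1 - (3 / η ^ 2 + 1 / (η / 12)) * (pr (fun u => I l u) - c1) ^ 2 - η / 12) -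
        (if l ∈ A then 0 else b) ≤
        if l ∈ A ∧ pr (fun u => I l u) ≤ b then pr (fun u => I l u) else 0 := by
      intro l
      have h6 := trunc_low c1 b (η / 12) η (pr (fun u => I l u)) hc1l hbc1 (by positivity) hη
      by_cases hlA : l ∈ A
      · by_cases hlb : pr (fun u => I l u) ≤ b
        · rw [if_pos hlb] at h6
          rw [if_pos hlA, if_pos ⟨hlA, hlb⟩]
          linarith
        · rw [if_neg hlb] at h6
          rw [if_pos hlA, if_neg (fun h => hlb h.2)]
          linarith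
      · rw [if_neg hlA, if_neg (fun h => hlA h.1)]
        by_cases hlb : pr (fun u => I l u) ≤ b
        · rw [if_pos hlb] at h6
          linarith
        · rw [if_neg hlb] at h6
          linarith
    refine le_trans ?_ (Finset.sum_le_sum (s := (univ : Finset L)) (fun l _ => hpt l))
    rw [Finset.sum_sub_distrib, Finset.sum_sub_distrib, Finset.sum_sub_distrib,
      Finset.sum_const, Finset.sum_const, ← Finset.mul_sum]
    have h6 : ∑ l : L, (if l ∈ A then (0 : ℝ) else b) ≤ b * (η * R) := by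
      rw [Finset.sum_ite, Finset.sum_const_zero, zero_add, Finset.sum_const, nsmul_eq_mul]
      have h7 : ((univ.filter (fun l => l ∉ A)).card : ℝ) = R - A.card := by
        have h8 : univ.filter (fun l => l ∉ A) = Aᶜ := by ext l; simp
        rw [h8, Finset.card_compl, Nat.cast_sub (Finset.card_le_univ A)]
      rw [h7]
      nlinarith
    have h9 : (3 / η ^ 2 + 1 / (η / 12)) * ∑ l, (pr (fun u => I l u) - c1) ^ 2 ≤
        (3 / η ^ 2 + 1 / (η / 12)) * (ε * R) := mul_le_mul_of_nonneg_left h1 (by positivity)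
    rw [nsmul_eq_mul, nsmul_eq_mul, Finset.card_univ, ← hR]
    linarith
  have hS2 : ∑ l, ∑ v ∈ V.filter (fun v => b < l2 F I v), pr (fun u => I l u ∧ v ∈ F l u) ≤
      6 / η ^ 2 * (ε * R) := by
    rw [Finset.sum_comm]
    have h6 : ∑ v ∈ V.filter (fun v => b < l2 F I v), ∑ l, pr (fun u => I l u ∧ v ∈ F l u) ≤
        ∑ v ∈ V.filter (fun v => b < l2 F I v), 6 / η ^ 2 * (l2 F I v - c2) ^ 2 := by
      refine Finset.sum_le_sum ?_
      intro v hv
      exact above_le c2 b η (l2 F I v) hc2l (le_of_eq hb.symm) hη (by linarith)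
        (Finset.mem_filter.mp hv).2
    refine h6.trans ?_
    have h7 : ∑ v ∈ V.filter (fun v => b < l2 F I v), 6 / η ^ 2 * (l2 F I v - c2) ^ 2 ≤
        ∑ v ∈ V, 6 / η ^ 2 * (l2 F I v - c2) ^ 2 :=
      Finset.sum_le_sum_of_subset_of_nonneg (Finset.filter_subset _ _)
        (fun v _ _ => by positivity)
    refine h7.trans ?_
    rw [← Finset.mul_sum]
    exact mul_le_mul_of_nonneg_left h2 (by positivity)
  have hS3 : ∑ l, pr (fun u => I l u ∧ ∃ v ∈ F l u, ∃ v' ∈ F l u, v ≠ v' ∧ ε < Yc F I v v') ≤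
      ε * R := h3
  have htot : (1 - 4 * η) * b * R ≤ ∑ l, pr (Act F I A b ε l) := by
    have h6 : (Ct * ε) * R ≤ (η / 4) * R := mul_le_mul_of_nonneg_right hεC hR0
    have h7 : Ct * ε * R = (3 / η ^ 2 + 1 / (η / 12)) * (ε * R) + 6 / η ^ 2 * (ε * R) + ε * R := by
      rw [hCt]; ring
    rw [h7] at h6
    have h8 : (1 - 2 * η) * b * R ≤ c1 * R := mul_le_mul_of_nonneg_right hcb hR0
    have h9 : η / 3 * R ≤ b * (η * R) := by
      have : 0 ≤ η * R := by positivity
      nlinarith
    nlinarith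
  have hW : (1 - 4 * η) * R ≤ ∑ e, w e := by
    rw [hsum, one_div, le_inv_mul_iff₀ hb0]
    linarith
  have hMcard : (1 - 6 * η) * R ≤ M.card := by
    refine le_trans ?_ hM3
    have h6 : (1 - η) * ((1 - 4 * η) * R) ≤ (1 - η) * ∑ e, w e :=
      mul_le_mul_of_nonneg_left hW (by linarith)
    refine le_trans ?_ h6
    nlinarith [mul_nonneg (mul_pos hη hη).le hR0, mul_nonneg hη.le hR0]
  -- conclusion
  have hinj : ∀ e ∈ M, ∀ f ∈ M, e.1 = f.1 → e = f := by
    intro e he f hf h
    by_contra hne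
    have := hM1 e he f hf hne
    rw [Finset.disjoint_left] at this
    exact this ((hEl e.1 e.1 e.2).mpr rfl) ((hEl e.1 f.1 f.2).mpr h)
  have hMAct : ∀ e ∈ M, Act F I A b ε e.1 e.2 := by
    intro e he
    exact hwAct e.1 e.2 (ne_of_gt (hM2 e he))
  refine ⟨M.image Prod.fst, ?_, fun l => if h : ∃ u, (l, u) ∈ M then h.choose else
    Classical.arbitrary U, ?_, ?_, ?_⟩
  · intro l hl
    rw [Finset.mem_image] at hl
    obtain ⟨e, he, rfl⟩ := hl
    exact (hMAct e he).1
  · intro l hl
    rw [Finset.mem_image] at hl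
    obtain ⟨⟨l', u⟩, he, rfl⟩ := hl
    have hex : ∃ u, (l', u) ∈ M := ⟨u, he⟩
    simp only
    rw [dif_pos hex]
    exact (hMAct _ hex.choose_spec).2.1
  · intro l hl l' hl' hne
    rw [Finset.mem_image] at hl hl'
    obtain ⟨⟨l₀, u⟩, he, rfl⟩ := hl
    obtain ⟨⟨l₁, u'⟩, he', rfl⟩ := hl'
    have hex : ∃ u, (l₀, u) ∈ M := ⟨u, he⟩
    have hex' : ∃ u, (l₁, u) ∈ M := ⟨u', he'⟩
    simp only
    rw [dif_pos hex, dif_pos hex']
    have hd := hM1 _ hex.choose_spec _ hex'.choose_spec (fun h => hne (Prod.ext_iff.mp h).1)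
    rw [Finset.disjoint_left] at hd ⊢
    intro v hv hv'
    exact hd ((hEr v _ _).mpr ⟨(hMAct _ hex.choose_spec).2.1, hv⟩)
      ((hEr v _ _).mpr ⟨(hMAct _ hex'.choose_spec).2.1, hv'⟩)
  · rw [Finset.card_image_of_injOn]
    · exact hMcard
    · intro e he f hf h
      exact hinj e he f hf h

end Pool.Agent.N533.NS
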