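import Pool.Agent.N533.NS.Stm3

/-!
# Project NS: the disjoint filling paths
-/

set_option autoImplicit false

open Finset
open scoped Pointwise

namespace Pool.Agent.N533.NS

theorem matchStm : MatchStm := by
  classical
  intro G Ω U _ _ _ _ _ _ _ T H0 vt ft M Λ κ ε δ η hD hH hκ ω h1 h2 h3 A hA hAc
  have hΛ1 : (1 : ℝ) ≤ Λ := by exact_mod_cast hH.Λ_pos
  have hκ0 := hH.κ_nonneg
  have hκδ : κ ≤ δ := by nlinarith
  have hcard : (Fintype.card ↥(T ×ˢ range M) : ℝ) = T.card * M := by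
    rw [Fintype.card_coe, card_product, card_range]
    push_cast
    rfl
  have hsum : ∀ f : G × ℕ → ℝ, ∑ l : ↥(T ×ˢ range M), f l = ∑ x ∈ T, ∑ p ∈ range M, f (x, p) := by
    intro f
    rw [Finset.sum_coe_sort (T ×ˢ range M) f, sum_product]
  have hmem : ∀ l : ↥(T ×ˢ range M), l.1.1 ∈ T ∧ l.1.2 < M := by
    intro l
    have := l.2
    rw [mem_product, mem_range] at this
    exact this
  -- one vertex of the filling path
  have hone : ∀ (a : Ω) (p : ℕ), p < M → ∀ (x v : G), ∀ c ∈ Icc 1 Λ,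
      pr (fun u => x * ft a p u c = v) ≤ κ := by
    intro a p hp x v c hc
    refine le_trans (pr_mono fun u hu => ?_) (hH.fhit a p hp c hc (x⁻¹ * v))
    rw [← hu]
    group
  have H := hD G ↥(T ×ˢ range M) U (fun l u => Fs ft Λ l.1.1 l.1.2 (ω l.1.1) u)
    (fun l u => Iv T H0 vt ft M Λ ω l.1.1 l.1.2 u) (univ \ Ss T vt M ω) ?_ ?_ ?_ ?_ ?_ ?_
    (univ.filter fun l : ↥(T ×ˢ range M) => (l : G × ℕ) ∈ A) ?_
  · obtain ⟨M', hM'A, u, hI, hdisj, hc⟩ := H
    have hu : ∀ l : ↥(T ×ˢ range M), (fun l : G × ℕ => if h : l ∈ T ×ˢ range M then u ⟨l, h⟩ else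
        Classical.arbitrary U) l = u l := by
      intro l
      simp only
      rw [dif_pos l.2]
    refine ⟨M'.image Subtype.val, ?_, fun l => if h : l ∈ T ×ˢ range M then u ⟨l, h⟩ else
      Classical.arbitrary U, ?_, ?_, ?_⟩
    · intro l hl
      obtain ⟨l', hl', rfl⟩ := mem_image.1 hl
      exact (mem_filter.1 (hM'A hl')).2
    · intro l hl
      obtain ⟨l', hl', rfl⟩ := mem_image.1 hl
      have h := hI l' hl'
      rw [← hu l'] at h
      exact h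
    · intro l hl l₁ hl₁ hne
      obtain ⟨l', hl', rfl⟩ := mem_image.1 hl
      obtain ⟨l₁', hl₁', rfl⟩ := mem_image.1 hl₁
      have h := hdisj l' hl' l₁' hl₁' fun hc => hne (congrArg _ hc)
      rw [← hu l', ← hu l₁'] at h
      exact h
    · rw [card_image_of_injective _ Subtype.val_injective, ← hcard]
      exact hc
  · -- admissible paths have `Λ` vertices outside of the paths
    intro l u hI
    refine ⟨hI.1, ?_⟩
    intro v hv
    rw [mem_sdiff]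
    exact ⟨mem_univ _, fun hc => disjoint_left.1 hI.2.1 hv hc⟩
  · rw [hcard, hsum fun l => (pr (fun u => Iv T H0 vt ft M Λ ω l.1 l.2 u) - Real.exp (-1)) ^ 2]
    exact h1
  · rw [hcard]
    refine le_trans (le_of_eq ?_) h2
    refine sum_congr rfl fun v _ => ?_
    rw [hsum fun l => pr (fun u => Iv T H0 vt ft M Λ ω l.1 l.2 u ∧ v ∈ Fs ft Λ l.1 l.2 (ω l.1) u)]
    rfl
  · rw [hcard]
    have h4 : ∀ v v' : G, ∑ l' : ↥(T ×ˢ range M), pr (fun u' => Iv T H0 vt ft M Λ ω l'.1.1 l'.1.2 u' ∧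
        v ∈ Fs ft Λ l'.1.1 l'.1.2 (ω l'.1.1) u' ∧ v' ∈ Fs ft Λ l'.1.1 l'.1.2 (ω l'.1.1) u') =
        ∑ x' ∈ T, ∑ p' ∈ range M, pr (fun u' => Iv T H0 vt ft M Λ ω x' p' u' ∧
          v ∈ Fs ft Λ x' p' (ω x') u' ∧ v' ∈ Fs ft Λ x' p' (ω x') u') := by
      intro v v'
      rw [hsum fun l => pr (fun u' => Iv T H0 vt ft M Λ ω l.1 l.2 u' ∧
        v ∈ Fs ft Λ l.1 l.2 (ω l.1) u' ∧ v' ∈ Fs ft Λ l.1 l.2 (ω l.1) u')]
    simp only [h4]
    rw [hsum fun l => pr fun u => Iv T H0 vt ft M Λ ω l.1 l.2 u ∧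
      ∃ v ∈ Fs ft Λ l.1 l.2 (ω l.1) u, ∃ v' ∈ Fs ft Λ l.1 l.2 (ω l.1) u, v ≠ v' ∧
        δ < ∑ x' ∈ T, ∑ p' ∈ range M, pr fun u' => Iv T H0 vt ft M Λ ω x' p' u' ∧
          v ∈ Fs ft Λ x' p' (ω x') u' ∧ v' ∈ Fs ft Λ x' p' (ω x') u']
    exact h3
  · -- a fixed vertex
    intro l v
    calc pr (fun u => Iv T H0 vt ft M Λ ω l.1.1 l.1.2 u ∧ v ∈ Fs ft Λ l.1.1 l.1.2 (ω l.1.1) u)
        ≤ pr (fun u => ∃ c ∈ Icc 1 Λ, l.1.1 * ft (ω l.1.1) l.1.2 u c = v) := by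
          refine pr_mono fun u hu => ?_
          obtain ⟨c, hc, h⟩ := mem_image.1 hu.2
          exact ⟨c, hc, h⟩
      _ ≤ ∑ c ∈ Icc 1 Λ, pr (fun u => l.1.1 * ft (ω l.1.1) l.1.2 u c = v) := pr_exists _ _
      _ ≤ ∑ _c ∈ Icc 1 Λ, κ := sum_le_sum fun c hc => hone _ _ (hmem l).2 _ _ c hc
      _ = Λ * κ := by
          rw [sum_const, Nat.card_Icc, nsmul_eq_mul]
          simp
      _ ≤ δ := hκ
  · -- the number of the choices
    obtain ⟨a⟩ : Nonempty Ω := inferInstance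
    obtain ⟨u0⟩ : Nonempty U := inferInstance
    have hU : (0 : ℝ) < Fintype.card U := by exact_mod_cast Fintype.card_pos
    have h4 := hH.fhit a 0 hH.M_pos 1 (mem_Icc.2 ⟨le_rfl, hH.Λ_pos⟩) (ft a 0 u0 1)
    have h5 : 1 / (Fintype.card U : ℝ) ≤ pr (fun u => ft a 0 u 1 = ft a 0 u0 1) := by
      rw [pr_eq]
      unfold av
      gcongr
      refine le_trans ?_ (single_le_sum (f := fun u => ind (ft a 0 u 1 = ft a 0 u0 1))
        (fun u _ => ind_nonneg _) (mem_univ u0))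
      rw [ind_true rfl]
    have h6 : 1 / (Fintype.card U : ℝ) ≤ δ := (h5.trans h4).trans hκδ
    rw [div_le_iff₀ hU] at h6
    exact h6
  · have h4 : (univ.filter fun l : ↥(T ×ˢ range M) => (l : G × ℕ) ∈ A).card = A.card := by
      rw [← card_image_of_injective _ (Subtype.val_injective (p := (· ∈ T ×ˢ range M)))]
      congr 1
      ext l
      rw [mem_image]
      constructor
      · rintro ⟨l', hl', rfl⟩
        exact (mem_filter.1 hl').2
      · intro hl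
        exact ⟨⟨l, hA hl⟩, mem_filter.2 ⟨mem_univ _, hl⟩, rfl⟩
    rw [h4, hcard]
    exact hAc

end Pool.Agent.N533.NS
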