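import Pool.Agent.N533.NS.Core

/-!
# The choice of the parameters
-/

set_option autoImplicit false

open Finset Filter

namespace Pool.Agent.N533.NS

lemma sq_le_two_pow (J : ℕ) : J ^ 2 ≤ 2 * 2 ^ J := by
  rcases Nat.lt_or_ge J 3 with h | h
  · interval_cases J <;> norm_num
  · induction J, h using Nat.le_induction with
    | base => norm_num
    | succ n hn ih =>
      have h1 : (n + 1) ^ 2 ≤ 2 * n ^ 2 := by nlinarith
      calc (n + 1) ^ 2 ≤ 2 * n ^ 2 := h1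
        _ ≤ 2 * (2 * 2 ^ n) := Nat.mul_le_mul_left _ ih
        _ = _ := by ring

theorem exists_num {m Λ R k0 : ℕ} {η δ ε : ℝ} (hm : 2 ≤ m) (hΛ : 1 ≤ Λ) (hη : 0 < η)
    (hΛη : 64 * m ≤ η * Λ) (hδ : 0 < δ) (hε : 0 < ε) (e1 : 20 * Λ ^ 2 * ε ≤ 1)
    (e2 : 6000 * Λ ^ 3 * ε ≤ δ) (e3 : 8 * Λ ^ 2 * ε ≤ δ ^ 2) (e7 : 12 * ε ≤ η) :
    ∃ y0 : ℝ, 1 ≤ y0 ∧ ∀ y N : ℝ, y0 ≤ y → y ^ 100 ≤ N → N ≤ y ^ k0 → ∀ r : ℕ, 1 ≤ r → r ≤ R →
      ∃ J : ℕ, Num m J Λ r (y ^ 50)⁻¹ ε δ η y (y ^ 10) (Λ * m ^ J) (y ^ 100) N := by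
  have hL : (1 : ℝ) ≤ Λ := by exact_mod_cast hΛ
  have hμ : (2 : ℝ) ≤ m := by exact_mod_cast hm
  set L : ℝ := (Λ : ℝ) with hLdef
  set μ : ℝ := (m : ℝ) with hμdef
  have hR : (0 : ℝ) ≤ R := Nat.cast_nonneg _
  have hexp : ∀ᶠ y : ℝ in atTop, 48 * (y ^ (3 * k0) * Real.exp (-y)) < 1 := by
    have h1 := (Real.tendsto_pow_mul_exp_neg_atTop_nhds_zero (3 * k0)).const_mul (48 : ℝ)
    rw [mul_zero] at h1
    exact h1.eventually (gt_mem_nhds (by norm_num))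
  obtain ⟨y1, hy1⟩ := eventually_atTop.1 hexp
  set c1 : ℝ := 128 * (L * μ) ^ 2 with hc1
  set c2 : ℝ := 32 * (L * μ) ^ 2 / ε ^ 2 with hc2
  set c3 : ℝ := 2 * (L * μ) ^ 2 / ε with hc3
  set c4 : ℝ := 4 / ε with hc4
  set c5 : ℝ := 64 * (R + 1) with hc5
  set c6 : ℝ := 84 * (R * (15 * R + 1) * (16 * R + 17)) with hc6
  set c7 : ℝ := 608 * R * (R + 1) with hc7
  set c8 : ℝ := 16 * (L * μ) with hc8
  set c9 : ℝ := 4 * (1344 * (R * (R + 1) * (16 * R + 17))) with hc9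
  set c10 : ℝ := 4 * (L * μ) / ε with hc10
  set c11 : ℝ := 2 * (1344 * (R * (R + 1) * (16 * R + 17))) / ε with hc11
  set c12 : ℝ := 32 * μ ^ 2 / η with hc12
  set c13 : ℝ := 2 * (16 * μ * (19 * R + 2)) ^ 2 / η ^ 2 with hc13
  set c14 : ℝ := 2 * (19 * R + 2) / ε with hc14
  set c15 : ℝ := L / δ with hc15
  have p1 : 0 ≤ c1 := by positivity
  have p2 : 0 ≤ c2 := by positivity
  have p3 : 0 ≤ c3 := by positivity
  have p4 : 0 ≤ c4 := by positivity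
  have p5 : 0 ≤ c5 := by positivity
  have p6 : 0 ≤ c6 := by positivity
  have p7 : 0 ≤ c7 := by positivity
  have p8 : 0 ≤ c8 := by positivity
  have p9 : 0 ≤ c9 := by positivity
  have p10 : 0 ≤ c10 := by positivity
  have p11 : 0 ≤ c11 := by positivity
  have p12 : 0 ≤ c12 := by positivity
  have p13 : 0 ≤ c13 := by positivity
  have p14 : 0 ≤ c14 := by positivity
  have p15 : 0 ≤ c15 := by positivity
  have pm : (0 : ℝ) ≤ μ := by linarith
  refine ⟨max y1 (1 + μ + c1 + c2 + c3 + c4 + c5 + c6 + c7 + c8 + c9 + c10 + c11 + c12 + c13 + c14 +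
    c15), le_max_of_le_right (by linarith), ?_⟩
  intro y N hy hN1 hN2 r hr1 hrR
  have hyy1 : y1 ≤ y := (le_max_left _ _).trans hy
  have hyc := (le_max_right _ _).trans hy
  have hy1' : 1 ≤ y := by linarith
  have hy0 : 0 < y := by linarith
  have hpow : ∀ {i j : ℕ}, i ≤ j → y ^ i ≤ y ^ j := fun h => pow_le_pow_right₀ hy1' h
  have hyy5 : y ≤ y ^ 5 := by simpa using hpow (show 1 ≤ 5 by norm_num)
  have hr : (1 : ℝ) ≤ r := by exact_mod_cast hr1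
  have hrR' : (r : ℝ) ≤ R := by exact_mod_cast hrR
  obtain ⟨n, hn1, hn2⟩ := exists_nat_pow_near (x := y ^ 5) (y := μ) (one_le_pow₀ hy1') (by linarith)
  have hM1 : y ^ 5 ≤ μ ^ (n + 1) := hn2.le
  have hM2 : μ ^ (n + 1) ≤ μ * y ^ 5 := by
    rw [pow_succ, mul_comm]
    exact mul_le_mul_of_nonneg_left hn1 pm
  have hJsq : (((n + 1 : ℕ) : ℝ)) ^ 2 ≤ 2 * μ ^ (n + 1) := by
    have h1 := sq_le_two_pow (n + 1)
    have h2 : (((n + 1 : ℕ) : ℝ)) ^ 2 ≤ 2 * 2 ^ (n + 1) := by exact_mod_cast h1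
    refine h2.trans ?_
    gcongr
  refine ⟨n + 1, ?_⟩
  generalize n + 1 = J at hM1 hM2 hJsq ⊢
  set M : ℝ := μ ^ J with hM
  have hM0 : 0 < M := lt_of_lt_of_le (by positivity) hM1
  have hLM2 : (L * M) ^ 2 ≤ (L * μ) ^ 2 * y ^ 10 := by
    calc (L * M) ^ 2 ≤ (L * (μ * y ^ 5)) ^ 2 := by gcongr
      _ = _ := by ring
  have hQ1 : y ^ 5 ≤ L * M := by nlinarith
  have hQ2 : L * M ≤ L * μ * y ^ 5 := by
    calc L * M ≤ L * (μ * y ^ 5) := by gcongr
      _ = _ := by ring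
  have hyQ : y ≤ L * M := hyy5.trans hQ1
  have hQ0 : 0 < L * M := by positivity
  have hN0 : 1 ≤ N := (one_le_pow₀ hy1').trans hN1
  have b1 : 128 * (L * μ) ^ 2 ≤ y := by rw [← hc1]; linarith
  have b2 : 32 * (L * μ) ^ 2 ≤ ε ^ 2 * y := by
    have h : c2 ≤ y := by linarith
    rw [hc2, div_le_iff₀ (by positivity)] at h
    linarith
  have b3 : 2 * (L * μ) ^ 2 ≤ ε * y := by
    have h : c3 ≤ y := by linarith
    rw [hc3, div_le_iff₀ hε] at h
    linarith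
  have b4 : 4 ≤ ε * y := by
    have h : c4 ≤ y := by linarith
    rw [hc4, div_le_iff₀ hε] at h
    linarith
  have b5 : 64 * ((R : ℝ) + 1) ≤ y := by rw [← hc5]; linarith
  have b6 : 84 * ((R : ℝ) * (15 * R + 1) * (16 * R + 17)) + 1 ≤ y := by rw [← hc6]; linarith
  have b7 : 608 * (R : ℝ) * (R + 1) ≤ y := by rw [← hc7]; linarith
  have b8 : 16 * (L * μ) ≤ y := by rw [← hc8]; linarith
  have b9 : 4 * (1344 * ((R : ℝ) * (R + 1) * (16 * R + 17))) ≤ y := by rw [← hc9]; linarith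
  have b10 : 4 * (L * μ) ≤ ε * y := by
    have h : c10 ≤ y := by linarith
    rw [hc10, div_le_iff₀ hε] at h
    linarith
  have b11 : 2 * (1344 * ((R : ℝ) * (R + 1) * (16 * R + 17))) ≤ ε * y := by
    have h : c11 ≤ y := by linarith
    rw [hc11, div_le_iff₀ hε] at h
    linarith
  have b12 : 32 * μ ^ 2 ≤ η * y := by
    have h : c12 ≤ y := by linarith
    rw [hc12, div_le_iff₀ hη] at h
    linarith
  have b13 : 2 * (16 * μ * (19 * R + 2)) ^ 2 ≤ η ^ 2 * y := by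
    have h : c13 ≤ y := by linarith
    rw [hc13, div_le_iff₀ (by positivity)] at h
    linarith
  have b14 : 2 * (19 * (R : ℝ) + 2) ≤ ε * y := by
    have h : c14 ≤ y := by linarith
    rw [hc14, div_le_iff₀ hε] at h
    linarith
  have b15 : L ≤ δ * y := by
    have h : c15 ≤ y := by linarith
    rw [hc15, div_le_iff₀ hδ] at h
    linarith
  clear_value c1 c2 c3 c4 c5 c6 c7 c8 c9 c10 c11 c12 c13 c14 c15
  clear hyc p1 p2 p3 p4 p5 p6 p7 p8 p9 p10 p11 p12 p13 p14 p15 hc1 hc2 hc3 hc4 hc5 hc6 hc7 hc8 hc9 hc10 hc11 hc12 hc13 hc14 hc15 hy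
  have hP : (0 : ℝ) < L * μ := by positivity
  have f1 : (r : ℝ) * (15 * r + 1) * (16 * r + 17) ≤ (R : ℝ) * (15 * R + 1) * (16 * R + 17) := by
    gcongr
  have f2 : (r : ℝ) * (r + 1) * (16 * r + 17) ≤ (R : ℝ) * (R + 1) * (16 * R + 17) := by gcongr
  have g1 : ∀ {i : ℕ}, 1 ≤ i → y ≤ y ^ i := fun {i} h => by simpa using hpow h
  have N1 : 128 * (L * M) ^ 2 * y ^ 10 ≤ y ^ 100 := by
    calc 128 * (L * M) ^ 2 * y ^ 10 ≤ 128 * ((L * μ) ^ 2 * y ^ 10) * y ^ 10 := by gcongr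
      _ = (128 * (L * μ) ^ 2) * y ^ 20 := by ring
      _ ≤ y * y ^ 20 := by gcongr
      _ = y ^ 21 := by ring
      _ ≤ y ^ 100 := hpow (by norm_num)
  have N2 : 32 * (L * M) ^ 2 * y ^ 10 ≤ ε ^ 2 * N := by
    calc 32 * (L * M) ^ 2 * y ^ 10 ≤ 32 * ((L * μ) ^ 2 * y ^ 10) * y ^ 10 := by gcongr
      _ = (32 * (L * μ) ^ 2) * y ^ 20 := by ring
      _ ≤ (ε ^ 2 * y) * y ^ 20 := by gcongr
      _ = ε ^ 2 * y ^ 21 := by ring
      _ ≤ ε ^ 2 * y ^ 100 := by gcongr 1; exact hpow (by norm_num)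
      _ ≤ ε ^ 2 * N := by gcongr
  have N3 : 8 * M ^ 2 * L ^ 2 * (y ^ 50)⁻¹ * y ^ 10 ≤ ε ^ 2 := by
    have h1 : 8 * M ^ 2 * L ^ 2 * (y ^ 50)⁻¹ * y ^ 10 = (8 * (L * M) ^ 2 * y ^ 10) / y ^ 50 := by
      field_simp
    rw [h1, div_le_iff₀ (by positivity)]
    calc 8 * (L * M) ^ 2 * y ^ 10 ≤ 8 * ((L * μ) ^ 2 * y ^ 10) * y ^ 10 := by gcongr
      _ = (8 * (L * μ) ^ 2) * y ^ 20 := by ring
      _ ≤ (ε ^ 2 * y) * y ^ 20 := by
        refine mul_le_mul_of_nonneg_right ?_ (by positivity)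
        have : 0 ≤ (L * μ) ^ 2 := by positivity
        linarith
      _ = ε ^ 2 * y ^ 21 := by ring
      _ ≤ ε ^ 2 * y ^ 50 := by gcongr 1; exact hpow (by norm_num)
  have N4 : M ^ 2 * L ^ 2 * (y ^ 50)⁻¹ ≤ ε / 2 := by
    have h1 : M ^ 2 * L ^ 2 * (y ^ 50)⁻¹ = (L * M) ^ 2 / y ^ 50 := by field_simp
    rw [h1, div_le_iff₀ (by positivity)]
    calc (L * M) ^ 2 ≤ (L * μ) ^ 2 * y ^ 10 := hLM2
      _ ≤ (ε / 2 * y) * y ^ 10 :=
        mul_le_mul_of_nonneg_right (by linarith) (by positivity)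
      _ = ε / 2 * y ^ 11 := by ring
      _ ≤ ε / 2 * y ^ 50 := by gcongr 1; exact hpow (by norm_num)
  have N5 : 1 / (L * M) ≤ ε / 4 := by
    rw [div_le_iff₀ hQ0]
    have : ε * y ≤ ε * (L * M) := by gcongr
    linarith
  have H0' : 2 * ((11 * (J + 1) * N ^ 2) + (N + 1)) * Real.exp (-y ^ 10) < 1 := by
    have hJN : (J : ℝ) + 1 ≤ 2 * N := by
      have h1 : (J : ℝ) ^ 2 ≤ N ^ 2 := by
        calc (J : ℝ) ^ 2 ≤ 2 * M := hJsq
          _ ≤ μ * (μ * y ^ 5) := by gcongr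
          _ = μ ^ 2 * y ^ 5 := by ring
          _ ≤ (32 * μ ^ 2) * y ^ 5 := by gcongr; nlinarith [sq_nonneg μ]
          _ ≤ (128 * (L * μ) ^ 2) * y ^ 5 := by
            refine mul_le_mul_of_nonneg_right ?_ (by positivity)
            have h5 : μ ^ 2 ≤ (L * μ) ^ 2 := by
              rw [mul_pow]
              have : (1 : ℝ) ≤ L ^ 2 := one_le_pow₀ hL
              nlinarith only [sq_nonneg μ, this]
            linarith only [sq_nonneg μ, h5]
          _ ≤ y * y ^ 5 := by gcongr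
          _ = y ^ 6 := by ring
          _ ≤ (y ^ 100) ^ 2 := by rw [← pow_mul]; exact hpow (by norm_num)
          _ ≤ N ^ 2 := by gcongr
      have h2 := abs_le_of_sq_le_sq h1 (by linarith)
      linarith [le_of_abs_le h2]
    have h3 : 2 * ((11 * ((J : ℝ) + 1) * N ^ 2) + (N + 1)) ≤ 48 * N ^ 3 := by
      have h4 : 11 * ((J : ℝ) + 1) * N ^ 2 ≤ 11 * (2 * N) * N ^ 2 := by gcongr
      have h5 : N + 1 ≤ 2 * N ^ 3 := by
        have : N ≤ N ^ 3 := by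
          calc N = N ^ 1 := (pow_one N).symm
            _ ≤ N ^ 3 := pow_le_pow_right₀ hN0 (by norm_num)
        linarith
      nlinarith
    have h6 : N ^ 3 ≤ y ^ (3 * k0) := by
      calc N ^ 3 ≤ (y ^ k0) ^ 3 := by gcongr
        _ = _ := by rw [← pow_mul, mul_comm]
    have h7 : Real.exp (-y ^ 10) ≤ Real.exp (-y) := by
      apply Real.exp_le_exp.2
      have := g1 (i := 10) (by norm_num)
      linarith
    calc 2 * ((11 * ((J : ℝ) + 1) * N ^ 2) + (N + 1)) * Real.exp (-y ^ 10)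
        ≤ (48 * y ^ (3 * k0)) * Real.exp (-y) := by
          apply mul_le_mul _ h7 (Real.exp_pos _).le (by positivity)
          exact h3.trans (by gcongr)
      _ = 48 * (y ^ (3 * k0) * Real.exp (-y)) := by ring
      _ < 1 := hy1 y hyy1
  have S1 : 64 * ((r : ℝ) + 1) ≤ L * M := by linarith only [b5, hrR', hyQ]
  have S2 : 84 * ((r : ℝ) * (15 * r + 1) * (16 * r + 17)) * y ^ 2 < L * M := by
    have h1 : 84 * ((r : ℝ) * (15 * r + 1) * (16 * r + 17)) ≤ y - 1 := by linarith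
    calc 84 * ((r : ℝ) * (15 * r + 1) * (16 * r + 17)) * y ^ 2 ≤ (y - 1) * y ^ 2 := by gcongr
      _ < y * y ^ 2 := by
        have : 0 < y ^ 2 := by positivity
        linarith
      _ = y ^ 3 := by ring
      _ ≤ y ^ 5 := hpow (by norm_num)
      _ ≤ _ := hQ1
  have S3 : 608 * (r : ℝ) * (r + 1) ≤ y ^ 100 := by
    calc 608 * (r : ℝ) * (r + 1) ≤ 608 * (R : ℝ) * (R + 1) := by gcongr
      _ ≤ y := b7
      _ ≤ _ := g1 (by norm_num)
  have S4 : 8 * (L * M) * (y + 1) ≤ y ^ 100 := by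
    calc 8 * (L * M) * (y + 1) ≤ 8 * (L * μ * y ^ 5) * (y + y) := by gcongr
      _ = (16 * (L * μ)) * y ^ 6 := by ring
      _ ≤ y * y ^ 6 := by gcongr
      _ = y ^ 7 := by ring
      _ ≤ _ := hpow (by norm_num)
  have S5 : 4 * (1344 * ((r : ℝ) * (r + 1) * (16 * r + 17))) * y ≤ L * M := by
    calc 4 * (1344 * ((r : ℝ) * (r + 1) * (16 * r + 17))) * y ≤ y * y :=
          mul_le_mul_of_nonneg_right (by linarith) hy0.le
      _ = y ^ 2 := by ring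
      _ ≤ y ^ 5 := hpow (by norm_num)
      _ ≤ _ := hQ1
  have S6 : 2 * (L * M) / y ^ 100 + (1344 * ((r : ℝ) * (r + 1) * (16 * r + 17))) * y / (L * M) ≤
      ε := by
    have h1 : 2 * (L * M) / y ^ 100 ≤ ε / 2 := by
      rw [div_le_iff₀ (by positivity)]
      calc 2 * (L * M) ≤ 2 * (L * μ * y ^ 5) := by gcongr
        _ = (2 * (L * μ)) * y ^ 5 := by ring
        _ ≤ (ε / 2 * y) * y ^ 5 :=
          mul_le_mul_of_nonneg_right (by linarith) (by positivity)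
        _ = ε / 2 * y ^ 6 := by ring
        _ ≤ ε / 2 * y ^ 100 := by gcongr 1; exact hpow (by norm_num)
    have h2 : (1344 * ((r : ℝ) * (r + 1) * (16 * r + 17))) * y / (L * M) ≤ ε / 2 := by
      rw [div_le_iff₀ hQ0]
      calc (1344 * ((r : ℝ) * (r + 1) * (16 * r + 17))) * y ≤ (ε / 2 * y) * y :=
            mul_le_mul_of_nonneg_right (by linarith) hy0.le
        _ = ε / 2 * y ^ 2 := by ring
        _ ≤ ε / 2 * y ^ 5 := by gcongr 1; exact hpow (by norm_num)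
        _ ≤ ε / 2 * (L * M) := by gcongr
    linarith
  have E4 : 4 * μ / L + 2 * μ * M * (y ^ 50)⁻¹ ≤ η / 8 := by
    have h1 : 4 * μ / L ≤ η / 16 := by
      rw [div_le_iff₀ (by linarith)]
      linarith
    have h2 : 2 * μ * M * (y ^ 50)⁻¹ ≤ η / 16 := by
      rw [← div_eq_mul_inv, div_le_iff₀ (by positivity)]
      calc 2 * μ * M ≤ 2 * μ * (μ * y ^ 5) := by gcongr
        _ = (2 * μ ^ 2) * y ^ 5 := by ring
        _ ≤ (η / 16 * y) * y ^ 5 :=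
          mul_le_mul_of_nonneg_right (by linarith) (by positivity)
        _ = η / 16 * y ^ 6 := by ring
        _ ≤ η / 16 * y ^ 50 := by gcongr 1; exact hpow (by norm_num)
    linarith
  have E5 : 2 * μ * J * (19 * r + 2) ≤ η / 8 * M := by
    have h1 : (16 * μ * (19 * R + 2) * J) ^ 2 ≤ (η * M) ^ 2 := by
      calc (16 * μ * (19 * R + 2) * (J : ℝ)) ^ 2 = (16 * μ * (19 * R + 2)) ^ 2 * (J : ℝ) ^ 2 := by
            ring
        _ ≤ (16 * μ * (19 * R + 2)) ^ 2 * (2 * M) := by gcongr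
        _ = (2 * (16 * μ * (19 * R + 2)) ^ 2) * M := by ring
        _ ≤ (η ^ 2 * y) * M := by gcongr
        _ ≤ (η ^ 2 * M) * M := by gcongr; exact hyy5.trans hM1
        _ = _ := by ring
    have h2 := abs_le_of_sq_le_sq h1 (by positivity)
    have h3 : 16 * μ * (19 * R + 2) * J ≤ η * M := le_of_abs_le h2
    have h4 : 16 * μ * (19 * r + 2) * J ≤ 16 * μ * (19 * R + 2) * J := by gcongr
    linarith
  have E6 : 2 * (19 * (r : ℝ) + 2) ≤ ε * (L * M) := by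
    have : ε * y ≤ ε * (L * M) := by gcongr
    linarith
  have E8 : L * (y ^ 50)⁻¹ ≤ δ := by
    rw [← div_eq_mul_inv, div_le_iff₀ (by positivity)]
    refine b15.trans ?_
    gcongr
    exact g1 (by norm_num)
  have hε1 : ε ≤ 1 := by
    have : (1 : ℝ) ≤ L ^ 2 := one_le_pow₀ hL
    nlinarith
  exact
  { Qdef := rfl, hm := hm, hΛ := hΛ, hr := hr1, κ0 := by positivity, ε0 := hε, ε1 := hε1,
    X0 := by positivity, w1 := hy1', δ0 := hδ, η0 := hη, n1 := N1, n2 := N2, n3 := N3, n4 := N4,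
    n5 := N5, h0 := H0', s1 := S1, s2 := S2, s3 := S3, s4 := S4, s5 := S5, s6 := S6, e1 := e1,
    e2 := e2, e3 := e3, e4 := E4, e5 := E5, e6 := E6, e7 := e7, e8 := E8 }

end Pool.Agent.N533.NS
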