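import Pool.Agent.N533.NS.Conf

/-!
# Project NS: more statements
-/

set_option autoImplicit false

open Finset

namespace Pool.Agent.N533.NS

section
variable {G Ω : Type} [Group G] [DecidableEq G]

/-- one of the new vertices of the node of spacing `m ^ (k + 1)` at the position `p` of the path
at `x` is in `H0` or coincides with another vertex of the same level -/
def Bad (T H0 : Finset G) (vt : Ω → ℕ → G) (m J : ℕ) (ω : G → Ω) (x : G) (k p : ℕ) : Prop :=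
  ∃ b, 1 ≤ b ∧ b < m ∧ (x * vt (ω x) (p + b * m ^ k) ∈ H0 ∨
    ∃ x' ∈ T, ∃ p' ∈ Ico 1 (m ^ J), m ^ k ∣ p' ∧ (x', p') ≠ (x, p + b * m ^ k) ∧
      x' * vt (ω x') p' = x * vt (ω x) (p + b * m ^ k))

/-- the edge at the position `p` of the path at `x` is below a bad node -/
def Dead (T H0 : Finset G) (vt : Ω → ℕ → G) (m J : ℕ) (ω : G → Ω) (x : G) (p : ℕ) : Prop :=
  ∃ k < J, Bad T H0 vt m J ω x k (m ^ (k + 1) * (p / m ^ (k + 1)))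

end

/-- **Task E.** Few edges are dead. -/
def EStm : Prop := ∀ (G Ω : Type) [Group G] [Fintype G] [DecidableEq G] [Fintype Ω] [Nonempty Ω]
  (T H0 : Finset G) (vt : Ω → ℕ → G) (m J Λ : ℕ) (κ : ℝ), 2 ≤ m → 1 ≤ Λ → 0 ≤ κ →
  (∀ p ∈ Ico 1 (m ^ J), ∀ p' ∈ Ico 1 (m ^ J), p ≠ p' → pr (fun a => vt a p = vt a p') ≤ κ) →
  (∀ k < J, ∀ z : G, ∑ x ∈ T, ∑ p ∈ (Ico 1 (m ^ J)).filter (fun p => m ^ k ∣ p),
    pr (fun a => x * vt a p = z) ≤ 2 / (Λ * m ^ k)) →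
  (av fun ω : G → Ω => ∑ x ∈ T, ∑ p ∈ range (m ^ J), ind (Dead T H0 vt m J ω x p)) ≤
    T.card * m ^ J * (4 * m / Λ + 2 * m * m ^ J * κ) + 2 * m * J * H0.card / Λ

/-- **Task SEL.** A random set: linear functionals, and the elements `x` with `x * σ` outside. -/
def SelStm : Prop := ∀ (G : Type) [Group G] [Fintype G] [DecidableEq G] (Q : ℕ) (σ : G)
  (ι ι' : Type) [Fintype ι] [Fintype ι'] (a : ι → G → ℝ) (t : ι → ℝ) (B : ι' → Finset G)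
  (tc : ι' → ℝ), 1 ≤ Q → σ ≠ 1 → (∀ i, 0 ≤ t i) → (∀ j, 0 ≤ tc j) →
  ∑ i, 2 * Real.exp (-(t i) ^ 2 / (2 * ∑ x, a i x ^ 2)) +
    ∑ j, 2 * Real.exp (-(tc j) ^ 2 / (8 * (B j).card)) < 1 →
  ∃ T : Finset G, (∀ i, |∑ x ∈ T, a i x - (∑ x, a i x) / Q| ≤ t i) ∧
    ∀ j, |(((T ∩ B j).filter fun x => x * σ ∉ T).card : ℝ) - (B j).card * (1 / Q) * (1 - 1 / Q)| ≤
      tc j

/-- **Task ASM.** Putting the cycle together. -/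
def AsmStm : Prop := ∀ (G : Type) [Group G] [DecidableEq G] (S H0 : Finset G) (σ : G)
  (n m J Λ : ℕ) (x : ℕ → G) (hp : ℕ → List G) (vp : ℕ → ℕ → G) (fl : ℕ → ℕ → ℕ → G)
  (Good : ℕ → ℕ → ℕ → Prop) (Lf : Finset (ℕ × ℕ)), 1 ≤ n → 2 ≤ m →
  -- the skeleton: `x i`, `x i * σ`, the list `hp i`, `x (i + 1)`, ...
  (∀ i < n, ∀ j < n, x i = x j → i = j) → (∀ i < n, ∀ j < n, x i ≠ x j * σ) →
  (∀ i < n, (x i * σ :: (hp i ++ [x ((i + 1) % n)])).IsChain fun a b => a⁻¹ * b ∈ S) →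
  (∀ i < n, (hp i).Nodup) → (∀ i < n, ∀ z ∈ hp i, ∀ j < n, z ≠ x j ∧ z ≠ x j * σ) →
  (∀ i < n, ∀ j < n, i ≠ j → List.Disjoint (hp i) (hp j)) →
  (∀ i < n, x i ∈ H0 ∧ x i * σ ∈ H0 ∧ ∀ z ∈ hp i, z ∈ H0) →
  -- the hierarchical path from `x i` to `x i * σ`
  (∀ i < n, vp i 0 = x i ∧ vp i (m ^ J) = x i * σ) →
  (∀ i < n, ∀ k ≤ J, ∀ p, m ^ k ∣ p → p < m ^ J → (vp i p)⁻¹ * vp i (p + m ^ k) ∈ S) →
  -- the good nodes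
  (∀ i < n, ∀ k < J, ∀ p, Good i k p → ∀ b, 1 ≤ b → b < m → vp i (p + b * m ^ k) ∉ H0 ∧
    ∀ i' < n, ∀ p' ∈ Ico 1 (m ^ J), m ^ k ∣ p' → vp i' p' = vp i (p + b * m ^ k) →
      i' = i ∧ p' = p + b * m ^ k) →
  -- the filled edges: below good nodes only
  (∀ l ∈ Lf, l.1 < n ∧ l.2 < m ^ J ∧ ∀ k < J, Good l.1 k (m ^ (k + 1) * (l.2 / m ^ (k + 1)))) →
  (∀ l ∈ Lf, fl l.1 l.2 0 = vp l.1 l.2 ∧ fl l.1 l.2 (Λ + 1) = vp l.1 (l.2 + 1) ∧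
    ∀ c ≤ Λ, (fl l.1 l.2 c)⁻¹ * fl l.1 l.2 (c + 1) ∈ S) →
  (∀ l ∈ Lf, ∀ c ∈ Icc 1 Λ, fl l.1 l.2 c ∉ H0 ∧
    ∀ i' < n, ∀ p' ∈ Ico 1 (m ^ J), fl l.1 l.2 c ≠ vp i' p') →
  (∀ l ∈ Lf, ∀ l' ∈ Lf, ∀ c ∈ Icc 1 Λ, ∀ c' ∈ Icc 1 Λ,
    fl l.1 l.2 c = fl l'.1 l'.2 c' → l = l' ∧ c = c') →
  ∃ l : List G, l.Nodup ∧ l.IsChain (fun a b => a⁻¹ * b ∈ S) ∧
    (∃ y z, l.head? = some y ∧ l.getLast? = some z ∧ z⁻¹ * y ∈ S) ∧ Λ * Lf.card ≤ l.length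

end Pool.Agent.N533.NS
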