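import Pool.Agent.N533.NS.Mom
import Pool.Agent.N533.NS.Stm2
import Pool.Agent.QCube.Lll

/-!
# Project NS: a random set with prescribed linear functionals (Task SEL)
-/

set_option autoImplicit false

open Finset

namespace Pool.Agent.N533.NS

lemma sum_ind_card {α : Type} (s : Finset α) (p : α → Prop) [DecidablePred p] :
    ∑ x ∈ s, ind (p x) = ((s.filter p).card : ℝ) := by
  rw [card_filter]
  push_cast
  refine sum_congr rfl fun x _ => ?_
  by_cases h : p x
  · rw [ind_true h, if_pos h]
  · rw [ind_false h, if_neg h]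

section sel
variable {G : Type} [Fintype G] [DecidableEq G] {Q : ℕ} [NeZero Q]

lemma sel_av_zero (x : G) : av (fun χ : G → Fin Q => ind (χ x = 0)) = 1 / Q := by
  have h := av_prod_eq (I := G) (U := Fin Q) {x} (fun _ u => ind (u = 0))
  simp only [prod_singleton] at h
  rw [h]
  unfold av
  have : ∑ a : Fin Q, ind (a = 0) = 1 := by
    rw [sum_ind_card, filter_eq' univ (0 : Fin Q), if_pos (mem_univ _), card_singleton, Nat.cast_one]
  rw [this, Fintype.card_fin]

lemma sel_av_two {x y : G} (hxy : x ≠ y) :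
    av (fun χ : G → Fin Q => ind (χ x = 0 ∧ χ y ≠ 0)) = 1 / Q * (1 - 1 / Q) := by
  have h := av_prod_eq (I := G) (U := Fin Q) {x, y}
    (fun z u => if z = x then ind (u = 0) else 1 - ind (u = 0))
  simp only [prod_pair hxy, if_true, if_neg hxy.symm] at h
  have h0 : ∀ χ : G → Fin Q, ind (χ x = 0 ∧ χ y ≠ 0) =
      ind (χ x = 0) * (1 - ind (χ y = 0)) := by
    intro χ
    unfold ind
    by_cases h1 : χ x = 0 <;> by_cases h2 : χ y = 0 <;> simp [h1, h2]
  simp only [h0]
  rw [h]
  have h1 : ∑ a : Fin Q, ind (a = 0) = 1 := by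
    rw [sum_ind_card, filter_eq' univ (0 : Fin Q), if_pos (mem_univ _), card_singleton, Nat.cast_one]
  have hQ : (Q : ℝ) ≠ 0 := by exact_mod_cast NeZero.ne Q
  have h2 : av (fun a : Fin Q => ind (a = 0)) = 1 / Q := by
    unfold av
    rw [h1, Fintype.card_fin]
  have h3 : av (fun a : Fin Q => 1 - ind (a = 0)) = 1 - 1 / Q := by
    rw [av_sub, h2, av_const]
  rw [h2, h3]

omit [NeZero Q] in
lemma sel_two_sided [NeZero Q] (f : (G → Fin Q) → ℝ) (c : G → ℝ) (hc : ∀ i, 0 ≤ c i)
    (hf : ∀ i, ∀ s s' : G → Fin Q, (∀ j, j ≠ i → s j = s' j) → |f s - f s'| ≤ c i)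
    (V t A : ℝ) (hV : ∑ i, c i ^ 2 ≤ V) (hV0 : 0 < V) (ht : 0 ≤ t) (hA : av f = A) :
    ((univ.filter (fun s : G → Fin Q => ¬ |f s - A| ≤ t)).card : ℝ) ≤
      2 * Real.exp (-t ^ 2 / (2 * V)) * (Fintype.card (G → Fin Q) : ℝ) := by
  classical
  have h1 := Pool.Agent.QCube.mcd_upper f c hc hf V t hV hV0 ht
  have h2 := Pool.Agent.QCube.mcd_lower f c hc hf V t hV hV0 ht
  unfold av at hA
  rw [hA] at h1 h2
  have h3 : (univ.filter (fun s : G → Fin Q => ¬ |f s - A| ≤ t)) ⊆
      (univ.filter (fun s : G → Fin Q => A + t ≤ f s)) ∪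
        (univ.filter (fun s : G → Fin Q => f s ≤ A - t)) := by
    intro s hs
    rw [mem_filter] at hs
    rw [mem_union, mem_filter, mem_filter]
    have := hs.2
    rw [abs_le, not_and_or, not_le, not_le] at this
    rcases this with h | h
    · right; exact ⟨mem_univ _, by linarith⟩
    · left; exact ⟨mem_univ _, by linarith⟩
  have h4 := (card_le_card h3).trans (card_union_le _ _)
  have h5 : ((univ.filter (fun s : G → Fin Q => ¬ |f s - A| ≤ t)).card : ℝ) ≤
      ((univ.filter (fun s : G → Fin Q => A + t ≤ f s)).card : ℝ) +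
        ((univ.filter (fun s : G → Fin Q => f s ≤ A - t)).card : ℝ) := by
    exact_mod_cast h4
  have h6 : ((univ.filter (fun s : G → Fin Q => A + t ≤ f s)).card : ℝ) ≤
      Real.exp (-t ^ 2 / (2 * V)) * (Fintype.card (G → Fin Q) : ℝ) := by
    convert h1
  have h7 : ((univ.filter (fun s : G → Fin Q => f s ≤ A - t)).card : ℝ) ≤
      Real.exp (-t ^ 2 / (2 * V)) * (Fintype.card (G → Fin Q) : ℝ) := by
    convert h2
  linarith

end sel

theorem selStm : SelStm := by
  classical
  intro G _ _ _ Q σ ι ι' _ _ a t B tc hQ hσ ht htc hsum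
  have : NeZero Q := ⟨by omega⟩
  have hN : 0 < (Fintype.card (G → Fin Q) : ℝ) := by exact_mod_cast Fintype.card_pos
  -- the functions
  set f : ι → (G → Fin Q) → ℝ := fun i χ => ∑ x, (if χ x = 0 then a i x else 0) with hf
  set g : ι' → (G → Fin Q) → ℝ := fun j χ => ∑ x ∈ B j, ind (χ x = 0 ∧ χ (x * σ) ≠ 0) with hg
  -- the terms of the sum
  have hterm1 : ∀ i, 2 * Real.exp (-(t i) ^ 2 / (2 * ∑ x, a i x ^ 2)) < 1 := by
    intro i
    have h1 : 2 * Real.exp (-(t i) ^ 2 / (2 * ∑ x, a i x ^ 2)) ≤
        ∑ i, 2 * Real.exp (-(t i) ^ 2 / (2 * ∑ x, a i x ^ 2)) :=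
      single_le_sum (f := fun i => 2 * Real.exp (-(t i) ^ 2 / (2 * ∑ x, a i x ^ 2)))
        (fun i _ => by positivity) (mem_univ i)
    have h2 : 0 ≤ ∑ j, 2 * Real.exp (-(tc j) ^ 2 / (8 * (B j).card)) :=
      sum_nonneg fun j _ => by positivity
    linarith
  have hterm2 : ∀ j, 2 * Real.exp (-(tc j) ^ 2 / (8 * (B j).card)) < 1 := by
    intro j
    have h1 : 2 * Real.exp (-(tc j) ^ 2 / (8 * (B j).card)) ≤
        ∑ j, 2 * Real.exp (-(tc j) ^ 2 / (8 * (B j).card)) :=
      single_le_sum (f := fun j => 2 * Real.exp (-(tc j) ^ 2 / (8 * (B j).card)))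
        (fun i _ => by positivity) (mem_univ j)
    have h2 : 0 ≤ ∑ i, 2 * Real.exp (-(t i) ^ 2 / (2 * ∑ x, a i x ^ 2)) :=
      sum_nonneg fun j _ => by positivity
    linarith
  have hV1 : ∀ i, 0 < ∑ x, a i x ^ 2 := by
    intro i
    rcases (sum_nonneg fun x (_ : x ∈ univ) => sq_nonneg (a i x)).lt_or_eq with h | h
    · exact h
    · exfalso
      have := hterm1 i
      rw [← h] at this
      norm_num at this
  have hV2 : ∀ j, 0 < (B j).card := by
    intro j
    rcases Nat.eq_zero_or_pos (B j).card with h | h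
    · exfalso
      have := hterm2 j
      rw [h] at this
      norm_num at this
    · exact h
  -- bound for f
  have hbf : ∀ i, ((univ.filter (fun s : G → Fin Q => ¬ |f i s - (∑ x, a i x) / Q| ≤ t i)).card : ℝ) ≤
      2 * Real.exp (-(t i) ^ 2 / (2 * ∑ x, a i x ^ 2)) * (Fintype.card (G → Fin Q) : ℝ) := by
    intro i
    refine sel_two_sided (f i) (fun x => |a i x|) (fun x => abs_nonneg _) ?_ _ _ _ ?_ (hV1 i)
      (ht i) ?_
    · intro x s s' hs
      have h1 : f i s - f i s' = (if s x = 0 then a i x else 0) - (if s' x = 0 then a i x else 0) := by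
        rw [hf]
        simp only
        rw [← sum_sub_distrib]
        refine sum_eq_single x (fun y _ hy => ?_) (fun h => absurd (mem_univ x) h)
        rw [hs y hy, sub_self]
      rw [h1]
      split_ifs <;> simp
    · simp only [sq_abs]; exact le_rfl
    · have h1 : f i = fun χ => ∑ x, a i x * ind (χ x = 0) := by
        funext χ
        rw [hf]
        simp only
        refine sum_congr rfl fun x _ => ?_
        unfold ind
        split_ifs <;> simp
      rw [h1, av_sum]
      simp only [av_mul_left, sel_av_zero]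
      rw [← sum_mul]
      ring
  -- bound for g
  have hbg : ∀ j, ((univ.filter (fun s : G → Fin Q =>
      ¬ |g j s - (B j).card * (1 / Q) * (1 - 1 / Q)| ≤ tc j)).card : ℝ) ≤
      2 * Real.exp (-(tc j) ^ 2 / (8 * (B j).card)) * (Fintype.card (G → Fin Q) : ℝ) := by
    intro j
    have h0 : (8 * (B j).card : ℝ) = 2 * (4 * (B j).card) := by ring
    rw [h0]
    refine sel_two_sided (g j) (fun y => ind (y ∈ B j) + ind (y * σ⁻¹ ∈ B j))
      (fun y => add_nonneg (ind_nonneg _) (ind_nonneg _)) ?_ _ _ _ ?_ ?_ (htc j) ?_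
    · intro y s s' hs
      rw [hg]
      simp only
      rw [← sum_sub_distrib]
      refine (abs_sum_le_sum_abs _ _).trans ?_
      have h1 : ∀ x ∈ B j, |ind (s x = 0 ∧ s (x * σ) ≠ 0) - ind (s' x = 0 ∧ s' (x * σ) ≠ 0)| ≤
          ind (x = y) + ind (x = y * σ⁻¹) := by
        intro x _
        by_cases hx : x = y
        · rw [ind_true hx]
          have : (0 : ℝ) ≤ ind (x = y * σ⁻¹) := ind_nonneg _
          refine le_trans ?_ (le_add_of_nonneg_right this)
          unfold ind
          split_ifs <;> simp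
        · by_cases hx2 : x = y * σ⁻¹
          · rw [ind_true hx2]
            refine le_trans ?_ (le_add_of_nonneg_left (ind_nonneg _))
            unfold ind
            split_ifs <;> simp
          · have h3 : x * σ ≠ y := by
              intro h
              apply hx2
              rw [← h, mul_inv_cancel_right]
            rw [hs x hx, hs (x * σ) h3, sub_self, abs_zero]
            exact add_nonneg (ind_nonneg _) (ind_nonneg _)
      refine (sum_le_sum h1).trans ?_
      rw [sum_add_distrib]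
      have h2 : ∀ z : G, ∑ x ∈ B j, ind (x = z) = ind (z ∈ B j) := by
        intro z
        rw [sum_ind_card, filter_eq']
        by_cases hz : z ∈ B j
        · rw [if_pos hz, ind_true hz, card_singleton, Nat.cast_one]
        · rw [if_neg hz, ind_false hz, card_empty, Nat.cast_zero]
      rw [h2, h2]
    · have h1 : ∀ y : G, (ind (y ∈ B j) + ind (y * σ⁻¹ ∈ B j)) ^ 2 ≤
          2 * ind (y ∈ B j) + 2 * ind (y * σ⁻¹ ∈ B j) := by
        intro y
        unfold ind
        split_ifs <;> norm_num
      refine (sum_le_sum fun y _ => h1 y).trans ?_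
      rw [sum_add_distrib, ← mul_sum, ← mul_sum]
      have h2 : ∑ y : G, ind (y ∈ B j) = (B j).card := by
        rw [sum_ind_card, filter_univ_mem]
      have h3 : ∑ y : G, ind (y * σ⁻¹ ∈ B j) = (B j).card := by
        rw [← h2]
        exact Fintype.sum_equiv (Equiv.mulRight σ⁻¹) _ _ (fun y => rfl)
      rw [h2, h3]
      linarith
    · have : (0 : ℝ) < (B j).card := by exact_mod_cast hV2 j
      positivity
    · rw [hg]
      simp only
      rw [av_sum]
      have h1 : ∀ x ∈ B j, av (fun χ : G → Fin Q => ind (χ x = 0 ∧ χ (x * σ) ≠ 0)) =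
          1 / Q * (1 - 1 / Q) := by
        intro x _
        refine sel_av_two ?_
        intro h
        exact hσ (mul_left_cancel (a := x) (by rw [← h, mul_one]))
      rw [sum_congr rfl h1, sum_const, nsmul_eq_mul]
      ring
  -- union bound
  have hex : ∃ χ : G → Fin Q, (∀ i, |f i χ - (∑ x, a i x) / Q| ≤ t i) ∧
      ∀ j, |g j χ - (B j).card * (1 / Q) * (1 - 1 / Q)| ≤ tc j := by
    by_contra hcon
    push Not at hcon
    have h1 : (univ : Finset (G → Fin Q)) ⊆
        (univ.biUnion fun i => univ.filter (fun s : G → Fin Q => ¬ |f i s - (∑ x, a i x) / Q| ≤ t i)) ∪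
        (univ.biUnion fun j => univ.filter (fun s : G → Fin Q =>
          ¬ |g j s - (B j).card * (1 / Q) * (1 - 1 / Q)| ≤ tc j)) := by
      intro χ _
      rw [mem_union, mem_biUnion, mem_biUnion]
      by_cases h : ∀ i, |f i χ - (∑ x, a i x) / Q| ≤ t i
      · right
        obtain ⟨j, hj⟩ := hcon χ h
        exact ⟨j, mem_univ _, mem_filter.2 ⟨mem_univ _, not_le.2 hj⟩⟩
      · left
        push Not at h
        obtain ⟨i, hi⟩ := h
        exact ⟨i, mem_univ _, mem_filter.2 ⟨mem_univ _, not_le.2 hi⟩⟩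
    have h2 := ((card_le_card h1).trans (card_union_le _ _)).trans
      (add_le_add card_biUnion_le card_biUnion_le)
    rw [card_univ] at h2
    have h3 : (Fintype.card (G → Fin Q) : ℝ) ≤
        (∑ i, ((univ.filter (fun s : G → Fin Q => ¬ |f i s - (∑ x, a i x) / Q| ≤ t i)).card : ℝ)) +
        ∑ j, ((univ.filter (fun s : G → Fin Q =>
          ¬ |g j s - (B j).card * (1 / Q) * (1 - 1 / Q)| ≤ tc j)).card : ℝ) := by
      exact_mod_cast h2
    have h4 := h3.trans (add_le_add (sum_le_sum fun i _ => hbf i) (sum_le_sum fun j _ => hbg j))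
    rw [← sum_mul, ← sum_mul, ← add_mul] at h4
    nlinarith
  obtain ⟨χ, h1, h2⟩ := hex
  refine ⟨univ.filter (fun x => χ x = 0), fun i => ?_, fun j => ?_⟩
  · have := h1 i
    rw [hf] at this
    simp only at this
    rw [sum_filter]
    exact this
  · have h3 : (((univ.filter (fun x => χ x = 0) ∩ B j).filter
        fun x => x * σ ∉ univ.filter (fun x => χ x = 0)).card : ℝ) = g j χ := by
      rw [hg]
      simp only
      rw [sum_ind_card]
      congr 2
      ext x
      simp only [mem_filter, mem_inter, mem_univ, true_and]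
      tauto
    rw [h3]
    exact h2 j

end Pool.Agent.N533.NS
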