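import Pool.Agent.N533.NS.Av

/-!
# Random hierarchical paths
-/

set_option autoImplicit false

open Finset

namespace Pool.Agent.N533.NS

theorem treeStm : TreeStm := by
  classical
  intro G _ _ m S κ U _ _ P hm hκ hP J
  induction J with
  | zero =>
    refine ⟨Unit, inferInstance, inferInstance, fun _ s p => if p = 0 then 1 else s, ?_⟩
    refine ⟨fun _ _ => by simp, fun _ s _ => by simp, ?_, ?_⟩
    · intro a s hs k hk p hp hp2
      have hk0 : k = 0 := by omega
      subst hk0
      have hp0 : p = 0 := by simpa using hp2
      subst hp0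
      simpa using hs
    · intro s hs p p' h1 h2 h3 g
      exfalso
      apply h3
      rw [pow_zero] at h2 ⊢
      omega
  | succ J ih =>
    obtain ⟨Ω, iF, iN, q, hq⟩ := ih
    have hmJ : 0 < m ^ J := by positivity
    have hmpos : 0 < m := by omega
    set idx : ℕ → Fin (m ^ J) := fun c => ⟨c % m ^ J, Nat.mod_lt _ hmJ⟩ with hidx
    have hidx_inj : ∀ c c', c < m ^ J → c' < m ^ J → c ≠ c' → idx c ≠ idx c' := by
      intro c c' hc hc' hne h
      simp only [hidx, Fin.mk.injEq] at h
      rw [Nat.mod_eq_of_lt hc, Nat.mod_eq_of_lt hc'] at h
      exact hne h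
    set tp : Ω → G → ℕ → G := fun a s c => (q a s c)⁻¹ * q a s (c + 1) with htp
    set Q : Ω × (Fin (m ^ J) → U) → G → ℕ → G := fun x s p =>
      q x.1 s (p / m) * P (x.2 (idx (p / m))) (tp x.1 s (p / m)) (p % m) with hQ
    have htpS : ∀ a, ∀ s ∈ S, ∀ c < m ^ J, tp a s c ∈ S := by
      intro a s hs c hc
      have := hq.step a s hs 0 (Nat.zero_le _) c (by simp) hc
      rw [pow_zero] at this
      exact this
    have hQ0 : ∀ x s c, Q x s (m * c) = q x.1 s c := by
      intro x s c
      simp only [hQ]
      rw [Nat.mul_div_cancel_left _ hmpos, Nat.mul_mod_right, hP.zero, mul_one]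
    have hQb : ∀ x s c b, b < m → Q x s (m * c + b) =
        q x.1 s c * P (x.2 (idx c)) (tp x.1 s c) b := by
      intro x s c b hb
      simp only [hQ]
      rw [Nat.mul_add_div hmpos, Nat.div_eq_of_lt hb, add_zero, Nat.mul_add_mod,
        Nat.mod_eq_of_lt hb]
    have hpow : m ^ (J + 1) = m * m ^ J := by rw [pow_succ, mul_comm]
    refine ⟨Ω × (Fin (m ^ J) → U), inferInstance, inferInstance, Q, ?_, ?_, ?_, ?_⟩
    · intro a s
      have := hQ0 a s 0
      rw [mul_zero] at this
      rw [this, hq.zero]
    · intro a s hs
      rw [hpow, hQ0, hq.last _ s hs]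
    · intro a s hs k hk p hp hpl
      rcases Nat.eq_zero_or_pos k with hk0 | hk0
      · subst hk0
        rw [pow_zero]
        obtain ⟨c, b, hb, rfl⟩ : ∃ c b, b < m ∧ p = m * c + b :=
          ⟨p / m, p % m, Nat.mod_lt _ hmpos, (Nat.div_add_mod p m).symm⟩
        have hc : c < m ^ J := by
          rw [hpow] at hpl
          by_contra hcon
          push Not at hcon
          have : m * m ^ J ≤ m * c := Nat.mul_le_mul_left _ hcon
          omega
        rw [hQb _ _ _ _ hb]
        rcases Nat.lt_or_ge (b + 1) m with h1 | h1
        · rw [add_assoc, hQb _ _ _ _ h1]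
          have h2 := hP.step (a.2 (idx c)) _ (htpS a.1 s hs c hc) b hb
          have e : (q a.1 s c * P (a.2 (idx c)) (tp a.1 s c) b)⁻¹ *
              (q a.1 s c * P (a.2 (idx c)) (tp a.1 s c) (b + 1)) =
              (P (a.2 (idx c)) (tp a.1 s c) b)⁻¹ * P (a.2 (idx c)) (tp a.1 s c) (b + 1) := by
            group
          rw [e]
          exact h2
        · have h2 : b + 1 = m := by omega
          have h3 : m * c + b + 1 = m * (c + 1) := by rw [mul_add, mul_one]; omega
          rw [h3, hQ0]
          have h4 := hP.step (a.2 (idx c)) _ (htpS a.1 s hs c hc) b hb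
          rw [h2, hP.last _ _ (htpS a.1 s hs c hc)] at h4
          have e : (q a.1 s c * P (a.2 (idx c)) (tp a.1 s c) b)⁻¹ * q a.1 s (c + 1) =
              (P (a.2 (idx c)) (tp a.1 s c) b)⁻¹ * tp a.1 s c := by
            simp only [htp]
            group
          rw [e]
          exact h4
      · obtain ⟨k, rfl⟩ : ∃ k', k = k' + 1 := ⟨k - 1, by omega⟩
        rw [pow_succ, mul_comm] at hp ⊢
        obtain ⟨c, hc⟩ := (dvd_mul_right m (m ^ k)).trans hp
        rw [hc] at hp hpl ⊢
        rw [← mul_add, hQ0, hQ0]
        apply hq.step a.1 s hs k (by omega) c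
        · exact Nat.dvd_of_mul_dvd_mul_left hmpos hp
        · rw [hpow] at hpl
          exact Nat.lt_of_mul_lt_mul_left hpl
    · intro s hs p p' hpp hp' hne g
      obtain ⟨c, b, hb, rfl⟩ : ∃ c b, b < m ∧ p = m * c + b :=
        ⟨p / m, p % m, Nat.mod_lt _ hmpos, (Nat.div_add_mod p m).symm⟩
      obtain ⟨c', b', hb', rfl⟩ : ∃ c b, b < m ∧ p' = m * c + b :=
        ⟨p' / m, p' % m, Nat.mod_lt _ hmpos, (Nat.div_add_mod p' m).symm⟩
      simp only [hQb _ _ _ _ hb, hQb _ _ _ _ hb']
      have hcm : c < m ^ J := by
        rw [hpow] at hp'
        by_contra hcon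
        push Not at hcon
        have : m * m ^ J ≤ m * c := Nat.mul_le_mul_left _ hcon
        omega
      have hcc : c ≤ c' := by
        by_contra hcon
        push Not at hcon
        have : m * (c' + 1) ≤ m * c := Nat.mul_le_mul_left _ hcon
        rw [mul_add, mul_one] at this
        omega
      have hc'm : c' ≤ m ^ J ∧ (b' ≠ 0 → c' < m ^ J) := by
        rw [hpow] at hp'
        constructor
        · by_contra hcon
          push Not at hcon
          have : m * (m ^ J + 1) ≤ m * c' := Nat.mul_le_mul_left _ hcon
          rw [mul_add, mul_one] at this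
          omega
        · intro h
          by_contra hcon
          push Not at hcon
          have : m * (m ^ J) ≤ m * c' := Nat.mul_le_mul_left _ hcon
          omega
      rcases eq_or_lt_of_le hcc with hcc' | hcc'
      · -- the same node
        subst hcc'
        have hbb : b < b' := by omega
        apply pr_prod_le
        intro a
        apply pr_update_le (idx c)
        intro ω
        simp only [Function.update_self]
        have h1 := hP.hit _ (htpS a s hs c hcm) b b' hbb hb'.le (by omega) g
        refine le_trans (pr_mono ?_) h1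
        intro u hu
        rw [← hu]
        group
      · rcases Nat.eq_zero_or_pos b' with hb0' | hb0'
        · subst hb0'
          rcases Nat.eq_zero_or_pos b with hb0 | hb0
          · subst hb0
            simp only [hP.zero, mul_one]
            rw [pr_fst (fun a => (q a s c)⁻¹ * q a s c' = g)]
            apply hq.hit s hs c c' hcc' hc'm.1
            rintro ⟨rfl, rfl⟩
            apply hne
            rw [hpow]
            simp
          · simp only [hP.zero, mul_one]
            apply pr_prod_le
            intro a
            apply pr_update_le (idx c)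
            intro ω
            simp only [Function.update_self]
            have h1 := hP.hit _ (htpS a s hs c hcm) 0 b hb0 hb.le (by omega)
              ((q a s c)⁻¹ * q a s c' * g⁻¹)
            refine le_trans (pr_mono ?_) h1
            intro u hu
            rw [hP.zero, inv_one, one_mul, ← hu]
            group
        · have hc'2 := hc'm.2 (by omega)
          apply pr_prod_le
          intro a
          apply pr_update_le (idx c')
          intro ω
          have hne2 : idx c ≠ idx c' := hidx_inj c c' hcm hc'2 (by omega)
          simp only [Function.update_self, Function.update_of_ne hne2]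
          have h1 := hP.hit _ (htpS a s hs c' hc'2) 0 b' hb0' hb'.le (by omega)
            ((q a s c')⁻¹ * (q a s c * P (ω (idx c)) (tp a s c) b) * g)
          refine le_trans (pr_mono ?_) h1
          intro u hu
          rw [hP.zero, inv_one, one_mul, ← hu]
          group

end Pool.Agent.N533.NS
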