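import Pool.Agent.N533.NS.Words2

/-!
# Project NS, task W: families of short paths in Cayley graphs
-/

set_option autoImplicit false

open Finset
open scoped Pointwise

namespace Pool.Agent.N533.NS

theorem pigeon {G : Type} [Group G] [DecidableEq G] [Fintype G] (D : Finset G)
    (x : ℝ) (hx : 1 ≤ x) (K' : ℕ) (hK1 : 1 ≤ K') (hD1 : 1 ≤ D.card)
    (hK : (Fintype.card G : ℝ) ≤ x ^ K') :
    ∃ k < K', (Mx D (4 ^ (k + 1)) : ℝ) * D.card ^ (3 * 4 ^ (k + 1)) ≤ x * Mx D (4 ^ (k + 2)) := by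
  by_contra hcon
  push Not at hcon
  have hx0 : 0 < x := by linarith
  have hd0 : (0 : ℝ) < D.card := by exact_mod_cast hD1
  have key : ∀ k, k + 1 ≤ K' →
      x ^ (k + 1) * Mx D (4 ^ (k + 1 + 1)) < (D.card : ℝ) ^ (4 ^ (k + 1 + 1)) := by
    have base : (Mx D (4 ^ (0 + 1)) : ℝ) ≤ (D.card : ℝ) ^ (4 ^ (0 + 1)) := by
      have h := Mx_pow (D := D) (Nat.zero_le (4 ^ (0 + 1)))
      rw [pow_zero, mul_one] at h
      have h2 : Mx D (4 ^ (0 + 1)) ≤ D.card ^ (4 ^ (0 + 1)) := by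
        refine h.trans ?_
        calc Mx D 0 * D.card ^ (4 ^ (0 + 1)) ≤ 1 * D.card ^ (4 ^ (0 + 1)) :=
              Nat.mul_le_mul_right _ (Mx_zero D)
          _ = _ := one_mul _
      exact_mod_cast h2
    have stepk : ∀ k, k < K' → x ^ k * Mx D (4 ^ (k + 1)) ≤ (D.card : ℝ) ^ (4 ^ (k + 1)) →
        x ^ (k + 1) * Mx D (4 ^ (k + 1 + 1)) < (D.card : ℝ) ^ (4 ^ (k + 1 + 1)) := by
      intro k hk h
      have h1 := hcon k hk
      calc x ^ (k + 1) * Mx D (4 ^ (k + 1 + 1)) = x ^ k * (x * Mx D (4 ^ (k + 2))) := by ring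
        _ < x ^ k * ((Mx D (4 ^ (k + 1)) : ℝ) * D.card ^ (3 * 4 ^ (k + 1))) :=
            mul_lt_mul_of_pos_left h1 (by positivity)
        _ = (x ^ k * Mx D (4 ^ (k + 1))) * (D.card : ℝ) ^ (3 * 4 ^ (k + 1)) := by ring
        _ ≤ (D.card : ℝ) ^ (4 ^ (k + 1)) * (D.card : ℝ) ^ (3 * 4 ^ (k + 1)) :=
            mul_le_mul_of_nonneg_right h (by positivity)
        _ = _ := by
            rw [← pow_add]
            congr 1
            rw [pow_succ 4 (k + 1)]
            ring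
    intro k
    induction k with
    | zero =>
      intro h
      refine stepk 0 (by omega) ?_
      rw [pow_zero, one_mul]
      exact base
    | succ k ih =>
      intro h
      exact stepk (k + 1) (by omega) (ih (by omega)).le
  obtain ⟨j, rfl⟩ : ∃ j, K' = j + 1 := ⟨K' - 1, by omega⟩
  have h1 := key j le_rfl
  have h2 := pow_le_Mx D (4 ^ (j + 1 + 1))
  have h3 : (D.card : ℝ) ^ (4 ^ (j + 1 + 1)) ≤ Mx D (4 ^ (j + 1 + 1)) * Fintype.card G := by
    exact_mod_cast h2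
  have h4 : (Mx D (4 ^ (j + 1 + 1)) : ℝ) * Fintype.card G ≤
      Mx D (4 ^ (j + 1 + 1)) * x ^ (j + 1) := mul_le_mul_of_nonneg_left hK (by positivity)
  linarith [mul_comm (Mx D (4 ^ (j + 1 + 1)) : ℝ) (x ^ (j + 1))]

theorem wStm : WStm := by
  intro ε hε
  set K' : ℕ := ⌈4 / ε⌉₊ with hK'
  have hK'1 : 1 ≤ K' := Nat.ceil_pos.2 (by positivity)
  set K : ℕ := 4 ^ (K' + 1) with hKdef
  refine ⟨K, (16 * K) ^ 4, ?_⟩
  intro G _ _ _ D hDi _ hd0 hdN
  classical
  have hK1 : 1 ≤ K := Nat.one_le_pow _ _ (by norm_num)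
  have hd1 : 1 ≤ D.card := le_trans (Nat.one_le_pow _ _ (by omega)) hd0
  have hd0' : (0 : ℝ) < D.card := by exact_mod_cast hd1
  set x : ℝ := (D.card : ℝ) ^ (1 / 4 : ℝ) with hxdef
  have hx0 : 0 < x := Real.rpow_pos_of_pos hd0' _
  have hx4 : x ^ 4 = D.card := by
    rw [hxdef, ← Real.rpow_natCast, ← Real.rpow_mul hd0'.le]
    norm_num
  have hx16 : (16 * K : ℝ) ≤ x := by
    have h1 : ((16 * K : ℝ)) ^ 4 ≤ x ^ 4 := by
      rw [hx4]
      exact_mod_cast hd0
    exact (pow_le_pow_iff_left₀ (by positivity) hx0.le (by norm_num)).1 h1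
  have hK1' : (1 : ℝ) ≤ K := by exact_mod_cast hK1
  have hx1 : 1 ≤ x := by linarith
  have hN : (Fintype.card G : ℝ) ≤ x ^ K' := by
    have hc : (0 : ℝ) ≤ Fintype.card G := Nat.cast_nonneg _
    have h1 : (Fintype.card G : ℝ) = ((Fintype.card G : ℝ) ^ ε) ^ (1 / ε) := by
      rw [← Real.rpow_mul hc]
      field_simp
      rw [Real.rpow_one]
    rw [h1]
    calc ((Fintype.card G : ℝ) ^ ε) ^ (1 / ε) ≤ (D.card : ℝ) ^ (1 / ε) :=
          Real.rpow_le_rpow (by positivity) hdN (by positivity)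
      _ = x ^ (4 / ε) := by
          rw [← hx4, ← Real.rpow_natCast, ← Real.rpow_mul hx0.le]
          congr 1
          push_cast
          ring
      _ ≤ x ^ (K' : ℝ) := Real.rpow_le_rpow_of_exponent_le hx1 (Nat.le_ceil _)
      _ = x ^ K' := Real.rpow_natCast _ _
  obtain ⟨k, hk, hstar⟩ := pigeon D x hx1 K' hK'1 hd1 hN
  set q : ℕ := 4 ^ (k + 1) with hq
  have hq4 : 4 ≤ q := by
    rw [hq, pow_succ]
    have := Nat.one_le_pow k 4 (by norm_num)
    omega
  set L : ℕ := 4 * q with hL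
  have hLe : 4 ^ (k + 2) = L := by rw [hL, hq, pow_succ 4 (k + 1)]; ring
  rw [hLe] at hstar
  have hLK : L ≤ K := by
    rw [← hLe, hKdef]
    exact Nat.pow_le_pow_right (by norm_num) (by omega)
  haveI : NeZero L := ⟨by omega⟩
  have hLK' : (L : ℝ) ≤ K := by exact_mod_cast hLK
  have hL16 : 16 ≤ L := by omega
  have hL16' : (16 : ℝ) ≤ L := by exact_mod_cast hL16
  have hLx : (16 * L : ℝ) ≤ x := by linarith
  set Z : ℕ := cn D L 1 with hZ
  have hMZ : Mx D L ≤ Z := by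
    have h := cn_two hDi (2 * q)
    have e : 2 * q + 2 * q = L := by omega
    rw [e] at h
    exact h
  have hZpos : 0 < Z := by
    have h1 := pow_le_Mx D L
    have h2 : 0 < D.card ^ L := Nat.pow_pos hd1
    refine lt_of_lt_of_le (Nat.pos_of_ne_zero ?_) hMZ
    intro h3
    rw [h3, zero_mul] at h1
    omega
  have hZpos' : (0 : ℝ) < Z := by exact_mod_cast hZpos
  have hst : (Mx D q : ℝ) * D.card ^ (3 * q) ≤ x * Z := by
    refine hstar.trans (mul_le_mul_of_nonneg_left ?_ hx0.le)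
    exact_mod_cast hMZ
  -- the two bounds
  have b1 : ∀ a1 a2 a3 : ℕ, a1 + a2 + a3 = L → 1 ≤ a2 → 1 ≤ a1 + a3 → ∀ g s : G,
      (c3 D a1 a2 a3 g s : ℝ) * x ^ 3 ≤ Z := by
    intro a1 a2 a3 hsum h2 h13 g s
    have h := c3_bound (D := D) (q := q) g s h2 h13 (by omega)
    have h' : (c3 D a1 a2 a3 g s : ℝ) * D.card ^ (q + 1) ≤ Mx D q * D.card ^ (a1 + a2 + a3) := by
      exact_mod_cast h
    have e : (D.card : ℝ) ^ (a1 + a2 + a3) = D.card ^ (3 * q) * D.card ^ q := by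
      rw [← pow_add]
      congr 1
      omega
    rw [e, pow_succ] at h'
    have hp : (0 : ℝ) < (D.card : ℝ) ^ q := by positivity
    have h4 : (c3 D a1 a2 a3 g s : ℝ) * D.card ≤ Mx D q * D.card ^ (3 * q) := by
      refine le_of_mul_le_mul_right ?_ hp
      calc _ = (c3 D a1 a2 a3 g s : ℝ) * (D.card ^ q * D.card) := by ring
        _ ≤ _ := h'
        _ = _ := by ring
    have h5 := h4.trans hst
    rw [← hx4] at h5
    refine le_of_mul_le_mul_right ?_ hx0
    calc _ = (c3 D a1 a2 a3 g s : ℝ) * x ^ 4 := by ring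
      _ ≤ _ := h5
      _ = _ := by ring
  have b2 : ∀ a1 a2 a3 : ℕ, a1 + a2 + a3 + 1 = L → 1 ≤ a2 → 1 ≤ a1 + a3 → ∀ g s : G,
      (c3 D a1 a2 a3 g s : ℝ) * x ^ 7 ≤ Z := by
    intro a1 a2 a3 hsum h2 h13 g s
    have h := c3_bound (D := D) (q := q) g s h2 h13 (by omega)
    have h' : (c3 D a1 a2 a3 g s : ℝ) * D.card ^ (q + 1) ≤ Mx D q * D.card ^ (a1 + a2 + a3) := by
      exact_mod_cast h
    have e : (D.card : ℝ) ^ (a1 + a2 + a3) * D.card = D.card ^ (3 * q) * D.card ^ q := by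
      rw [← pow_add, ← pow_succ]
      congr 1
      omega
    have hp : (0 : ℝ) < (D.card : ℝ) ^ q := by positivity
    have h4 : (c3 D a1 a2 a3 g s : ℝ) * D.card ^ 2 ≤ Mx D q * D.card ^ (3 * q) := by
      refine le_of_mul_le_mul_right ?_ hp
      calc _ = (c3 D a1 a2 a3 g s : ℝ) * D.card ^ (q + 1) * D.card := by rw [pow_succ]; ring
        _ ≤ Mx D q * D.card ^ (a1 + a2 + a3) * D.card :=
            mul_le_mul_of_nonneg_right h' hd0'.le
        _ = _ := by rw [mul_assoc, e]; ring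
    have h5 := h4.trans hst
    rw [← hx4] at h5
    refine le_of_mul_le_mul_right ?_ hx0
    calc _ = (c3 D a1 a2 a3 g s : ℝ) * (x ^ 4) ^ 2 := by ring
      _ ≤ _ := h5
      _ = _ := by ring
  -- many closed walks
  have hx3 : 2 * (L : ℝ) ^ 2 ≤ x ^ 3 := by
    have h1 : (16 * L : ℝ) ^ 3 ≤ x ^ 3 := pow_le_pow_left₀ (by positivity) hLx 3
    nlinarith [sq_nonneg (L : ℝ), pow_pos (show (0 : ℝ) < L by linarith) 3,
      pow_pos (show (0 : ℝ) < L by linarith) 2]
  have hx3p : 0 < x ^ 3 := by positivity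
  have hW : (Z : ℝ) / 2 ≤ (Wk L D).card := by
    have h1 := closed_le L D ⌊(Z : ℝ) / x ^ 3⌋₊ (fun i j hij hj => by
      refine Nat.le_floor ?_
      rw [le_div_iff₀ hx3p]
      exact b1 i (j - i) (L - j) (by omega) (by omega) (by omega) 1 1)
    have h2 : (Z : ℝ) ≤ (Wk L D).card + L ^ 2 * ⌊(Z : ℝ) / x ^ 3⌋₊ := by
      exact_mod_cast h1
    have h3 : (⌊(Z : ℝ) / x ^ 3⌋₊ : ℝ) ≤ Z / x ^ 3 := Nat.floor_le (by positivity)
    have h4 : (L : ℝ) ^ 2 * (Z / x ^ 3) ≤ Z / 2 := by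
      rw [mul_div_assoc', div_le_div_iff₀ hx3p (by norm_num)]
      nlinarith
    have h5 : (L : ℝ) ^ 2 * ⌊(Z : ℝ) / x ^ 3⌋₊ ≤ L ^ 2 * (Z / x ^ 3) :=
      mul_le_mul_of_nonneg_left h3 (by positivity)
    linarith
  have hWpos : 0 < (Wk L D).card := by
    have : (0 : ℝ) < (Wk L D).card := by linarith
    exact_mod_cast this
  obtain ⟨S, hSD, hSne, hS⟩ := prune (L := L) hDi hWpos
  have hBpos : ∀ s ∈ S, 0 < (Bx L S s).card := by
    intro s hs
    by_contra h
    have h0 : (Bx L S s).card = 0 := by omega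
    have h1 := hS s hs
    rw [h0, Nat.cast_zero, mul_zero] at h1
    have : (0 : ℝ) < (Wk L D).card := by exact_mod_cast hWpos
    linarith
  set T : G → Finset (ZMod L → G) := fun s => if s ∈ S then Bx L S s else {fun _ => 1} with hT
  have hTne : ∀ s, (T s).Nonempty := by
    intro s
    by_cases hs : s ∈ S
    · simp only [hT, if_pos hs]
      exact card_pos.1 (hBpos s hs)
    · simp only [hT, if_neg hs]
      exact singleton_nonempty _
  obtain ⟨m, hm⟩ : ∃ m, m + 1 = L := ⟨L - 1, by omega⟩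
  have hTS : ∀ s ∈ S, T s = Bx L S s := fun s hs => by simp only [hT, if_pos hs]
  have hmem : ∀ u : {u // u ∈ Fintype.piFinset T}, ∀ s ∈ S, u.1 s ∈ Wk L S ∧ u.1 s (-1) = s := by
    intro u s hs
    have h1 := Fintype.mem_piFinset.1 u.2 s
    rw [hTS s hs, Bx, mem_filter] at h1
    exact h1
  have hmL : ((m : ℕ) : ZMod L) = -1 := by
    have e4 : ((m + 1 : ℕ) : ZMod L) = 0 := by rw [hm, ZMod.natCast_self]
    push_cast at e4
    exact eq_neg_of_add_eq_zero_left e4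
  refine ⟨m, by omega, by omega, S, hSD, hSne, {u // u ∈ Fintype.piFinset T}, inferInstance,
    ⟨⟨fun s => (hTne s).choose, Fintype.mem_piFinset.2 fun s => (hTne s).choose_spec⟩⟩,
    fun u s b => u.1 s (b : ZMod L), ?_⟩
  refine ⟨?_, ?_, ?_, ?_, ?_⟩
  · intro u s
    by_cases hs : s ∈ S
    · have h1 := (mem_Wk.1 (hmem u s hs).1).1
      simpa using h1
    · have h1 := Fintype.mem_piFinset.1 u.2 s
      simp only [hT, if_neg hs, mem_singleton] at h1
      simp only [h1]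
  · intro u s hs
    simp only [hmL]
    exact (hmem u s hs).2
  · intro u s hs b _
    have h1 := (mem_Wk.1 (hmem u s hs).1).2.2 (b : ZMod L)
    push_cast
    exact h1
  · intro u s hs b b' hb hb' h
    have h1 := (mem_Wk.1 (hmem u s hs).1).2.1 h
    have h2 := congrArg ZMod.val h1
    rw [ZMod.val_natCast, ZMod.val_natCast, Nat.mod_eq_of_lt (by omega),
      Nat.mod_eq_of_lt (by omega)] at h2
    omega
  · intro s hs b b' hb hb' hne g
    have h1 := pr_coord T hTne s (fun p => (p (b : ZMod L))⁻¹ * p (b' : ZMod L) = g)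
    rw [h1, hTS s hs]
    have h2 : (((Bx L S s).filter fun p => (p (b : ZMod L))⁻¹ * p (b' : ZMod L) = g).card : ℝ) ≤
        c3 D b (b' - b) (m - b') g s := by
      have := hit_le (L := L) hSD (s := s) hm hb hb' g
      exact_mod_cast this
    have h3 := b2 b (b' - b) (m - b') (by omega) (by omega) (by omega) g s
    have h4 := hS s hs
    have h5 : (0 : ℝ) < (Bx L S s).card := by exact_mod_cast hBpos s hs
    have h6 : x ^ 2 * (D.card : ℝ) ^ (-(1 / 2) : ℝ) = 1 := by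
      rw [hxdef, ← Real.rpow_natCast, ← Real.rpow_mul hd0'.le, ← Real.rpow_add hd0']
      norm_num
    have h7 : (0 : ℝ) < (D.card : ℝ) ^ (-(1 / 2) : ℝ) := Real.rpow_pos_of_pos hd0' _
    have h8 : (((Bx L S s).filter fun p => (p (b : ZMod L))⁻¹ * p (b' : ZMod L) = g).card : ℝ) /
        (Bx L S s).card ≤ (D.card : ℝ) ^ (-(1 / 2) : ℝ) := by
      rw [div_le_iff₀ h5]
      refine h2.trans ?_
      -- `c3 * x^7 ≤ Z ≤ 2 |Wk| ≤ 16 L d |B|`
      have h9 : (c3 D b (b' - b) (m - b') g s : ℝ) * x ^ 7 ≤ 16 * L * x ^ 4 * (Bx L S s).card := by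
        rw [hx4]
        linarith
      have h10 : (c3 D b (b' - b) (m - b') g s : ℝ) * x ^ 3 ≤ 16 * L * (Bx L S s).card := by
        refine le_of_mul_le_mul_right ?_ (show (0 : ℝ) < x ^ 4 by positivity)
        calc _ = (c3 D b (b' - b) (m - b') g s : ℝ) * x ^ 7 := by ring
          _ ≤ _ := h9
          _ = _ := by ring
      have h11 : (c3 D b (b' - b) (m - b') g s : ℝ) * x ^ 2 ≤ (Bx L S s).card := by
        refine le_of_mul_le_mul_right ?_ hx0
        calc _ = (c3 D b (b' - b) (m - b') g s : ℝ) * x ^ 3 := by ring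
          _ ≤ 16 * L * (Bx L S s).card := h10
          _ ≤ x * (Bx L S s).card := mul_le_mul_of_nonneg_right hLx h5.le
          _ = _ := by ring
      calc (c3 D b (b' - b) (m - b') g s : ℝ)
          = ((c3 D b (b' - b) (m - b') g s : ℝ) * x ^ 2) * (D.card : ℝ) ^ (-(1 / 2) : ℝ) := by
            rw [mul_assoc, h6, mul_one]
        _ ≤ (Bx L S s).card * (D.card : ℝ) ^ (-(1 / 2) : ℝ) :=
            mul_le_mul_of_nonneg_right h11 h7.le
        _ = _ := by ring
    convert h8 using 3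
    congr 1
    ext p
    simp only [mem_filter]

end Pool.Agent.N533.NS
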