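import Pool.Agent.N533.NS.Core3
import Pool.Agent.N533.NS.Par
import Pool.Agent.N533.NS.Det
import Pool.Agent.N533.NS.Words
import Pool.Agent.N533.NS.Tree
import Pool.Agent.N533.NS.Sel
import Pool.Agent.N533.NS.ConfOk
import Pool.Agent.N533.NS.Match
import Pool.Agent.N533.NS.Asm

/-!
# The final assembly
-/

set_option autoImplicit false

open Finset
open scoped Pointwise

namespace Pool.Agent.N533.NS

open Pool.Agent.N533.LC

lemma exists_r {G : Type} [Group G] [Fintype G] [DecidableEq G] {S : Finset G}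
    (hS : Sys (⊥ : Subgroup G) S) {y : ℝ} {k0 : ℕ} (hy : 1 ≤ y)
    (hN : (Fintype.card G : ℝ) ≤ y ^ k0) :
    ∃ r, 1 ≤ r ∧ r ≤ 48 ^ k0 ∧ ((S ^ (48 * r)).card : ℝ) ≤ y * (S ^ r).card := by
  by_contra hcon
  push Not at hcon
  have key : ∀ k ≤ k0, y ^ (k + 1) < ((S ^ (48 ^ (k + 1))).card : ℝ) := by
    intro k
    induction k with
    | zero =>
      intro _
      have h1 := hcon (48 ^ 0) (by norm_num) (Nat.one_le_pow _ _ (by norm_num))
      rw [pow_zero, mul_one, pow_one] at h1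
      rw [zero_add, pow_one, pow_one]
      refine lt_of_le_of_lt ?_ h1
      have h2 : (1 : ℝ) ≤ S.card := by
        exact_mod_cast card_pos.2 ⟨1, hS.one⟩
      nlinarith
    | succ k ih =>
      intro hk
      have h1 := hcon (48 ^ (k + 1)) (Nat.one_le_pow _ _ (by norm_num))
        (Nat.pow_le_pow_right (by norm_num) hk)
      rw [← pow_succ'] at h1
      refine lt_of_le_of_lt ?_ h1
      rw [pow_succ']
      exact mul_le_mul_of_nonneg_left (ih (by omega)).le (by linarith)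
  have h1 := key k0 le_rfl
  have h2 : ((S ^ (48 ^ (k0 + 1))).card : ℝ) ≤ Fintype.card G := by
    exact_mod_cast card_le_univ _
  have h3 : y ^ k0 ≤ y ^ (k0 + 1) := pow_le_pow_right₀ hy (Nat.le_succ _)
  linarith

lemma sys_ins {G : Type} [Group G] [Fintype G] [DecidableEq G] {D : Finset G}
    (hinv : ∀ a ∈ D, a⁻¹ ∈ D) : Sys (⊥ : Subgroup G) (insert 1 D) where
  one := mem_insert_self _ _
  inv := by
    intro x hx
    rw [mem_insert] at hx ⊢
    rcases hx with rfl | hx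
    · left; simp
    · right; exact hinv x hx
  left := by
    intro h hh x hx
    rw [Subgroup.mem_bot] at hh
    rwa [hh, one_mul]

/-- The core theorem for one value of `m`. -/
theorem core_m (hsk : Skel2Stm) (m : ℕ) (hm : 2 ≤ m) {ε0 η : ℝ} (hε0 : 0 < ε0) (hη : 0 < η)
    (hη1 : η ≤ 1 / 10) : ∃ d0 : ℕ, ∀ (G : Type) [Group G] [Fintype G] [DecidableEq G]
    (D S1 : Finset G) (U : Type) [Fintype U] [Nonempty U] (P : U → G → ℕ → G),
    (∀ x ∈ D, x⁻¹ ∈ D) → (1 : G) ∉ D → Subgroup.closure (D : Set G) = ⊤ → d0 ≤ D.card →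
    (Fintype.card G : ℝ) ^ ε0 ≤ D.card → S1 ⊆ D → S1.Nonempty →
    Ker m S1 ((D.card : ℝ) ^ (-(1 / 2) : ℝ)) P →
    ∃ l : List G, l.Nodup ∧ l.IsChain (fun a b => a⁻¹ * b ∈ insert 1 D) ∧
      (∃ y z, l.head? = some y ∧ l.getLast? = some z ∧ z⁻¹ * y ∈ insert 1 D) ∧
      (1 - 7 * η) * Fintype.card G ≤ l.length := by
  have hm2 : (2 : ℝ) ≤ m := by exact_mod_cast hm
  -- the depth of the filling paths
  set h : ℕ := ⌈64 * m / η⌉₊ + 1 with hh
  set Λ : ℕ := m ^ h - 1 with hΛdef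
  have hmh : h < m ^ h := Nat.lt_pow_self (by omega)
  have hΛ : Λ + 1 = m ^ h := by omega
  have hΛ1 : 1 ≤ Λ := by omega
  have hΛh : ((⌈64 * m / η⌉₊ : ℕ) : ℝ) ≤ Λ := by
    exact_mod_cast (by omega : ⌈64 * m / η⌉₊ ≤ Λ)
  have hΛη : 64 * m ≤ η * Λ := by
    have h1 := (Nat.le_ceil (64 * (m : ℝ) / η)).trans hΛh
    rw [div_le_iff₀ hη] at h1
    linarith
  obtain ⟨δ, hδ, hdet⟩ := detStm Λ η hη hη1 (by linarith)
  have hL : (0 : ℝ) < Λ := by exact_mod_cast hΛ1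
  set ε : ℝ := min (min (1 / (20 * Λ ^ 2)) (δ / (6000 * Λ ^ 3))) (min (δ ^ 2 / (8 * Λ ^ 2)) (η / 12))
    with hε
  have hεpos : 0 < ε := by
    rw [hε]
    refine lt_min (lt_min ?_ ?_) (lt_min ?_ ?_) <;> positivity
  have e1 : 20 * Λ ^ 2 * ε ≤ 1 := by
    have h1 : ε ≤ 1 / (20 * Λ ^ 2) := (min_le_left _ _).trans (min_le_left _ _)
    rw [le_div_iff₀ (by positivity)] at h1
    linarith
  have e2 : 6000 * Λ ^ 3 * ε ≤ δ := by
    have h1 : ε ≤ δ / (6000 * Λ ^ 3) := (min_le_left _ _).trans (min_le_right _ _)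
    rw [le_div_iff₀ (by positivity)] at h1
    linarith
  have e3 : 8 * Λ ^ 2 * ε ≤ δ ^ 2 := by
    have h1 : ε ≤ δ ^ 2 / (8 * Λ ^ 2) := (min_le_right _ _).trans (min_le_left _ _)
    rw [le_div_iff₀ (by positivity)] at h1
    linarith
  have e7 : 12 * ε ≤ η := by
    have h1 : ε ≤ η / 12 := (min_le_right _ _).trans (min_le_right _ _)
    linarith
  clear_value ε
  set k0 : ℕ := ⌈100 / ε0⌉₊ with hk0
  obtain ⟨y0, hy0, hnum⟩ := exists_num (R := 48 ^ k0) (k0 := k0) hm hΛ1 hη hΛη hδ hεpos e1 e2 e3 e7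
  refine ⟨⌈y0 ^ 100⌉₊, ?_⟩
  intro G _ _ _ D S1 U _ _ P hinv h1D hgen hd0 hNd hS1 hne hKer
  obtain ⟨σ, hσ⟩ := hne
  have hσ1 : σ ≠ 1 := fun h => h1D (h ▸ hS1 hσ)
  -- the base `y = d ^ (1 / 100)`
  set d : ℝ := (D.card : ℝ) with hd
  have hdy0 : y0 ^ 100 ≤ d := (Nat.le_ceil _).trans (by rw [hd]; exact_mod_cast hd0)
  have hd1 : 1 ≤ d := (one_le_pow₀ hy0).trans hdy0
  have hdpos : 0 < d := by linarith
  set y : ℝ := d ^ ((1 : ℝ) / 100) with hy
  have hypos : 0 < y := Real.rpow_pos_of_pos hdpos _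
  have hy100 : y ^ 100 = d := by
    rw [hy, ← Real.rpow_natCast, ← Real.rpow_mul hdpos.le]
    norm_num
  have hyy0 : y0 ≤ y := by
    rw [← hy100] at hdy0
    exact le_of_pow_le_pow_left₀ (by norm_num) hypos.le hdy0
  have hy1 : 1 ≤ y := hy0.trans hyy0
  have hκ : d ^ (-(1 / 2) : ℝ) = (y ^ 50)⁻¹ := by
    rw [hy, ← Real.rpow_natCast, ← Real.rpow_mul hdpos.le, ← Real.rpow_neg hdpos.le]
    norm_num
  have hNpos : (0 : ℝ) < Fintype.card G := by exact_mod_cast Fintype.card_pos (α := G)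
  have hN2 : (Fintype.card G : ℝ) ≤ y ^ k0 := by
    have h1 : (Fintype.card G : ℝ) = ((Fintype.card G : ℝ) ^ ε0) ^ (1 / ε0) := by
      rw [← Real.rpow_mul hNpos.le, mul_one_div_cancel hε0.ne', Real.rpow_one]
    rw [h1]
    calc ((Fintype.card G : ℝ) ^ ε0) ^ (1 / ε0) ≤ d ^ (1 / ε0) := by
          apply Real.rpow_le_rpow (by positivity) hNd (by positivity)
      _ = y ^ ((100 : ℝ) / ε0) := by
          rw [hy, ← Real.rpow_mul hdpos.le]
          congr 1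
          field_simp
      _ ≤ y ^ ((k0 : ℕ) : ℝ) := Real.rpow_le_rpow_of_exponent_le hy1 (Nat.le_ceil _)
      _ = y ^ k0 := Real.rpow_natCast _ _
  have hN1 : y ^ 100 ≤ Fintype.card G := by
    rw [hy100, hd]
    exact_mod_cast card_le_univ _
  have hS := sys_ins hinv
  obtain ⟨r, hr1, hr2, hr3⟩ := exists_r hS hy1 hN2
  obtain ⟨J, hJ⟩ := hnum y _ hyy0 hN1 hN2 r hr1 hr2
  rw [hy100] at hJ
  rw [hκ] at hKer
  obtain ⟨Ω, _, _, q, hq⟩ := treeStm G m S1 _ U P hm (by positivity) hKer J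
  obtain ⟨Ω', _, _, q', hq'⟩ := treeStm G m S1 _ U P hm (by positivity) hKer h
  have hgen' : Subgroup.closure ((insert 1 D : Finset G) : Set G) = ⊤ := by
    rw [Finset.coe_insert, Subgroup.closure_insert_one, hgen]
  exact core_list selStm hsk confStm matchStm asmStm hdet hS hgen' (subset_insert _ _) hS1 hq hq' hΛ
    hσ hσ1 hJ hr3

end Pool.Agent.N533.NS
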