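import Pool.Agent.N533.NS.Mom

/-!
# Second moments of the filling weights
-/

set_option autoImplicit false
set_option linter.unusedSectionVars false

open Finset

namespace Pool.Agent.N533.NS

lemma ind_mul_self (p : Prop) : ind p * ind p = ind p := by
  by_cases h : p
  · rw [ind_true h, one_mul]
  · rw [ind_false h, zero_mul]

lemma card_eq_sum_ind {G : Type} [Fintype G] [DecidableEq G] (S : Finset G) :
    (S.card : ℝ) = ∑ v, ind (v ∈ S) := by
  have h1 : ∑ v, ind (v ∈ S) = ∑ v ∈ S, (1 : ℝ) := by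
    rw [← sum_subset (subset_univ S)]
    · exact sum_congr rfl fun v hv => ind_true hv
    · exact fun v _ hv => ind_false hv
  rw [h1]
  simp

lemma card_mul_eq {G : Type} [Fintype G] [DecidableEq G] (S : Finset G) :
    (S.card : ℝ) * (S.card - 1) = ∑ v, ∑ v' ∈ univ.erase v, ind (v ∈ S) * ind (v' ∈ S) := by
  have h1 : ∀ v, ∑ v' ∈ univ.erase v, ind (v ∈ S) * ind (v' ∈ S) =
      ind (v ∈ S) * S.card - ind (v ∈ S) := by
    intro v
    rw [← mul_sum]
    have h2 : (S.card : ℝ) = ind (v ∈ S) + ∑ v' ∈ univ.erase v, ind (v' ∈ S) := by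
      rw [card_eq_sum_ind, ← add_sum_erase _ _ (mem_univ v)]
    have h3 : ∑ v' ∈ univ.erase v, ind (v' ∈ S) = S.card - ind (v ∈ S) := by linarith
    rw [h3, mul_sub, ind_mul_self]
  simp only [h1]
  rw [sum_sub_distrib, ← sum_mul, ← card_eq_sum_ind]
  ring

lemma j_exp {Λ : ℕ} (hΛ : 1 ≤ Λ) {j : ℕ} (hj : j ≤ Λ) :
    (j : ℝ) * Real.exp (j / Λ) ≤ Real.exp (1 / Λ) * j + 3 * (j * (j - 1)) := by
  have hΛ' : (1 : ℝ) ≤ Λ := by exact_mod_cast hΛ
  rcases Nat.lt_or_ge j 2 with h | h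
  · interval_cases j
    · simp
    · simp
  · have h2 : (2 : ℝ) ≤ j := by exact_mod_cast h
    have h3 : Real.exp ((j : ℝ) / Λ) ≤ 3 := by
      have h4 : (j : ℝ) / Λ ≤ 1 := by
        rw [div_le_one (by linarith)]
        exact_mod_cast hj
      have := Real.exp_le_exp.2 h4
      have := Real.exp_one_lt_d9
      linarith
    have h4 : 0 ≤ Real.exp (1 / (Λ : ℝ)) * j := by positivity
    nlinarith

section
variable {G Ω U : Type} [Group G] [Fintype G] [DecidableEq G] [Fintype Ω] [Fintype U]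
variable [Nonempty Ω] [Nonempty U]
variable {T H0 : Finset G} {vt : Ω → ℕ → G} {ft : Ω → ℕ → U → ℕ → G} {M Λ : ℕ} {κ ε : ℝ}

/-- expected visits -/
noncomputable def g1f (ft : Ω → ℕ → U → ℕ → G) (Λ : ℕ) (x : G) (p : ℕ) (v : G) : ℝ :=
  av (fun a => av fun u => ind (v ∈ Fs ft Λ x p a u))

/-- expected visits of pairs -/
noncomputable def g2f (ft : Ω → ℕ → U → ℕ → G) (Λ : ℕ) (x : G) (p : ℕ) (v v' : G) : ℝ :=
  av (fun a => av fun u => ind (v ∈ Fs ft Λ x p a u ∧ v' ∈ Fs ft Λ x p a u))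

lemma g1f_nonneg (x : G) (p : ℕ) (v : G) : 0 ≤ g1f ft Λ x p v :=
  av_nonneg fun _ => av_nonneg fun _ => ind_nonneg _

lemma g2f_nonneg (x : G) (p : ℕ) (v v' : G) : 0 ≤ g2f ft Λ x p v v' :=
  av_nonneg fun _ => av_nonneg fun _ => ind_nonneg _

lemma W1_eq (x x' : G) (p p' : ℕ) :
    av (fun a => av fun b => av fun u => av fun u' =>
      ((Fs ft Λ x p a u ∩ Fs ft Λ x' p' b u').card : ℝ)) =
    ∑ v, g1f ft Λ x p v * g1f ft Λ x' p' v := by
  have h1 : ∀ (a b : Ω) (u u' : U), ((Fs ft Λ x p a u ∩ Fs ft Λ x' p' b u').card : ℝ) =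
      ∑ v, ind (v ∈ Fs ft Λ x p a u) * ind (v ∈ Fs ft Λ x' p' b u') := by
    intro a b u u'
    rw [card_eq_sum_ind]
    refine sum_congr rfl fun v _ => ?_
    rw [← ind_and, mem_inter]
  simp only [h1]
  simp only [av_sum, av_mul_left, av_mul_right]
  rfl

lemma W2_eq (x x' : G) (p p' : ℕ) :
    av (fun a => av fun b => av fun u => av fun u' =>
      ((Fs ft Λ x p a u ∩ Fs ft Λ x' p' b u').card : ℝ) *
        ((Fs ft Λ x p a u ∩ Fs ft Λ x' p' b u').card - 1)) =
    ∑ v, ∑ v' ∈ univ.erase v, g2f ft Λ x p v v' * g2f ft Λ x' p' v v' := by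
  have h1 : ∀ (a b : Ω) (u u' : U), ((Fs ft Λ x p a u ∩ Fs ft Λ x' p' b u').card : ℝ) *
      ((Fs ft Λ x p a u ∩ Fs ft Λ x' p' b u').card - 1) =
      ∑ v, ∑ v' ∈ univ.erase v, ind (v ∈ Fs ft Λ x p a u ∧ v' ∈ Fs ft Λ x p a u) *
        ind (v ∈ Fs ft Λ x' p' b u' ∧ v' ∈ Fs ft Λ x' p' b u') := by
    intro a b u u'
    rw [card_mul_eq]
    refine sum_congr rfl fun v _ => sum_congr rfl fun v' _ => ?_
    simp only [mem_inter, ind_and]
    ring
  simp only [h1]
  simp only [av_sum, av_mul_left, av_mul_right]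
  rfl

lemma Hyp.sum_W1 (h : Hyp T H0 vt ft M Λ κ ε) :
    ∑ x ∈ T, ∑ x' ∈ T, ∑ p ∈ range M, ∑ p' ∈ range M, ∑ v, g1f ft Λ x p v * g1f ft Λ x' p' v ≤
      Fintype.card G * (1 + ε) ^ 2 := by
  have hε := h.ε_pos
  have h1 : ∑ x ∈ T, ∑ x' ∈ T, ∑ p ∈ range M, ∑ p' ∈ range M, ∑ v,
      g1f ft Λ x p v * g1f ft Λ x' p' v = ∑ v, (∑ x ∈ T, ∑ p ∈ range M, g1f ft Λ x p v) ^ 2 := by
    simp only [sq, sum_mul_sum]
    simp only [sum_comm (s := range M) (t := univ), sum_comm (s := T) (t := univ)]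
  rw [h1]
  calc _ ≤ ∑ _v : G, (1 + ε) ^ 2 := by
        refine sum_le_sum fun v _ => ?_
        have h2 := h.g1 v
        have h3 : 0 ≤ ∑ x ∈ T, ∑ p ∈ range M, g1f ft Λ x p v :=
          sum_nonneg fun _ _ => sum_nonneg fun _ _ => g1f_nonneg _ _ _
        exact pow_le_pow_left₀ h3 h2 2
    _ = _ := by rw [sum_const, card_univ, nsmul_eq_mul]

lemma Hyp.sum_W2 (h : Hyp T H0 vt ft M Λ κ ε) :
    ∑ x ∈ T, ∑ x' ∈ T, ∑ p ∈ range M, ∑ p' ∈ range M, ∑ v, ∑ v' ∈ univ.erase v,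
      g2f ft Λ x p v v' * g2f ft Λ x' p' v v' ≤ Λ ^ 2 * ε * (T.card * M) := by
  have hε := h.ε_pos
  have h1 : ∑ x ∈ T, ∑ x' ∈ T, ∑ p ∈ range M, ∑ p' ∈ range M, ∑ v, ∑ v' ∈ univ.erase v,
      g2f ft Λ x p v v' * g2f ft Λ x' p' v v' =
      ∑ v, ∑ v' ∈ univ.erase v, (∑ x ∈ T, ∑ p ∈ range M, g2f ft Λ x p v v') ^ 2 := by
    simp only [sq, sum_mul_sum]
    have hc1 : ∀ (f : ℕ → G → ℝ), ∑ p ∈ range M, ∑ v, f p v = ∑ v, ∑ p ∈ range M, f p v :=
      fun f => sum_comm
    have hc2 : ∀ (f : G → G → ℝ), ∑ x ∈ T, ∑ v, f x v = ∑ v, ∑ x ∈ T, f x v :=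
      fun f => sum_comm
    have hc3 : ∀ (v : G) (f : ℕ → G → ℝ), ∑ p ∈ range M, ∑ v' ∈ univ.erase v, f p v' =
      ∑ v' ∈ univ.erase v, ∑ p ∈ range M, f p v' := fun v f => sum_comm
    have hc4 : ∀ (v : G) (f : G → G → ℝ), ∑ x ∈ T, ∑ v' ∈ univ.erase v, f x v' =
      ∑ v' ∈ univ.erase v, ∑ x ∈ T, f x v' := fun v f => sum_comm
    simp only [hc1, hc2, hc3, hc4]
  rw [h1]
  calc _ ≤ ∑ v, ∑ v' ∈ univ.erase v, ε * (∑ x ∈ T, ∑ p ∈ range M, g2f ft Λ x p v v') := by
        refine sum_le_sum fun v _ => sum_le_sum fun v' hv' => ?_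
        have h2 := h.g2 v v' (mem_erase.1 hv').1.symm
        have h3 : 0 ≤ ∑ x ∈ T, ∑ p ∈ range M, g2f ft Λ x p v v' :=
          sum_nonneg fun _ _ => sum_nonneg fun _ _ => g2f_nonneg _ _ _ _
        rw [sq]
        exact mul_le_mul_of_nonneg_right h2 h3
    _ = ε * ∑ x ∈ T, ∑ p ∈ range M, ∑ v, ∑ v' ∈ univ.erase v, g2f ft Λ x p v v' := by
        have hc1 : ∀ (f : ℕ → G → ℝ), ∑ p ∈ range M, ∑ v, f p v = ∑ v, ∑ p ∈ range M, f p v :=
          fun f => sum_comm
        have hc2 : ∀ (f : G → G → ℝ), ∑ x ∈ T, ∑ v, f x v = ∑ v, ∑ x ∈ T, f x v :=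
          fun f => sum_comm
        have hc3 : ∀ (v : G) (f : ℕ → G → ℝ), ∑ p ∈ range M, ∑ v' ∈ univ.erase v, f p v' =
          ∑ v' ∈ univ.erase v, ∑ p ∈ range M, f p v' := fun v f => sum_comm
        have hc4 : ∀ (v : G) (f : G → G → ℝ), ∑ x ∈ T, ∑ v' ∈ univ.erase v, f x v' =
          ∑ v' ∈ univ.erase v, ∑ x ∈ T, f x v' := fun v f => sum_comm
        simp only [hc1, hc2, hc3, hc4, mul_sum]
    _ ≤ ε * ∑ x ∈ T, ∑ p ∈ range M, (Λ : ℝ) ^ 2 := by
        gcongr with x _ p _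
        have h4 : ∑ v, ∑ v' ∈ univ.erase v, g2f ft Λ x p v v' = av (fun a => av fun u =>
            ((Fs ft Λ x p a u).card : ℝ) * ((Fs ft Λ x p a u).card - 1)) := by
          simp only [card_mul_eq, av_sum]
          refine sum_congr rfl fun v _ => sum_congr rfl fun v' _ => ?_
          unfold g2f
          simp only [ind_and]
        rw [h4]
        refine av_le fun a => av_le fun u => ?_
        have h5 : ((Fs ft Λ x p a u).card : ℝ) ≤ Λ := by
          exact_mod_cast Fs_card_le x p a u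
        have h6 : (0 : ℝ) ≤ (Fs ft Λ x p a u).card := Nat.cast_nonneg _
        nlinarith
    _ = _ := by
        simp only [sum_const, card_range, nsmul_eq_mul]
        ring

lemma exp_add_small {c δ : ℝ} (hc : c ≤ 0) (h0 : 0 ≤ δ) (h1 : δ ≤ 1) :
    Real.exp (c + δ) ≤ Real.exp c + 2 * δ := by
  have h2 : Real.exp δ ≤ 1 + 2 * δ := by
    have h3 := Real.abs_exp_sub_one_le (x := δ) (by rw [abs_of_nonneg h0]; exact h1)
    rw [abs_of_nonneg h0] at h3
    have := (abs_le.1 h3).2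
    linarith
  have h3 : Real.exp c ≤ 1 := Real.exp_le_one_iff.2 hc
  rw [Real.exp_add]
  nlinarith [Real.exp_pos c]

/-- the average number of common elements is small, uniformly -/
lemma Hyp.av_inter_le (h : Hyp T H0 vt ft M Λ κ ε) (x x' : G) {p p' : ℕ} (hp' : p' < M) (a b : Ω) :
    av (fun u => av fun u' => ((Fs ft Λ x p a u ∩ Fs ft Λ x' p' b u').card : ℝ)) ≤ Λ ^ 2 * κ := by
  refine av_le fun u => ?_
  have h1 : ∀ u' : U, ((Fs ft Λ x p a u ∩ Fs ft Λ x' p' b u').card : ℝ) =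
      ∑ v ∈ Fs ft Λ x p a u, ind (v ∈ Fs ft Λ x' p' b u') := by
    intro u'
    rw [card_eq_sum_ind, ← sum_subset (subset_univ (Fs ft Λ x p a u))]
    · refine sum_congr rfl fun v hv => ?_
      rw [mem_inter, ind_and, ind_true hv, one_mul]
    · intro v _ hv
      exact ind_false fun h => hv (mem_inter.1 h).1
  simp only [h1, av_sum]
  calc _ ≤ ∑ _v ∈ Fs ft Λ x p a u, (Λ * κ : ℝ) := by
        refine sum_le_sum fun v _ => ?_
        rw [← pr_eq]
        exact h.pr_mem x' b hp' v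
    _ = (Fs ft Λ x p a u).card * (Λ * κ) := by rw [sum_const, nsmul_eq_mul]
    _ ≤ Λ * (Λ * κ) := by
        apply mul_le_mul_of_nonneg_right
        · exact_mod_cast Fs_card_le x p a u
        · have := h.κ_nonneg
          positivity
    _ = _ := by ring

/-- **Second moment at the leaves.** -/
theorem Hyp.momB (h : Hyp T H0 vt ft M Λ κ ε) (hε : 20 * Λ ^ 2 * ε ≤ 1) :
    (av fun ω : G → Ω => ∑ x ∈ T, ∑ p ∈ range M, (pr fun u => Iv T H0 vt ft M Λ ω x p u) ^ 2) ≤
      (T.card * M : ℝ) * (Real.exp (-2) + 41 * Λ ^ 2 * ε) := by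
  have hΛ : (1 : ℝ) ≤ Λ := by exact_mod_cast h.Λ_pos
  have hε0 := h.ε_pos
  have hκ0 := h.κ_nonneg
  have key : ∀ x ∈ T, ∀ p ∈ range M,
      (av fun ω : G → Ω => (pr fun u => Iv T H0 vt ft M Λ ω x p u) ^ 2) ≤
        Real.exp (-2) + 41 * Λ ^ 2 * ε := by
    intro x hx p hp
    rw [mem_range] at hp
    set Ψ : Ω → (G → Ω) → ℝ := fun a ω => av fun u => av fun u' =>
      (ind ((Fs ft Λ x p a u).card = Λ ∧ (Fs ft Λ x p a u').card = Λ) *
        ∏ x' ∈ T \ {x}, ind (Disjoint (Xs vt M x' (ω x')) (Fs ft Λ x p a u ∪ Fs ft Λ x p a u')))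
      with hΨ
    have h1 : ∀ ω : G → Ω, (pr fun u => Iv T H0 vt ft M Λ ω x p u) ^ 2 ≤ Ψ (ω x) ω := by
      intro ω
      rw [pr_eq, sq, ← av_mul_av]
      refine av_mono fun u => av_mono fun u' => ?_
      rw [prod_ind, ← ind_and, ← ind_and]
      apply ind_mono
      rintro ⟨⟨h2, h3, -⟩, h4, h5, -⟩
      refine ⟨⟨h2, h4⟩, fun x' hx' => ?_⟩
      rw [mem_sdiff] at hx'
      rw [disjoint_union_right]
      exact ⟨disj_Ss_iff.1 h3 x' hx'.1, disj_Ss_iff.1 h5 x' hx'.1⟩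
    refine (av_mono h1).trans ?_
    rw [av_indep x Ψ]
    · refine av_le fun a => ?_
      simp only [hΨ]
      rw [av_comm]
      have h2 : ∀ u : U, (av fun ω : G → Ω => av fun u' =>
          ind ((Fs ft Λ x p a u).card = Λ ∧ (Fs ft Λ x p a u').card = Λ) *
          ∏ x' ∈ T \ {x}, ind (Disjoint (Xs vt M x' (ω x')) (Fs ft Λ x p a u ∪ Fs ft Λ x p a u'))) ≤
          Real.exp (-2) + 41 * Λ ^ 2 * ε := by
        intro u
        rw [av_comm]
        have h3 : ∀ u' : U, (av fun ω : G → Ω =>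
            ind ((Fs ft Λ x p a u).card = Λ ∧ (Fs ft Λ x p a u').card = Λ) *
            ∏ x' ∈ T \ {x}, ind (Disjoint (Xs vt M x' (ω x'))
              (Fs ft Λ x p a u ∪ Fs ft Λ x p a u'))) ≤
            Real.exp (-2 + 20 * Λ ^ 2 * ε) +
              ind (¬ Disjoint (Fs ft Λ x p a u) (Fs ft Λ x p a u')) := by
          intro u'
          rw [av_mul_left]
          have hprod := h.avoid_upper (B := {x}) (by simp)
            (D := Fs ft Λ x p a u ∪ Fs ft Λ x p a u') ((card_union_le _ _).trans (by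
              have := Fs_card_le (ft := ft) (Λ := Λ) x p a u
              have := Fs_card_le (ft := ft) (Λ := Λ) x p a u'
              omega))
          have h0 : 0 ≤ av fun ω : G → Ω => ∏ x' ∈ T \ {x}, ind (Disjoint (Xs vt M x' (ω x'))
              (Fs ft Λ x p a u ∪ Fs ft Λ x p a u')) :=
            av_nonneg fun ω => prod_nonneg fun _ _ => ind_nonneg _
          have h01 : (av fun ω : G → Ω => ∏ x' ∈ T \ {x}, ind (Disjoint (Xs vt M x' (ω x'))
              (Fs ft Λ x p a u ∪ Fs ft Λ x p a u'))) ≤ 1 :=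
            av_le fun ω => prod_le_one (fun _ _ => ind_nonneg _) (fun _ _ => ind_le_one _)
          have hE := Real.exp_pos (-2 + 20 * (Λ : ℝ) ^ 2 * ε)
          by_cases h4 : (Fs ft Λ x p a u).card = Λ ∧ (Fs ft Λ x p a u').card = Λ
          · rw [ind_true h4, one_mul]
            by_cases h5 : Disjoint (Fs ft Λ x p a u) (Fs ft Λ x p a u')
            · have hc : ((Fs ft Λ x p a u ∪ Fs ft Λ x p a u').card : ℝ) = 2 * Λ := by
                rw [card_union_of_disjoint h5, h4.1, h4.2]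
                push_cast
                ring
              rw [hc] at hprod
              have e : 2 * (Λ : ℝ) / Λ = 2 := by field_simp
              rw [e] at hprod
              have := ind_nonneg (¬ Disjoint (Fs ft Λ x p a u) (Fs ft Λ x p a u'))
              linarith
            · rw [ind_true h5]
              linarith
          · rw [ind_false h4, zero_mul]
            have := ind_nonneg (¬ Disjoint (Fs ft Λ x p a u) (Fs ft Λ x p a u'))
            linarith
        refine (av_mono h3).trans ?_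
        rw [av_add, av_const, ← pr_eq]
        have h4 := h.pr_not_disj x a hp (Fs ft Λ x p a u)
        have h5 : ((Fs ft Λ x p a u).card : ℝ) * (Λ * κ) ≤ ε := by
          refine le_trans ?_ h.Λκ
          have : ((Fs ft Λ x p a u).card : ℝ) ≤ Λ := by exact_mod_cast Fs_card_le x p a u
          calc _ ≤ (Λ : ℝ) * (Λ * κ) := by gcongr
            _ = _ := by ring
        have h6 := exp_add_small (c := -2) (by norm_num) (by positivity) hε
        have h7 : ε ≤ Λ ^ 2 * ε := by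
          have : (1 : ℝ) ≤ Λ ^ 2 := one_le_pow₀ hΛ
          nlinarith
        linarith
      exact av_le h2
    · intro a ω c
      simp only [hΨ]
      congr 1
      funext u
      congr 1
      funext u'
      congr 1
      apply prod_congr rfl
      intro x' hx'
      rw [mem_sdiff, mem_singleton] at hx'
      rw [Function.update_of_ne hx'.2]
  rw [av_sum]
  simp only [av_sum]
  refine (sum_le_sum fun x hx => sum_le_sum fun p hp => key x hx p hp).trans ?_
  simp only [sum_const, card_range, nsmul_eq_mul]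
  exact le_of_eq (by ring)

end

end Pool.Agent.N533.NS
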