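import Pool.Agent.N533.NS.Mom2

/-!
# Second moments at the vertices
-/

set_option autoImplicit false
set_option linter.unusedSectionVars false

open Finset

namespace Pool.Agent.N533.NS

section
variable {G Ω U : Type} [Group G] [Fintype G] [DecidableEq G] [Fintype Ω] [Fintype U]
variable [Nonempty Ω] [Nonempty U]
variable {T H0 : Finset G} {vt : Ω → ℕ → G} {ft : Ω → ℕ → U → ℕ → G} {M Λ : ℕ} {κ ε : ℝ}

/-- common vertices of two admissible filling paths -/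
noncomputable def Jf (T H0 : Finset G) (vt : Ω → ℕ → G) (ft : Ω → ℕ → U → ℕ → G) (M Λ : ℕ)
    (ω : G → Ω) (x x' : G) (p p' : ℕ) : ℝ :=
  av fun u => av fun u' => ind (Iv T H0 vt ft M Λ ω x p u) * ind (Iv T H0 vt ft M Λ ω x' p' u') *
    ((Fs ft Λ x p (ω x) u ∩ Fs ft Λ x' p' (ω x') u').card : ℝ)

lemma Hyp.J_diag (h : Hyp T H0 vt ft M Λ κ ε) (ω : G → Ω) (x x' : G) {p p' : ℕ} (hp' : p' < M) :
    Jf T H0 vt ft M Λ ω x x' p p' ≤ Λ ^ 2 * κ := by
  refine le_trans ?_ (h.av_inter_le x x' (p := p) hp' (ω x) (ω x'))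
  unfold Jf
  refine av_mono fun u => av_mono fun u' => ?_
  have h1 := ind_le_one (Iv T H0 vt ft M Λ ω x p u)
  have h2 := ind_le_one (Iv T H0 vt ft M Λ ω x' p' u')
  have h3 := ind_nonneg (Iv T H0 vt ft M Λ ω x p u)
  have h4 := ind_nonneg (Iv T H0 vt ft M Λ ω x' p' u')
  have h5 : (0 : ℝ) ≤ ((Fs ft Λ x p (ω x) u ∩ Fs ft Λ x' p' (ω x') u').card : ℝ) :=
    Nat.cast_nonneg _
  have h6 : ind (Iv T H0 vt ft M Λ ω x p u) * ind (Iv T H0 vt ft M Λ ω x' p' u') ≤ 1 := by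
    nlinarith
  nlinarith

lemma Hyp.J_off (h : Hyp T H0 vt ft M Λ κ ε) {x x' : G} (hne : x ≠ x') (p p' : ℕ) :
    (av fun ω : G → Ω => Jf T H0 vt ft M Λ ω x x' p p') ≤
      Real.exp (-2 + 20 * Λ ^ 2 * ε) * (Real.exp (1 / Λ) *
        (∑ v, g1f ft Λ x p v * g1f ft Λ x' p' v) + 3 * (∑ v, ∑ v' ∈ univ.erase v,
          g2f ft Λ x p v v' * g2f ft Λ x' p' v v')) := by
  have hΛ : (1 : ℝ) ≤ Λ := by exact_mod_cast h.Λ_pos
  set Ψ : Ω → Ω → (G → Ω) → ℝ := fun a b ω => av fun u => av fun u' =>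
    (ind ((Fs ft Λ x p a u).card = Λ ∧ (Fs ft Λ x' p' b u').card = Λ) *
      ((Fs ft Λ x p a u ∩ Fs ft Λ x' p' b u').card : ℝ)) *
      ∏ y ∈ T \ {x, x'}, ind (Disjoint (Xs vt M y (ω y)) (Fs ft Λ x p a u ∪ Fs ft Λ x' p' b u'))
    with hΨ
  have h1 : ∀ ω : G → Ω, Jf T H0 vt ft M Λ ω x x' p p' ≤ Ψ (ω x) (ω x') ω := by
    intro ω
    refine av_mono fun u => av_mono fun u' => ?_
    rw [prod_ind, ← ind_and, mul_right_comm, ← ind_and]
    apply mul_le_mul_of_nonneg_right _ (Nat.cast_nonneg _)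
    apply ind_mono
    rintro ⟨⟨h2, h3, -⟩, h4, h5, -⟩
    refine ⟨⟨h2, h4⟩, fun y hy => ?_⟩
    rw [mem_sdiff] at hy
    rw [disjoint_union_right]
    exact ⟨disj_Ss_iff.1 h3 y hy.1, disj_Ss_iff.1 h5 y hy.1⟩
  refine (av_mono h1).trans ?_
  rw [av_indep2 hne Ψ]
  · rw [← W1_eq, ← W2_eq]
    simp only [← av_mul_left, ← av_add]
    refine av_mono fun a => av_mono fun b => ?_
    simp only [hΨ]
    rw [av_comm]
    refine av_mono fun u => ?_
    rw [av_comm]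
    refine av_mono fun u' => ?_
    rw [av_mul_left]
    have hprod := h.avoid_upper (B := {x, x'}) (card_le_two)
      (D := Fs ft Λ x p a u ∪ Fs ft Λ x' p' b u') ((card_union_le _ _).trans (by
        have := Fs_card_le (ft := ft) (Λ := Λ) x p a u
        have := Fs_card_le (ft := ft) (Λ := Λ) x' p' b u'
        omega))
    have hE := Real.exp_pos (-2 + 20 * (Λ : ℝ) ^ 2 * ε)
    set j := (Fs ft Λ x p a u ∩ Fs ft Λ x' p' b u').card with hj
    have hjΛ : j ≤ Λ := (card_le_card inter_subset_left).trans (Fs_card_le x p a u)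
    have hj2 : (0 : ℝ) ≤ j * (j - 1) := by
      rcases Nat.eq_zero_or_pos j with h0 | h0
      · rw [h0]; simp
      · have : (1 : ℝ) ≤ j := by exact_mod_cast h0
        nlinarith
    by_cases h4 : (Fs ft Λ x p a u).card = Λ ∧ (Fs ft Λ x' p' b u').card = Λ
    · rw [ind_true h4, one_mul]
      have hc : ((Fs ft Λ x p a u ∪ Fs ft Λ x' p' b u').card : ℝ) = 2 * Λ - j := by
        have := card_union_add_card_inter (Fs ft Λ x p a u) (Fs ft Λ x' p' b u')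
        rw [h4.1, h4.2, ← hj] at this
        have h5 : ((Fs ft Λ x p a u ∪ Fs ft Λ x' p' b u').card : ℝ) + j = Λ + Λ := by
          exact_mod_cast this
        linarith
      rw [hc] at hprod
      have e : Real.exp (-((2 * (Λ : ℝ) - j) / Λ) + 20 * Λ ^ 2 * ε) =
          Real.exp (-2 + 20 * Λ ^ 2 * ε) * Real.exp (j / Λ) := by
        rw [← Real.exp_add]
        congr 1
        field_simp
        ring
      rw [e] at hprod
      have h6 := j_exp h.Λ_pos hjΛ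
      calc _ ≤ (j : ℝ) * (Real.exp (-2 + 20 * Λ ^ 2 * ε) * Real.exp (j / Λ)) := by gcongr
        _ = Real.exp (-2 + 20 * Λ ^ 2 * ε) * (j * Real.exp (j / Λ)) := by ring
        _ ≤ Real.exp (-2 + 20 * Λ ^ 2 * ε) * (Real.exp (1 / Λ) * j + 3 * (j * (j - 1))) := by
          gcongr
        _ = _ := by ring
    · rw [ind_false h4, zero_mul, zero_mul]
      positivity
  · intro a b ω c
    simp only [hΨ]
    congr 1
    funext u
    congr 1
    funext u'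
    congr 1
    apply prod_congr rfl
    intro y hy
    rw [mem_sdiff, mem_insert, not_or] at hy
    rw [Function.update_of_ne hy.2.1]
  · intro a b ω c
    simp only [hΨ]
    congr 1
    funext u
    congr 1
    funext u'
    congr 1
    apply prod_congr rfl
    intro y hy
    rw [mem_sdiff, mem_insert, not_or, mem_singleton] at hy
    rw [Function.update_of_ne hy.2.2]

/-- the load of the vertex `v` -/
noncomputable def l2 (T H0 : Finset G) (vt : Ω → ℕ → G) (ft : Ω → ℕ → U → ℕ → G) (M Λ : ℕ)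
    (ω : G → Ω) (v : G) : ℝ :=
  ∑ x ∈ T, ∑ p ∈ range M, pr fun u => Iv T H0 vt ft M Λ ω x p u ∧ v ∈ Fs ft Λ x p (ω x) u

lemma sum_l2_sq (ω : G → Ω) : ∑ v, l2 T H0 vt ft M Λ ω v ^ 2 =
    ∑ x ∈ T, ∑ x' ∈ T, ∑ p ∈ range M, ∑ p' ∈ range M, Jf T H0 vt ft M Λ ω x x' p p' := by
  have hc1 : ∀ (f : ℕ → G → ℝ), ∑ p ∈ range M, ∑ v, f p v = ∑ v, ∑ p ∈ range M, f p v :=
    fun f => sum_comm
  have hc2 : ∀ (f : G → G → ℝ), ∑ x ∈ T, ∑ v, f x v = ∑ v, ∑ x ∈ T, f x v :=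
    fun f => sum_comm
  have h1 : ∀ x x' p p', Jf T H0 vt ft M Λ ω x x' p p' =
      ∑ v, (pr fun u => Iv T H0 vt ft M Λ ω x p u ∧ v ∈ Fs ft Λ x p (ω x) u) *
        (pr fun u => Iv T H0 vt ft M Λ ω x' p' u ∧ v ∈ Fs ft Λ x' p' (ω x') u) := by
    intro x x' p p'
    unfold Jf
    simp only [pr_eq, ← av_mul_av, ← av_sum]
    congr 1
    funext u
    congr 1
    funext u'
    rw [card_eq_sum_ind, mul_sum]
    refine sum_congr rfl fun v _ => ?_
    rw [mem_inter, ind_and, ind_and, ind_and]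
    ring
  simp only [h1, hc1, hc2]
  refine sum_congr rfl fun v _ => ?_
  unfold l2
  simp only [sq, sum_mul_sum]

lemma sum_off_le {T : Finset G} {f g : G → G → ℝ} {c : ℝ} (hd : ∀ x ∈ T, f x x ≤ c)
    (ho : ∀ x ∈ T, ∀ x' ∈ T, x ≠ x' → f x x' ≤ g x x') (hg : ∀ x x', 0 ≤ g x x') :
    ∑ x ∈ T, ∑ x' ∈ T, f x x' ≤ T.card * c + ∑ x ∈ T, ∑ x' ∈ T, g x x' := by
  have h1 : ∀ x ∈ T, ∑ x' ∈ T, f x x' ≤ c + ∑ x' ∈ T, g x x' := by
    intro x hx
    rw [← add_sum_erase _ _ hx, ← add_sum_erase (f := fun x' => g x x') _ hx]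
    have h2 : ∑ x' ∈ T.erase x, f x x' ≤ ∑ x' ∈ T.erase x, g x x' := by
      refine sum_le_sum fun x' hx' => ?_
      rw [mem_erase] at hx'
      exact ho x hx x' hx'.2 hx'.1.symm
    have := hd x hx
    have := hg x x
    linarith
  calc _ ≤ ∑ x ∈ T, (c + ∑ x' ∈ T, g x x') := sum_le_sum h1
    _ = _ := by rw [sum_add_distrib, sum_const, nsmul_eq_mul]

lemma exp_two_div {Λ : ℕ} (hΛ : 1 ≤ Λ) : Real.exp (1 / (Λ : ℝ)) ≤ 3 := by
  have hΛ' : (1 : ℝ) ≤ Λ := by exact_mod_cast hΛ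
  have h4 : 1 / (Λ : ℝ) ≤ 1 := by
    rw [div_le_one (by linarith)]
    exact hΛ'
  have := Real.exp_le_exp.2 h4
  have := Real.exp_one_lt_d9
  linarith

/-- **Second moment at the vertices.** -/
theorem Hyp.momC (h : Hyp T H0 vt ft M Λ κ ε) (hε : 20 * Λ ^ 2 * ε ≤ 1) :
    (av fun ω : G → Ω => ∑ v, l2 T H0 vt ft M Λ ω v ^ 2) ≤
      Fintype.card G * (Real.exp (-2 + 1 / Λ) + 510 * Λ ^ 2 * ε) := by
  have hΛ : (1 : ℝ) ≤ Λ := by exact_mod_cast h.Λ_pos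
  have hM1 : (1 : ℝ) ≤ M := by exact_mod_cast h.M_pos
  have hε0 := h.ε_pos
  have hε1 := h.ε_le
  have hκ0 := h.κ_nonneg
  have hN : (0 : ℝ) ≤ Fintype.card G := Nat.cast_nonneg _
  simp only [sum_l2_sq]
  rw [av_sum]
  simp only [av_sum]
  have h1 := sum_off_le (T := T)
    (f := fun x x' => ∑ p ∈ range M, ∑ p' ∈ range M, av fun ω : G → Ω => Jf T H0 vt ft M Λ ω x x' p p')
    (g := fun x x' => ∑ p ∈ range M, ∑ p' ∈ range M, Real.exp (-2 + 20 * Λ ^ 2 * ε) *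
      (Real.exp (1 / Λ) * (∑ v, g1f ft Λ x p v * g1f ft Λ x' p' v) +
        3 * (∑ v, ∑ v' ∈ univ.erase v, g2f ft Λ x p v v' * g2f ft Λ x' p' v v')))
    (c := ε) ?_ ?_ ?_
  · refine h1.trans ?_
    have h2 := h.sum_W1
    have h3 := h.sum_W2
    have e : ∑ x ∈ T, ∑ x' ∈ T, ∑ p ∈ range M, ∑ p' ∈ range M, Real.exp (-2 + 20 * Λ ^ 2 * ε) *
      (Real.exp (1 / Λ) * (∑ v, g1f ft Λ x p v * g1f ft Λ x' p' v) +
        3 * (∑ v, ∑ v' ∈ univ.erase v, g2f ft Λ x p v v' * g2f ft Λ x' p' v v')) =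
        Real.exp (-2 + 20 * Λ ^ 2 * ε) * (Real.exp (1 / Λ) *
        (∑ x ∈ T, ∑ x' ∈ T, ∑ p ∈ range M, ∑ p' ∈ range M, ∑ v, g1f ft Λ x p v * g1f ft Λ x' p' v) +
        3 * (∑ x ∈ T, ∑ x' ∈ T, ∑ p ∈ range M, ∑ p' ∈ range M, ∑ v, ∑ v' ∈ univ.erase v,
          g2f ft Λ x p v v' * g2f ft Λ x' p' v v')) := by
      simp only [← mul_sum, sum_add_distrib]
    rw [e]
    -- sizes
    have h4 : (T.card : ℝ) * M * Λ ≤ 2 * Fintype.card G := by
      have := (abs_le.1 h.size).2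
      nlinarith
    have h5 : (T.card : ℝ) * M ≤ 2 * Fintype.card G := by
      have : (T.card : ℝ) * M ≤ T.card * M * Λ := by
        nlinarith [mul_nonneg (Nat.cast_nonneg T.card : (0:ℝ) ≤ T.card) (by linarith : (0:ℝ) ≤ M)]
      linarith
    have h6 : (T.card : ℝ) * ε ≤ 2 * Fintype.card G * ε := by
      have : (T.card : ℝ) ≤ T.card * M := by
        nlinarith [(Nat.cast_nonneg T.card : (0:ℝ) ≤ T.card)]
      nlinarith
    have h7 := exp_two_div h.Λ_pos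
    have h8 := exp_add_small (c := -2) (by norm_num) (by positivity) hε
    have h9 : Real.exp (-2 + 20 * (Λ : ℝ) ^ 2 * ε) ≤ 3 := by
      have : Real.exp (-2 : ℝ) ≤ 1 := Real.exp_le_one_iff.2 (by norm_num)
      linarith
    have h10 : Real.exp (-2 + 20 * (Λ : ℝ) ^ 2 * ε) * Real.exp (1 / Λ) ≤
        Real.exp (-2 + 1 / Λ) + 120 * Λ ^ 2 * ε := by
      calc _ ≤ (Real.exp (-2) + 2 * (20 * Λ ^ 2 * ε)) * Real.exp (1 / Λ) := by gcongr
        _ = Real.exp (-2 + 1 / Λ) + 2 * (20 * Λ ^ 2 * ε) * Real.exp (1 / Λ) := by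
          rw [add_mul, ← Real.exp_add]
        _ ≤ Real.exp (-2 + 1 / Λ) + 2 * (20 * Λ ^ 2 * ε) * 3 := by gcongr
        _ = _ := by ring
    have h11 : (1 + ε) ^ 2 ≤ 1 + 3 * ε := by nlinarith
    have h12 : Real.exp (-2 + 1 / (Λ : ℝ)) ≤ 1 := Real.exp_le_one_iff.2 (by
      have : 1 / (Λ : ℝ) ≤ 1 := by rw [div_le_one (by linarith)]; exact hΛ
      linarith)
    have hεΛ : ε ≤ Λ ^ 2 * ε := by
      have : (1 : ℝ) ≤ Λ ^ 2 := one_le_pow₀ hΛ
      nlinarith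
    calc _ ≤ 2 * Fintype.card G * ε + (Real.exp (-2 + 20 * Λ ^ 2 * ε) * Real.exp (1 / Λ) *
          (Fintype.card G * (1 + ε) ^ 2) + Real.exp (-2 + 20 * Λ ^ 2 * ε) * 3 *
            (Λ ^ 2 * ε * (T.card * M))) := by
          have hE := Real.exp_pos (-2 + 20 * (Λ : ℝ) ^ 2 * ε)
          have hE2 := Real.exp_pos (1 / (Λ : ℝ))
          have i1 : Real.exp (-2 + 20 * Λ ^ 2 * ε) * (Real.exp (1 / Λ) *
            (∑ x ∈ T, ∑ x' ∈ T, ∑ p ∈ range M, ∑ p' ∈ range M, ∑ v, g1f ft Λ x p v * g1f ft Λ x' p' v) +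
            3 * (∑ x ∈ T, ∑ x' ∈ T, ∑ p ∈ range M, ∑ p' ∈ range M, ∑ v, ∑ v' ∈ univ.erase v,
              g2f ft Λ x p v v' * g2f ft Λ x' p' v v')) ≤
              Real.exp (-2 + 20 * Λ ^ 2 * ε) * (Real.exp (1 / Λ) * (Fintype.card G * (1 + ε) ^ 2) +
              3 * (Λ ^ 2 * ε * (T.card * M))) := by gcongr
          linarith
      _ ≤ 2 * Fintype.card G * ε + ((Real.exp (-2 + 1 / Λ) + 120 * Λ ^ 2 * ε) *
          (Fintype.card G * (1 + 3 * ε)) + 3 * 3 * (Λ ^ 2 * ε * (2 * Fintype.card G))) := by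
          gcongr
      _ ≤ _ := by
          have i1 : (Real.exp (-2 + 1 / Λ) + 120 * Λ ^ 2 * ε) * (1 + 3 * ε) ≤
              Real.exp (-2 + 1 / Λ) + 480 * Λ ^ 2 * ε + 3 * ε := by
            have : (0 : ℝ) ≤ Λ ^ 2 * ε := by positivity
            nlinarith
          have i2 : 2 * ε + (Real.exp (-2 + 1 / Λ) + 120 * Λ ^ 2 * ε) * (1 + 3 * ε) +
              18 * (Λ ^ 2 * ε) ≤ Real.exp (-2 + 1 / Λ) + 503 * Λ ^ 2 * ε := by linarith
          have i3 : (0 : ℝ) ≤ Λ ^ 2 * ε := by positivity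
          calc _ = Fintype.card G * (2 * ε + (Real.exp (-2 + 1 / Λ) + 120 * Λ ^ 2 * ε) *
                (1 + 3 * ε) + 18 * (Λ ^ 2 * ε)) := by ring
            _ ≤ _ := by
              apply mul_le_mul_of_nonneg_left _ hN
              linarith
  · intro x hx
    calc _ ≤ ∑ _p ∈ range M, ∑ _p' ∈ range M, (Λ ^ 2 * κ : ℝ) := by
          refine sum_le_sum fun p _ => sum_le_sum fun p' hp' => ?_
          exact av_le fun ω => h.J_diag ω x x (mem_range.1 hp')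
      _ = M ^ 2 * Λ ^ 2 * κ := by simp only [sum_const, card_range, nsmul_eq_mul]; ring
      _ ≤ _ := h.κ_small
  · intro x _ x' _ hne
    exact sum_le_sum fun p _ => sum_le_sum fun p' _ => h.J_off hne p p'
  · intro x x'
    refine sum_nonneg fun p _ => sum_nonneg fun p' _ => ?_
    apply mul_nonneg (Real.exp_pos _).le
    apply add_nonneg
    · exact mul_nonneg (Real.exp_pos _).le (sum_nonneg fun v _ =>
        mul_nonneg (g1f_nonneg _ _ _) (g1f_nonneg _ _ _))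
    · exact mul_nonneg (by norm_num) (sum_nonneg fun v _ => sum_nonneg fun v' _ =>
        mul_nonneg (g2f_nonneg _ _ _ _) (g2f_nonneg _ _ _ _))

/-- the number of vertices that are not used by the paths -/
theorem Hyp.momV (h : Hyp T H0 vt ft M Λ κ ε) (hε : 20 * Λ ^ 2 * ε ≤ 1) :
    (av fun ω : G → Ω => ((univ \ Ss T vt M ω).card : ℝ)) ≤
      Fintype.card G * (Real.exp (-1 / Λ) + 40 * Λ ^ 2 * ε) := by
  have hΛ : (1 : ℝ) ≤ Λ := by exact_mod_cast h.Λ_pos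
  have hΛ1 := h.Λ_pos
  have hε0 := h.ε_pos
  have h1 : ∀ ω : G → Ω, ((univ \ Ss T vt M ω).card : ℝ) =
      ∑ v, ∏ x ∈ T \ ∅, ind (Disjoint (Xs vt M x (ω x)) {v}) := by
    intro ω
    rw [card_eq_sum_ind]
    refine sum_congr rfl fun v _ => ?_
    rw [prod_ind]
    congr 1
    rw [mem_sdiff, ← disjoint_singleton_left, disj_Ss_iff, sdiff_empty]
    simp
  simp only [h1, av_sum]
  calc _ ≤ ∑ _v : G, (Real.exp (-1 / Λ) + 40 * Λ ^ 2 * ε) := by
        refine sum_le_sum fun v _ => ?_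
        refine (h.avoid_upper (B := ∅) (by simp) (D := {v}) (by simp; omega)).trans ?_
        have h2 := exp_add_small (c := -(1 / (Λ : ℝ))) (by
          rw [Left.neg_nonpos_iff]; positivity) (by positivity) hε
        rw [card_singleton, Nat.cast_one]
        have e : -1 / (Λ : ℝ) = -(1 / Λ) := by ring
        rw [e]
        linarith
    _ = _ := by rw [sum_const, card_univ, nsmul_eq_mul]

lemma card_mul_nonneg (j : ℕ) : (0 : ℝ) ≤ j * (j - 1) := by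
  rcases Nat.eq_zero_or_pos j with h0 | h0
  · rw [h0]; simp
  · have : (1 : ℝ) ≤ j := by exact_mod_cast h0
    nlinarith

lemma ind_pair_le {F F' : Finset G} {v v' : G} (hv : v ∈ F) (hv' : v' ∈ F) (hne : v ≠ v') :
    ind (v ∈ F' ∧ v' ∈ F') ≤ ((F ∩ F').card : ℝ) * ((F ∩ F').card - 1) := by
  by_cases h : v ∈ F' ∧ v' ∈ F'
  · rw [ind_true h]
    have h2 : 2 ≤ (F ∩ F').card := by
      rw [← Nat.lt_iff_add_one_le, one_lt_card]
      exact ⟨v, mem_inter.2 ⟨hv, h.1⟩, v', mem_inter.2 ⟨hv', h.2⟩, hne⟩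
    have h3 : (2 : ℝ) ≤ (F ∩ F').card := by exact_mod_cast h2
    nlinarith
  · rw [ind_false h]
    exact card_mul_nonneg _

/-- **Bad pairs.** -/
theorem Hyp.momD (h : Hyp T H0 vt ft M Λ κ ε) {θ : ℝ} (hθ : 0 < θ) :
    (av fun ω : G → Ω => ∑ x ∈ T, ∑ p ∈ range M, pr fun u => Iv T H0 vt ft M Λ ω x p u ∧
      ∃ v ∈ Fs ft Λ x p (ω x) u, ∃ v' ∈ Fs ft Λ x p (ω x) u, v ≠ v' ∧
        θ < ∑ x' ∈ T, ∑ p' ∈ range M, pr fun u' => Iv T H0 vt ft M Λ ω x' p' u' ∧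
          v ∈ Fs ft Λ x' p' (ω x') u' ∧ v' ∈ Fs ft Λ x' p' (ω x') u') ≤
      (T.card * M : ℝ) * (2 * Λ ^ 2 * ε / θ) := by
  have hΛ : (1 : ℝ) ≤ Λ := by exact_mod_cast h.Λ_pos
  have hM1 : (1 : ℝ) ≤ M := by exact_mod_cast h.M_pos
  have hε0 := h.ε_pos
  have hκ0 := h.κ_nonneg
  set J2 : Ω → Ω → G → G → ℕ → ℕ → ℝ := fun a b x x' p p' => av fun u => av fun u' =>
    ((Fs ft Λ x p a u ∩ Fs ft Λ x' p' b u').card : ℝ) *
      ((Fs ft Λ x p a u ∩ Fs ft Λ x' p' b u').card - 1) with hJ2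
  -- pointwise bound
  have h1 : ∀ ω : G → Ω, (∑ x ∈ T, ∑ p ∈ range M, pr fun u => Iv T H0 vt ft M Λ ω x p u ∧
      ∃ v ∈ Fs ft Λ x p (ω x) u, ∃ v' ∈ Fs ft Λ x p (ω x) u, v ≠ v' ∧
        θ < ∑ x' ∈ T, ∑ p' ∈ range M, pr fun u' => Iv T H0 vt ft M Λ ω x' p' u' ∧
          v ∈ Fs ft Λ x' p' (ω x') u' ∧ v' ∈ Fs ft Λ x' p' (ω x') u') ≤
      (1 / θ) * ∑ x ∈ T, ∑ x' ∈ T, ∑ p ∈ range M, ∑ p' ∈ range M,
        J2 (ω x) (ω x') x x' p p' := by
    intro ω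
    rw [mul_sum]
    refine sum_le_sum fun x _ => ?_
    rw [sum_comm, mul_sum]
    refine sum_le_sum fun p _ => ?_
    simp only [hJ2, ← av_sum, ← av_mul_left]
    rw [pr_eq]
    refine av_mono fun u => ?_
    have hnn : 0 ≤ (1 / θ) * ∑ x' ∈ T, ∑ p' ∈ range M, (av fun u' =>
        ((Fs ft Λ x p (ω x) u ∩ Fs ft Λ x' p' (ω x') u').card : ℝ) *
      ((Fs ft Λ x p (ω x) u ∩ Fs ft Λ x' p' (ω x') u').card - 1)) := by
      apply mul_nonneg (by positivity)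
      exact sum_nonneg fun _ _ => sum_nonneg fun _ _ => av_nonneg fun _ => card_mul_nonneg _
    by_cases hb : Iv T H0 vt ft M Λ ω x p u ∧
      ∃ v ∈ Fs ft Λ x p (ω x) u, ∃ v' ∈ Fs ft Λ x p (ω x) u, v ≠ v' ∧
        θ < ∑ x' ∈ T, ∑ p' ∈ range M, pr fun u' => Iv T H0 vt ft M Λ ω x' p' u' ∧
          v ∈ Fs ft Λ x' p' (ω x') u' ∧ v' ∈ Fs ft Λ x' p' (ω x') u'
    · rw [ind_true hb]
      obtain ⟨-, v, hv, v', hv', hne, hlt⟩ := hb
      have h2 : ∑ x' ∈ T, ∑ p' ∈ range M, (pr fun u' => Iv T H0 vt ft M Λ ω x' p' u' ∧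
          v ∈ Fs ft Λ x' p' (ω x') u' ∧ v' ∈ Fs ft Λ x' p' (ω x') u') ≤
          ∑ x' ∈ T, ∑ p' ∈ range M, (av fun u' =>
        ((Fs ft Λ x p (ω x) u ∩ Fs ft Λ x' p' (ω x') u').card : ℝ) *
      ((Fs ft Λ x p (ω x) u ∩ Fs ft Λ x' p' (ω x') u').card - 1)) := by
        refine sum_le_sum fun x' _ => sum_le_sum fun p' _ => ?_
        rw [pr_eq]
        refine av_mono fun u' => ?_
        exact (ind_mono fun h => h.2).trans (ind_pair_le hv hv' hne)
      rw [av_mul_left, av_sum]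
      simp only [av_sum]
      rw [one_div, inv_mul_eq_div, one_le_div hθ]
      linarith
    · rw [ind_false hb]
      rw [av_mul_left, av_sum]
      simp only [av_sum]
      exact hnn
  refine (av_mono h1).trans ?_
  rw [av_mul_left, av_sum]
  simp only [av_sum]
  have h2 := sum_off_le (T := T)
    (f := fun x x' => ∑ p ∈ range M, ∑ p' ∈ range M, av fun ω : G → Ω => J2 (ω x) (ω x') x x' p p')
    (g := fun x x' => ∑ p ∈ range M, ∑ p' ∈ range M, (∑ v, ∑ v' ∈ univ.erase v,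
      g2f ft Λ x p v v' * g2f ft Λ x' p' v v')) (c := Λ * ε) ?_ ?_ ?_
  · have h3 := h.sum_W2
    have h4 : (T.card : ℝ) * (Λ * ε) ≤ Λ ^ 2 * ε * (T.card * M) := by
      have h5 : (Λ : ℝ) ≤ Λ ^ 2 * M := by
        have : (Λ : ℝ) ≤ Λ ^ 2 := by nlinarith
        nlinarith
      calc (T.card : ℝ) * (Λ * ε) = Λ * (T.card * ε) := by ring
        _ ≤ (Λ ^ 2 * M) * (T.card * ε) := by gcongr
        _ = _ := by ring
    calc _ ≤ 1 / θ * (T.card * (Λ * ε) + Λ ^ 2 * ε * (T.card * M)) := by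
          gcongr
          exact h2.trans (by linarith)
      _ ≤ 1 / θ * (Λ ^ 2 * ε * (T.card * M) + Λ ^ 2 * ε * (T.card * M)) := by gcongr
      _ = _ := by ring
  · intro x hx
    calc _ ≤ ∑ _p ∈ range M, ∑ _p' ∈ range M, (Λ * (Λ ^ 2 * κ) : ℝ) := by
          refine sum_le_sum fun p _ => sum_le_sum fun p' hp' => ?_
          refine av_le fun ω => ?_
          have h3 := h.av_inter_le x x (p := p) (mem_range.1 hp') (ω x) (ω x)
          refine le_trans ?_ (mul_le_mul_of_nonneg_left h3 (by positivity : (0 : ℝ) ≤ Λ))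
          simp only [hJ2, ← av_mul_left]
          refine av_mono fun u => av_mono fun u' => ?_
          have h5 : ((Fs ft Λ x p (ω x) u ∩ Fs ft Λ x p' (ω x) u').card : ℝ) ≤ Λ := by
            exact_mod_cast (card_le_card inter_subset_left).trans (Fs_card_le x p (ω x) u)
          have h6 : (0 : ℝ) ≤ ((Fs ft Λ x p (ω x) u ∩ Fs ft Λ x p' (ω x) u').card : ℝ) :=
            Nat.cast_nonneg _
          nlinarith
      _ = Λ * (M ^ 2 * Λ ^ 2 * κ) := by simp only [sum_const, card_range, nsmul_eq_mul]; ring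
      _ ≤ _ := by
        have := h.κ_small
        gcongr
  · intro x _ x' _ hne
    refine sum_le_sum fun p _ => sum_le_sum fun p' _ => ?_
    rw [← W2_eq]
    rw [av_indep2 hne (fun a b _ => J2 a b x x' p p') (fun _ _ _ _ => rfl) (fun _ _ _ _ => rfl)]
    apply le_of_eq
    congr 1
    funext a
    congr 1
    funext b
    exact av_const _
  · intro x x'
    exact sum_nonneg fun p _ => sum_nonneg fun p' _ => sum_nonneg fun v _ => sum_nonneg fun v' _ =>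
      mul_nonneg (g2f_nonneg _ _ _ _) (g2f_nonneg _ _ _ _)

end

end Pool.Agent.N533.NS
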