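import Pool.Agent.N533.NS.Skel3

/-!
# Project NS, task S: the run
-/

set_option autoImplicit false
set_option linter.unusedSectionVars false

open Finset
open scoped Pointwise

namespace Pool.Agent.N533.NS

open Pool.Agent.N533.LC

variable {G : Type} [Group G] [Fintype G] [DecidableEq G]
variable {S D T T' : Finset G} {σ : G} {cell : G → G} {r t β e : ℕ}

/-- the set avoided by the hop number `i` -/
noncomputable def Zs (S D T : Finset G) (σ : G) (r t : ℕ) (x0 : G) (i : ℕ) (hp : ℕ → List G) :
    Finset G :=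
  (TT T σ ∪ PP i hp) ∪ if i = 0 then ∅ else Prot S D r t x0

/-- the state of the construction -/
structure St (S D T T' : Finset G) (σ : G) (cell : G → G) (r t : ℕ) (cs : ℕ → G)
    (x0 : G) (i : ℕ) (x : ℕ → G) (hp : ℕ → List G) : Prop where
  zero : x 0 = x0
  mem : ∀ j ≤ i, x j ∈ T' ∧ cell (x j) = cs j
  inj : ∀ j ≤ i, ∀ k ≤ i, x j = x k → j = k
  chain : ∀ j < i, (x j * σ :: (hp j ++ [x (j + 1)])).IsChain fun a b => a⁻¹ * b ∈ S
  nodup : ∀ j < i, (hp j).Nodup ∧ (hp j).length ≤ 19 * r
  avoid : ∀ j < i, ∀ z ∈ hp j, z ∉ TT T σ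
  near : ∀ j < i, ∀ z ∈ hp j, (cell (x j))⁻¹ * z ∈ S ^ (23 * r)
  disj : ∀ j < i, ∀ k < i, j ≠ k → List.Disjoint (hp j) (hp k)
  prot : ∀ j < i, 1 ≤ j → ∀ z ∈ hp j, z ∉ Prot S D r t x0
  harm : 4 * HM S D r (x i * σ) (Zs S D T σ r t x0 i hp) ≤ D.card * (S ^ r).card

lemma St.near_card (h : Ctx S D T T' σ cell r t β e) {cs : ℕ → G} {x0 : G} {i : ℕ}
    {x : ℕ → G} {hp : ℕ → List G} (st : St S D T T' σ cell r t cs x0 i x hp) (c : G) :
    ((TT T σ ∪ PP i hp) ∩ Bal S c (23 * r)).card ≤ 21 * r * t := by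
  have h1 := h.card_TT c
  have h2 := h.card_PP c (i := i) (x := x) (hp := hp) (fun j hj => h.sub (st.mem j hj.le).1)
    (fun j hj k hk => st.inj j hj.le k hk.le) (fun j hj => (st.nodup j hj).2) st.near
  rw [union_inter_distrib_right]
  refine (card_union_le _ _).trans ?_
  have := h.hr
  nlinarith

lemma St.near_card' (h : Ctx S D T T' σ cell r t β e) {cs : ℕ → G} {x0 : G} {i : ℕ}
    {x : ℕ → G} {hp : ℕ → List G} (st : St S D T T' σ cell r t cs x0 i x hp) (c : G) :
    (((TT T σ ∪ PP i hp) ∪ Prot S D r t x0) ∩ Bal S c (23 * r)).card ≤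
      21 * r * t * (16 * r + 17) := by
  have h1 := st.near_card h c
  have h2 := h.card_Prot x0
  have h3 : (Prot S D r t x0 ∩ Bal S c (23 * r)).card ≤ (Prot S D r t x0).card :=
    card_le_card inter_subset_left
  rw [union_inter_distrib_right]
  refine (card_union_le _ _).trans ?_
  calc _ ≤ 21 * r * t + 21 * r * t * (16 * (r + 1)) := by omega
    _ = _ := by ring

lemma Zs_sub {x0 : G} {i : ℕ} {hp : ℕ → List G} :
    Zs S D T σ r t x0 i hp ⊆ (TT T σ ∪ PP i hp) ∪ Prot S D r t x0 := by
  unfold Zs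
  split_ifs
  · rw [union_empty]
    exact subset_union_left
  · exact subset_rfl

lemma sub_Zs {x0 : G} {i : ℕ} {hp : ℕ → List G} :
    TT T σ ∪ PP i hp ⊆ Zs S D T σ r t x0 i hp := by
  unfold Zs
  exact subset_union_left

lemma Ctx.HM_TT (h : Ctx S D T T' σ cell r t β e) (y : G) :
    16 * HM S D r y (TT T σ) ≤ D.card * (S ^ r).card := by
  refine le_trans (Nat.mul_le_mul_left _ ?_) (h.h16 y)
  unfold TT
  refine (HM_union r y _ _).trans (Nat.add_le_add (HM_le_sum r y T) ?_)
  refine (HM_le_sum r y _).trans ?_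
  rw [sum_image (fun a _ b _ hab => mul_right_cancel hab)]

/-- few vertices do little harm -/
lemma Ctx.HM_list (h : Ctx S D T T' σ cell r t β e) (y : G) {l : List G}
    (hl : l.length ≤ 19 * r) : 32 * HM S D r y l.toFinset ≤ D.card * (S ^ r).card := by
  have h1 := HM_card (S := S) (D := D) r y l.toFinset
  have h2 : l.toFinset.card ≤ 19 * r := (List.toFinset_card_le _).trans hl
  calc 32 * HM S D r y l.toFinset ≤ 32 * (19 * r * ((r + 1) * (S ^ r).card)) := by
        refine Nat.mul_le_mul_left _ (h1.trans ?_)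
        gcongr
    _ = 608 * r * (r + 1) * (S ^ r).card := by ring
    _ ≤ _ := Nat.mul_le_mul_right _ h.n3

/-- the start -/
lemma St.init (h : Ctx S D T T' σ cell r t β e) {cs : ℕ → G} {x0 : G} (hx0 : x0 ∈ T')
    (hc : cell x0 = cs 0) : St S D T T' σ cell r t cs x0 0 (fun _ => x0) (fun _ => []) := by
  refine ⟨rfl, ?_, ?_, ?_, ?_, ?_, ?_, ?_, ?_, ?_⟩
  · intro j hj
    have : j = 0 := by omega
    subst this
    exact ⟨hx0, hc⟩
  · intro j hj k hk _
    omega
  all_goals try (intro j hj; omega)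
  have h1 := h.HM_TT (x0 * σ)
  have h2 : Zs S D T σ r t x0 0 (fun _ => ([] : List G)) = TT T σ := by
    unfold Zs PP
    simp
  rw [h2]
  omega

/-- the step -/
theorem St.next (h : Ctx S D T T' σ cell r t β e) {n : ℕ} {cs : ℕ → G} {V : G → ℕ}
    (hcs : ∀ i, i + 1 < n → (cs i)⁻¹ * cs (i + 1) ∈ S ^ (5 * r))
    (hV : ∀ i < n, ((range n).filter fun j => cs j = cs i).card = V (cs i))
    (hT : ∀ i < n, V (cs i) + e < (T'.filter fun x => cell x = cs i).card)
    {x0 : G} {i : ℕ} (hi : i + 1 < n) {x : ℕ → G} {hp : ℕ → List G}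
    (st : St S D T T' σ cell r t cs x0 i x hp) :
    ∃ x' hp', St S D T T' σ cell r t cs x0 (i + 1) x' hp' := by
  classical
  obtain ⟨B, hB1, hB2⟩ := h.bad (st.near_card' h (cs (i + 1)))
  -- the next slot
  have hsel : ∃ x' ∈ T', cell x' = cs (i + 1) ∧ x' ∉ B ∧ ∀ j ≤ i, x j ≠ x' := by
    by_contra hcon
    push Not at hcon
    have h1 : (T'.filter fun x => cell x = cs (i + 1)) ⊆
        B ∪ ((range n).filter fun j => cs j = cs (i + 1)).image x := by
      intro z hz
      rw [mem_filter] at hz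
      rw [mem_union]
      by_cases hzB : z ∈ B
      · exact Or.inl hzB
      · right
        obtain ⟨j, hj, hjz⟩ := hcon z hz.1 hz.2 hzB
        rw [mem_image]
        refine ⟨j, ?_, hjz⟩
        rw [mem_filter, mem_range]
        refine ⟨by omega, ?_⟩
        rw [← (st.mem j hj).2, hjz, hz.2]
    have h2 := (card_le_card h1).trans (card_union_le _ _)
    have h3 : (((range n).filter fun j => cs j = cs (i + 1)).image x).card ≤
      ((range n).filter fun j => cs j = cs (i + 1)).card := card_image_le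
    rw [hV (i + 1) hi] at h3
    have h4 := hT (i + 1) hi
    omega
  obtain ⟨x', hx'T, hx'c, hx'B, hx'n⟩ := hsel
  obtain ⟨hm1, hm2⟩ := hB2 x' hx'T hx'c hx'B
  obtain ⟨hxT, hxc⟩ := st.mem i le_rfl
  -- the hop
  have hZle : (Zs S D T σ r t x0 i hp ∩ Bal S (cs i) (23 * r)).card ≤
      21 * r * t * (16 * r + 17) :=
    (card_le_card (inter_subset_inter_right Zs_sub)).trans (st.near_card' h (cs i))
  obtain ⟨l, l1, l2, l3, l4⟩ := hop' h.sys h.DS ⟨σ, h.σD⟩ h.hr
    (Z := Zs S D T σ r t x0 i hp) (y := x i * σ) (x' := x') (c := cs i) (c' := cs (i + 1))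
    (by
      have := h.hcell (x i)
      rw [hxc] at this
      rw [← mul_assoc]
      exact Sys.mul_pow this (h.sys.mem_one (h.DS h.σD)))
    (by
      have := h.hcell x'
      rwa [hx'c] at this)
    (hcs i hi)
    (by
      intro heq
      exact h.free _ hxT (heq ▸ h.sub hx'T))
    st.harm
    (by
      have := HM_mono (S := S) (D := D) r x' (Zs_sub (S := S) (D := D) (T := T) (σ := σ) (r := r)
        (t := t) (x0 := x0) (i := i) (hp := hp))
      omega)
    hZle h.n1
  set xn : ℕ → G := fun j => if j ≤ i then x j else x' with hxn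
  set hn : ℕ → List G := fun j => if j < i then hp j else l with hhn
  have x1 : ∀ j ≤ i, xn j = x j := fun j hj => by simp [hxn, hj]
  have x2 : xn (i + 1) = x' := by simp [hxn]
  have p1 : ∀ j < i, hn j = hp j := fun j hj => by simp [hhn, hj]
  have p2 : hn i = l := by simp [hhn]
  have hPP : ∀ z, z ∈ PP (i + 1) hn ↔ z ∈ PP i hp ∨ z ∈ l := by
    intro z
    rw [mem_PP, mem_PP]
    constructor
    · rintro ⟨j, hj, hz⟩
      by_cases hji : j < i
      · rw [p1 j hji] at hz
        exact Or.inl ⟨j, hji, hz⟩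
      · have : j = i := by omega
        subst this
        rw [p2] at hz
        exact Or.inr hz
    · rintro (⟨j, hj, hz⟩ | hz)
      · exact ⟨j, by omega, by rwa [p1 j hj]⟩
      · exact ⟨i, by omega, by rwa [p2]⟩
  have split : ∀ j < i + 1, j < i ∨ j = i := fun j hj => by omega
  refine ⟨xn, hn, ?_, ?_, ?_, ?_, ?_, ?_, ?_, ?_, ?_, ?_⟩
  · rw [x1 0 (Nat.zero_le _), st.zero]
  · intro j hj
    rcases Nat.lt_or_ge i j with h1 | h1
    · have : j = i + 1 := by omega
      subst this
      rw [x2]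
      exact ⟨hx'T, hx'c⟩
    · rw [x1 j h1]
      exact st.mem j h1
  · intro j hj k hk hjk
    rcases Nat.lt_or_ge i j with h1 | h1 <;> rcases Nat.lt_or_ge i k with h2 | h2
    · omega
    · have : j = i + 1 := by omega
      subst this
      rw [x2, x1 k h2] at hjk
      exact absurd hjk.symm (hx'n k h2)
    · have : k = i + 1 := by omega
      subst this
      rw [x2, x1 j h1] at hjk
      exact absurd hjk (hx'n j h1)
    · rw [x1 j h1, x1 k h2] at hjk
      exact st.inj j h1 k h2 hjk
  · intro j hj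
    rcases split j hj with h1 | rfl
    · rw [x1 j h1.le, x1 (j + 1) h1, p1 j h1]
      exact st.chain j h1
    · rw [x1 j le_rfl, x2, p2]
      exact l3
  · intro j hj
    rcases split j hj with h1 | rfl
    · rw [p1 j h1]
      exact st.nodup j h1
    · rw [p2]
      exact ⟨l1, l2⟩
  · intro j hj z hz
    rcases split j hj with h1 | rfl
    · rw [p1 j h1] at hz
      exact st.avoid j h1 z hz
    · rw [p2] at hz
      exact fun h3 => (l4 z hz).1 (sub_Zs (mem_union_left _ h3))
  · intro j hj z hz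
    rcases split j hj with h1 | rfl
    · rw [p1 j h1] at hz
      rw [x1 j h1.le]
      exact st.near j h1 z hz
    · rw [p2] at hz
      rw [x1 j le_rfl, hxc]
      exact (l4 z hz).2
  · have key : ∀ j < i, List.Disjoint (hp j) l := by
      intro j hj z hz hzl
      exact (l4 z hzl).1 (sub_Zs (mem_union_right _ (mem_PP.2 ⟨j, hj, hz⟩)))
    intro j hj k hk hjk
    rcases split j hj with h1 | rfl <;> rcases split k hk with h2 | rfl
    · rw [p1 j h1, p1 k h2]
      exact st.disj j h1 k h2 hjk
    · rw [p1 j h1, p2]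
      exact key j h1
    · rw [p1 k h2, p2]
      exact (key k h2).symm
    · exact absurd rfl hjk
  · intro j hj hj1 z hz
    rcases split j hj with h1 | rfl
    · rw [p1 j h1] at hz
      exact st.prot j h1 hj1 z hz
    · rw [p2] at hz
      intro h3
      apply (l4 z hz).1
      unfold Zs
      rw [if_neg (by omega)]
      exact mem_union_right _ h3
  · rw [x2]
    have h1 : Zs S D T σ r t x0 (i + 1) hn ⊆
        ((TT T σ ∪ PP i hp) ∪ Prot S D r t x0) ∪ l.toFinset := by
      intro z hz
      unfold Zs at hz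
      rw [if_neg (by omega), mem_union, mem_union, hPP] at hz
      rw [mem_union, mem_union, mem_union, List.mem_toFinset]
      tauto
    have h2 := HM_mono (S := S) (D := D) r (x' * σ) h1
    have h3 := HM_union (S := S) (D := D) r (x' * σ) ((TT T σ ∪ PP i hp) ∪ Prot S D r t x0)
      l.toFinset
    have h4 := h.HM_list (x' * σ) l2
    omega

/-- little harm to the first slot -/
lemma St.harm_zero (h : Ctx S D T T' σ cell r t β e) {cs : ℕ → G} {x0 : G} {i : ℕ} (hi : 1 ≤ i)
    {x : ℕ → G} {hp : ℕ → List G} (st : St S D T T' σ cell r t cs x0 i x hp) :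
    4 * HM S D r x0 (TT T σ ∪ PP i hp) ≤ D.card * (S ^ r).card := by
  classical
  set R := (PP i hp \ (hp 0).toFinset) ∩ Bal S (cell x0) (23 * r) with hR
  have hpos := h.pos
  have ht : 0 < 21 * r * t := by
    have h1 := h.few (cell x0)
    have h2 : x0 ∈ T ∩ Bal S (cell x0) (48 * r) := by
      rw [mem_inter, mem_Bal]
      refine ⟨?_, h.sys.pow_mono (by omega) (h.hcell x0)⟩
      have := (st.mem 0 (Nat.zero_le _)).1
      rw [st.zero] at this
      exact h.sub this
    have h3 := card_pos.2 ⟨_, h2⟩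
    have hr : 0 < r := h.hr
    have ht' : 0 < t := lt_of_lt_of_le h3 h1
    exact Nat.mul_pos (Nat.mul_pos (by norm_num) hr) ht'
  have h1 : HM S D r x0 (TT T σ ∪ PP i hp) ≤ HM S D r x0 (TT T σ) +
      (HM S D r x0 (hp 0).toFinset + HM S D r x0 R) := by
    refine (HM_union r x0 _ _).trans (Nat.add_le_add_left ?_ _)
    have e1 : HM S D r x0 (PP i hp) ≤ HM S D r x0 ((hp 0).toFinset ∪ R) := by
      unfold HM
      refine card_le_card ?_
      intro p hp'
      simp only [mem_filter, mem_product] at hp' ⊢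
      obtain ⟨hp1, j, hj, h2⟩ := hp'
      refine ⟨hp1, j, hj, ?_⟩
      rw [mem_union]
      by_cases h3 : x0 * p.1 * wd S r p.2 j ∈ (hp 0).toFinset
      · exact Or.inl h3
      · right
        rw [hR, mem_inter, mem_sdiff, mem_Bal]
        refine ⟨⟨h2, h3⟩, ?_⟩
        have e : (cell x0)⁻¹ * (x0 * p.1 * wd S r p.2 j) =
            ((cell x0)⁻¹ * x0) * p.1 * wd S r p.2 j := by group
        rw [e]
        have := h.hr
        exact h.sys.pow_mono (by omega) (Sys.mul_pow (Sys.mul_pow (h.hcell x0)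
          (h.sys.mem_one (h.DS hp1.1))) ((wd_spec hp1.2).2.2.2 j hj))
    exact e1.trans (HM_union r x0 _ _)
  have h2 := h.HM_TT x0
  have h3 := h.HM_list x0 (st.nodup 0 hi).2
  have h4 : 16 * HM S D r x0 R ≤ D.card * (S ^ r).card := by
    have hRc : R.card ≤ 21 * r * t := by
      refine le_trans (card_le_card ?_) (st.near_card h (cell x0))
      rw [hR]
      exact inter_subset_inter_right (sdiff_subset.trans subset_union_right)
    have h5 : ∀ z ∈ R, 16 * (21 * r * t) * hm S D r x0 z ≤ D.card * (S ^ r).card := by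
      intro z hz
      rw [hR, mem_inter, mem_sdiff, mem_PP] at hz
      obtain ⟨⟨⟨j, hj, hzj⟩, hz0⟩, _⟩ := hz
      have hj0 : 1 ≤ j := by
        by_contra hcon
        have : j = 0 := by omega
        subst this
        exact hz0 (by simpa using hzj)
      have h6 := st.prot j hj hj0 z hzj
      unfold Prot at h6
      rw [mem_filter] at h6
      by_contra hcon
      exact h6 ⟨mem_univ _, by omega⟩
    have h6 : (21 * r * t) * (16 * HM S D r x0 R) ≤ (21 * r * t) * (D.card * (S ^ r).card) := by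
      calc _ ≤ (21 * r * t) * (16 * ∑ z ∈ R, hm S D r x0 z) := by
            gcongr
            exact HM_le_sum r x0 R
        _ = ∑ z ∈ R, 16 * (21 * r * t) * hm S D r x0 z := by
            rw [← mul_sum]
            ring
        _ ≤ ∑ _z ∈ R, D.card * (S ^ r).card := sum_le_sum h5
        _ = R.card * (D.card * (S ^ r).card) := by rw [sum_const, smul_eq_mul]
        _ ≤ _ := by gcongr
    exact Nat.le_of_mul_le_mul_left h6 ht
  omega

/-- **Task S.** -/
theorem skelStm : SkelStm := by
  intro G _ _ _ S D T T' X σ cell V r t β e hS hDS hgen hr hσ _ hsub hfree _ hX hcell hfew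
    hb1 hb2 h16 hn1 hn2 hn3 hV
  classical
  have h : Ctx S D T T' σ cell r t β e := ⟨hS, hDS, hr, hσ, hsub, hfree, fun x => (hcell x).2,
    hfew, hb1, hb2, h16, hn1, hn2, hn3⟩
  obtain ⟨n, cs, hn, hn2', hcsX, hcs, hclose, hcount⟩ := exists_cells hS hgen hr hX V
    (fun p hp => (hV p hp).1)
  have hT : ∀ i < n, V (cs i) + e < (T'.filter fun x => cell x = cs i).card := fun i hi =>
    (hV _ (hcsX i hi)).2
  have hcount' : ∀ i < n, ((range n).filter fun j => cs j = cs i).card = V (cs i) := fun i hi =>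
    hcount _ (hcsX i hi)
  -- the first slot
  obtain ⟨x0, hx0⟩ : (T'.filter fun x => cell x = cs 0).Nonempty := by
    rw [← card_pos]
    have := hT 0 (by omega)
    omega
  rw [mem_filter] at hx0
  have run : ∀ i < n, ∃ x hp, St S D T T' σ cell r t cs x0 i x hp := by
    intro i
    induction i with
    | zero =>
      intro _
      exact ⟨_, _, St.init h hx0.1 hx0.2⟩
    | succ i ih =>
      intro hi
      obtain ⟨x, hp, st⟩ := ih (by omega)
      exact st.next h hcs hcount' hT hi
  obtain ⟨x, hp, st⟩ := run (n - 1) (by omega)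
  obtain ⟨hxT, hxc⟩ := st.mem (n - 1) le_rfl
  -- the last hop
  obtain ⟨l, l1, l2, l3, l4⟩ := hop' h.sys h.DS ⟨σ, h.σD⟩ h.hr
    (Z := TT T σ ∪ PP (n - 1) hp) (y := x (n - 1) * σ) (x' := x0) (c := cs (n - 1))
    (c' := cs 0) (τ := 21 * r * t * (16 * r + 17))
    (by
      have := h.hcell (x (n - 1))
      rw [hxc] at this
      rw [← mul_assoc]
      exact Sys.mul_pow this (h.sys.mem_one (h.DS h.σD)))
    (by
      have := h.hcell x0
      rwa [hx0.2] at this)
    (by
      rw [hclose, inv_mul_cancel]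
      exact h.sys.one_pow _)
    (by
      intro heq
      exact h.free _ hxT (heq ▸ h.sub hx0.1))
    (by
      have h1 := st.harm
      have h2 := HM_mono (S := S) (D := D) r (x (n - 1) * σ) (sub_Zs (S := S) (D := D) (T := T)
        (σ := σ) (r := r) (t := t) (x0 := x0) (i := n - 1) (hp := hp))
      omega)
    (st.harm_zero h (by omega))
    (by
      refine (st.near_card h _).trans ?_
      exact Nat.le_mul_of_pos_right _ (by omega))
    h.n1
  set hn' : ℕ → List G := fun j => if j < n - 1 then hp j else l with hhn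
  have p1 : ∀ j < n - 1, hn' j = hp j := fun j hj => by simp [hhn, hj]
  have p2 : hn' (n - 1) = l := by simp [hhn]
  have split : ∀ j < n, j < n - 1 ∨ j = n - 1 := fun j hj => by omega
  have hTT : ∀ z, z ∉ TT T σ → z ∉ T ∧ z * σ⁻¹ ∉ T := by
    intro z hz
    rw [mem_TT] at hz
    push Not at hz
    exact hz
  refine ⟨n, x, hn', hn, by omega, fun i hi => (st.mem i (by omega)).1,
    fun i hi j hj => st.inj i (by omega) j (by omega), ?_, ?_, ?_⟩
  · intro i hi
    rcases split i hi with h1 | rfl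
    · rw [p1 i h1, Nat.mod_eq_of_lt (by omega)]
      exact st.chain i h1
    · rw [p2, Nat.sub_add_cancel (by omega), Nat.mod_self, st.zero]
      exact l3
  · intro i hi
    rcases split i hi with h1 | rfl
    · rw [p1 i h1]
      exact ⟨(st.nodup i h1).1, (st.nodup i h1).2, fun z hz => hTT z (st.avoid i h1 z hz)⟩
    · rw [p2]
      exact ⟨l1, l2, fun z hz => hTT z fun h3 => (l4 z hz).1 (mem_union_left _ h3)⟩
  · have key : ∀ j < n - 1, List.Disjoint (hp j) l := by
      intro j hj z hz hzl
      exact (l4 z hzl).1 (mem_union_right _ (mem_PP.2 ⟨j, hj, hz⟩))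
    intro j hj k hk hjk
    rcases split j hj with h1 | rfl <;> rcases split k hk with h2 | rfl
    · rw [p1 j h1, p1 k h2]
      exact st.disj j h1 k h2 hjk
    · rw [p1 j h1, p2]
      exact key j h1
    · rw [p1 k h2, p2]
      exact (key k h2).symm
    · exact absurd rfl hjk

end Pool.Agent.N533.NS
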