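import Pool.Agent.N533.NS.StmS

/-!
# Project NS, task S: harm and hops
-/

set_option autoImplicit false
set_option linter.unusedSectionVars false

open Finset
open scoped Pointwise

namespace Pool.Agent.N533.NS

open Pool.Agent.N533.LC

variable {G : Type} [Group G] [Fintype G] [DecidableEq G] {S D : Finset G}

lemma mem_Bal {c x : G} {n : ℕ} : x ∈ Bal S c n ↔ c⁻¹ * x ∈ S ^ n := by
  classical
  unfold Bal
  simp

open Classical in
/-- the number of pairs `(k, g)` whose walk hits `Z` -/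
noncomputable def HM (S D : Finset G) (r : ℕ) (y : G) (Z : Finset G) : ℕ :=
  ((D ×ˢ (S ^ r)).filter fun p => ∃ i ≤ r, y * p.1 * wd S r p.2 i ∈ Z).card

lemma hm_le (r : ℕ) (y z : G) : hm S D r y z ≤ (r + 1) * (S ^ r).card := by
  classical
  unfold hm
  have h : ((D ×ˢ (S ^ r)).filter fun p => ∃ i ≤ r, y * p.1 * wd S r p.2 i = z) ⊆
      (range (r + 1) ×ˢ (S ^ r)).image fun t => (y⁻¹ * z * (wd S r t.2 t.1)⁻¹, t.2) := by
    rintro ⟨k, g⟩ hp
    simp only [mem_filter, mem_product] at hp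
    obtain ⟨⟨_, hg⟩, i, hi, hz⟩ := hp
    rw [mem_image]
    refine ⟨(i, g), mem_product.2 ⟨mem_range.2 (by omega), hg⟩, ?_⟩
    simp only [Prod.mk.injEq, and_true]
    rw [← hz]
    group
  refine (card_le_card h).trans (card_image_le.trans ?_)
  rw [card_product, card_range]

lemma sum_hm_le (r : ℕ) (y : G) : ∑ z, hm S D r y z ≤ (r + 1) * (D.card * (S ^ r).card) := by
  classical
  unfold hm
  simp only [card_filter]
  rw [sum_comm]
  rw [← card_product, mul_comm, ← smul_eq_mul, ← sum_const]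
  refine sum_le_sum fun p _ => ?_
  rw [← card_filter]
  have h : (univ.filter fun z => ∃ i ≤ r, y * p.1 * wd S r p.2 i = z) ⊆
      (range (r + 1)).image fun i => y * p.1 * wd S r p.2 i := by
    intro z hz
    rw [mem_filter] at hz
    obtain ⟨_, i, hi, h⟩ := hz
    exact mem_image.2 ⟨i, mem_range.2 (by omega), h⟩
  refine (card_le_card h).trans (card_image_le.trans ?_)
  rw [card_range]

lemma hm_pos (hS : Sys (⊥ : Subgroup G) S) (hD : D ⊆ S) {r : ℕ} {y z : G}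
    (h : hm S D r y z ≠ 0) : y⁻¹ * z ∈ S ^ (r + 1) := by
  classical
  unfold hm at h
  rw [card_ne_zero] at h
  obtain ⟨⟨k, g⟩, hp⟩ := h
  simp only [mem_filter, mem_product] at hp
  obtain ⟨⟨hk, hg⟩, i, hi, hz⟩ := hp
  rw [← hz]
  have e : y⁻¹ * (y * k * wd S r g i) = k * wd S r g i := by group
  rw [e, add_comm]
  exact Sys.mul_pow (hS.mem_one (hD hk)) (hS.pow_mono hi ((wd_spec hg).2.2.2 i hi))

lemma HM_le_sum (r : ℕ) (y : G) (Z : Finset G) : HM S D r y Z ≤ ∑ z ∈ Z, hm S D r y z := by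
  classical
  unfold HM hm
  refine le_trans (card_le_card ?_) card_biUnion_le
  intro p hp
  simp only [mem_filter] at hp
  obtain ⟨hp, i, hi, h⟩ := hp
  simp only [mem_biUnion, mem_filter]
  exact ⟨_, h, hp, i, hi, rfl⟩

lemma HM_union (r : ℕ) (y : G) (Z Z' : Finset G) :
    HM S D r y (Z ∪ Z') ≤ HM S D r y Z + HM S D r y Z' := by
  classical
  unfold HM
  refine le_trans (card_le_card ?_) (card_union_le _ _)
  intro p hp
  simp only [mem_filter, mem_union] at hp ⊢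
  obtain ⟨hp, i, hi, h | h⟩ := hp
  · exact Or.inl ⟨hp, i, hi, h⟩
  · exact Or.inr ⟨hp, i, hi, h⟩

lemma HM_mono (r : ℕ) (y : G) {Z Z' : Finset G} (h : Z ⊆ Z') :
    HM S D r y Z ≤ HM S D r y Z' := by
  classical
  unfold HM
  refine card_le_card ?_
  intro p hp
  simp only [mem_filter] at hp ⊢
  obtain ⟨hp, i, hi, h'⟩ := hp
  exact ⟨hp, i, hi, h h'⟩

lemma HM_card (r : ℕ) (y : G) (Z : Finset G) :
    HM S D r y Z ≤ Z.card * ((r + 1) * (S ^ r).card) := by
  refine (HM_le_sum r y Z).trans ?_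
  rw [← smul_eq_mul, ← sum_const]
  exact sum_le_sum fun z _ => hm_le r y z

/-- a leaf from which most walks are free -/
lemma exists_leaf (hS : Sys (⊥ : Subgroup G) S) {r : ℕ} (hne : D.Nonempty) {y : G}
    {Z : Finset G} (h : 4 * HM S D r y Z ≤ D.card * (S ^ r).card) :
    ∃ k ∈ D, ∃ A : Finset G, 3 * (S ^ r).card ≤ 4 * A.card ∧
      ∀ a ∈ A, (y * k)⁻¹ * a ∈ S ^ r ∧
        Conn S {x | x ∉ Z ∧ (y * k)⁻¹ * x ∈ S ^ r} r (y * k) a := by
  classical
  have h1 : ∃ k ∈ D, 4 * ((S ^ r).filter fun g => ∃ i ≤ r, y * k * wd S r g i ∈ Z).card ≤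
      (S ^ r).card := by
    by_contra hcon
    push Not at hcon
    unfold HM at h
    rw [card_filter_prod, mul_sum] at h
    have h2 : ∑ k ∈ D, (S ^ r).card <
        ∑ k ∈ D, 4 * ((S ^ r).filter fun g => ∃ i ≤ r, y * k * wd S r g i ∈ Z).card :=
      sum_lt_sum_of_nonempty hne hcon
    rw [sum_const, smul_eq_mul] at h2
    exact absurd (lt_of_lt_of_le h2 h) (lt_irrefl _)
  obtain ⟨k, hk, h2⟩ := h1
  refine ⟨k, hk, ((S ^ r).filter fun g => ¬ ∃ i ≤ r, y * k * wd S r g i ∈ Z).image (y * k * ·),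
    ?_, ?_⟩
  · rw [card_image_of_injective _ (mul_right_injective (y * k))]
    have h3 := card_filter_add_card_filter_not (s := S ^ r)
      (fun g => ∃ i ≤ r, y * k * wd S r g i ∈ Z)
    omega
  · intro x hx
    rw [mem_image] at hx
    obtain ⟨g, hg, rfl⟩ := hx
    rw [mem_filter] at hg
    refine ⟨by rw [inv_mul_cancel_left]; exact hg.1, ?_⟩
    obtain ⟨w0, wn, ws, wU⟩ := wd_spec hg.1
    refine ⟨fun i => y * k * wd S r g i, by simp [w0], by simp [wn], ?_, ?_⟩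
    · intro i hi
      have e : (y * k * wd S r g i)⁻¹ * (y * k * wd S r g (i + 1)) =
          (wd S r g i)⁻¹ * wd S r g (i + 1) := by group
      rw [e]
      exact ws i hi
    · intro i hi
      refine ⟨fun h4 => hg.2 ⟨i, hi, h4⟩, ?_⟩
      rw [inv_mul_cancel_left]
      exact hS.pow_mono hi (wU i hi)

/-- a free walk between two large sets -/
lemma exists_pair' (hS : Sys (⊥ : Subgroup G) S) {ρ τ : ℕ} {A B Z Z' : Finset G}
    (hZ' : Z'.card ≤ τ) (hAB : ∀ a ∈ A, ∀ b ∈ B, a⁻¹ * b ∈ S ^ ρ)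
    (hnear : ∀ a ∈ A, ∀ u ∈ S ^ ρ, a * u ∈ Z → a * u ∈ Z')
    (hN : (ρ + 1) * (S ^ ρ).card * τ < A.card * B.card) :
    ∃ a ∈ A, ∃ b ∈ B, Conn S {x | x ∉ Z ∧ a⁻¹ * x ∈ S ^ ρ} ρ a b := by
  classical
  by_contra hcon
  push Not at hcon
  have h0 : ∀ a ∈ A, ∀ b ∈ B, ∃ i ≤ ρ, a * wd S ρ (a⁻¹ * b) i ∈ Z := by
    intro a ha b hb
    by_contra h
    push Not at h
    apply hcon a ha b hb
    obtain ⟨w0, wn, ws, wU⟩ := wd_spec (hAB a ha b hb)
    refine ⟨fun i => a * wd S ρ (a⁻¹ * b) i, by simp [w0], by simp [wn], ?_, ?_⟩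
    · intro i hi
      have e : (a * wd S ρ (a⁻¹ * b) i)⁻¹ * (a * wd S ρ (a⁻¹ * b) (i + 1)) =
          (wd S ρ (a⁻¹ * b) i)⁻¹ * wd S ρ (a⁻¹ * b) (i + 1) := by group
      rw [e]
      exact ws i hi
    · intro i hi
      refine ⟨h i hi, ?_⟩
      rw [inv_mul_cancel_left]
      exact hS.pow_mono hi (wU i hi)
  have h2 : (A ×ˢ B).card ≤ (((range (ρ + 1) ×ˢ (S ^ ρ)) ×ˢ Z').image
      fun t => (t.2 * (wd S ρ t.1.2 t.1.1)⁻¹, t.1.2)).card := by
    refine card_le_card_of_injOn (fun p => (p.1, p.1⁻¹ * p.2)) ?_ ?_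
    · rintro ⟨a, b⟩ hp
      rw [mem_coe, mem_product] at hp
      obtain ⟨i, hi, h⟩ := h0 a hp.1 b hp.2
      have hg := hAB a hp.1 b hp.2
      rw [mem_coe, mem_image]
      refine ⟨((i, a⁻¹ * b), a * wd S ρ (a⁻¹ * b) i), ?_, by simp⟩
      simp only [mem_product, mem_range]
      exact ⟨⟨by omega, hg⟩, hnear a hp.1 _ (hS.pow_mono hi ((wd_spec hg).2.2.2 i hi)) h⟩
    · rintro ⟨a, b⟩ _ ⟨a', b'⟩ _ h
      simp only [Prod.mk.injEq] at h
      obtain ⟨rfl, h⟩ := h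
      rw [mul_right_injective _ h]
  have h3 := h2.trans card_image_le
  rw [card_product, card_product, card_product, card_range] at h3
  have h4 : (ρ + 1) * (S ^ ρ).card * Z'.card ≤ (ρ + 1) * (S ^ ρ).card * τ := by gcongr
  omega

/-- lists from walks -/
lemma list_of_walk {y x' : G} {m : ℕ} (hm : 1 ≤ m) {p : ℕ → G} (p0 : p 0 = y) (pm : p m = x')
    (ps : ∀ i < m, (p i)⁻¹ * p (i + 1) ∈ S) :
    (y :: ((List.range (m - 1)).map (fun i => p (i + 1)) ++ [x'])).IsChain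
      fun a b => a⁻¹ * b ∈ S := by
  have e : y :: ((List.range (m - 1)).map (fun i => p (i + 1)) ++ [x']) =
      (List.range (m + 1)).map p := by
    obtain ⟨m, rfl⟩ : ∃ k, m = k + 1 := ⟨m - 1, by omega⟩
    rw [List.range_succ_eq_map, List.map_cons, p0, List.range_succ, List.map_append,
      List.map_append, List.map_map, List.map_cons, List.map_nil, List.map_cons, List.map_nil, pm]
    rfl
  rw [e, List.isChain_map]
  have h1 := (List.isChain_range_succ (fun a b => (p a)⁻¹ * p b ∈ S) m).2 ps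
  exact h1

/-- **One hop.** -/
theorem hop' (hS : Sys (⊥ : Subgroup G) S) (hD : D ⊆ S) (hne : D.Nonempty) {r τ : ℕ} (hr : 1 ≤ r)
    {Z : Finset G} {y x' c c' : G} (hy : c⁻¹ * y ∈ S ^ (2 * r + 1)) (hx' : c'⁻¹ * x' ∈ S ^ (2 * r))
    (hcc : c⁻¹ * c' ∈ S ^ (5 * r)) (hyx : y ≠ x')
    (h1 : 4 * HM S D r y Z ≤ D.card * (S ^ r).card)
    (h2 : 4 * HM S D r x' Z ≤ D.card * (S ^ r).card)
    (hτ : (Z ∩ Bal S c (23 * r)).card ≤ τ)
    (hN : 2 * ((15 * r + 1) * (S ^ (15 * r)).card * τ) < (S ^ r).card ^ 2) :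
    ∃ l : List G, l.Nodup ∧ l.length ≤ 19 * r ∧
      (y :: (l ++ [x'])).IsChain (fun a b => a⁻¹ * b ∈ S) ∧
      ∀ z ∈ l, z ∉ Z ∧ c⁻¹ * z ∈ S ^ (23 * r) := by
  classical
  obtain ⟨k, hk, A, hA1, hA2⟩ := exists_leaf hS hne h1
  obtain ⟨k', hk', B, hB1, hB2⟩ := exists_leaf hS hne h2
  have hyk : c⁻¹ * (y * k) ∈ S ^ (2 * r + 1 + 1) := by
    rw [← mul_assoc]
    exact Sys.mul_pow hy (hS.mem_one (hD hk))
  have hxk : c⁻¹ * (x' * k') ∈ S ^ (5 * r + (2 * r + 1)) := by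
    have e : c⁻¹ * (x' * k') = (c⁻¹ * c') * ((c'⁻¹ * x') * k') := by group
    rw [e]
    exact Sys.mul_pow hcc (Sys.mul_pow hx' (hS.mem_one (hD hk')))
  have hAc : ∀ a ∈ A, c⁻¹ * a ∈ S ^ (3 * r + 2) := by
    intro a ha
    have e : c⁻¹ * a = (c⁻¹ * (y * k)) * ((y * k)⁻¹ * a) := by group
    rw [e]
    exact hS.pow_mono (by omega) (Sys.mul_pow hyk (hA2 a ha).1)
  have hBc : ∀ b ∈ B, c⁻¹ * b ∈ S ^ (8 * r + 1) := by
    intro b hb
    have e : c⁻¹ * b = (c⁻¹ * (x' * k')) * ((x' * k')⁻¹ * b) := by group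
    rw [e]
    exact hS.pow_mono (by omega) (Sys.mul_pow hxk (hB2 b hb).1)
  obtain ⟨a, ha, b, hb, hab⟩ := exists_pair' hS (ρ := 15 * r) (τ := τ) (A := A) (B := B) (Z := Z)
    (Z' := Z ∩ Bal S c (23 * r)) hτ
    (by
      intro a ha b hb
      have e : a⁻¹ * b = (c⁻¹ * a)⁻¹ * (c⁻¹ * b) := by group
      rw [e]
      exact hS.pow_mono (by omega) (Sys.mul_pow (hS.inv_pow (hAc a ha)) (hBc b hb)))
    (by
      intro a ha u hu h
      rw [mem_inter, mem_Bal]
      refine ⟨h, ?_⟩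
      rw [← mul_assoc]
      exact hS.pow_mono (by omega) (Sys.mul_pow (hAc a ha) hu))
    (by nlinarith)
  set U : Set G := {x | (x ∉ Z ∨ x = y ∨ x = x') ∧ c⁻¹ * x ∈ S ^ (23 * r)} with hU
  have hyU : y ∈ U := ⟨Or.inr (Or.inl rfl), hS.pow_mono (by omega) hy⟩
  have hxU : x' ∈ U := by
    refine ⟨Or.inr (Or.inr rfl), ?_⟩
    have e : c⁻¹ * x' = (c⁻¹ * c') * (c'⁻¹ * x') := by group
    rw [e]
    exact hS.pow_mono (by omega) (Sys.mul_pow hcc hx')
  have w2 : Conn S U r (y * k) a := by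
    refine (hA2 a ha).2.mono ?_
    rintro x ⟨hx1, hx2⟩
    refine ⟨Or.inl hx1, ?_⟩
    have e : c⁻¹ * x = (c⁻¹ * (y * k)) * ((y * k)⁻¹ * x) := by group
    rw [e]
    exact hS.pow_mono (by omega) (Sys.mul_pow hyk hx2)
  have w3 : Conn S U (15 * r) a b := by
    refine hab.mono ?_
    rintro x ⟨hx1, hx2⟩
    refine ⟨Or.inl hx1, ?_⟩
    have e : c⁻¹ * x = (c⁻¹ * a) * (a⁻¹ * x) := by group
    rw [e]
    exact hS.pow_mono (by omega) (Sys.mul_pow (hAc a ha) hx2)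
  have w4 : Conn S U r b (x' * k') := by
    refine ((hB2 b hb).2.symm hS).mono ?_
    rintro x ⟨hx1, hx2⟩
    refine ⟨Or.inl hx1, ?_⟩
    have e : c⁻¹ * x = (c⁻¹ * (x' * k')) * ((x' * k')⁻¹ * x) := by group
    rw [e]
    exact hS.pow_mono (by omega) (Sys.mul_pow hxk hx2)
  have w1 : Conn S U 1 y (y * k) := Conn.single hyU w2.left_mem (by simpa using hD hk)
  have w5 : Conn S U 1 (x' * k') x' := Conn.single w4.right_mem hxU (by
    simpa using hS.inv _ (hD hk'))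
  have w := (((w1.trans w2).trans w3).trans w4).trans w5
  obtain ⟨m, hm1, hm2, p, p0, ps, pU, pT, pT', pinj⟩ := min_walk hS (T := {x'}) (by
    intro x hx h hh
    rw [Subgroup.mem_bot] at hh
    rw [hh, mul_one]
    exact hx) w rfl hyx
  have pinj' : ∀ i ≤ m, ∀ j ≤ m, p i = p j → i = j := fun i hi j hj h =>
    pinj i hi j hj (by rw [h])
  refine ⟨(List.range (m - 1)).map (fun i => p (i + 1)), ?_, ?_, list_of_walk hm2 p0 pT ps, ?_⟩
  · refine List.Nodup.map_on ?_ List.nodup_range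
    intro i hi j hj h
    rw [List.mem_range] at hi hj
    have := pinj' _ (by omega) _ (by omega) h
    omega
  · rw [List.length_map, List.length_range]
    omega
  · intro z hz
    rw [List.mem_map] at hz
    obtain ⟨i, hi, rfl⟩ := hz
    rw [List.mem_range] at hi
    obtain ⟨h3, h4⟩ := pU (i + 1) (by omega)
    refine ⟨?_, h4⟩
    rcases h3 with h3 | h3 | h3
    · exact h3
    · have := pinj' (i + 1) (by omega) 0 (by omega) (by rw [h3, p0])
      omega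
    · exact absurd h3 (pT' (i + 1) (by omega))

end Pool.Agent.N533.NS
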