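import Pool.Agent.N533.NS.Skel1

/-!
# Project NS, task S: the tour
-/

set_option autoImplicit false
set_option linter.unusedSectionVars false

open Finset
open scoped Pointwise

namespace Pool.Agent.N533.NS

open Pool.Agent.N533.LC

variable {G : Type} [Group G] [Fintype G] [DecidableEq G] {S : Finset G}

/-- a closed chain through `p0` inside `X` -/
structure Tour (S X : Finset G) (r : ℕ) (p0 : G) (l : List G) : Prop where
  chain : l.IsChain fun a b => a⁻¹ * b ∈ S ^ (5 * r)
  head : l.head? = some p0
  last : l.getLast? = some p0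
  sub : ∀ x ∈ l, x ∈ X

lemma tour_once (hS : Sys (⊥ : Subgroup G) S) (hgen : Subgroup.closure (S : Set G) = ⊤) {r : ℕ}
    (hr : 1 ≤ r) {X : Finset G} (hX : ∀ g : G, ∃ x ∈ X, x⁻¹ * g ∈ S ^ (2 * r))
    {x0 : G} (hx0 : x0 ∈ X) (n : ℕ) (hn : 1 ≤ n) (hnX : n ≤ X.card) :
    ∃ Y ⊆ X, Y.card = n ∧ x0 ∈ Y ∧ ∃ l : List G, Tour S X r x0 l ∧ (∀ x ∈ Y, x ∈ l) ∧
      ∀ z : G, l.count z ≤ 2 * (Y ∩ Bal S z (44 * r)).card := by
  classical
  induction n, hn using Nat.le_induction with
  | base =>
    refine ⟨{x0}, by simpa using hx0, by simp, by simp, [x0], ⟨by simp, by simp, by simp,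
      by simpa using hx0⟩, by simp, ?_⟩
    intro z
    by_cases hz : x0 = z
    · subst hz
      have h1 : x0 ∈ ({x0} : Finset G) ∩ Bal S x0 (44 * r) := by
        rw [mem_inter, mem_Bal, inv_mul_cancel]
        exact ⟨mem_singleton_self _, hS.one_pow _⟩
      have h2 := card_pos.2 ⟨_, h1⟩
      have h3 : ([x0] : List G).count x0 = 1 := by simp
      omega
    · have h3 : ([x0] : List G).count z = 0 := by
        rw [List.count_eq_zero]
        simpa using fun h : z = x0 => hz h.symm
      omega
  | succ n hn ih =>
    obtain ⟨Y, hYX, hYc, hx0Y, l, hl, h4, h6⟩ := ih (by omega)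
    obtain ⟨u, hu, v, hv, hvY, huv⟩ := net_step hS hgen hr hX hx0Y (by
      by_contra hcon
      push Not at hcon
      have := card_le_card (fun v hv => hcon v hv : X ⊆ Y)
      omega)
    obtain ⟨l1, l2, rfl⟩ := List.append_of_mem (h4 u hu)
    have hvu : v⁻¹ * u ∈ S ^ (5 * r) := by
      have := hS.inv_pow huv
      simpa using this
    refine ⟨insert v Y, insert_subset hv hYX, by rw [card_insert_of_notMem hvY, hYc],
      mem_insert_of_mem hx0Y, l1 ++ u :: v :: u :: l2, ⟨?_, ?_, ?_, ?_⟩, ?_, ?_⟩
    · have h1 := hl.chain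
      rw [List.isChain_split] at h1 ⊢
      refine ⟨h1.1, ?_⟩
      rw [List.isChain_cons_cons, List.isChain_cons_cons]
      exact ⟨huv, hvu, h1.2⟩
    · have h2 := hl.head
      cases l1 with
      | nil => simpa using h2
      | cons a l1 => simpa using h2
    · have h3 := hl.last
      rw [List.getLast?_append_cons] at h3 ⊢
      rw [List.getLast?_cons_cons, List.getLast?_cons_cons]
      exact h3
    · intro x hx
      simp only [List.mem_append, List.mem_cons] at hx
      rcases hx with hx | rfl | rfl | rfl | hx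
      · exact hl.sub x (by simp [hx])
      · exact hYX hu
      · exact hv
      · exact hYX hu
      · exact hl.sub x (by simp [hx])
    · intro x hx
      rw [mem_insert] at hx
      rcases hx with rfl | hx
      · simp
      · have := h4 x hx
        simp only [List.mem_append, List.mem_cons] at this ⊢
        tauto
    · intro z
      have h7 := h6 z
      rw [List.count_append, List.count_cons] at h7
      rw [List.count_append, List.count_cons, List.count_cons, List.count_cons]
      by_cases hz : z⁻¹ * v ∈ S ^ (44 * r)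
      · have h8 : insert v Y ∩ Bal S z (44 * r) = insert v (Y ∩ Bal S z (44 * r)) := by
          rw [insert_inter_of_mem]
          exact mem_Bal.2 hz
        rw [h8, card_insert_of_notMem (fun h => hvY (mem_inter.1 h).1)]
        have h9 : (if (u == z) = true then 1 else 0) ≤ 1 := by split_ifs <;> omega
        have h10 : (if (v == z) = true then 1 else 0) ≤ 1 := by split_ifs <;> omega
        omega
      · have h8 : insert v Y ∩ Bal S z (44 * r) = Y ∩ Bal S z (44 * r) := by
          rw [insert_inter_of_notMem]
          exact fun h => hz (mem_Bal.1 h)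
        rw [h8]
        have hvz : v ≠ z := by
          rintro rfl
          apply hz
          rw [inv_mul_cancel]
          exact hS.one_pow _
        have huz : u ≠ z := by
          rintro rfl
          exact hz (hS.pow_mono (by omega) huv)
        have h9 : (if (u == z) = true then 1 else 0) = 0 := by simp [huz]
        have h10 : (if (v == z) = true then 1 else 0) = 0 := by simp [hvz]
        rw [h9] at h7 ⊢
        rw [h10]
        omega

/-- duplicating entries -/
lemma tour_dup (hS : Sys (⊥ : Subgroup G) S) {r : ℕ} {X : Finset G} {x0 : G} (V : G → ℕ) (n : ℕ) :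
    ∀ l : List G, Tour S X r x0 l → (∀ x ∈ X, x ∈ l) → (∀ x ∈ X, l.count x ≤ V x) →
      ∑ x ∈ X, V x = l.length + n →
      ∃ l' : List G, Tour S X r x0 l' ∧ (∀ x ∈ X, l'.count x = V x) ∧
        l'.length = ∑ x ∈ X, V x := by
  classical
  induction n with
  | zero =>
    intro l hl h1 h2 h3
    refine ⟨l, hl, ?_, by omega⟩
    have h4 : ∑ x ∈ X, l.count x = l.length := by
      have := Multiset.sum_count_eq_card (s := X) (m := (l : Multiset G)) (by
        intro a ha
        exact hl.sub a (by simpa using ha))
      simpa using this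
    by_contra hcon
    push Not at hcon
    obtain ⟨x, hx, hne⟩ := hcon
    have h5 : ∑ x ∈ X, l.count x < ∑ x ∈ X, V x :=
      sum_lt_sum h2 ⟨x, hx, lt_of_le_of_ne (h2 x hx) hne⟩
    omega
  | succ n ih =>
    intro l hl h1 h2 h3
    have h4 : ∑ x ∈ X, l.count x = l.length := by
      have := Multiset.sum_count_eq_card (s := X) (m := (l : Multiset G)) (by
        intro a ha
        exact hl.sub a (by simpa using ha))
      simpa using this
    have h5 : ∃ x ∈ X, l.count x < V x := by
      by_contra hcon
      push Not at hcon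
      have := sum_le_sum hcon
      omega
    obtain ⟨v, hv, hlt⟩ := h5
    obtain ⟨l1, l2, rfl⟩ := List.append_of_mem (h1 v hv)
    refine ih (l1 ++ v :: v :: l2) ⟨?_, ?_, ?_, ?_⟩ ?_ ?_ ?_
    · have h6 := hl.chain
      rw [List.isChain_split] at h6 ⊢
      refine ⟨h6.1, ?_⟩
      rw [List.isChain_cons_cons, inv_mul_cancel]
      exact ⟨hS.one_pow _, h6.2⟩
    · have h2 := hl.head
      cases l1 with
      | nil => simpa using h2
      | cons a l1 => simpa using h2
    · have h3 := hl.last
      rw [List.getLast?_append_cons] at h3 ⊢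
      rw [List.getLast?_cons_cons]
      exact h3
    · intro x hx
      apply hl.sub
      simp only [List.mem_append, List.mem_cons] at hx ⊢
      tauto
    · intro x hx
      have := h1 x hx
      simp only [List.mem_append, List.mem_cons] at this ⊢
      tauto
    · intro x hx
      have h7 := h2 x hx
      rw [List.count_append, List.count_cons] at h7 hlt ⊢
      rw [List.count_cons]
      by_cases hvx : v = x
      · subst hvx
        simp only [beq_self_eq_true, if_true] at hlt ⊢
        omega
      · have h9 : (if (v == x) = true then 1 else 0) = 0 := by simp [hvx]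
        rw [h9] at h7 ⊢
        omega
    · simp only [List.length_append, List.length_cons] at h3 ⊢
      omega

lemma card_getD (l : List G) (p : G) :
    ((range l.length).filter fun i => l.getD i 1 = p).card = l.count p := by
  classical
  induction l with
  | nil => simp
  | cons a l ih =>
    rw [card_filter] at ih ⊢
    rw [List.length_cons, sum_range_succ', List.count_cons, ← ih]
    congr 1
    by_cases h : a = p
    · simp [h]
    · simp [h]

/-- **The tour.** -/
theorem exists_cells (hS : Sys (⊥ : Subgroup G) S) (hgen : Subgroup.closure (S : Set G) = ⊤)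
    {r : ℕ} (hr : 1 ≤ r) {X : Finset G} (hX : ∀ g : G, ∃ x ∈ X, x⁻¹ * g ∈ S ^ (2 * r))
    (V : G → ℕ) (hV : ∀ p ∈ X, 2 * (X ∩ Bal S p (44 * r)).card ≤ V p) :
    ∃ (n : ℕ) (cs : ℕ → G), n = ∑ p ∈ X, V p ∧ 2 ≤ n ∧ (∀ i < n, cs i ∈ X) ∧
      (∀ i, i + 1 < n → (cs i)⁻¹ * cs (i + 1) ∈ S ^ (5 * r)) ∧
      cs (n - 1) = cs 0 ∧ ∀ p ∈ X, ((range n).filter fun i => cs i = p).card = V p := by
  classical
  obtain ⟨x0, hx0, _⟩ := hX 1
  obtain ⟨Y, hY, hYc, _, l, hl, h1, h2⟩ := tour_once hS hgen hr hX hx0 X.card
    (card_pos.2 ⟨x0, hx0⟩) le_rfl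
  have hYX : Y = X := eq_of_subset_of_card_le hY hYc.ge
  subst hYX
  have h3 : ∀ x ∈ Y, l.count x ≤ V x := fun x hx => (h2 x).trans (hV x hx)
  have h4 : ∑ x ∈ Y, l.count x = l.length := by
    have := Multiset.sum_count_eq_card (s := Y) (m := (l : Multiset G)) (by
      intro a ha
      exact hl.sub a (by simpa using ha))
    simpa using this
  have h5 := sum_le_sum h3
  obtain ⟨l', hl', h6, h7⟩ := tour_dup hS V (∑ x ∈ Y, V x - l.length) l hl h1 h3 (by omega)
  have hVpos : ∀ p ∈ Y, 2 ≤ V p := by
    intro p hp
    have h8 : p ∈ Y ∩ Bal S p (44 * r) := by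
      rw [mem_inter, mem_Bal, inv_mul_cancel]
      exact ⟨hp, hS.one_pow _⟩
    have h9 := card_pos.2 ⟨_, h8⟩
    have := hV p hp
    omega
  have hlen : 2 ≤ l'.length := by
    rw [h7]
    exact (hVpos x0 hx0).trans (single_le_sum (f := V) (fun _ _ => Nat.zero_le _) hx0)
  refine ⟨l'.length, fun i => l'.getD i 1, h7, hlen, ?_, ?_, ?_, ?_⟩
  · intro i hi
    change l'.getD i 1 ∈ Y
    rw [List.getD_eq_getElem _ _ hi]
    exact hl'.sub _ (List.getElem_mem hi)
  · intro i hi
    change (l'.getD i 1)⁻¹ * l'.getD (i + 1) 1 ∈ S ^ (5 * r)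
    rw [List.getD_eq_getElem _ _ hi, List.getD_eq_getElem _ _ (by omega : i < l'.length)]
    exact List.isChain_iff_getElem.1 hl'.chain i hi
  · have e1 : l'.getD (l'.length - 1) 1 = x0 := by
      have := hl'.last
      rw [List.getLast?_eq_getElem?] at this
      rw [List.getD_eq_getElem?_getD, this]
      rfl
    have e2 : l'.getD 0 1 = x0 := by
      have := hl'.head
      rw [List.head?_eq_getElem?] at this
      rw [List.getD_eq_getElem?_getD, this]
      rfl
    change l'.getD (l'.length - 1) 1 = l'.getD 0 1
    rw [e1, e2]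
  · intro p hp
    rw [card_getD, h6 p hp]

end Pool.Agent.N533.NS
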