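import Pool.Agent.N533.NS.Skel2

/-!
# Project NS, task S: the run, counting
-/

set_option autoImplicit false
set_option linter.unusedSectionVars false

open Finset
open scoped Pointwise

namespace Pool.Agent.N533.NS

open Pool.Agent.N533.LC

variable {G : Type} [Group G] [Fintype G] [DecidableEq G]

/-- the hypotheses of task S -/
structure Ctx (S D T T' : Finset G) (σ : G) (cell : G → G) (r t β e : ℕ) : Prop where
  sys : Sys (⊥ : Subgroup G) S
  DS : D ⊆ S
  hr : 1 ≤ r
  σD : σ ∈ D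
  sub : T' ⊆ T
  free : ∀ x ∈ T', x * σ ∉ T
  hcell : ∀ x, (cell x)⁻¹ * x ∈ S ^ (2 * r)
  few : ∀ c, (T ∩ Bal S c (48 * r)).card ≤ t
  b1 : ∀ z, ∑ x ∈ T, hm S D r x z ≤ β
  b2 : ∀ z, ∑ x ∈ T, hm S D r (x * σ) z ≤ β
  h16 : ∀ y, 16 * (∑ z ∈ T, hm S D r y z + ∑ z ∈ T, hm S D r y (z * σ)) ≤ D.card * (S ^ r).card
  n1 : 2 * ((15 * r + 1) * (S ^ (15 * r)).card * (21 * r * t * (16 * r + 17))) < (S ^ r).card ^ 2
  n2 : 16 * (21 * r * t * (16 * r + 17)) * β ≤ e * (D.card * (S ^ r).card)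
  n3 : 608 * r * (r + 1) ≤ D.card

variable {S D T T' : Finset G} {σ : G} {cell : G → G} {r t β e : ℕ}

/-- the slots -/
def TT (T : Finset G) (σ : G) : Finset G := T ∪ T.image (· * σ)

lemma mem_TT {z : G} : z ∈ TT T σ ↔ z ∈ T ∨ z * σ⁻¹ ∈ T := by
  unfold TT
  rw [mem_union, mem_image]
  constructor
  · rintro (h | ⟨x, hx, rfl⟩)
    · exact Or.inl h
    · right; simpa using hx
  · rintro (h | h)
    · exact Or.inl h
    · exact Or.inr ⟨_, h, by simp⟩

/-- the vertices of the first hops -/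
def PP (i : ℕ) (hp : ℕ → List G) : Finset G := (range i).biUnion fun j => (hp j).toFinset

lemma mem_PP {i : ℕ} {hp : ℕ → List G} {z : G} : z ∈ PP i hp ↔ ∃ j < i, z ∈ hp j := by
  unfold PP
  simp

/-- protected vertices -/
noncomputable def Prot (S D : Finset G) (r t : ℕ) (x0 : G) : Finset G :=
  univ.filter fun z => D.card * (S ^ r).card < 16 * (21 * r * t) * hm S D r x0 z

lemma Ctx.pos (h : Ctx S D T T' σ cell r t β e) : 0 < D.card * (S ^ r).card :=
  Nat.mul_pos (card_pos.2 ⟨σ, h.σD⟩) (card_pos.2 ⟨1, h.sys.one_pow r⟩)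

lemma Ctx.card_TT (h : Ctx S D T T' σ cell r t β e) (c : G) :
    (TT T σ ∩ Bal S c (23 * r)).card ≤ 2 * t := by
  have h1 : TT T σ ∩ Bal S c (23 * r) ⊆ (T ∩ Bal S c (48 * r)) ∪
      (T ∩ Bal S c (48 * r)).image (· * σ) := by
    intro z hz
    have hr := h.hr
    rw [mem_inter, mem_TT, mem_Bal] at hz
    rw [mem_union, mem_inter, mem_image, mem_Bal]
    obtain ⟨hz1 | hz1, hz2⟩ := hz
    · exact Or.inl ⟨hz1, h.sys.pow_mono (by omega) hz2⟩
    · right
      refine ⟨z * σ⁻¹, ?_, by simp⟩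
      rw [mem_inter, mem_Bal]
      refine ⟨hz1, ?_⟩
      rw [← mul_assoc]
      exact h.sys.pow_mono (by omega) (Sys.mul_pow hz2 (h.sys.mem_one (h.sys.inv _ (h.DS h.σD))))
  refine (card_le_card h1).trans ((card_union_le _ _).trans ?_)
  have h2 := h.few c
  have h3 : ((T ∩ Bal S c (48 * r)).image (· * σ)).card ≤ (T ∩ Bal S c (48 * r)).card :=
    card_image_le
  omega

lemma Ctx.card_PP (h : Ctx S D T T' σ cell r t β e) (c : G) {i : ℕ} {x : ℕ → G}
    {hp : ℕ → List G} (hx : ∀ j < i, x j ∈ T) (hinj : ∀ j < i, ∀ k < i, x j = x k → j = k)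
    (hlen : ∀ j < i, (hp j).length ≤ 19 * r)
    (hnear : ∀ j < i, ∀ z ∈ hp j, (cell (x j))⁻¹ * z ∈ S ^ (23 * r)) :
    (PP i hp ∩ Bal S c (23 * r)).card ≤ 19 * r * t := by
  classical
  have h1 : PP i hp ∩ Bal S c (23 * r) ⊆
      ((range i).filter fun j => x j ∈ Bal S c (48 * r)).biUnion fun j => (hp j).toFinset := by
    intro z hz
    rw [mem_inter, mem_PP, mem_Bal] at hz
    obtain ⟨⟨j, hj, hzj⟩, hz2⟩ := hz
    rw [mem_biUnion]
    refine ⟨j, ?_, by simpa using hzj⟩
    rw [mem_filter, mem_range, mem_Bal]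
    refine ⟨hj, ?_⟩
    have e : c⁻¹ * x j = (c⁻¹ * z) * ((cell (x j))⁻¹ * z)⁻¹ * ((cell (x j))⁻¹ * x j) := by group
    rw [e]
    exact h.sys.pow_mono (by omega)
      (Sys.mul_pow (Sys.mul_pow hz2 (h.sys.inv_pow (hnear j hj z hzj))) (h.hcell (x j)))
  have h2 : ((range i).filter fun j => x j ∈ Bal S c (48 * r)).card ≤ t := by
    refine le_trans ?_ (h.few c)
    refine card_le_card_of_injOn x ?_ ?_
    · intro j hj
      rw [mem_coe, mem_filter, mem_range] at hj
      rw [mem_coe, mem_inter]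
      exact ⟨hx j hj.1, hj.2⟩
    · intro j hj k hk hjk
      rw [mem_coe, mem_filter, mem_range] at hj hk
      exact hinj j hj.1 k hk.1 hjk
  refine (card_le_card h1).trans (card_biUnion_le.trans ?_)
  calc _ ≤ ∑ _j ∈ (range i).filter (fun j => x j ∈ Bal S c (48 * r)), 19 * r := by
        refine sum_le_sum fun j hj => ?_
        rw [mem_filter, mem_range] at hj
        exact (List.toFinset_card_le _).trans (hlen j hj.1)
    _ = ((range i).filter fun j => x j ∈ Bal S c (48 * r)).card * (19 * r) := by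
        rw [sum_const, smul_eq_mul]
    _ ≤ t * (19 * r) := by gcongr
    _ = _ := by ring

lemma Ctx.card_Prot (h : Ctx S D T T' σ cell r t β e) (x0 : G) :
    (Prot S D r t x0).card ≤ 21 * r * t * (16 * (r + 1)) := by
  have hpos := h.pos
  have h1 : (Prot S D r t x0).card * (D.card * (S ^ r).card) ≤
      ∑ z ∈ Prot S D r t x0, 16 * (21 * r * t) * hm S D r x0 z := by
    rw [← smul_eq_mul, ← sum_const]
    refine sum_le_sum fun z hz => ?_
    unfold Prot at hz
    rw [mem_filter] at hz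
    exact hz.2.le
  have h2 : ∑ z ∈ Prot S D r t x0, 16 * (21 * r * t) * hm S D r x0 z ≤
      16 * (21 * r * t) * ((r + 1) * (D.card * (S ^ r).card)) := by
    rw [← mul_sum]
    refine Nat.mul_le_mul_left _ (le_trans ?_ (sum_hm_le r x0))
    exact sum_le_sum_of_subset (subset_univ _)
  refine Nat.le_of_mul_le_mul_right ?_ hpos
  calc _ ≤ _ := h1
    _ ≤ _ := h2
    _ = _ := by ring

/-- at most `e` elements of the cell are bad -/
lemma Ctx.bad (h : Ctx S D T T' σ cell r t β e) {Z : Finset G} {c : G}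
    (hZ : (Z ∩ Bal S c (23 * r)).card ≤ 21 * r * t * (16 * r + 17)) :
    ∃ B : Finset G, B.card ≤ e ∧ ∀ x ∈ T', cell x = c → x ∉ B →
      8 * HM S D r x Z ≤ D.card * (S ^ r).card ∧ 8 * HM S D r (x * σ) Z ≤ D.card * (S ^ r).card := by
  classical
  have hpos := h.pos
  have hr := h.hr
  set B1 := T'.filter fun x => cell x = c ∧ D.card * (S ^ r).card < 8 * HM S D r x Z with hB1
  set B2 := T'.filter fun x => cell x = c ∧ D.card * (S ^ r).card < 8 * HM S D r (x * σ) Z
    with hB2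
  have key : ∀ (g : G → G) (B : Finset G), B ⊆ T → (∀ z, ∑ x ∈ T, hm S D r (g x) z ≤ β) →
      (∀ x ∈ B, c⁻¹ * g x ∈ S ^ (2 * r + 1)) →
      (∀ x ∈ B, D.card * (S ^ r).card < 8 * HM S D r (g x) Z) →
      B.card * (D.card * (S ^ r).card) ≤ 8 * ((21 * r * t * (16 * r + 17)) * β) := by
    intro g B hBT hβ hn hbad
    have h1 : B.card * (D.card * (S ^ r).card) ≤ ∑ x ∈ B, 8 * HM S D r (g x) Z := by
      rw [← smul_eq_mul, ← sum_const]
      exact sum_le_sum fun x hx => (hbad x hx).le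
    have h2 : ∀ x ∈ B, HM S D r (g x) Z ≤ ∑ z ∈ Z ∩ Bal S c (23 * r), hm S D r (g x) z := by
      intro x hx
      refine (HM_le_sum r (g x) Z).trans ?_
      rw [← filter_mem_eq_inter, sum_filter]
      refine sum_le_sum fun z _ => ?_
      split_ifs with hz
      · exact le_rfl
      · by_contra hcon
        apply hz
        have h3 := hm_pos h.sys h.DS (y := g x) (z := z) (r := r) (by omega)
        rw [mem_Bal]
        have e : c⁻¹ * z = (c⁻¹ * g x) * ((g x)⁻¹ * z) := by group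
        rw [e]
        exact h.sys.pow_mono (by omega) (Sys.mul_pow (hn x hx) h3)
    calc _ ≤ _ := h1
      _ ≤ ∑ x ∈ B, 8 * ∑ z ∈ Z ∩ Bal S c (23 * r), hm S D r (g x) z :=
        sum_le_sum fun x hx => Nat.mul_le_mul_left _ (h2 x hx)
      _ = 8 * ∑ z ∈ Z ∩ Bal S c (23 * r), ∑ x ∈ B, hm S D r (g x) z := by
        rw [← mul_sum, sum_comm]
      _ ≤ 8 * ∑ _z ∈ Z ∩ Bal S c (23 * r), β := by
        refine Nat.mul_le_mul_left _ (sum_le_sum fun z _ => ?_)
        exact (sum_le_sum_of_subset hBT).trans (hβ z)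
      _ = 8 * ((Z ∩ Bal S c (23 * r)).card * β) := by rw [sum_const, smul_eq_mul]
      _ ≤ _ := by gcongr
  have k1 := key id B1 ((filter_subset _ _).trans h.sub) h.b1 (by
    intro x hx
    rw [hB1, mem_filter] at hx
    have := h.hcell x
    rw [hx.2.1] at this
    exact h.sys.pow_mono (by omega) this) (by
    intro x hx
    rw [hB1, mem_filter] at hx
    exact hx.2.2)
  have k2 := key (fun x => x * σ) B2 ((filter_subset _ _).trans h.sub) h.b2 (by
    intro x hx
    rw [hB2, mem_filter] at hx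
    have := h.hcell x
    rw [hx.2.1] at this
    rw [← mul_assoc]
    exact Sys.mul_pow this (h.sys.mem_one (h.DS h.σD))) (by
    intro x hx
    rw [hB2, mem_filter] at hx
    exact hx.2.2)
  refine ⟨B1 ∪ B2, ?_, ?_⟩
  · refine (card_union_le _ _).trans ?_
    refine Nat.le_of_mul_le_mul_right ?_ hpos
    refine le_trans ?_ h.n2
    rw [add_mul]
    calc _ ≤ _ := Nat.add_le_add k1 k2
      _ = _ := by ring
  · intro x hx hc hxB
    rw [mem_union, not_or, hB1, hB2, mem_filter, mem_filter] at hxB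
    constructor
    · by_contra hcon
      exact hxB.1 ⟨hx, hc, by omega⟩
    · by_contra hcon
      exact hxB.2 ⟨hx, hc, by omega⟩

end Pool.Agent.N533.NS
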