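import Pool.Agent.N533.NS.Stm3
import Pool.Agent.N533.NS.Skel
import Pool.Agent.N533.LC.Cells

/-!
# Project NS: the skeleton theorem for the random set of slots (numbers)

By helper723.
-/

set_option autoImplicit false
set_option linter.unusedSectionVars false

open Finset
open scoped Pointwise

namespace Pool.Agent.N533.NS

open Pool.Agent.N533.LC

namespace SkelNum

variable {G : Type} [Group G] [Fintype G] [DecidableEq G]
variable {S : Finset G}

lemma exists_cell (hS : Sys (⊥ : Subgroup G) S) {r : ℕ} {X : Finset G}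
    (hX1 : ∀ x ∈ X, ∀ x' ∈ X, x ≠ x' → x⁻¹ * x' ∉ S ^ (2 * r))
    (hX2 : ∀ g : G, ∃ x ∈ X, x⁻¹ * g ∈ S ^ (2 * r)) :
    ∃ cell : G → G, (∀ x, cell x ∈ X ∧ (cell x)⁻¹ * x ∈ S ^ (2 * r)) ∧
      ∀ x, ∀ p ∈ X, p⁻¹ * x ∈ S ^ r → cell x = p := by
  have h : ∀ x : G, ∃ c : G, (c ∈ X ∧ c⁻¹ * x ∈ S ^ (2 * r)) ∧
      ∀ p ∈ X, p⁻¹ * x ∈ S ^ r → c = p := by
    intro x
    by_cases hx : ∃ p ∈ X, p⁻¹ * x ∈ S ^ r
    · obtain ⟨p, hp, hpx⟩ := hx
      refine ⟨p, ⟨hp, hS.pow_mono (by omega) hpx⟩, ?_⟩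
      intro p' hp' hpx'
      by_contra hne
      apply hX1 p hp p' hp' hne
      have : p⁻¹ * p' = (p⁻¹ * x) * (p'⁻¹ * x)⁻¹ := by group
      rw [this, two_mul]
      exact Sys.mul_pow hpx (hS.inv_pow hpx')
    · obtain ⟨c, hc, hcx⟩ := hX2 x
      refine ⟨c, ⟨hc, hcx⟩, ?_⟩
      intro p hp hpx
      exact absurd ⟨p, hp, hpx⟩ hx
  choose cell hcell using h
  exact ⟨cell, fun x => (hcell x).1, fun x => (hcell x).2⟩

lemma net_all (hS : Sys (⊥ : Subgroup G) S) {r : ℕ} {X : Finset G}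
    (hX : ∀ x ∈ X, ∀ x' ∈ X, x ≠ x' → x⁻¹ * x' ∉ S ^ (2 * r)) :
    X.card * (S ^ r).card ≤ Fintype.card G := by
  rw [← card_product, ← card_univ]
  refine card_le_card_of_injOn (fun p => p.1 * p.2) (fun p _ => mem_coe.2 (mem_univ _)) ?_
  rintro ⟨x, u⟩ hp ⟨x', u'⟩ hp' h
  simp only [coe_product, Set.mem_prod, mem_coe] at hp hp' h
  have h2 : x = x' := by
    by_contra hne
    apply hX x hp.1 x' hp'.1 hne
    have h3 : x⁻¹ * x' = u * u'⁻¹ := by
      rw [inv_mul_eq_iff_eq_mul, ← mul_assoc, h]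
      group
    rw [h3, two_mul]
    exact Sys.mul_pow hp.2 (hS.inv_pow hp'.2)
  subst h2
  rw [mul_left_cancel h]


lemma num_e {R w b d Q C1 t k1 β : ℝ} (hR : 1 ≤ R) (hw : 1 ≤ w) (hb : 0 < b) (hd : 0 < d)
    (hQ : 0 < Q) (hβ0 : 0 ≤ β) (ht0 : 0 ≤ t)
    (hk1 : k1 = 21 * R * t * (16 * R + 17)) (ht : t * Q ≤ 2 * (w * b))
    (hβ : β * Q ≤ 2 * (R + 1) * (d * b))
    (hC1 : C1 = 1344 * (R * (R + 1) * (16 * R + 17))) :
    16 * k1 * β / (d * b) ≤ C1 * (w * b) / Q ^ 2 := by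
  rw [div_le_div_iff₀ (by positivity) (by positivity)]
  have h3 : k1 * Q ≤ 21 * R * (16 * R + 17) * (2 * (w * b)) := by
    rw [hk1]
    have : 21 * R * t * (16 * R + 17) * Q = 21 * R * (16 * R + 17) * (t * Q) := by ring
    rw [this]
    exact mul_le_mul_of_nonneg_left ht (by positivity)
  have h4 : (k1 * Q) * (β * Q) ≤
      (21 * R * (16 * R + 17) * (2 * (w * b))) * (2 * (R + 1) * (d * b)) :=
    mul_le_mul h3 hβ (by positivity) (by positivity)
  rw [hC1]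
  have h6 : 16 * k1 * β * Q ^ 2 = 16 * ((k1 * Q) * (β * Q)) := by ring
  have h7 : 1344 * (R * (R + 1) * (16 * R + 17)) * (w * b) * (d * b) =
      16 * ((21 * R * (16 * R + 17) * (2 * (w * b))) * (2 * (R + 1) * (d * b))) := by ring
  rw [h6, h7]
  exact mul_le_mul_of_nonneg_left h4 (by norm_num)

lemma num_key {w b d Q C1 e n : ℝ} (hw : 1 ≤ w) (hb : 0 < b) (hQ : 0 < Q)
    (h1 : b ≤ 2 * Q * n) (he : e ≤ 1 + C1 * (w * b) / Q ^ 2) (hd : 8 * Q * (w + 1) ≤ d)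
    (hdb : d ≤ b) (hC1 : 4 * C1 * w ≤ Q) : 2 * w + e + 1 ≤ n := by
  have h2 : C1 * (w * b) / Q ^ 2 ≤ b / (4 * Q) := by
    rw [div_le_div_iff₀ (by positivity) (by positivity)]
    have h3 : 4 * C1 * w * (b * Q) ≤ Q * (b * Q) :=
      mul_le_mul_of_nonneg_right hC1 (by positivity)
    have h4 : C1 * (w * b) * (4 * Q) = 4 * C1 * w * (b * Q) := by ring
    have h5 : b * Q ^ 2 = Q * (b * Q) := by ring
    rw [h4, h5]
    exact h3
  have h3 : 2 * (w + 1) ≤ b / (4 * Q) := by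
    rw [le_div_iff₀ (by positivity)]
    have h6 : 2 * (w + 1) * (4 * Q) = 8 * Q * (w + 1) := by ring
    rw [h6]
    exact hd.trans hdb
  have h4 : b / (4 * Q) + b / (4 * Q) ≤ n := by
    rw [← add_div, div_le_iff₀ (by positivity)]
    linarith
  linarith

lemma num_h {R d b Q s1 s2 : ℝ} (hQ : 0 < Q) (hd : 0 < d) (hb : 0 < b)
    (h3 : s1 * Q ≤ 2 * (R + 1) * (d * b)) (h4 : s2 * Q ≤ 2 * (R + 1) * (d * b))
    (h64 : 64 * (R + 1) ≤ Q) : 16 * (s1 + s2) ≤ d * b := by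
  have h6 : 16 * (s1 + s2) * Q ≤ d * b * Q := by
    have h7 : 64 * (R + 1) * (d * b) ≤ Q * (d * b) :=
      mul_le_mul_of_nonneg_right h64 (by positivity)
    linarith
  exact le_of_mul_le_mul_right h6 hQ

lemma num_A {R w b Q t c : ℝ} (hR : 1 ≤ R) (hw : 1 ≤ w) (hb : 0 < b) (hQ : 0 < Q) (ht0 : 0 ≤ t)
    (hc : 0 ≤ c) (h1 : c ≤ w * b) (ht : t * Q ≤ 2 * (w * b))
    (h2 : 84 * (R * (15 * R + 1) * (16 * R + 17)) * w ^ 2 < Q) :
    2 * ((15 * R + 1) * c * (21 * R * t * (16 * R + 17))) < b ^ 2 := by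
  have h4 : 2 * ((15 * R + 1) * c * (21 * R * t * (16 * R + 17))) * Q < b ^ 2 * Q := by
    have h5 : c * (t * Q) ≤ (w * b) * (2 * (w * b)) :=
      mul_le_mul h1 ht (by positivity) (by positivity)
    have h6 : 2 * ((15 * R + 1) * c * (21 * R * t * (16 * R + 17))) * Q =
        42 * (R * (15 * R + 1) * (16 * R + 17)) * (c * (t * Q)) := by ring
    have h7 : 42 * (R * (15 * R + 1) * (16 * R + 17)) * (c * (t * Q)) ≤
        42 * (R * (15 * R + 1) * (16 * R + 17)) * ((w * b) * (2 * (w * b))) :=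
      mul_le_mul_of_nonneg_left h5 (by positivity)
    have h8 : 42 * (R * (15 * R + 1) * (16 * R + 17)) * ((w * b) * (2 * (w * b))) =
        (84 * (R * (15 * R + 1) * (16 * R + 17)) * w ^ 2) * b ^ 2 := by ring
    have h9 : (84 * (R * (15 * R + 1) * (16 * R + 17)) * w ^ 2) * b ^ 2 < Q * b ^ 2 :=
      mul_lt_mul_of_pos_right h2 (by positivity)
    linarith
  exact lt_of_mul_lt_mul_right h4 hQ.le

lemma num_fin {w b d Q C1 e N ε x T' : ℝ} (hb : 0 < b) (hd : 0 < d) (hdb : d ≤ b)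
    (hQ : 0 < Q) (hε : 0 < ε) (hx : 0 ≤ x) (he : e ≤ 1 + C1 * (w * b) / Q ^ 2)
    (hxb : x * b ≤ N) (hlast : 2 * Q / d + C1 * w / Q ≤ ε) (htot : (1 - ε) * N ≤ Q * T') :
    (1 - 2 * ε) * N ≤ (T' - (e + 1) * x) * Q := by
  have h2 : (e + 1) * x * Q ≤ (2 + C1 * (w * b) / Q ^ 2) * x * Q := by
    apply mul_le_mul_of_nonneg_right _ hQ.le
    apply mul_le_mul_of_nonneg_right _ hx
    linarith
  have h3 : (2 + C1 * (w * b) / Q ^ 2) * x * Q = (2 * Q / b + C1 * w / Q) * (x * b) := by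
    field_simp
  have h4 : 2 * Q / b + C1 * w / Q ≤ ε := by
    refine le_trans ?_ hlast
    have : 2 * Q / b ≤ 2 * Q / d := div_le_div_of_nonneg_left (by positivity) hd hdb
    linarith
  have h5 : (2 * Q / b + C1 * w / Q) * (x * b) ≤ ε * N :=
    mul_le_mul h4 hxb (by positivity) hε.le
  have h6 : (T' - (e + 1) * x) * Q = Q * T' - (e + 1) * x * Q := by ring
  rw [h6]
  linarith

end SkelNum

open SkelNum

theorem skel2Stm : Skel2Stm := by
  intro G Ω U _ _ _ _ _ _ _ S D T σ r vt ft m J Λ ε w Q C1 hTP hQ hC1 hS hDS hgen hr hσD hσ hQ1 hw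
    hε hB hQ64 hQ84 hD608 hD8 hC1Q hlast
  classical
  -- abbreviations
  obtain ⟨b, hb⟩ : ∃ b : ℝ, b = ((S ^ r).card : ℝ) := ⟨_, rfl⟩
  obtain ⟨B, hBd⟩ : ∃ B : ℝ, B = ((S ^ (48 * r)).card : ℝ) := ⟨_, rfl⟩
  obtain ⟨d, hd⟩ : ∃ d : ℝ, d = (D.card : ℝ) := ⟨_, rfl⟩
  obtain ⟨N, hN⟩ : ∃ N : ℝ, N = (Fintype.card G : ℝ) := ⟨_, rfl⟩
  obtain ⟨R, hR⟩ : ∃ R : ℝ, R = (r : ℝ) := ⟨_, rfl⟩
  have hR1 : 1 ≤ R := by rw [hR]; exact_mod_cast hr
  have hd1 : 1 ≤ d := by
    rw [hd]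
    exact_mod_cast Finset.card_pos.2 ⟨σ, hσD⟩
  have hSr : S ⊆ S ^ r := by
    have := hS.pow_mono hr
    rwa [pow_one] at this
  have hdb : d ≤ b := by
    rw [hd, hb]
    exact_mod_cast card_le_card (hDS.trans hSr)
  have hb0 : 0 < b := by linarith
  have hd0 : 0 < d := by linarith
  have hQ0 : 0 < Q := by linarith
  have hN0 : 0 ≤ N := by rw [hN]; positivity
  have hBwb : B ≤ w * b := by rw [hBd, hb]; exact hB
  have hQe : (Λ : ℝ) * (m : ℝ) ^ J = Q := hQ.symm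
  -- the net
  obtain ⟨X, hX1, hX2⟩ := exists_net hS (2 * r)
  obtain ⟨cell, hcell1, hcell2⟩ := exists_cell hS hX1 hX2
  -- the numbers
  obtain ⟨t, ht⟩ : ∃ t : ℕ, t = ⌊2 * B / Q⌋₊ := ⟨_, rfl⟩
  obtain ⟨β, hβ⟩ : ∃ β : ℕ, β = ⌊2 * (R + 1) * (d * b) / Q⌋₊ := ⟨_, rfl⟩
  obtain ⟨k1, hk1⟩ : ∃ k1 : ℕ, k1 = 21 * r * t * (16 * r + 17) := ⟨_, rfl⟩
  obtain ⟨e, he⟩ : ∃ e : ℕ, e = ⌈16 * (k1 : ℝ) * β / (d * b)⌉₊ := ⟨_, rfl⟩
  have hB0 : 0 ≤ B := by rw [hBd]; positivity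
  have htle : (t : ℝ) ≤ 2 * B / Q := by rw [ht]; exact Nat.floor_le (by positivity)
  have htwb : (t : ℝ) * Q ≤ 2 * (w * b) := by
    rw [le_div_iff₀ hQ0] at htle
    linarith
  have hβle : (β : ℝ) * Q ≤ 2 * (R + 1) * (d * b) := by
    have : (β : ℝ) ≤ 2 * (R + 1) * (d * b) / Q := by rw [hβ]; exact Nat.floor_le (by positivity)
    rwa [le_div_iff₀ hQ0] at this
  have hk1R : (k1 : ℝ) = 21 * R * t * (16 * R + 17) := by
    rw [hk1, hR]; push_cast; ring
  have hele : (e : ℝ) ≤ 1 + C1 * (w * b) / Q ^ 2 := by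
    have h1 : (e : ℝ) < 16 * (k1 : ℝ) * β / (d * b) + 1 := by
      rw [he]; exact Nat.ceil_lt_add_one (by positivity)
    have h2 : 16 * (k1 : ℝ) * β / (d * b) ≤ C1 * (w * b) / Q ^ 2 :=
      num_e hR1 hw hb0 hd0 hQ0 (Nat.cast_nonneg _) (Nat.cast_nonneg t) hk1R htwb hβle
        (by rw [hC1, hR])
    exact h1.le.trans (by rw [add_comm]; exact add_le_add_right h2 1)
  have hC10 : 0 ≤ C1 := by rw [hC1]; positivity
  -- the cells
  obtain ⟨T', hT'⟩ : ∃ T' : Finset G, T' = T.filter fun x => x * σ ∉ T := ⟨_, rfl⟩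
  have hT'T : T' ⊆ T := by rw [hT']; exact filter_subset _ _
  have hT'σ : ∀ x ∈ T', x * σ ∉ T := by
    intro x hx
    rw [hT', mem_filter] at hx
    exact hx.2
  obtain ⟨nn, hnn⟩ : ∃ nn : G → ℕ, nn = fun p => (T'.filter fun x => cell x = p).card := ⟨_, rfl⟩
  have hlow : ∀ p ∈ X, b ≤ 2 * Q * (nn p : ℝ) := by
    intro p hp
    have h1 := hTP.low p
    rw [hQe, ← hb] at h1
    refine h1.trans (mul_le_mul_of_nonneg_left ?_ (by positivity))
    rw [hnn]
    norm_cast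
    apply card_le_card
    intro x hx
    rw [mem_filter, mem_inter] at hx
    rw [mem_filter, hT', mem_filter]
    refine ⟨⟨hx.1.1, hx.2⟩, ?_⟩
    have h2 := hx.1.2
    unfold Bal at h2
    rw [mem_filter] at h2
    exact hcell2 x p hp h2.2
  have hxp : ∀ p ∈ X, ((X ∩ Bal S p (44 * r)).card : ℝ) ≤ w := by
    intro p hp
    have h1 := net_near (R := 44 * r) hS hX1 p
    have h2 : X ∩ Bal S p (44 * r) = X.filter fun x => p⁻¹ * x ∈ S ^ (44 * r) := by
      ext x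
      unfold Bal
      simp only [mem_inter, mem_filter, mem_univ, true_and]
    have h3 : (S ^ (44 * r + r)).card ≤ (S ^ (48 * r)).card :=
      card_le_card (hS.pow_mono (by omega))
    have h4 : ((X ∩ Bal S p (44 * r)).card : ℝ) * b ≤ B := by
      rw [h2, hb, hBd]
      exact_mod_cast h1.trans h3
    have h5 : ((X ∩ Bal S p (44 * r)).card : ℝ) * b ≤ w * b := h4.trans hBwb
    exact le_of_mul_le_mul_right h5 hb0
  have hkey : ∀ p ∈ X, 2 * w + e + 1 ≤ (nn p : ℝ) := fun p hp =>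
    num_key (d := d) hw hb0 hQ0 (hlow p hp) hele (by rw [hd]; exact hD8) hdb hC1Q
  have hV : ∀ p ∈ X, 2 * (X ∩ Bal S p (44 * r)).card + e + 1 ≤ nn p := by
    intro p hp
    have h1 := hkey p hp
    have h2 := hxp p hp
    have h3 : (2 * ((X ∩ Bal S p (44 * r)).card : ℝ) + e + 1) ≤ nn p := by linarith
    exact_mod_cast h3
  -- the skeleton
  obtain ⟨n, x, hp, hn, hn1, hx1, hx2, hch, hhp, hdis⟩ :=
    skelStm G S D T T' X σ cell (fun p => nn p - e - 1) r t β e hS hDS hgen hr hσD hσ hT'T hT'σ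
      hX1 hX2 hcell1 (by
        intro c
        have h1 := hTP.ball c
        rw [hQe, ← hBd] at h1
        rw [ht]
        apply Nat.le_floor
        rw [le_div_iff₀ hQ0]
        exact h1) (by
        intro z
        have h1 := hTP.h1 z
        rw [hQe, ← hb, ← hd, ← hR] at h1
        rw [hβ]
        apply Nat.le_floor
        rw [le_div_iff₀ hQ0]
        push_cast
        exact h1) (by
        intro z
        have h1 := hTP.h2 z
        rw [hQe, ← hb, ← hd, ← hR] at h1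
        rw [hβ]
        apply Nat.le_floor
        rw [le_div_iff₀ hQ0]
        push_cast
        exact h1) (by
        intro y
        have h3 := hTP.h3 y
        have h4 := hTP.h4 y
        rw [hQe, ← hb, ← hd, ← hR] at h3 h4
        have h5 := num_h hQ0 hd0 hb0 h3 h4 (by rw [hR]; exact hQ64)
        rw [hd, hb] at h5
        exact_mod_cast h5) (by
        -- (A)
        have h1 : ((S ^ (15 * r)).card : ℝ) ≤ w * b := by
          refine le_trans ?_ hBwb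
          rw [hBd]
          exact_mod_cast card_le_card (hS.pow_mono (by omega))
        have h2 : 84 * (R * (15 * R + 1) * (16 * R + 17)) * w ^ 2 < Q := by
          rw [hR]; exact hQ84
        have h3 := num_A hR1 hw hb0 hQ0 (Nat.cast_nonneg t) (Nat.cast_nonneg _) h1 htwb h2
        rw [hR, hb] at h3
        exact_mod_cast h3) (by
        -- (B)
        have h1 : 16 * (k1 : ℝ) * β / (d * b) ≤ e := by rw [he]; exact Nat.le_ceil _
        rw [div_le_iff₀ (by positivity), hd, hb] at h1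
        rw [← hk1]
        exact_mod_cast h1) hD608 (by
        intro p hp
        have h1 := hV p hp
        have h2 : (T'.filter fun x => cell x = p).card = nn p := by rw [hnn]
        rw [h2]
        constructor
        · omega
        · omega)
  refine ⟨n, x, hp, hn1, fun i hi => ⟨hT'T (hx1 i hi), hT'σ _ (hx1 i hi)⟩, hx2, hch, hhp, hdis, ?_⟩
  -- the count
  have hcount : (n : ℝ) = (T'.card : ℝ) - (e + 1) * X.card := by
    have h1 : T'.card = ∑ p ∈ X, nn p := by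
      rw [hnn]
      exact card_eq_sum_card_fiberwise fun x _ => (hcell1 x).1
    have h2 : (n : ℝ) = ∑ p ∈ X, ((nn p : ℝ) - (e + 1)) := by
      rw [hn]
      push_cast
      refine sum_congr rfl fun p hp => ?_
      have h3 := hV p hp
      rw [Nat.cast_sub (by omega), Nat.cast_sub (by omega)]
      push_cast
      ring
    rw [h2, sum_sub_distrib, h1]
    push_cast
    simp only [sum_const, nsmul_eq_mul]
    ring
  have htot := hTP.tot
  rw [hQe, ← hN, ← hT'] at htot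
  have hXb : (X.card : ℝ) * b ≤ N := by
    rw [hb, hN]
    exact_mod_cast net_all hS hX1
  rw [← hN, hcount]
  exact num_fin hb0 hd0 hdb hQ0 hε (Nat.cast_nonneg _) hele hXb (by rw [hd]; exact hlast) htot

end Pool.Agent.N533.NS
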