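import Pool.Agent.N533.NS.TSel2

/-!
# The random set of slots: existence
-/

set_option autoImplicit false
set_option linter.unusedSectionVars false

open Finset
open scoped Pointwise

namespace Pool.Agent.N533.NS

open Pool.Agent.N533.LC

section
variable {G Ω U : Type} [Group G] [Fintype G] [DecidableEq G] [Fintype Ω] [Fintype U]
variable [Nonempty Ω] [Nonempty U]
variable {S D : Finset G} {σ : G} {r : ℕ} {vt : Ω → ℕ → G} {ft : Ω → ℕ → U → ℕ → G}
  {m J Λ : ℕ} {κ ε X : ℝ}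

/-- the properties of the set of slots -/
structure TP (S D T : Finset G) (σ : G) (r : ℕ) (vt : Ω → ℕ → G) (ft : Ω → ℕ → U → ℕ → G)
    (m J Λ : ℕ) (ε : ℝ) : Prop where
  size : |(T.card : ℝ) * m ^ J * Λ - Fintype.card G| ≤ ε * Fintype.card G
  dens : ∀ z, |∑ x ∈ T, f1 vt (m ^ J) x z - 1 / Λ| ≤ ε
  lev : ∀ k < J, ∀ z : G, ∑ x ∈ T, ∑ p ∈ (Ico 1 (m ^ J)).filter (fun p => m ^ k ∣ p),
    pr (fun a => x * vt a p = z) ≤ 2 / (Λ * m ^ k)
  pair : ∀ z z', ∑ x ∈ T, f2 vt (m ^ J) x z z' ≤ ε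
  g1 : ∀ v, ∑ x ∈ T, ∑ p ∈ range (m ^ J), g1f ft Λ x p v ≤ 1 + ε
  g2 : ∀ v v', v ≠ v' → ∑ x ∈ T, ∑ p ∈ range (m ^ J), g2f ft Λ x p v v' ≤ ε
  ball : ∀ c, ((T ∩ Bal S c (48 * r)).card : ℝ) * (Λ * m ^ J) ≤ 2 * (S ^ (48 * r)).card
  h1 : ∀ z, (∑ x ∈ T, (hm S D r x z : ℝ)) * (Λ * m ^ J) ≤ 2 * (r + 1) * (D.card * (S ^ r).card)
  h2 : ∀ z, (∑ x ∈ T, (hm S D r (x * σ) z : ℝ)) * (Λ * m ^ J) ≤
    2 * (r + 1) * (D.card * (S ^ r).card)
  h3 : ∀ z, (∑ x ∈ T, (hm S D r z x : ℝ)) * (Λ * m ^ J) ≤ 2 * (r + 1) * (D.card * (S ^ r).card)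
  h4 : ∀ z, (∑ x ∈ T, (hm S D r z (x * σ) : ℝ)) * (Λ * m ^ J) ≤
    2 * (r + 1) * (D.card * (S ^ r).card)
  low : ∀ p, ((S ^ r).card : ℝ) ≤
    2 * (Λ * m ^ J) * (((T ∩ Bal S p r).filter fun x => x * σ ∉ T).card : ℝ)
  tot : (1 - ε) * Fintype.card G ≤ (Λ * m ^ J) * ((T.filter fun x => x * σ ∉ T).card : ℝ)

theorem exists_T (hsel : SelStm) (hS : Sys (⊥ : Subgroup G) S) (h : TH S D r vt ft m J Λ κ ε X)
    (hσ : σ ≠ 1)
    (h0 : 2 * ((11 * (J + 1) * (Fintype.card G : ℝ) ^ 2) + (Fintype.card G + 1)) * Real.exp (-X) < 1) :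
    ∃ T : Finset G, TP S D T σ r vt ft m J Λ ε := by
  classical
  have hκ := h.hκ
  have hε := h.hε
  have hε1 := h.hε1
  have hX := h.hX
  have hΛ : (1 : ℝ) ≤ Λ := by exact_mod_cast h.hΛ
  have hm2 : (2 : ℝ) ≤ m := by exact_mod_cast h.hm
  have hm1 : 1 ≤ m := by have := h.hm; omega
  set M : ℝ := (m : ℝ) ^ J with hM
  have hM1 : (1 : ℝ) ≤ M := one_le_pow₀ (by linarith)
  set Q : ℝ := Λ * M with hQ
  have hQ1 : (1 : ℝ) ≤ Q := by nlinarith
  have hQpos : (0 : ℝ) < Q := by linarith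
  have hN : (1 : ℝ) ≤ Fintype.card G := by exact_mod_cast Fintype.card_pos (α := G)
  have hDr : (D.card : ℝ) ≤ (S ^ r).card := by exact_mod_cast card_le_card h.hDS
  have hr48 : ((S ^ r).card : ℝ) ≤ (S ^ (48 * r)).card := by
    exact_mod_cast card_le_card (hS.pow_mono (by omega))
  have n1 := h.n1
  have n2 := h.n2
  have n3 := h.n3
  have n4 := h.n4
  have n5 := h.n5
  rw [← hM] at n1 n2 n3 n4 n5
  rw [← hQ] at n1 n2 n5
  have hSr0 : (0 : ℝ) < (S ^ r).card := by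
    exact_mod_cast card_pos.2 ⟨1, hS.one_pow r⟩
  have hD0 : (0 : ℝ) ≤ D.card := Nat.cast_nonneg _
  have hr0 : (0 : ℝ) ≤ r := Nat.cast_nonneg _
  have e3 : 8 * M ^ 2 * Λ ^ 2 * κ * X ≤ 1 := n3.trans (by nlinarith)
  have hMκ : M ^ 2 * κ ≤ ε / 2 := by
    refine le_trans ?_ n4
    have : (1 : ℝ) ≤ Λ ^ 2 := one_le_pow₀ hΛ
    have h2 : 0 ≤ M ^ 2 * κ := by positivity
    nlinarith
  have hMκX : 8 * (M ^ 2 * κ * X) ≤ ε ^ 2 := by
    refine le_trans ?_ n3
    have : (1 : ℝ) ≤ Λ ^ 2 := one_le_pow₀ hΛ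
    have h2 : 0 ≤ M ^ 2 * κ * X := by positivity
    nlinarith
  have hΛκ : Λ * κ ≤ 1 := by
    have h2 : Λ * κ ≤ M ^ 2 * Λ ^ 2 * κ := by
      have : (Λ : ℝ) ≤ M ^ 2 * Λ ^ 2 := by
        have i1 : (1 : ℝ) ≤ M ^ 2 := one_le_pow₀ hM1
        have i2 : (Λ : ℝ) ≤ Λ ^ 2 := by nlinarith
        nlinarith
      nlinarith
    linarith
  obtain ⟨T, hT1, hT2⟩ := sel' hsel (Q := Λ * m ^ J) (σ := σ)
    (ι := Fin 11 × Fin (J + 1) × G × G) (ι' := Option G)
    (a := fa S D σ r vt ft m J Λ) (t := ftt S D r ε m J Λ)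
    (V := fun i => fb S D r κ m J Λ i * fs S D r κ m J Λ i)
    (B := fun o => o.elim univ fun p => Bal S p r)
    (tc := fun o => o.elim (ε * Fintype.card G / (2 * Q)) fun p => (S ^ r).card / (4 * Q))
    (Nat.one_le_iff_ne_zero.2 (by have := h.hΛ; positivity)) hσ
    (by
      rintro ⟨j, k, z, z'⟩
      fin_cases j <;> simp only [ftt] <;> positivity)
    (by
      rintro (_ | p)
      · simp only [Option.elim]; positivity
      · simp only [Option.elim]; positivity)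
    (by
      intro i
      apply sum_sq_le_real (fun x => fa_nonneg i x) (fun x => h.fa_le i x) (h.sum_fa_le i)
      exact (fa_nonneg (S := S) (D := D) (σ := σ) (r := r) (vt := vt) (ft := ft) i 1).trans
        (h.fa_le i 1))
    (X := X)
    (by
      rintro ⟨j, k, z, z'⟩
      have hmk : (0 : ℝ) < (m : ℝ) ^ (k : ℕ) := by positivity
      have hgen : ∀ s : ℝ, (D.card : ℝ) ≤ s → 2 * (1 * s) * X ≤ (s / Q) ^ 2 := by
        intro s hs
        rw [div_pow, le_div_iff₀ (by positivity)]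
        have : 2 * Q ^ 2 * X ≤ s := by nlinarith [mul_nonneg (sq_nonneg Q) hX]
        nlinarith [hD0.trans hs]
      have hhm : 2 * ((r + 1) * (S ^ r).card * ((r + 1) * (D.card * (S ^ r).card))) * X ≤
          ((r + 1) * (D.card * (S ^ r).card) / Q) ^ 2 := by
        rw [div_pow, le_div_iff₀ (by positivity)]
        have i1 : 2 * Q ^ 2 * X ≤ D.card := by nlinarith [mul_nonneg (sq_nonneg Q) hX]
        have i2 : 0 ≤ ((r : ℝ) + 1) ^ 2 * (D.card * (S ^ r).card ^ 2) := by positivity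
        nlinarith [mul_le_mul_of_nonneg_left i1 i2]
      fin_cases j <;> simp only [ftt, fb, fs, ← hM, ← hQ]
      · exact hgen _ (hDr.trans hr48)
      · exact hhm
      · exact hhm
      · exact hhm
      · exact hhm
      · rw [div_pow, le_div_iff₀ (by positivity)]
        have i1 : 2 * Q ^ 2 * X ≤ ε ^ 2 * Fintype.card G := by
          nlinarith [mul_nonneg (sq_nonneg Q) hX]
        nlinarith [mul_le_mul_of_nonneg_left i1 (by linarith : (0 : ℝ) ≤ Fintype.card G)]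
      · nlinarith
      · rw [div_pow, one_pow, le_div_iff₀ (by positivity)]
        have e : 2 * (M / (m : ℝ) ^ (k : ℕ) * κ * (M / (m : ℝ) ^ (k : ℕ))) * X *
          (Λ * (m : ℝ) ^ (k : ℕ)) ^ 2 = 2 * M ^ 2 * Λ ^ 2 * κ * X := by
          field_simp
        rw [e]
        have : 0 ≤ M ^ 2 * Λ ^ 2 * κ * X := by positivity
        nlinarith
      · have i1 : M ^ 2 * κ ≤ 1 := by linarith
        have i2 : 0 ≤ M ^ 2 * κ * X := by positivity
        nlinarith [mul_le_mul_of_nonneg_left i1 i2]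
      · have i2 : 0 ≤ M ^ 2 * Λ ^ 2 * κ * X := by positivity
        nlinarith
      · have i2 : 0 ≤ M ^ 2 * Λ ^ 2 * κ * X := by positivity
        nlinarith [mul_le_mul_of_nonneg_left hΛκ i2])
    (by
      rintro (_ | p)
      · exact ⟨1, by simp⟩
      · refine ⟨p, ?_⟩
        simp only [Option.elim]
        rw [mem_Bal, inv_mul_cancel]
        exact hS.one_pow r)
    (by
      rintro (_ | p)
      · simp only [Option.elim, card_univ]
        rw [div_pow, le_div_iff₀ (by positivity)]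
        nlinarith [mul_le_mul_of_nonneg_left n2 (by linarith : (0 : ℝ) ≤ Fintype.card G)]
      · simp only [Option.elim, card_Bal]
        rw [div_pow, le_div_iff₀ (by positivity)]
        have i1 : 128 * Q ^ 2 * X ≤ (S ^ r).card := n1.trans hDr
        nlinarith [mul_le_mul_of_nonneg_left i1 hSr0.le])
    (by
      refine lt_of_le_of_lt (le_of_eq ?_) h0
      rw [Fintype.card_option, Fintype.card_prod, Fintype.card_prod, Fintype.card_prod,
        Fintype.card_fin, Fintype.card_fin]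
      push_cast
      ring)
  have hup : ∀ i, ∑ x ∈ T, fa S D σ r vt ft m J Λ i x ≤
      fs S D r κ m J Λ i / Q + ftt S D r ε m J Λ i := by
    intro i
    have i1 := (abs_le.1 (hT1 i)).2
    have i2 : (∑ x, fa S D σ r vt ft m J Λ i x) / Q ≤ fs S D r κ m J Λ i / Q :=
      div_le_div_of_nonneg_right (h.sum_fa_le i) hQpos.le
    have e : ((Λ * m ^ J : ℕ) : ℝ) = Q := by rw [hQ, hM]; push_cast; rfl
    rw [e] at i1
    linarith
  refine ⟨T, ?_, ?_, ?_, ?_, ?_, ?_, ?_, ?_, ?_, ?_, ?_, ?_, ?_⟩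
  · have i1 := hT1 (5, 0, 1, 1)
    simp only [fa, ftt, sum_const, nsmul_eq_mul, mul_one, card_univ, ← hM, ← hQ] at i1
    have e : ((Λ * m ^ J : ℕ) : ℝ) = Q := by rw [hQ, hM]; push_cast; rfl
    rw [e] at i1
    have e2 : (T.card : ℝ) * M * Λ - Fintype.card G = (T.card - Fintype.card G / Q) * Q := by
      rw [sub_mul, div_mul_cancel₀ _ hQpos.ne', hQ]; ring
    rw [← hM, e2, abs_mul, abs_of_pos hQpos]
    calc _ ≤ (ε * Fintype.card G / Q) * Q := by gcongr
      _ = _ := by rw [div_mul_cancel₀ _ hQpos.ne']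
  · intro z
    have i1 := hT1 (6, 0, z, 1)
    simp only [fa, ftt] at i1
    have e : ((Λ * m ^ J : ℕ) : ℝ) = Q := by rw [hQ, hM]; push_cast; rfl
    have e1 : ((m ^ J : ℕ) : ℝ) = M := by rw [hM]; push_cast; rfl
    rw [e, sum_f1 (Nat.one_le_iff_ne_zero.2 (by positivity)), e1] at i1
    have e3 : (M - 1) / Q = 1 / Λ - 1 / Q := by
      rw [hQ]
      field_simp
    rw [e3] at i1
    have i2 := abs_le.1 i1
    have i3 : 0 < 1 / Q := by positivity
    rw [abs_le]
    constructor <;> linarith [i2.1, i2.2]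
  · intro k hk z
    have i1 := hup (7, ⟨k, by omega⟩, z, 1)
    simp only [fa, fs, ftt] at i1
    refine i1.trans (le_of_eq ?_)
    rw [← hM, hQ]
    have hmk : (0 : ℝ) < (m : ℝ) ^ (k : ℕ) := by positivity
    field_simp
    ring
  · intro z z'
    have i1 := hup (8, 0, z, z')
    simp only [fa, fs, ftt, ← hM] at i1
    have i2 : M ^ 2 * κ / Q ≤ M ^ 2 * κ := div_le_self (by positivity) hQ1
    linarith
  · intro v
    have i1 := hup (9, 0, v, 1)
    simp only [fa, fs, ftt, ← hM] at i1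
    have i2 : M * Λ / Q = 1 := by rw [hQ]; field_simp
    rw [i2] at i1
    exact i1
  · intro v v' hne
    have i1 := hup (10, 0, v, v')
    simp only [fa, fs, ftt, ← hM] at i1
    simp only [ind_true hne, one_mul] at i1
    have i2 : M * (Λ ^ 2 * κ) / Q ≤ M * (Λ ^ 2 * κ) := div_le_self (by positivity) hQ1
    have i3 : M * (Λ ^ 2 * κ) ≤ M ^ 2 * Λ ^ 2 * κ := by
      have : M ≤ M ^ 2 := by nlinarith
      calc M * (Λ ^ 2 * κ) ≤ M ^ 2 * (Λ ^ 2 * κ) := by gcongr
        _ = _ := by ring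
    linarith
  · intro c
    have i1 := hup (0, 0, c, 1)
    simp only [fa, fs, ftt, ← hM, ← hQ] at i1
    have e : ∑ x ∈ T, ind (x ∈ Bal S c (48 * r)) = ((T ∩ Bal S c (48 * r)).card : ℝ) := by
      rw [card_eq_sum_ind, ← sum_subset (subset_univ T)]
      · refine sum_congr rfl fun x hx => ?_
        rw [mem_inter, ind_and, ind_true hx, one_mul]
      · intro x _ hx
        exact ind_false fun h => hx (mem_inter.1 h).1
    rw [e] at i1
    calc _ ≤ ((S ^ (48 * r)).card / Q + (S ^ (48 * r)).card / Q) * Q := by gcongr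
      _ = _ := by rw [add_mul, div_mul_cancel₀ _ hQpos.ne']; ring
  · intro z
    have i1 := hup (1, 0, z, 1)
    simp only [fa, fs, ftt, ← hM, ← hQ] at i1
    calc _ ≤ ((r + 1) * (D.card * (S ^ r).card) / Q + (r + 1) * (D.card * (S ^ r).card) / Q) * Q := by
          gcongr
      _ = _ := by rw [add_mul, div_mul_cancel₀ _ hQpos.ne']; ring
  · intro z
    have i1 := hup (2, 0, z, 1)
    simp only [fa, fs, ftt, ← hM, ← hQ] at i1
    calc _ ≤ ((r + 1) * (D.card * (S ^ r).card) / Q + (r + 1) * (D.card * (S ^ r).card) / Q) * Q := by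
          gcongr
      _ = _ := by rw [add_mul, div_mul_cancel₀ _ hQpos.ne']; ring
  · intro z
    have i1 := hup (3, 0, z, 1)
    simp only [fa, fs, ftt, ← hM, ← hQ] at i1
    calc _ ≤ ((r + 1) * (D.card * (S ^ r).card) / Q + (r + 1) * (D.card * (S ^ r).card) / Q) * Q := by
          gcongr
      _ = _ := by rw [add_mul, div_mul_cancel₀ _ hQpos.ne']; ring
  · intro z
    have i1 := hup (4, 0, z, 1)
    simp only [fa, fs, ftt, ← hM, ← hQ] at i1
    calc _ ≤ ((r + 1) * (D.card * (S ^ r).card) / Q + (r + 1) * (D.card * (S ^ r).card) / Q) * Q := by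
          gcongr
      _ = _ := by rw [add_mul, div_mul_cancel₀ _ hQpos.ne']; ring
  · intro p
    have i1 := (abs_le.1 (hT2 (some p))).1
    simp only [Option.elim, card_Bal] at i1
    have e : ((Λ * m ^ J : ℕ) : ℝ) = Q := by rw [hQ, hM]; push_cast; rfl
    rw [e] at i1
    rw [← hM, ← hQ]
    set w : ℝ := (((T ∩ Bal S p r).filter fun x => x * σ ∉ T).card : ℝ)
    have i2 : 1 / Q ≤ 1 / 4 := by linarith
    have i3 : (S ^ r).card * (1 / Q) * (1 - 1 / Q) - (S ^ r).card / (4 * Q) ≤ w := by linarith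
    have i4 : ((S ^ r).card : ℝ) * (1 / Q) * (3 / 4) ≤ (S ^ r).card * (1 / Q) * (1 - 1 / Q) := by
      gcongr
      linarith
    have i5 : ((S ^ r).card : ℝ) * (1 / Q) * (3 / 4) - (S ^ r).card / (4 * Q) =
        (S ^ r).card / (2 * Q) := by
      field_simp
      ring
    have i6 : ((S ^ r).card : ℝ) / (2 * Q) ≤ w := by linarith
    rw [div_le_iff₀ (by positivity)] at i6
    linarith
  · have i1 := (abs_le.1 (hT2 none)).1
    simp only [Option.elim, card_univ, inter_univ] at i1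
    have e : ((Λ * m ^ J : ℕ) : ℝ) = Q := by rw [hQ, hM]; push_cast; rfl
    rw [e] at i1
    rw [← hM, ← hQ]
    set w : ℝ := ((T.filter fun x => x * σ ∉ T).card : ℝ)
    have i3 : Fintype.card G * (1 / Q) * (1 - 1 / Q) - ε * Fintype.card G / (2 * Q) ≤ w := by linarith
    have i4 : (Fintype.card G : ℝ) * (1 / Q) * (1 - ε / 4) ≤
        Fintype.card G * (1 / Q) * (1 - 1 / Q) := by
      gcongr
    have i5 : Q * ((Fintype.card G : ℝ) * (1 / Q) * (1 - ε / 4) - ε * Fintype.card G / (2 * Q)) =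
        Fintype.card G * (1 - ε / 4) - ε * Fintype.card G / 2 := by
      field_simp
    have i6 : Q * ((Fintype.card G : ℝ) * (1 / Q) * (1 - ε / 4) - ε * Fintype.card G / (2 * Q)) ≤
        Q * w := by
      gcongr
      linarith
    rw [i5] at i6
    nlinarith

end

end Pool.Agent.N533.NS
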