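import Pool.Agent.N533.NS.Stm2
import Pool.Agent.N533.NS.Mom3
import Pool.Agent.N533.NS.TSel3

/-!
# Project NS: the last statements
-/

set_option autoImplicit false

open Finset
open scoped Pointwise

namespace Pool.Agent.N533.NS

open Pool.Agent.N533.LC

/-- **Task CONF.** A good configuration. -/
def ConfStm : Prop := ∀ (G Ω U : Type) [Group G] [Fintype G] [DecidableEq G] [Fintype Ω]
  [Fintype U] [Nonempty Ω] [Nonempty U] (T H0 : Finset G) (vt : Ω → ℕ → G)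
  (ft : Ω → ℕ → U → ℕ → G) (m J Λ : ℕ) (κ ε δ η : ℝ),
  Hyp T H0 vt ft (m ^ J) Λ κ ε → 2 ≤ m → 0 < δ → 0 < η → 20 * Λ ^ 2 * ε ≤ 1 →
  (∀ p ∈ Ico 1 (m ^ J), ∀ p' ∈ Ico 1 (m ^ J), p ≠ p' → pr (fun a => vt a p = vt a p') ≤ κ) →
  (∀ k < J, ∀ z : G, ∑ x ∈ T, ∑ p ∈ (Ico 1 (m ^ J)).filter (fun p => m ^ k ∣ p),
    pr (fun a => x * vt a p = z) ≤ 2 / (Λ * m ^ k)) →
  6000 * Λ ^ 3 * ε ≤ δ → 8 * Λ ^ 2 * ε ≤ δ ^ 2 → 4 * m / Λ + 2 * m * m ^ J * κ ≤ η / 8 →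
  2 * m * J * H0.card / Λ ≤ η / 8 * (T.card * m ^ J) →
  ∃ ω : G → Ω,
    ∑ x ∈ T, ∑ p ∈ range (m ^ J), ((pr fun u => Iv T H0 vt ft (m ^ J) Λ ω x p u) -
      Real.exp (-1)) ^ 2 ≤ δ * (T.card * m ^ J) ∧
    ∑ v ∈ univ \ Ss T vt (m ^ J) ω, (l2 T H0 vt ft (m ^ J) Λ ω v -
      Real.exp (-1 + 1 / Λ)) ^ 2 ≤ δ * (T.card * m ^ J) ∧
    ∑ x ∈ T, ∑ p ∈ range (m ^ J), (pr fun u => Iv T H0 vt ft (m ^ J) Λ ω x p u ∧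
      ∃ v ∈ Fs ft Λ x p (ω x) u, ∃ v' ∈ Fs ft Λ x p (ω x) u, v ≠ v' ∧
        δ < ∑ x' ∈ T, ∑ p' ∈ range (m ^ J), pr fun u' => Iv T H0 vt ft (m ^ J) Λ ω x' p' u' ∧
          v ∈ Fs ft Λ x' p' (ω x') u' ∧ v' ∈ Fs ft Λ x' p' (ω x') u') ≤
      δ * (T.card * m ^ J) ∧
    ∑ x ∈ T, ∑ p ∈ range (m ^ J), ind (Dead T H0 vt m J ω x p) ≤ η / 2 * (T.card * m ^ J)

open Classical in
/-- the conclusion of `DetStm` for one `ε` -/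
def DetAt (Λ : ℕ) (η ε : ℝ) : Prop :=
  ∀ (G L U : Type) [Fintype G] [DecidableEq G] [Fintype L] [DecidableEq L] [Fintype U]
    [DecidableEq U] [Nonempty U] (F : L → U → Finset G) (I : L → U → Prop) (V : Finset G),
    (∀ l u, I l u → (F l u).card = Λ ∧ F l u ⊆ V) →
    ∑ l, (pr (fun u => I l u) - Real.exp (-1)) ^ 2 ≤ ε * Fintype.card L →
    ∑ v ∈ V, ((∑ l, pr (fun u => I l u ∧ v ∈ F l u)) - Real.exp (-1 + 1 / Λ)) ^ 2 ≤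
      ε * Fintype.card L →
    ∑ l, pr (fun u => I l u ∧ ∃ v ∈ F l u, ∃ v' ∈ F l u, v ≠ v' ∧
      ε < ∑ l', pr (fun u' => I l' u' ∧ v ∈ F l' u' ∧ v' ∈ F l' u')) ≤ ε * Fintype.card L →
    (∀ l v, pr (fun u => I l u ∧ v ∈ F l u) ≤ ε) →
    1 ≤ ε * Fintype.card U →
    ∀ A : Finset L, (1 - η) * Fintype.card L ≤ A.card →
    ∃ M ⊆ A, ∃ u : L → U, (∀ l ∈ M, I l (u l)) ∧
      (∀ l ∈ M, ∀ l' ∈ M, l ≠ l' → Disjoint (F l (u l)) (F l' (u l'))) ∧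
      (1 - 6 * η) * Fintype.card L ≤ M.card

/-- **Task MATCH.** The disjoint filling paths. -/
def MatchStm : Prop := ∀ (G Ω U : Type) [Group G] [Fintype G] [DecidableEq G] [Fintype Ω]
  [Fintype U] [Nonempty Ω] [Nonempty U] (T H0 : Finset G) (vt : Ω → ℕ → G)
  (ft : Ω → ℕ → U → ℕ → G) (M Λ : ℕ) (κ ε δ η : ℝ),
  DetAt Λ η δ → Hyp T H0 vt ft M Λ κ ε → Λ * κ ≤ δ → ∀ ω : G → Ω,
  ∑ x ∈ T, ∑ p ∈ range M, ((pr fun u => Iv T H0 vt ft M Λ ω x p u) -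
    Real.exp (-1)) ^ 2 ≤ δ * (T.card * M) →
  ∑ v ∈ univ \ Ss T vt M ω, (l2 T H0 vt ft M Λ ω v -
    Real.exp (-1 + 1 / Λ)) ^ 2 ≤ δ * (T.card * M) →
  ∑ x ∈ T, ∑ p ∈ range M, (pr fun u => Iv T H0 vt ft M Λ ω x p u ∧
    ∃ v ∈ Fs ft Λ x p (ω x) u, ∃ v' ∈ Fs ft Λ x p (ω x) u, v ≠ v' ∧
      δ < ∑ x' ∈ T, ∑ p' ∈ range M, pr fun u' => Iv T H0 vt ft M Λ ω x' p' u' ∧
        v ∈ Fs ft Λ x' p' (ω x') u' ∧ v' ∈ Fs ft Λ x' p' (ω x') u') ≤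
    δ * (T.card * M) →
  ∀ A ⊆ T ×ˢ range M, (1 - η) * (T.card * M) ≤ A.card →
  ∃ M' ⊆ A, ∃ u : G × ℕ → U, (∀ l ∈ M', Iv T H0 vt ft M Λ ω l.1 l.2 (u l)) ∧
    (∀ l ∈ M', ∀ l' ∈ M', l ≠ l' →
      Disjoint (Fs ft Λ l.1 l.2 (ω l.1) (u l)) (Fs ft Λ l'.1 l'.2 (ω l'.1) (u l'))) ∧
    (1 - 6 * η) * (T.card * M) ≤ M'.card

/-- **Task SK2.** The skeleton for the random set of slots. -/
def Skel2Stm : Prop := ∀ (G Ω U : Type) [Group G] [Fintype G] [DecidableEq G] [Fintype Ω]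
  [Fintype U] [Nonempty Ω] [Nonempty U] (S D T : Finset G) (σ : G) (r : ℕ) (vt : Ω → ℕ → G)
  (ft : Ω → ℕ → U → ℕ → G) (m J Λ : ℕ) (ε w Q C1 : ℝ),
  TP S D T σ r vt ft m J Λ ε → Q = Λ * m ^ J → C1 = 1344 * (r * (r + 1) * (16 * r + 17)) →
  Sys (⊥ : Subgroup G) S → D ⊆ S → Subgroup.closure (S : Set G) = ⊤ → 1 ≤ r → σ ∈ D → σ ≠ 1 →
  1 ≤ Q → 1 ≤ w → 0 < ε →
  ((S ^ (48 * r)).card : ℝ) ≤ w * (S ^ r).card →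
  64 * (r + 1) ≤ Q → 84 * (r * (15 * r + 1) * (16 * r + 17)) * w ^ 2 < Q →
  608 * r * (r + 1) ≤ D.card → 8 * Q * (w + 1) ≤ D.card → 4 * C1 * w ≤ Q →
  2 * Q / D.card + C1 * w / Q ≤ ε →
  ∃ (n : ℕ) (x : ℕ → G) (hp : ℕ → List G), 1 ≤ n ∧
    (∀ i < n, x i ∈ T ∧ x i * σ ∉ T) ∧ (∀ i < n, ∀ j < n, x i = x j → i = j) ∧
    (∀ i < n, (x i * σ :: (hp i ++ [x ((i + 1) % n)])).IsChain fun a b => a⁻¹ * b ∈ S) ∧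
    (∀ i < n, (hp i).Nodup ∧ (hp i).length ≤ 19 * r ∧ ∀ z ∈ hp i, z ∉ T ∧ z * σ⁻¹ ∉ T) ∧
    (∀ i < n, ∀ j < n, i ≠ j → List.Disjoint (hp i) (hp j)) ∧
    (1 - 2 * ε) * Fintype.card G ≤ n * Q

end Pool.Agent.N533.NS
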