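import Pool.Agent.N533.NS.Stm2
import Pool.Agent.N533.NS.Mom2
import Pool.Agent.N533.NS.Skel1

/-!
# The random set of slots: the functionals
-/

set_option autoImplicit false
set_option linter.unusedSectionVars false

open Finset
open scoped Pointwise

namespace Pool.Agent.N533.NS

open Pool.Agent.N533.LC

/-- selection with upper bounds for the variances -/
lemma sel' (hsel : SelStm) {G : Type} [Group G] [Fintype G] [DecidableEq G] {Q : ℕ} {σ : G}
    {ι ι' : Type} [Fintype ι] [Fintype ι'] {a : ι → G → ℝ} {t V : ι → ℝ} {B : ι' → Finset G}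
    {tc : ι' → ℝ} (hQ : 1 ≤ Q) (hσ : σ ≠ 1) (ht : ∀ i, 0 ≤ t i) (htc : ∀ j, 0 ≤ tc j)
    (hV : ∀ i, ∑ x, a i x ^ 2 ≤ V i)
    {X : ℝ} (hX : ∀ i, 2 * V i * X ≤ t i ^ 2) (hB : ∀ j, (B j).Nonempty)
    (hX' : ∀ j, 8 * (B j).card * X ≤ tc j ^ 2)
    (hnum : 2 * ((Fintype.card ι : ℝ) + Fintype.card ι') * Real.exp (-X) < 1) :
    ∃ T : Finset G, (∀ i, |∑ x ∈ T, a i x - (∑ x, a i x) / Q| ≤ t i) ∧
      ∀ j, |(((T ∩ B j).filter fun x => x * σ ∉ T).card : ℝ) - (B j).card * (1 / Q) * (1 - 1 / Q)| ≤
        tc j := by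
  classical
  obtain ⟨T, h1, h2⟩ := hsel G Q σ {i : ι // ∑ x, a i x ^ 2 ≠ 0} ι' (fun i => a i.1) (fun i => t i.1)
    B tc hQ hσ (fun i => ht i.1) htc (by
      refine lt_of_le_of_lt ?_ hnum
      have e1 : ∑ i : {i : ι // ∑ x, a i x ^ 2 ≠ 0}, 2 * Real.exp (-(t i.1) ^ 2 /
          (2 * ∑ x, a i.1 x ^ 2)) ≤ 2 * Fintype.card ι * Real.exp (-X) := by
        calc _ ≤ ∑ _i : {i : ι // ∑ x, a i x ^ 2 ≠ 0}, 2 * Real.exp (-X) := by
              refine sum_le_sum fun i _ => ?_
              have hpos : 0 < ∑ x, a i.1 x ^ 2 :=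
                lt_of_le_of_ne (sum_nonneg fun _ _ => sq_nonneg _) (Ne.symm i.2)
              have h3 : -(t i.1) ^ 2 / (2 * ∑ x, a i.1 x ^ 2) ≤ -X := by
                rw [neg_div, neg_le_neg_iff, le_div_iff₀ (by positivity)]
                have h4 := hX i.1
                have h5 := hV i.1
                by_cases hX0 : 0 ≤ X
                · nlinarith
                · push Not at hX0
                  nlinarith [sq_nonneg (t i.1)]
              have := Real.exp_le_exp.2 h3
              linarith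
          _ = (Fintype.card {i : ι // ∑ x, a i x ^ 2 ≠ 0} : ℝ) * (2 * Real.exp (-X)) := by
              rw [sum_const, card_univ, nsmul_eq_mul]
          _ ≤ (Fintype.card ι : ℝ) * (2 * Real.exp (-X)) := by
              gcongr
              exact_mod_cast Fintype.card_subtype_le _
          _ = _ := by ring
      have e2 : ∑ j, 2 * Real.exp (-(tc j) ^ 2 / (8 * (B j).card)) ≤
          2 * Fintype.card ι' * Real.exp (-X) := by
        calc _ ≤ ∑ _j : ι', 2 * Real.exp (-X) := by
              refine sum_le_sum fun j _ => ?_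
              have hpos : (0 : ℝ) < (B j).card := by exact_mod_cast card_pos.2 (hB j)
              have h3 : -(tc j) ^ 2 / (8 * (B j).card) ≤ -X := by
                rw [neg_div, neg_le_neg_iff, le_div_iff₀ (by positivity)]
                have h4 := hX' j
                linarith
              have := Real.exp_le_exp.2 h3
              linarith
          _ = _ := by rw [sum_const, card_univ, nsmul_eq_mul]; ring
      have e3 : 2 * ((Fintype.card ι : ℝ) + Fintype.card ι') * Real.exp (-X) =
        2 * Fintype.card ι * Real.exp (-X) + 2 * Fintype.card ι' * Real.exp (-X) := by ring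
      rw [e3]
      exact add_le_add e1 e2)
  refine ⟨T, fun i => ?_, h2⟩
  by_cases hi : ∑ x, a i x ^ 2 ≠ 0
  · exact h1 ⟨i, hi⟩
  · push Not at hi
    have h3 : ∀ x, a i x = 0 := by
      intro x
      rw [sum_eq_zero_iff_of_nonneg (fun _ _ => sq_nonneg _)] at hi
      have := hi x (mem_univ x)
      exact pow_eq_zero_iff (two_ne_zero) |>.1 this
    simp only [h3, sum_const_zero, zero_div, sub_zero, abs_zero]
    exact ht i

section
variable {G Ω U : Type} [Group G] [Fintype G] [DecidableEq G] [Fintype Ω] [Fintype U]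
variable [Nonempty Ω] [Nonempty U]
variable {vt : Ω → ℕ → G} {ft : Ω → ℕ → U → ℕ → G} {M Λ : ℕ} {κ : ℝ}

lemma sum_ind_eq (g z : G) : ∑ x : G, ind (x * g = z) = 1 := by
  rw [sum_eq_single (z * g⁻¹)]
  · exact ind_true (by group)
  · intro b _ hb
    apply ind_false
    intro h
    apply hb
    rw [← h]; group
  · intro h; exact absurd (mem_univ _) h

lemma sum_ind_eq2 (g g' z z' : G) :
    ∑ x : G, ind (x * g = z ∧ x * g' = z') = ind (g⁻¹ * g' = z⁻¹ * z') := by
  rw [sum_eq_single (z * g⁻¹)]
  · by_cases h : g⁻¹ * g' = z⁻¹ * z'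
    · rw [ind_true h]
      apply ind_true
      refine ⟨by group, ?_⟩
      rw [mul_assoc, h]; group
    · rw [ind_false h]
      apply ind_false
      rintro ⟨-, h2⟩
      apply h
      rw [← h2]; group
  · intro b _ hb
    apply ind_false
    rintro ⟨h, -⟩
    apply hb
    rw [← h]; group
  · intro h; exact absurd (mem_univ _) h

lemma sum_pr_eq (p : ℕ) (z : G) : ∑ x : G, pr (fun a => x * vt a p = z) = 1 := by
  simp only [pr_eq, ← av_sum, sum_ind_eq, av_const]

lemma sum_f1 (hM : 1 ≤ M) (z : G) : ∑ x : G, f1 vt M x z = M - 1 := by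
  unfold f1
  rw [sum_comm]
  simp only [sum_pr_eq, sum_const, Nat.card_Ico, nsmul_eq_mul, mul_one]
  rw [Nat.cast_sub hM, Nat.cast_one]

lemma sum_f2_le (hdiff : ∀ p ∈ Ico 1 M, ∀ p' ∈ Ico 1 M, p ≠ p' → ∀ g,
    pr (fun a => (vt a p)⁻¹ * vt a p' = g) ≤ κ) (hκ : 0 ≤ κ) (z z' : G) :
    ∑ x : G, f2 vt M x z z' ≤ M ^ 2 * κ := by
  unfold f2
  rw [sum_comm]
  calc _ ≤ ∑ p ∈ Ico 1 M, ∑ p' ∈ (Ico 1 M).erase p, κ := by
        refine sum_le_sum fun p hp => ?_
        rw [sum_comm]
        refine sum_le_sum fun p' hp' => ?_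
        simp only [pr_eq, ← av_sum, sum_ind_eq2]
        rw [← pr_eq]
        rw [mem_erase] at hp'
        exact hdiff p hp p' hp'.2 hp'.1.symm _
    _ ≤ ∑ _p ∈ range M, ∑ _p' ∈ range M, κ := by
        have hsub : Ico 1 M ⊆ range M := fun p hp => by
          rw [mem_Ico] at hp; rw [mem_range]; exact hp.2
        refine (sum_le_sum fun p _ => sum_le_sum_of_subset_of_nonneg
          ((erase_subset _ _).trans hsub) fun _ _ _ => hκ).trans ?_
        exact sum_le_sum_of_subset_of_nonneg hsub fun _ _ _ => sum_nonneg fun _ _ => hκ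
    _ = _ := by simp only [sum_const, card_range, nsmul_eq_mul]; ring

lemma sum_g1f_le (p : ℕ) (v : G) : ∑ x : G, g1f ft Λ x p v ≤ Λ := by
  unfold g1f
  simp only [← av_sum]
  refine av_le fun a => av_le fun u => ?_
  calc ∑ x : G, ind (v ∈ Fs ft Λ x p a u) ≤ ∑ x : G, ∑ c ∈ Icc 1 Λ, ind (x * ft a p u c = v) := by
        refine sum_le_sum fun x _ => ?_
        by_cases h : v ∈ Fs ft Λ x p a u
        · rw [ind_true h]
          obtain ⟨c, hc, hcv⟩ := mem_Fs.1 h
          refine le_trans ?_ (single_le_sum (f := fun c => ind (x * ft a p u c = v))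
            (fun _ _ => ind_nonneg _) hc)
          rw [ind_true hcv]
        · rw [ind_false h]
          exact sum_nonneg fun _ _ => ind_nonneg _
    _ = Λ := by
        rw [sum_comm]
        simp only [sum_ind_eq, sum_const, Nat.card_Icc, nsmul_eq_mul, mul_one]
        simp

lemma sum_g2f_le (hdiff : ∀ a, ∀ p < M, ∀ c ∈ Icc 1 Λ, ∀ c' ∈ Icc 1 Λ, c ≠ c' → ∀ g,
    pr (fun u => (ft a p u c)⁻¹ * ft a p u c' = g) ≤ κ) (hκ : 0 ≤ κ) {p : ℕ} (hp : p < M) {v v' : G}
    (hne : v ≠ v') : ∑ x : G, g2f ft Λ x p v v' ≤ Λ ^ 2 * κ := by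
  unfold g2f
  simp only [← av_sum]
  refine av_le fun a => ?_
  calc _ ≤ av (fun u => ∑ c ∈ Icc 1 Λ, ∑ c' ∈ (Icc 1 Λ).erase c,
        ind ((ft a p u c)⁻¹ * ft a p u c' = v⁻¹ * v')) := by
        refine av_mono fun u => ?_
        calc _ ≤ ∑ x : G, ∑ c ∈ Icc 1 Λ, ∑ c' ∈ (Icc 1 Λ).erase c,
              ind (x * ft a p u c = v ∧ x * ft a p u c' = v') := by
              refine sum_le_sum fun x _ => ?_
              by_cases h : v ∈ Fs ft Λ x p a u ∧ v' ∈ Fs ft Λ x p a u
              · rw [ind_true h]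
                obtain ⟨c, hc, hcv⟩ := mem_Fs.1 h.1
                obtain ⟨c', hc', hcv'⟩ := mem_Fs.1 h.2
                have hcc : c' ∈ (Icc 1 Λ).erase c := by
                  rw [mem_erase]
                  refine ⟨?_, hc'⟩
                  rintro rfl
                  exact hne (hcv.symm.trans hcv')
                refine le_trans ?_ (single_le_sum (f := fun c => ∑ c' ∈ (Icc 1 Λ).erase c,
                  ind (x * ft a p u c = v ∧ x * ft a p u c' = v'))
                  (fun _ _ => sum_nonneg fun _ _ => ind_nonneg _) hc)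
                refine le_trans ?_ (single_le_sum (f := fun c' =>
                  ind (x * ft a p u c = v ∧ x * ft a p u c' = v')) (fun _ _ => ind_nonneg _) hcc)
                rw [ind_true ⟨hcv, hcv'⟩]
              · rw [ind_false h]
                exact sum_nonneg fun _ _ => sum_nonneg fun _ _ => ind_nonneg _
          _ = _ := by
              rw [sum_comm]
              refine sum_congr rfl fun c _ => ?_
              rw [sum_comm]
              refine sum_congr rfl fun c' _ => ?_
              rw [sum_ind_eq2]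
    _ ≤ ∑ _c ∈ Icc 1 Λ, ∑ _c' ∈ Icc 1 Λ, κ := by
        simp only [av_sum]
        refine sum_le_sum fun c hc => ?_
        calc _ ≤ ∑ c' ∈ (Icc 1 Λ).erase c, κ := by
              refine sum_le_sum fun c' hc' => ?_
              rw [← pr_eq]
              rw [mem_erase] at hc'
              exact hdiff a p hp c hc c' hc'.2 hc'.1.symm _
          _ ≤ _ := sum_le_sum_of_subset_of_nonneg (erase_subset _ _) fun _ _ _ => hκ
    _ = _ := by simp only [sum_const, Nat.card_Icc, nsmul_eq_mul]; simp; ring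

end

section
variable {G : Type} [Group G] [Fintype G] [DecidableEq G] {S D : Finset G}

lemma sum_hm_left (r : ℕ) (z : G) : ∑ y, hm S D r y z ≤ (r + 1) * (D.card * (S ^ r).card) := by
  classical
  calc ∑ y, hm S D r y z ≤ ∑ y : G, ∑ p ∈ D ×ˢ (S ^ r), ∑ i ∈ range (r + 1),
        if y * p.1 * wd S r p.2 i = z then 1 else 0 := by
        refine sum_le_sum fun y _ => ?_
        unfold hm
        rw [card_filter]
        refine sum_le_sum fun p _ => ?_
        split_ifs with h
        · obtain ⟨i, hi, hz⟩ := h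
          refine le_trans ?_ (single_le_sum (f := fun i => if y * p.1 * wd S r p.2 i = z then 1 else 0)
            (fun _ _ => Nat.zero_le _) (mem_range.2 (Nat.lt_succ_of_le hi)))
          simp [hz]
        · exact Nat.zero_le _
    _ = ∑ p ∈ D ×ˢ (S ^ r), ∑ i ∈ range (r + 1), ∑ y : G,
        if y * p.1 * wd S r p.2 i = z then 1 else 0 := by
        rw [sum_comm]
        exact sum_congr rfl fun p _ => sum_comm
    _ = ∑ p ∈ D ×ˢ (S ^ r), ∑ i ∈ range (r + 1), 1 := by
        refine sum_congr rfl fun p _ => sum_congr rfl fun i _ => ?_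
        have h1 : ∀ y : G, (y * p.1 * wd S r p.2 i = z) ↔ (y = z * (wd S r p.2 i)⁻¹ * p.1⁻¹) := by
          intro y
          constructor
          · rintro rfl; group
          · rintro rfl; group
        simp only [h1, sum_ite_eq', mem_univ, if_true]
    _ = _ := by
        simp only [sum_const, card_range, card_product, smul_eq_mul]
        ring

lemma sum_hm_left_mul (r : ℕ) (σ z : G) :
    ∑ y, hm S D r (y * σ) z ≤ (r + 1) * (D.card * (S ^ r).card) := by
  have := Equiv.sum_comp (Equiv.mulRight σ) (fun y => hm S D r y z)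
  simp only [Equiv.coe_mulRight] at this
  rw [this]
  exact sum_hm_left r z

lemma sum_hm_right_mul (r : ℕ) (σ y : G) :
    ∑ z, hm S D r y (z * σ) ≤ (r + 1) * (D.card * (S ^ r).card) := by
  have := Equiv.sum_comp (Equiv.mulRight σ) (fun z => hm S D r y z)
  simp only [Equiv.coe_mulRight] at this
  rw [this]
  exact sum_hm_le r y

lemma sum_sq_le_real {a : G → ℝ} {b s : ℝ} (h0 : ∀ x, 0 ≤ a x) (hb : ∀ x, a x ≤ b)
    (hs : ∑ x, a x ≤ s) (hb0 : 0 ≤ b) : ∑ x, a x ^ 2 ≤ b * s := by
  calc ∑ x, a x ^ 2 ≤ ∑ x, b * a x := by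
        refine sum_le_sum fun x _ => ?_
        rw [sq]
        exact mul_le_mul_of_nonneg_right (hb x) (h0 x)
    _ = b * ∑ x, a x := by rw [mul_sum]
    _ ≤ _ := by gcongr

end

end Pool.Agent.N533.NS
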