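import Pool.Agent.N533.NS.TSel

/-!
# The random set of slots: existence
-/

set_option autoImplicit false
set_option linter.unusedSectionVars false

open Finset
open scoped Pointwise

namespace Pool.Agent.N533.NS

open Pool.Agent.N533.LC

section
variable {G Ω U : Type} [Group G] [Fintype G] [DecidableEq G] [Fintype Ω] [Fintype U]
variable [Nonempty Ω] [Nonempty U]

/-- the functionals -/
noncomputable def fa (S D : Finset G) (σ : G) (r : ℕ) (vt : Ω → ℕ → G) (ft : Ω → ℕ → U → ℕ → G)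
    (m J Λ : ℕ) (i : Fin 11 × Fin (J + 1) × G × G) (x : G) : ℝ :=
  match i.1 with
  | 0 => ind (x ∈ Bal S i.2.2.1 (48 * r))
  | 1 => hm S D r x i.2.2.1
  | 2 => hm S D r (x * σ) i.2.2.1
  | 3 => hm S D r i.2.2.1 x
  | 4 => hm S D r i.2.2.1 (x * σ)
  | 5 => 1
  | 6 => f1 vt (m ^ J) x i.2.2.1
  | 7 => ∑ p ∈ (Ico 1 (m ^ J)).filter (fun p => m ^ (i.2.1 : ℕ) ∣ p),
      pr (fun a => x * vt a p = i.2.2.1)
  | 8 => f2 vt (m ^ J) x i.2.2.1 i.2.2.2
  | 9 => ∑ p ∈ range (m ^ J), g1f ft Λ x p i.2.2.1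
  | 10 => ind (i.2.2.1 ≠ i.2.2.2) * ∑ p ∈ range (m ^ J), g2f ft Λ x p i.2.2.1 i.2.2.2

/-- bounds of the values -/
noncomputable def fb (S D : Finset G) (r : ℕ) (κ : ℝ)
    (m J Λ : ℕ) (i : Fin 11 × Fin (J + 1) × G × G) : ℝ :=
  match i.1 with
  | 0 => 1
  | 1 => (r + 1) * (S ^ r).card
  | 2 => (r + 1) * (S ^ r).card
  | 3 => (r + 1) * (S ^ r).card
  | 4 => (r + 1) * (S ^ r).card
  | 5 => 1
  | 6 => m ^ J * κ
  | 7 => (m ^ J / m ^ (i.2.1 : ℕ)) * κ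
  | 8 => (m ^ J) ^ 2 * κ
  | 9 => m ^ J * (Λ * κ)
  | 10 => m ^ J * (Λ * κ)

/-- bounds of the sums -/
noncomputable def fs (S D : Finset G) (r : ℕ) (κ : ℝ)
    (m J Λ : ℕ) (i : Fin 11 × Fin (J + 1) × G × G) : ℝ :=
  match i.1 with
  | 0 => (S ^ (48 * r)).card
  | 1 => (r + 1) * (D.card * (S ^ r).card)
  | 2 => (r + 1) * (D.card * (S ^ r).card)
  | 3 => (r + 1) * (D.card * (S ^ r).card)
  | 4 => (r + 1) * (D.card * (S ^ r).card)
  | 5 => Fintype.card G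
  | 6 => m ^ J
  | 7 => m ^ J / m ^ (i.2.1 : ℕ)
  | 8 => (m ^ J) ^ 2 * κ
  | 9 => m ^ J * Λ
  | 10 => m ^ J * (Λ ^ 2 * κ)

/-- the deviations -/
noncomputable def ftt (S D : Finset G) (r : ℕ) (ε : ℝ)
    (m J Λ : ℕ) (i : Fin 11 × Fin (J + 1) × G × G) : ℝ :=
  match i.1 with
  | 0 => (S ^ (48 * r)).card / (Λ * m ^ J)
  | 1 => (r + 1) * (D.card * (S ^ r).card) / (Λ * m ^ J)
  | 2 => (r + 1) * (D.card * (S ^ r).card) / (Λ * m ^ J)
  | 3 => (r + 1) * (D.card * (S ^ r).card) / (Λ * m ^ J)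
  | 4 => (r + 1) * (D.card * (S ^ r).card) / (Λ * m ^ J)
  | 5 => ε * Fintype.card G / (Λ * m ^ J)
  | 6 => ε / 2
  | 7 => 1 / (Λ * m ^ (i.2.1 : ℕ))
  | 8 => ε / 2
  | 9 => ε
  | 10 => ε / 2

variable {S D : Finset G} {σ : G} {r : ℕ} {vt : Ω → ℕ → G} {ft : Ω → ℕ → U → ℕ → G}
  {m J Λ : ℕ} {κ ε X : ℝ}

/-- hypotheses -/
structure TH (S D : Finset G) (r : ℕ) (vt : Ω → ℕ → G) (ft : Ω → ℕ → U → ℕ → G)
    (m J Λ : ℕ) (κ ε X : ℝ) : Prop where
  hDS : D ⊆ S ^ r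
  hr : 1 ≤ r
  one : (1 : G) ∈ S
  inv : ∀ x ∈ S, x⁻¹ ∈ S
  hm : 2 ≤ m
  hΛ : 1 ≤ Λ
  hκ : 0 ≤ κ
  hε : 0 < ε
  hε1 : ε ≤ 1
  hX : 0 ≤ X
  hit : ∀ p ∈ Ico 1 (m ^ J), ∀ z, pr (fun a => vt a p = z) ≤ κ
  diff : ∀ p ∈ Ico 1 (m ^ J), ∀ p' ∈ Ico 1 (m ^ J), p ≠ p' → ∀ g,
    pr (fun a => (vt a p)⁻¹ * vt a p' = g) ≤ κ
  fhit : ∀ a, ∀ p < m ^ J, ∀ c ∈ Icc 1 Λ, ∀ z, pr (fun u => ft a p u c = z) ≤ κ
  fdiff : ∀ a, ∀ p < m ^ J, ∀ c ∈ Icc 1 Λ, ∀ c' ∈ Icc 1 Λ, c ≠ c' → ∀ g,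
    pr (fun u => (ft a p u c)⁻¹ * ft a p u c' = g) ≤ κ
  n1 : 128 * (Λ * m ^ J) ^ 2 * X ≤ D.card
  n2 : 32 * (Λ * m ^ J) ^ 2 * X ≤ ε ^ 2 * Fintype.card G
  n3 : 8 * (m ^ J) ^ 2 * Λ ^ 2 * κ * X ≤ ε ^ 2
  n4 : (m ^ J) ^ 2 * Λ ^ 2 * κ ≤ ε / 2
  n5 : 1 / (Λ * m ^ J : ℝ) ≤ ε / 4

lemma fa_nonneg (i : Fin 11 × Fin (J + 1) × G × G) (x : G) : 0 ≤ fa S D σ r vt ft m J Λ i x := by
  obtain ⟨j, k, z, z'⟩ := i
  fin_cases j <;> simp only [fa] <;> first
    | exact ind_nonneg _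
    | exact Nat.cast_nonneg _
    | norm_num
  · exact f1_nonneg _ _
  · exact sum_nonneg fun _ _ => pr_nonneg _
  · exact f2_nonneg _ _ _
  · exact sum_nonneg fun _ _ => g1f_nonneg _ _ _
  · exact mul_nonneg (ind_nonneg _) (sum_nonneg fun _ _ => g2f_nonneg _ _ _ _)

lemma sum_indicator_mul_le {ι : Type*} {s : Finset ι} {f : ι → ℝ} {c : ℝ} (h : ∀ i ∈ s, f i ≤ c) :
    ∑ i ∈ s, f i ≤ s.card * c := by
  calc _ ≤ ∑ _i ∈ s, c := sum_le_sum h
    _ = _ := by rw [sum_const, nsmul_eq_mul]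

lemma card_mult_le {m J k : ℕ} (hm : 2 ≤ m) (hk : k ≤ J) :
    (((Ico 1 (m ^ J)).filter fun p => m ^ k ∣ p).card : ℝ) ≤ m ^ J / m ^ k := by
  have hmk : 0 < m ^ k := by positivity
  have h1 : ((Ico 1 (m ^ J)).filter fun p => m ^ k ∣ p) ⊆
      (range (m ^ (J - k))).image fun q => m ^ k * q := by
    intro p hp
    rw [mem_filter, mem_Ico] at hp
    obtain ⟨q, rfl⟩ := hp.2
    rw [mem_image]
    refine ⟨q, ?_, rfl⟩
    rw [mem_range]
    have h2 : m ^ J = m ^ k * m ^ (J - k) := by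
      rw [← pow_add]
      congr 1
      omega
    rw [h2] at hp
    exact Nat.lt_of_mul_lt_mul_left hp.1.2
  have h3 := (card_le_card h1).trans card_image_le
  rw [card_range] at h3
  rw [le_div_iff₀ (by exact_mod_cast hmk)]
  calc _ ≤ ((m ^ (J - k) : ℕ) : ℝ) * m ^ k := by
        gcongr
    _ = m ^ J := by
        push_cast
        rw [← pow_add]
        congr 1
        omega

lemma TH.fhit' (h : TH S D r vt ft m J Λ κ ε X) (x : G) (a : Ω) {p : ℕ} (hp : p < m ^ J) (v : G) :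
    pr (fun u => v ∈ Fs ft Λ x p a u) ≤ Λ * κ := by
  calc _ ≤ pr (fun u => ∃ c ∈ Icc 1 Λ, ft a p u c = x⁻¹ * v) := by
        refine pr_mono fun u hu => ?_
        obtain ⟨c, hc, hcv⟩ := mem_Fs.1 hu
        exact ⟨c, hc, by rw [← hcv]; group⟩
    _ ≤ ∑ c ∈ Icc 1 Λ, pr (fun u => ft a p u c = x⁻¹ * v) := pr_exists _ _
    _ ≤ ∑ _c ∈ Icc 1 Λ, κ := sum_le_sum fun c hc => h.fhit a p hp c hc _
    _ = _ := by rw [sum_const, Nat.card_Icc, nsmul_eq_mul]; simp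

lemma TH.hit' (h : TH S D r vt ft m J Λ κ ε X) (x : G) {p : ℕ} (hp : p ∈ Ico 1 (m ^ J)) (z : G) :
    pr (fun a => x * vt a p = z) ≤ κ := by
  refine le_trans (pr_mono fun a ha => ?_) (h.hit p hp (x⁻¹ * z))
  rw [← ha]; group

lemma TH.fa_le (h : TH S D r vt ft m J Λ κ ε X) (i : Fin 11 × Fin (J + 1) × G × G) (x : G) :
    fa S D σ r vt ft m J Λ i x ≤ fb S D r κ m J Λ i := by
  have hκ := h.hκ
  have hm := h.hm
  obtain ⟨j, k, z, z'⟩ := i
  fin_cases j <;> simp only [fa, fb]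
  · exact ind_le_one _
  · exact_mod_cast hm_le r x z
  · exact_mod_cast hm_le r (x * σ) z
  · exact_mod_cast hm_le r z x
  · exact_mod_cast hm_le r z (x * σ)
  · exact le_rfl
  · refine (sum_indicator_mul_le fun p hp => h.hit' x hp z).trans ?_
    gcongr
    rw [Nat.card_Ico]
    exact_mod_cast Nat.sub_le _ _
  · refine (sum_indicator_mul_le (c := κ) fun p hp => h.hit' x (mem_filter.1 hp).1 z).trans ?_
    gcongr
    exact card_mult_le hm (Nat.lt_succ_iff.1 k.2)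
  · unfold f2
    refine (sum_indicator_mul_le (c := m ^ J * κ) fun p hp => ?_).trans ?_
    · refine (sum_indicator_mul_le (c := κ) fun p' hp' => ?_).trans ?_
      · exact (pr_mono fun a ha => ha.1).trans (h.hit' x hp z)
      · gcongr
        have := (card_le_card (erase_subset p (Ico 1 (m ^ J))))
        rw [Nat.card_Ico] at this
        exact_mod_cast this.trans (Nat.sub_le _ _)
    · rw [sq, mul_assoc]
      gcongr
      rw [Nat.card_Ico]
      exact_mod_cast Nat.sub_le _ _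
  · refine (sum_indicator_mul_le (c := Λ * κ) fun p hp => ?_).trans ?_
    · unfold g1f
      refine av_le fun a => ?_
      rw [← pr_eq]
      exact h.fhit' x a (mem_range.1 hp) z
    · rw [card_range]
      push_cast
      exact le_rfl
  · have h1 : ∑ p ∈ range (m ^ J), g2f ft Λ x p z z' ≤ m ^ J * (Λ * κ) := by
      refine (sum_indicator_mul_le (c := Λ * κ) fun p hp => ?_).trans ?_
      · unfold g2f
        refine av_le fun a => ?_
        rw [← pr_eq]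
        exact (pr_mono fun u hu => hu.1).trans (h.fhit' x a (mem_range.1 hp) z)
      · rw [card_range]
        push_cast
        exact le_rfl
    have h2 : 0 ≤ ∑ p ∈ range (m ^ J), g2f ft Λ x p z z' := sum_nonneg fun _ _ => g2f_nonneg _ _ _ _
    have h3 := ind_le_one (z ≠ z')
    have h4 := ind_nonneg (z ≠ z')
    nlinarith

lemma card_Bal (c : G) (n : ℕ) : (Bal S c n).card = (S ^ n).card := by
  have : Bal S c n = (S ^ n).image (c * ·) := by
    ext x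
    rw [mem_Bal, mem_image]
    constructor
    · intro h; exact ⟨_, h, by group⟩
    · rintro ⟨y, hy, rfl⟩; simpa using hy
  rw [this, card_image_of_injective _ (mul_right_injective c)]

lemma TH.sum_fa_le (h : TH S D r vt ft m J Λ κ ε X) (i : Fin 11 × Fin (J + 1) × G × G) :
    ∑ x, fa S D σ r vt ft m J Λ i x ≤ fs S D r κ m J Λ i := by
  have hκ := h.hκ
  have hm := h.hm
  have hM : 1 ≤ m ^ J := Nat.one_le_iff_ne_zero.2 (by positivity)
  obtain ⟨j, k, z, z'⟩ := i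
  fin_cases j <;> simp only [fa, fs]
  · rw [← card_eq_sum_ind, card_Bal]
  · exact_mod_cast sum_hm_left (S := S) (D := D) r z
  · exact_mod_cast sum_hm_left_mul (S := S) (D := D) r σ z
  · exact_mod_cast sum_hm_le (S := S) (D := D) r z
  · exact_mod_cast sum_hm_right_mul (S := S) (D := D) r σ z
  · simp
  · rw [sum_f1 hM]
    push_cast
    linarith
  · rw [sum_comm]
    simp only [sum_pr_eq, sum_const, nsmul_eq_mul, mul_one]
    exact card_mult_le hm (Nat.lt_succ_iff.1 k.2)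
  · have := sum_f2_le h.diff hκ z z'
    push_cast at this
    exact this
  · rw [sum_comm]
    refine (sum_indicator_mul_le (c := (Λ : ℝ)) fun p hp => sum_g1f_le p z).trans ?_
    rw [card_range]
    push_cast
    exact le_rfl
  · rw [← mul_sum]
    by_cases hz : z = z'
    · rw [ind_false (not_not.2 hz), zero_mul]
      positivity
    · rw [ind_true hz, one_mul, sum_comm]
      refine (sum_indicator_mul_le (c := (Λ ^ 2 * κ : ℝ)) fun p hp =>
        sum_g2f_le h.fdiff hκ (mem_range.1 hp) hz).trans ?_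
      rw [card_range]
      push_cast
      exact le_rfl

end

end Pool.Agent.N533.NS
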