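import Pool.Agent.N533.NS.Stm

/-!
# Project NS, task W: counting words
-/

set_option autoImplicit false

open Finset
open scoped Pointwise

namespace Pool.Agent.N533.NS

section words

variable {G : Type} [Group G] [DecidableEq G]

/-- words of length `n` with letters in `D` -/
def words (D : Finset G) : ℕ → Finset (List G)
  | 0 => {[]}
  | n + 1 => (D ×ˢ words D n).image fun x => x.1 :: x.2

theorem mem_words {D : Finset G} {n : ℕ} {w : List G} :
    w ∈ words D n ↔ w.length = n ∧ ∀ x ∈ w, x ∈ D := by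
  induction n generalizing w with
  | zero =>
    simp only [words, mem_singleton, List.length_eq_zero_iff]
    constructor
    · rintro rfl
      simp
    · exact fun h => h.1
  | succ n ih =>
    simp only [words, mem_image, mem_product, Prod.exists]
    constructor
    · rintro ⟨a, v, ⟨ha, hv⟩, rfl⟩
      obtain ⟨h1, h2⟩ := ih.1 hv
      refine ⟨by simp [h1], fun x hx => ?_⟩
      rcases List.mem_cons.1 hx with rfl | hx
      · exact ha
      · exact h2 x hx
    · rintro ⟨h1, h2⟩
      cases w with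
      | nil => simp at h1
      | cons a v =>
        exact ⟨a, v, ⟨h2 a (by simp), ih.2 ⟨by simpa using h1, fun x hx => h2 x (by simp [hx])⟩⟩,
          rfl⟩

theorem card_words (D : Finset G) (n : ℕ) : (words D n).card = D.card ^ n := by
  induction n with
  | zero => simp [words]
  | succ n ih =>
    rw [words, card_image_of_injective, card_product, ih, pow_succ, mul_comm]
    rintro ⟨a, v⟩ ⟨b, w⟩ h
    simpa using h

/-- the number of words with a given product -/
def cn (D : Finset G) (n : ℕ) (g : G) : ℕ := ((words D n).filter fun w => w.prod = g).card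

/-- pairs of words -/
def pc (D : Finset G) (a b : ℕ) (g s : G) : ℕ :=
  ((words D a ×ˢ words D b).filter fun x => x.1.prod * g * x.2.prod = s).card

/-- words with a prescribed segment -/
def c3 (D : Finset G) (a1 a2 a3 : ℕ) (g s : G) : ℕ :=
  ((words D (a1 + a2 + a3)).filter fun w => w.prod = s ∧
    ((w.take a1).prod)⁻¹ * (w.take (a1 + a2)).prod = g).card

theorem words_take {D : Finset G} {a n : ℕ} {w : List G} (hw : w ∈ words D n) (ha : a ≤ n) :
    w.take a ∈ words D a := by
  rw [mem_words] at hw ⊢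
  refine ⟨by rw [List.length_take, hw.1]; omega, fun x hx => hw.2 x (List.mem_of_mem_take hx)⟩

theorem words_drop {D : Finset G} {a b n : ℕ} {w : List G} (hw : w ∈ words D n) (ha : a + b = n) :
    w.drop a ∈ words D b := by
  rw [mem_words] at hw ⊢
  refine ⟨by rw [List.length_drop, hw.1]; omega, fun x hx => hw.2 x (List.mem_of_mem_drop hx)⟩

theorem c3_le (D : Finset G) (a1 a2 a3 : ℕ) (g s : G) :
    c3 D a1 a2 a3 g s ≤ cn D a2 g * pc D a1 a3 g s := by
  unfold c3 cn pc
  rw [← card_product]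
  refine card_le_card_of_injOn
    (fun w => ((w.drop a1).take a2, (w.take a1, w.drop (a1 + a2)))) ?_ ?_
  · intro w hw
    rw [mem_coe, mem_filter] at hw
    obtain ⟨hw, h1, h2⟩ := hw
    rw [mem_coe, mem_product, mem_filter, mem_filter, mem_product]
    have h3 : w.take (a1 + a2) = w.take a1 ++ (w.drop a1).take a2 := by
      rw [List.take_add]
    have h4 : ((w.drop a1).take a2).prod = g := by
      rw [← h2, h3, List.prod_append]
      group
    refine ⟨⟨words_take (words_drop hw (by omega : a1 + (a2 + a3) = _)) (by omega), h4⟩,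
      ⟨words_take hw (by omega), words_drop hw rfl⟩, ?_⟩
    simp only
    rw [← h1, ← h4, ← List.prod_append, ← h3, ← List.prod_append, List.take_append_drop]
  · intro w _ v _ h
    simp only [Prod.mk.injEq] at h
    obtain ⟨h1, h2, h3⟩ := h
    rw [← List.take_append_drop (a1 + a2) w, ← List.take_append_drop (a1 + a2) v, List.take_add,
      List.take_add, h1, h2, h3]

theorem words_add (D : Finset G) (a b : ℕ) :
    words D (a + b) = (words D a ×ˢ words D b).image fun x => x.1 ++ x.2 := by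
  ext w
  rw [mem_image]
  constructor
  · intro hw
    exact ⟨(w.take a, w.drop a), mem_product.2 ⟨words_take hw (by omega), words_drop hw rfl⟩,
      List.take_append_drop a w⟩
  · rintro ⟨x, hx, rfl⟩
    rw [mem_product, mem_words, mem_words] at hx
    rw [mem_words]
    refine ⟨by rw [List.length_append]; omega, fun y hy => ?_⟩
    rcases List.mem_append.1 hy with h | h
    · exact hx.1.2 y h
    · exact hx.2.2 y h

theorem cn_add (D : Finset G) (a b : ℕ) (g : G) : cn D (a + b) g = pc D a b 1 g := by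
  unfold cn pc
  rw [words_add, filter_image, card_image_of_injOn]
  · congr 1
    refine filter_congr fun x _ => ?_
    rw [List.prod_append, mul_one]
  · intro x hx y hy hxy
    rw [mem_coe, mem_filter, mem_product, mem_words, mem_words] at hx hy
    have h := List.append_inj hxy (by rw [hx.1.1.1, hy.1.1.1])
    exact Prod.ext h.1 h.2

variable [Fintype G]

/-- the largest number of words with the same product -/
def Mx (D : Finset G) (n : ℕ) : ℕ := Finset.univ.sup (cn D n)

theorem cn_le (D : Finset G) (n : ℕ) (g : G) : cn D n g ≤ Mx D n :=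
  Finset.le_sup (f := cn D n) (Finset.mem_univ g)

theorem Mx_le {D : Finset G} {n k : ℕ} (h : ∀ g, cn D n g ≤ k) : Mx D n ≤ k :=
  Finset.sup_le fun g _ => h g

theorem pc_le1 (D : Finset G) (a b : ℕ) (g s : G) : pc D a b g s ≤ Mx D a * D.card ^ b := by
  unfold pc
  rw [← card_words D b]
  refine card_le_mul_card_image_of_maps_to (f := Prod.snd) ?_ _ ?_
  · intro x hx
    rw [mem_filter, mem_product] at hx
    exact hx.1.2
  · intro t _
    refine le_trans ?_ (cn_le D a (s * t.prod⁻¹ * g⁻¹))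
    refine card_le_card_of_injOn Prod.fst ?_ ?_
    · intro x hx
      rw [mem_coe, mem_filter, mem_filter, mem_product] at hx
      rw [mem_coe, mem_filter]
      refine ⟨hx.1.1.1, ?_⟩
      rw [← hx.1.2, ← hx.2]
      group
    · intro x hx y hy hxy
      rw [mem_coe, mem_filter] at hx hy
      exact Prod.ext hxy (hx.2.trans hy.2.symm)

theorem pc_le2 (D : Finset G) (a b : ℕ) (g s : G) : pc D a b g s ≤ Mx D b * D.card ^ a := by
  unfold pc
  rw [← card_words D a]
  refine card_le_mul_card_image_of_maps_to (f := Prod.fst) ?_ _ ?_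
  · intro x hx
    rw [mem_filter, mem_product] at hx
    exact hx.1.1
  · intro t _
    refine le_trans ?_ (cn_le D b (g⁻¹ * t.prod⁻¹ * s))
    refine card_le_card_of_injOn Prod.snd ?_ ?_
    · intro x hx
      rw [mem_coe, mem_filter, mem_filter, mem_product] at hx
      rw [mem_coe, mem_filter]
      refine ⟨hx.1.1.2, ?_⟩
      rw [← hx.1.2, ← hx.2]
      group
    · intro x hx y hy hxy
      rw [mem_coe, mem_filter] at hx hy
      exact Prod.ext (hx.2.trans hy.2.symm) hxy

theorem Mx_zero (D : Finset G) : Mx D 0 ≤ 1 := by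
  refine Mx_le fun g => ?_
  unfold cn
  exact (card_filter_le _ _).trans (by simp [words])

theorem Mx_one (D : Finset G) : Mx D 1 ≤ 1 := by
  refine Mx_le fun g => ?_
  unfold cn
  rw [card_le_one]
  intro w hw v hv
  rw [mem_filter, mem_words, List.length_eq_one_iff] at hw hv
  obtain ⟨⟨⟨a, rfl⟩, -⟩, h1⟩ := hw
  obtain ⟨⟨⟨b, rfl⟩, -⟩, h2⟩ := hv
  simp only [List.prod_cons, List.prod_nil, mul_one] at h1 h2
  rw [h1, h2]

/-- (M2) -/
theorem Mx_pow {D : Finset G} {q a : ℕ} (h : q ≤ a) :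
    Mx D a * D.card ^ q ≤ Mx D q * D.card ^ a := by
  obtain ⟨b, rfl⟩ := Nat.exists_eq_add_of_le h
  have h1 : Mx D (q + b) ≤ Mx D q * D.card ^ b := by
    refine Mx_le fun g => ?_
    rw [cn_add]
    exact pc_le1 D q b 1 g
  calc Mx D (q + b) * D.card ^ q ≤ Mx D q * D.card ^ b * D.card ^ q :=
        Nat.mul_le_mul_right _ h1
    _ = _ := by rw [pow_add]; ring

/-- (M1) -/
theorem Mx_pos {D : Finset G} {a : ℕ} (h : 1 ≤ a) : Mx D a * D.card ≤ D.card ^ a := by
  have h1 := Mx_pow (D := D) h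
  rw [pow_one] at h1
  refine h1.trans ?_
  calc Mx D 1 * D.card ^ a ≤ 1 * D.card ^ a := Nat.mul_le_mul_right _ (Mx_one D)
    _ = _ := one_mul _

theorem c3_bound {D : Finset G} {a1 a2 a3 q : ℕ} (g s : G) (h2 : 1 ≤ a2) (h13 : 1 ≤ a1 + a3)
    (hq : q ≤ a1 ∨ q ≤ a2 ∨ q ≤ a3) :
    c3 D a1 a2 a3 g s * D.card ^ (q + 1) ≤ Mx D q * D.card ^ (a1 + a2 + a3) := by
  have hc := c3_le D a1 a2 a3 g s
  have hcn := cn_le D a2 g
  have hp1 := pc_le1 D a1 a3 g s
  have hp2 := pc_le2 D a1 a3 g s
  set d := D.card with hd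
  rcases hq with hq | hq | hq
  · have e1 := Mx_pow (D := D) hq
    have e2 := Mx_pos (D := D) h2
    calc c3 D a1 a2 a3 g s * d ^ (q + 1) ≤ (cn D a2 g * pc D a1 a3 g s) * d ^ (q + 1) :=
          Nat.mul_le_mul_right _ hc
      _ ≤ (Mx D a2 * (Mx D a1 * d ^ a3)) * d ^ (q + 1) :=
          Nat.mul_le_mul_right _ (Nat.mul_le_mul hcn hp1)
      _ = (Mx D a2 * d) * ((Mx D a1 * d ^ q) * d ^ a3) := by rw [pow_succ]; ring
      _ ≤ d ^ a2 * ((Mx D q * d ^ a1) * d ^ a3) :=
          Nat.mul_le_mul e2 (Nat.mul_le_mul_right _ e1)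
      _ = _ := by rw [pow_add, pow_add]; ring
  · have e1 := Mx_pow (D := D) hq
    have e2 : pc D a1 a3 g s * d ≤ d ^ (a1 + a3) := by
      by_cases h1 : 1 ≤ a1
      · have e3 := Mx_pos (D := D) h1
        calc pc D a1 a3 g s * d ≤ (Mx D a1 * d ^ a3) * d := Nat.mul_le_mul_right _ hp1
          _ = (Mx D a1 * d) * d ^ a3 := by ring
          _ ≤ d ^ a1 * d ^ a3 := Nat.mul_le_mul_right _ e3
          _ = _ := by rw [pow_add]
      · have e3 := Mx_pos (D := D) (show 1 ≤ a3 by omega)
        calc pc D a1 a3 g s * d ≤ (Mx D a3 * d ^ a1) * d := Nat.mul_le_mul_right _ hp2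
          _ = (Mx D a3 * d) * d ^ a1 := by ring
          _ ≤ d ^ a3 * d ^ a1 := Nat.mul_le_mul_right _ e3
          _ = _ := by rw [pow_add]; ring
    calc c3 D a1 a2 a3 g s * d ^ (q + 1) ≤ (cn D a2 g * pc D a1 a3 g s) * d ^ (q + 1) :=
          Nat.mul_le_mul_right _ hc
      _ ≤ (Mx D a2 * pc D a1 a3 g s) * d ^ (q + 1) :=
          Nat.mul_le_mul_right _ (Nat.mul_le_mul_right _ hcn)
      _ = (Mx D a2 * d ^ q) * (pc D a1 a3 g s * d) := by rw [pow_succ]; ring
      _ ≤ (Mx D q * d ^ a2) * d ^ (a1 + a3) := Nat.mul_le_mul e1 e2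
      _ = _ := by rw [pow_add, pow_add, pow_add]; ring
  · have e1 := Mx_pow (D := D) hq
    have e2 := Mx_pos (D := D) h2
    calc c3 D a1 a2 a3 g s * d ^ (q + 1) ≤ (cn D a2 g * pc D a1 a3 g s) * d ^ (q + 1) :=
          Nat.mul_le_mul_right _ hc
      _ ≤ (Mx D a2 * (Mx D a3 * d ^ a1)) * d ^ (q + 1) :=
          Nat.mul_le_mul_right _ (Nat.mul_le_mul hcn hp2)
      _ = (Mx D a2 * d) * ((Mx D a3 * d ^ q) * d ^ a1) := by rw [pow_succ]; ring
      _ ≤ d ^ a2 * ((Mx D q * d ^ a3) * d ^ a1) :=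
          Nat.mul_le_mul e2 (Nat.mul_le_mul_right _ e1)
      _ = _ := by rw [pow_add, pow_add]; ring

/-- the number of words is at most `|G|` times the maximum -/
theorem pow_le_Mx (D : Finset G) (n : ℕ) : D.card ^ n ≤ Mx D n * Fintype.card G := by
  rw [← card_words D n]
  exact card_le_mul_card_image_of_maps_to (f := List.prod) (t := Finset.univ)
    (fun _ _ => mem_univ _) _ (fun g _ => cn_le D n g)

theorem cn_inv {D : Finset G} (hD : ∀ x ∈ D, x⁻¹ ∈ D) (n : ℕ) (g : G) :
    cn D n g⁻¹ = cn D n g := by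
  have h : ∀ g : G, cn D n g⁻¹ ≤ cn D n g := by
    intro g
    refine card_le_card_of_injOn (fun w => (w.map fun x => x⁻¹).reverse) ?_ ?_
    · intro w hw
      rw [mem_coe, mem_filter, mem_words] at hw
      rw [mem_coe, mem_filter, mem_words]
      refine ⟨⟨by simp [hw.1.1], fun x hx => ?_⟩, ?_⟩
      · rw [List.mem_reverse, List.mem_map] at hx
        obtain ⟨y, hy, rfl⟩ := hx
        exact hD y (hw.1.2 y hy)
      · rw [← List.prod_inv_reverse, hw.2, inv_inv]
    · intro w _ v _ hwv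
      have h1 := List.reverse_injective hwv
      exact (List.map_injective_iff.2 inv_injective) h1
  refine le_antisymm (h g) ?_
  have := h g⁻¹
  rwa [inv_inv] at this

theorem pc_sum (D : Finset G) (n : ℕ) (g : G) :
    pc D n n 1 g = ∑ h, cn D n h * cn D n (h⁻¹ * g) := by
  unfold pc
  rw [card_eq_sum_card_fiberwise (f := fun x => x.1.prod) (t := Finset.univ)
    (fun _ _ => mem_univ _)]
  refine sum_congr rfl fun h _ => ?_
  unfold cn
  rw [← card_product]
  congr 1
  ext x
  simp only [mem_filter, mem_product]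
  constructor
  · rintro ⟨⟨⟨h1, h2⟩, h3⟩, h4⟩
    refine ⟨⟨h1, h4⟩, h2, ?_⟩
    rw [← h3, ← h4]
    group
  · rintro ⟨⟨h1, h4⟩, h2, h3⟩
    refine ⟨⟨⟨h1, h2⟩, ?_⟩, h4⟩
    rw [h3, h4]
    group

theorem cn_two {D : Finset G} (hD : ∀ x ∈ D, x⁻¹ ∈ D) (n : ℕ) : Mx D (n + n) ≤ cn D (n + n) 1 := by
  refine Mx_le fun g => ?_
  rw [cn_add, cn_add, pc_sum, pc_sum]
  have h1 : ∑ h, cn D n h * cn D n (h⁻¹ * 1) = ∑ h, cn D n h ^ 2 := by
    refine sum_congr rfl fun h _ => ?_
    rw [mul_one, cn_inv hD, sq]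
  have h2 : ∑ h, cn D n (h⁻¹ * g) ^ 2 = ∑ h, cn D n h ^ 2 := by
    refine Fintype.sum_equiv ((Equiv.inv G).trans (Equiv.mulRight g)) _ _ fun h => ?_
    rfl
  rw [h1]
  have h3 : 2 * ∑ h, cn D n h * cn D n (h⁻¹ * g) ≤ 2 * ∑ h, cn D n h ^ 2 := by
    calc 2 * ∑ h, cn D n h * cn D n (h⁻¹ * g)
        = ∑ h, 2 * (cn D n h * cn D n (h⁻¹ * g)) := by rw [mul_sum]
      _ ≤ ∑ h, (cn D n h ^ 2 + cn D n (h⁻¹ * g) ^ 2) := by
          refine sum_le_sum fun h _ => ?_
          have := two_mul_le_add_sq (cn D n h) (cn D n (h⁻¹ * g))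
          nlinarith
      _ = _ := by rw [sum_add_distrib, h2]; ring
  omega

end words

end Pool.Agent.N533.NS
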