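import Pool.Agent.N533.NS.Words1

/-!
# Project NS, task W: closed walks
-/

set_option autoImplicit false
set_option linter.unusedSectionVars false

open Finset
open scoped Pointwise

namespace Pool.Agent.N533.NS

section walks

variable {G : Type} [Group G] [DecidableEq G] [Fintype G]

open Classical in
/-- closed injective walks with steps in `A` -/
noncomputable def Wk (L : ℕ) [NeZero L] (A : Finset G) : Finset (ZMod L → G) :=
  Finset.univ.filter fun p => p 0 = 1 ∧ Function.Injective p ∧ ∀ i, (p i)⁻¹ * p (i + 1) ∈ A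

theorem mem_Wk {L : ℕ} [NeZero L] {A : Finset G} {p : ZMod L → G} :
    p ∈ Wk L A ↔ p 0 = 1 ∧ Function.Injective p ∧ ∀ i, (p i)⁻¹ * p (i + 1) ∈ A := by
  unfold Wk
  rw [mem_filter]
  exact ⟨fun h => h.2, fun h => ⟨mem_univ _, h⟩⟩

theorem word_ext {w v : List G} {n : ℕ} (hw : w.length = n) (hv : v.length = n)
    (h : ∀ i ≤ n, (w.take i).prod = (v.take i).prod) : w = v := by
  refine List.ext_getElem (by omega) fun i h1 h2 => ?_
  have e1 := List.prod_take_succ w i h1
  have e2 := List.prod_take_succ v i h2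
  rw [h (i + 1) (by omega), e2, h i (by omega)] at e1
  exact (mul_left_cancel e1).symm

theorem closed_le (L : ℕ) [NeZero L] (D : Finset G) (B : ℕ)
    (hB : ∀ i j, i < j → j < L → c3 D i (j - i) (L - j) 1 1 ≤ B) :
    cn D L 1 ≤ (Wk L D).card + L ^ 2 * B := by
  classical
  set X0 := (words D L).filter fun w => w.prod = 1 ∧
    ∀ i < L, ∀ j < L, i < j → (w.take i).prod ≠ (w.take j).prod with hX0
  have h1 : (words D L).filter (fun w => w.prod = 1) ⊆ X0 ∪
      (((range L ×ˢ range L).filter fun x => x.1 < x.2).biUnion fun x =>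
        (words D L).filter fun w => w.prod = 1 ∧
          ((w.take x.1).prod)⁻¹ * (w.take x.2).prod = 1) := by
    intro w hw
    rw [mem_filter] at hw
    rw [mem_union]
    by_cases h : w ∈ X0
    · exact Or.inl h
    · right
      rw [hX0, mem_filter] at h
      push Not at h
      obtain ⟨i, hi, j, hj, hij, he⟩ := h hw.1 hw.2
      rw [mem_biUnion]
      refine ⟨(i, j), ?_, ?_⟩
      · rw [mem_filter, mem_product, mem_range, mem_range]
        exact ⟨⟨hi, hj⟩, hij⟩
      · rw [mem_filter]
        refine ⟨hw.1, hw.2, ?_⟩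
        simp only
        rw [he, inv_mul_cancel]
  have h2 : X0.card ≤ (Wk L D).card := by
    refine card_le_card_of_injOn (fun w => fun i : ZMod L => (w.take i.val).prod) ?_ ?_
    · intro w hw
      rw [mem_coe, hX0, mem_filter, mem_words] at hw
      obtain ⟨⟨hl, hD⟩, h1, h2⟩ := hw
      rw [mem_coe, mem_Wk]
      refine ⟨by simp, ?_, ?_⟩
      · intro i j hij
        simp only at hij
        rcases Nat.lt_trichotomy i.val j.val with h | h | h
        · exact absurd hij (h2 _ (ZMod.val_lt i) _ (ZMod.val_lt j) h)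
        · exact ZMod.val_injective L h
        · exact absurd hij.symm (h2 _ (ZMod.val_lt j) _ (ZMod.val_lt i) h)
      · intro i
        simp only
        have hi := ZMod.val_lt i
        have h3 := List.prod_take_succ w i.val (by omega)
        have h4 : (w.take (i + 1).val).prod = (w.take (i.val + 1)).prod := by
          by_cases h5 : i.val + 1 < L
          · have h6 : (i + 1).val = i.val + 1 := by
              have : i + 1 = ((i.val + 1 : ℕ) : ZMod L) := by
                push_cast
                rw [ZMod.natCast_zmod_val]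
              rw [this, ZMod.val_natCast, Nat.mod_eq_of_lt h5]
            rw [h6]
          · have h6 : (i + 1).val = 0 := by
              have : i + 1 = ((i.val + 1 : ℕ) : ZMod L) := by
                push_cast
                rw [ZMod.natCast_zmod_val]
              rw [this, ZMod.val_natCast]
              have h7 : i.val + 1 = L := by omega
              rw [h7, Nat.mod_self]
            rw [h6, List.take_zero, List.prod_nil, List.take_of_length_le (by omega), h1]
        rw [h4, h3, inv_mul_cancel_left]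
        exact hD _ (List.getElem_mem _)
    · intro w hw v hv hwv
      rw [mem_coe, hX0, mem_filter, mem_words] at hw hv
      refine word_ext hw.1.1 hv.1.1 fun i hi => ?_
      rcases Nat.lt_or_eq_of_le hi with hi | hi
      · have := congrFun hwv (i : ZMod L)
        simp only [ZMod.val_natCast, Nat.mod_eq_of_lt hi] at this
        exact this
      · rw [hi, List.take_of_length_le (by omega), List.take_of_length_le (by omega), hw.2.1,
          hv.2.1]
  have h3 : ((((range L ×ˢ range L).filter fun x => x.1 < x.2).biUnion fun x =>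
        (words D L).filter fun w => w.prod = 1 ∧
          ((w.take x.1).prod)⁻¹ * (w.take x.2).prod = 1)).card ≤ L ^ 2 * B := by
    refine card_biUnion_le.trans ?_
    calc _ ≤ ∑ x ∈ (range L ×ˢ range L).filter fun x => x.1 < x.2, B := by
          refine sum_le_sum fun x hx => ?_
          rw [mem_filter, mem_product, mem_range, mem_range] at hx
          have h4 := hB x.1 x.2 hx.2 hx.1.2
          unfold c3 at h4
          have e1 : x.1 + (x.2 - x.1) + (L - x.2) = L := by omega
          have e2 : x.1 + (x.2 - x.1) = x.2 := by omega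
          rw [e1, e2] at h4
          exact h4
      _ = ((range L ×ˢ range L).filter fun x => x.1 < x.2).card * B := by
          rw [sum_const, smul_eq_mul]
      _ ≤ L ^ 2 * B := by
          refine Nat.mul_le_mul_right _ ((card_filter_le _ _).trans ?_)
          rw [card_product, card_range, sq]
  unfold cn
  exact (card_le_card h1).trans ((card_union_le _ _).trans (Nat.add_le_add h2 h3))

/-- walks with first step `x` -/
noncomputable def Fx (L : ℕ) [NeZero L] (A : Finset G) (x : G) : Finset (ZMod L → G) :=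
  (Wk L A).filter fun p => p 1 = x

/-- walks with `p (-1) = x` -/
noncomputable def Bx (L : ℕ) [NeZero L] (A : Finset G) (x : G) : Finset (ZMod L → G) :=
  (Wk L A).filter fun p => p (-1) = x

theorem rot_mem {L : ℕ} [NeZero L] {A : Finset G} {p : ZMod L → G} (hp : p ∈ Wk L A)
    (k : ZMod L) : (fun i => (p k)⁻¹ * p (k + i)) ∈ Wk L A := by
  rw [mem_Wk] at hp ⊢
  refine ⟨by simp, ?_, ?_⟩
  · intro i j hij
    have := hp.2.1 (mul_left_cancel hij)
    exact add_left_cancel this
  · intro i
    have h1 := hp.2.2 (k + i)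
    have e : ((p k)⁻¹ * p (k + i))⁻¹ * ((p k)⁻¹ * p (k + (i + 1))) =
        (p (k + i))⁻¹ * p (k + i + 1) := by
      rw [add_assoc]
      group
    rw [e]
    exact h1

theorem rot_inj {L : ℕ} [NeZero L] {A : Finset G} {p p' : ZMod L → G} (hp : p ∈ Wk L A)
    (hp' : p' ∈ Wk L A) (k : ZMod L)
    (h : (fun i => (p k)⁻¹ * p (k + i)) = fun i => (p' k)⁻¹ * p' (k + i)) : p = p' := by
  rw [mem_Wk] at hp hp'
  have h0 : p k = p' k := by
    have := congrFun h (-k)
    simp only [add_neg_cancel, hp.1, hp'.1, mul_one] at this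
    exact inv_injective this
  funext j
  have := congrFun h (j - k)
  simp only [add_sub_cancel] at this
  rw [h0] at this
  exact mul_left_cancel this

theorem rev_mem {L : ℕ} [NeZero L] {A : Finset G} (hA : ∀ x ∈ A, x⁻¹ ∈ A) {p : ZMod L → G}
    (hp : p ∈ Wk L A) : (fun i => p (-i)) ∈ Wk L A := by
  rw [mem_Wk] at hp ⊢
  refine ⟨by simpa using hp.1, ?_, ?_⟩
  · intro i j hij
    exact neg_injective (hp.2.1 hij)
  · intro i
    have h1 := hA _ (hp.2.2 (-i - 1))
    rw [sub_add_cancel, mul_inv_rev, inv_inv] at h1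
    rw [neg_add, ← sub_eq_add_neg]
    exact h1

theorem Fx_le_Bx {L : ℕ} [NeZero L] {A : Finset G} (hA : ∀ x ∈ A, x⁻¹ ∈ A) (x : G) :
    (Fx L A x).card ≤ (Bx L A x).card := by
  refine card_le_card_of_injOn (fun p => fun i => p (-i)) ?_ ?_
  · intro p hp
    rw [mem_coe, Fx, mem_filter] at hp
    rw [mem_coe, Bx, mem_filter]
    refine ⟨rev_mem hA hp.1, ?_⟩
    simpa using hp.2
  · intro p _ p' _ h
    funext i
    have := congrFun h (-i)
    simpa using this

theorem Fx_inv_le_Bx {L : ℕ} [NeZero L] {A : Finset G} (x : G) :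
    (Fx L A x⁻¹).card ≤ (Bx L A x).card := by
  refine card_le_card_of_injOn (fun p => fun i => (p 1)⁻¹ * p (1 + i)) ?_ ?_
  · intro p hp
    rw [mem_coe, Fx, mem_filter] at hp
    rw [mem_coe, Bx, mem_filter]
    refine ⟨rot_mem hp.1 1, ?_⟩
    have h0 := (mem_Wk.1 hp.1).1
    simp only [add_neg_cancel, h0, hp.2]
    group
  · intro p hp p' hp' h
    rw [mem_coe, Fx, mem_filter] at hp hp'
    exact rot_inj hp.1 hp'.1 1 h

theorem step_le {L : ℕ} [NeZero L] {A : Finset G} (x : G) (i : ZMod L) :
    ((Wk L A).filter fun p => (p i)⁻¹ * p (i + 1) = x).card ≤ (Fx L A x).card := by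
  refine card_le_card_of_injOn (fun p => fun j => (p i)⁻¹ * p (i + j)) ?_ ?_
  · intro p hp
    rw [mem_coe, mem_filter] at hp
    rw [mem_coe, Fx, mem_filter]
    exact ⟨rot_mem hp.1 i, hp.2⟩
  · intro p hp p' hp' h
    rw [mem_coe, mem_filter] at hp hp'
    exact rot_inj hp.1 hp'.1 i h

/-- the number of walks that use `x` or its inverse -/
theorem use_le {L : ℕ} [NeZero L] {A : Finset G} (hA : ∀ x ∈ A, x⁻¹ ∈ A) (x : G) :
    (Wk L A).card ≤ (Wk L ((A.erase x).erase x⁻¹)).card + 2 * L * (Bx L A x).card := by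
  classical
  have h1 : Wk L A ⊆ Wk L ((A.erase x).erase x⁻¹) ∪
      (Finset.univ : Finset (ZMod L)).biUnion (fun i =>
        ((Wk L A).filter fun p => (p i)⁻¹ * p (i + 1) = x) ∪
          ((Wk L A).filter fun p => (p i)⁻¹ * p (i + 1) = x⁻¹)) := by
    intro p hp
    rw [mem_union]
    by_cases h : ∀ i, (p i)⁻¹ * p (i + 1) ≠ x ∧ (p i)⁻¹ * p (i + 1) ≠ x⁻¹
    · left
      have hp' := mem_Wk.1 hp
      rw [mem_Wk]
      exact ⟨hp'.1, hp'.2.1, fun i => mem_erase.2 ⟨(h i).2, mem_erase.2 ⟨(h i).1, hp'.2.2 i⟩⟩⟩
    · right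
      push Not at h
      obtain ⟨i, hi⟩ := h
      rw [mem_biUnion]
      refine ⟨i, mem_univ _, ?_⟩
      rw [mem_union, mem_filter, mem_filter]
      by_cases h2 : (p i)⁻¹ * p (i + 1) = x
      · exact Or.inl ⟨hp, h2⟩
      · exact Or.inr ⟨hp, hi h2⟩
  refine (card_le_card h1).trans ((card_union_le _ _).trans (Nat.add_le_add_left ?_ _))
  refine card_biUnion_le.trans ?_
  calc _ ≤ ∑ _i : ZMod L, 2 * (Bx L A x).card := by
        refine sum_le_sum fun i _ => ?_
        refine (card_union_le _ _).trans ?_
        have e1 := (step_le (A := A) x i).trans (Fx_le_Bx hA x)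
        have e2 := (step_le (A := A) x⁻¹ i).trans (Fx_inv_le_Bx (A := A) x)
        omega
    _ = _ := by
        rw [sum_const, card_univ, ZMod.card, smul_eq_mul]
        ring

/-- pruning: a symmetric set of generators each of which is used by many walks -/
theorem prune {L : ℕ} [NeZero L] {D : Finset G} (hD : ∀ x ∈ D, x⁻¹ ∈ D)
    (hW : 0 < (Wk L D).card) :
    ∃ S ⊆ D, S.Nonempty ∧ ∀ s ∈ S,
      ((Wk L D).card : ℝ) ≤ 8 * L * D.card * (Bx L S s).card := by
  classical
  obtain ⟨p0, hp0⟩ := card_pos.1 hW
  have hD0 : 0 < D.card := card_pos.2 ⟨_, (mem_Wk.1 hp0).2.2 0⟩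
  have hD0' : (0 : ℝ) < D.card := by exact_mod_cast hD0
  have hW' : (0 : ℝ) < (Wk L D).card := by exact_mod_cast hW
  set lam : ℝ := (Wk L D).card / (4 * D.card) with hlam
  have hlam0 : 0 < lam := by positivity
  obtain ⟨S, hS, hmax⟩ := exists_max_image (D.powerset.filter fun A => ∀ x ∈ A, x⁻¹ ∈ A)
    (fun A => ((Wk L A).card : ℝ) - lam * A.card)
    ⟨D, mem_filter.2 ⟨mem_powerset_self D, hD⟩⟩
  rw [mem_filter, mem_powerset] at hS
  obtain ⟨hSD, hSi⟩ := hS
  have h1 := hmax D (mem_filter.2 ⟨mem_powerset_self D, hD⟩)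
  have h2 : lam * D.card = (Wk L D).card / 4 := by
    rw [hlam]
    field_simp
  have hSne : 0 < (Wk L S).card := by
    have h3 : (0 : ℝ) < (Wk L S).card := by
      have h4 : (0 : ℝ) ≤ lam * S.card := by positivity
      linarith
    exact_mod_cast h3
  obtain ⟨p1, hp1⟩ := card_pos.1 hSne
  refine ⟨S, hSD, ⟨_, (mem_Wk.1 hp1).2.2 0⟩, fun s hs => ?_⟩
  have h5 := hmax ((S.erase s).erase s⁻¹) (by
    rw [mem_filter, mem_powerset]
    refine ⟨((erase_subset _ _).trans (erase_subset _ _)).trans hSD, fun x hx => ?_⟩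
    rw [mem_erase, mem_erase] at hx ⊢
    refine ⟨fun h => hx.2.1 (inv_injective h), fun h => hx.1 ?_, hSi x hx.2.2⟩
    rw [← h, inv_inv])
  have h6 : (((S.erase s).erase s⁻¹).card : ℝ) + 1 ≤ S.card := by
    have h7 : ((S.erase s).erase s⁻¹).card + 1 ≤ S.card := by
      have h8 := card_erase_of_mem hs
      have h9 := card_erase_le (s := S.erase s) (a := s⁻¹)
      have h10 : 0 < S.card := card_pos.2 ⟨s, hs⟩
      omega
    exact_mod_cast h7
  have h11 : ((Wk L S).card : ℝ) ≤ (Wk L ((S.erase s).erase s⁻¹)).card +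
      2 * L * (Bx L S s).card := by
    exact_mod_cast use_le (L := L) hSi s
  have h12 : lam * (((S.erase s).erase s⁻¹).card + 1) ≤ lam * S.card :=
    mul_le_mul_of_nonneg_left h6 hlam0.le
  have h13 : lam ≤ 2 * L * (Bx L S s).card := by
    have h14 : lam * (((S.erase s).erase s⁻¹).card + 1) =
      lam * ((S.erase s).erase s⁻¹).card + lam := by ring
    linarith
  rw [hlam, div_le_iff₀ (by positivity)] at h13
  calc ((Wk L D).card : ℝ) ≤ 2 * L * (Bx L S s).card * (4 * D.card) := h13
    _ = _ := by ring

/-- the steps of a walk -/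
def steps (f : ℕ → G) (n : ℕ) : List G := (List.range n).map fun i => (f i)⁻¹ * f (i + 1)

theorem steps_prod (f : ℕ → G) (h0 : f 0 = 1) (n : ℕ) : (steps f n).prod = f n := by
  induction n with
  | zero => simp [steps, h0]
  | succ n ih =>
    unfold steps at ih ⊢
    rw [List.range_succ, List.map_append, List.prod_append, ih]
    simp

theorem steps_take (f : ℕ → G) {b n : ℕ} (hb : b ≤ n) : (steps f n).take b = steps f b := by
  unfold steps
  rw [← List.map_take, List.take_range, min_eq_left hb]

/-- the number of walks from `Bx` with a prescribed difference -/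
theorem hit_le {L : ℕ} [NeZero L] {S D : Finset G} (hSD : S ⊆ D) {s : G} {m b b' : ℕ}
    (hm : m + 1 = L) (hb : b < b') (hb' : b' ≤ m) (g : G) :
    ((Bx L S s).filter fun p => (p (b : ZMod L))⁻¹ * p (b' : ZMod L) = g).card ≤
      c3 D b (b' - b) (m - b') g s := by
  unfold c3
  have e1 : b + (b' - b) + (m - b') = m := by omega
  have e2 : b + (b' - b) = b' := by omega
  rw [e1, e2]
  refine card_le_card_of_injOn (fun p => steps (fun n : ℕ => p (n : ZMod L)) m) ?_ ?_
  · intro p hp
    rw [mem_coe, mem_filter, Bx, mem_filter, mem_Wk] at hp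
    obtain ⟨⟨⟨h0, -, h1⟩, h2⟩, h3⟩ := hp
    rw [mem_coe, mem_filter, mem_words]
    have hf0 : (fun n : ℕ => p (n : ZMod L)) 0 = 1 := by simpa using h0
    refine ⟨⟨by simp [steps], fun x hx => ?_⟩, ?_, ?_⟩
    · unfold steps at hx
      rw [List.mem_map] at hx
      obtain ⟨i, -, rfl⟩ := hx
      have := h1 (i : ZMod L)
      push_cast
      exact hSD this
    · rw [steps_prod _ hf0]
      have e3 : (m : ZMod L) = -1 := by
        have e4 : ((m + 1 : ℕ) : ZMod L) = 0 := by rw [hm, ZMod.natCast_self]
        push_cast at e4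
        exact eq_neg_of_add_eq_zero_left e4
      simp only [e3]
      exact h2
    · rw [steps_take _ (by omega), steps_take _ hb', steps_prod _ hf0, steps_prod _ hf0]
      exact h3
  · intro p hp p' hp' h
    rw [mem_coe, mem_filter, Bx, mem_filter, mem_Wk] at hp hp'
    have hf0 : (fun n : ℕ => p (n : ZMod L)) 0 = 1 := by simpa using hp.1.1.1
    have hf0' : (fun n : ℕ => p' (n : ZMod L)) 0 = 1 := by simpa using hp'.1.1.1
    simp only at h
    funext i
    have hi := ZMod.val_lt i
    have h5 : ((steps (fun n : ℕ => p (n : ZMod L)) m).take i.val).prod =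
        ((steps (fun n : ℕ => p' (n : ZMod L)) m).take i.val).prod := by rw [h]
    rw [steps_take _ (by omega), steps_take _ (by omega), steps_prod _ hf0,
      steps_prod _ hf0'] at h5
    simpa using h5

end walks

open Classical in
/-- a coordinate of a random element of a product of finite sets -/
theorem pr_coord {ι κ : Type} [Fintype ι] [DecidableEq ι] (T : ι → Finset κ)
    (hT : ∀ i, (T i).Nonempty) (s : ι) (φ : κ → Prop) :
    pr (fun u : {u // u ∈ Fintype.piFinset T} => φ (u.1 s)) =
      ((T s).filter φ).card / (T s).card := by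
  unfold pr av
  have h1 : (∑ u : {u // u ∈ Fintype.piFinset T}, if φ (u.1 s) then (1 : ℝ) else 0) =
      (((Fintype.piFinset T).filter fun u => φ (u s)).card : ℝ) := by
    rw [card_filter]
    push_cast
    exact Finset.sum_coe_sort (Fintype.piFinset T) (fun u => if φ (u s) then (1 : ℝ) else 0)
  have h2 : (Fintype.piFinset T).filter (fun u => φ (u s)) =
      Fintype.piFinset (Function.update T s ((T s).filter φ)) := by
    ext u
    rw [mem_filter, Fintype.mem_piFinset, Fintype.mem_piFinset]
    constructor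
    · rintro ⟨h, hs⟩ i
      by_cases hi : i = s
      · subst hi
        rw [Function.update_self, mem_filter]
        exact ⟨h i, hs⟩
      · rw [Function.update_of_ne hi]
        exact h i
    · intro h
      have hs := h s
      rw [Function.update_self, mem_filter] at hs
      refine ⟨fun i => ?_, hs.2⟩
      by_cases hi : i = s
      · subst hi
        exact hs.1
      · have := h i
        rwa [Function.update_of_ne hi] at this
  have h3 : ∀ T' : ι → Finset κ, (Fintype.piFinset T').card =
      (T' s).card * ∏ i ∈ Finset.univ.erase s, (T' i).card := by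
    intro T'
    rw [Fintype.card_piFinset]
    exact (Finset.mul_prod_erase Finset.univ (fun i => (T' i).card) (mem_univ s)).symm
  have h4 : Fintype.card {u // u ∈ Fintype.piFinset T} = (Fintype.piFinset T).card :=
    Fintype.card_coe _
  beta_reduce
  rw [h1, h2, h4, h3, h3, Function.update_self]
  have h5 : ∏ i ∈ Finset.univ.erase s, (Function.update T s ((T s).filter φ) i).card =
      ∏ i ∈ Finset.univ.erase s, (T i).card := by
    refine prod_congr rfl fun i hi => ?_
    rw [Function.update_of_ne (mem_erase.1 hi).1]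
  rw [h5]
  have h6 : (0 : ℝ) < ((∏ i ∈ Finset.univ.erase s, (T i).card : ℕ) : ℝ) := by
    have : 0 < ∏ i ∈ Finset.univ.erase s, (T i).card := prod_pos fun i _ => card_pos.2 (hT i)
    exact_mod_cast this
  push_cast at h6 ⊢
  rw [mul_div_mul_right _ _ h6.ne']

end Pool.Agent.N533.NS
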